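import Mathlib

/-!
# Row LD: a smooth convex cut-off of the line

Let ρ be a smooth bump, ρ >= 0, ρ = 0 outside (0,3), ρ = 1 on [1,2] (`ContDiffBump` centered at 3/2 with radii 1/2, 3/2), I = ∫ ρ > 0.
Φ'(t) = (∫_0^t ρ)/I, Φ(t) = ∫_0^t Φ'.  Then Φ = 0 for t <= 0, 0 <= Φ' <= 1, Φ'' = ρ/I >= 0, Φ'' >= 1/I on [1,2], Φ' = 1 for t >= 3, and for t >= 0
0 <= t - Φ(t) = ∫_0^t (1 - Φ') <= 3.
-/

open scoped ContDiff

namespace FC76

/-- the bump -/
noncomputable def LD_b : ContDiffBump (3 / 2 : ℝ) where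
  rIn := 1 / 2
  rOut := 3 / 2
  rIn_pos := by norm_num
  rIn_lt_rOut := by norm_num

theorem LD_zero {x : ℝ} (hx : x ≤ 0 ∨ 3 ≤ x) : LD_b x = 0 := by
  apply LD_b.zero_of_le_dist
  change (3 / 2 : ℝ) ≤ dist x (3 / 2)
  rw [Real.dist_eq]
  rcases hx with h | h
  · rw [abs_of_neg (by linarith)]
    linarith
  · rw [abs_of_nonneg (by linarith)]
    linarith

theorem LD_one {x : ℝ} (h1 : 1 ≤ x) (h2 : x ≤ 2) : LD_b x = 1 := by
  apply LD_b.one_of_mem_closedBall
  rw [Metric.mem_closedBall, Real.dist_eq]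
  change |x - 3 / 2| ≤ 1 / 2
  rw [abs_le]
  constructor <;> linarith

theorem LD_cont : Continuous (fun x : ℝ => LD_b x) := LD_b.continuous

/-- the mass -/
noncomputable def LD_I : ℝ := ∫ x in (0 : ℝ)..3, LD_b x

theorem LD_pos : 0 < LD_I := by
  have h1 : ∫ x in (0 : ℝ)..3, LD_b x = (∫ x in (0 : ℝ)..1, LD_b x) + ∫ x in (1 : ℝ)..3, LD_b x :=
    (intervalIntegral.integral_add_adjacent_intervals (LD_cont.intervalIntegrable _ _)
      (LD_cont.intervalIntegrable _ _)).symm
  have h2 : ∫ x in (1 : ℝ)..3, LD_b x = (∫ x in (1 : ℝ)..2, LD_b x) + ∫ x in (2 : ℝ)..3, LD_b x :=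
    (intervalIntegral.integral_add_adjacent_intervals (LD_cont.intervalIntegrable _ _)
      (LD_cont.intervalIntegrable _ _)).symm
  have h3 : ∫ x in (1 : ℝ)..2, LD_b x = 1 := by
    rw [intervalIntegral.integral_congr (g := fun _ => (1 : ℝ))]
    · simp
      norm_num
    · intro x hx
      rw [Set.uIcc_of_le (by norm_num)] at hx
      exact LD_one hx.1 hx.2
  have h4 : 0 ≤ ∫ x in (0 : ℝ)..1, LD_b x :=
    intervalIntegral.integral_nonneg (by norm_num) fun x _ => LD_b.nonneg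
  have h5 : 0 ≤ ∫ x in (2 : ℝ)..3, LD_b x :=
    intervalIntegral.integral_nonneg (by norm_num) fun x _ => LD_b.nonneg
  unfold LD_I
  rw [h1, h2, h3]
  linarith

/-- the derivative of the cut-off -/
noncomputable def LD_g (t : ℝ) : ℝ := (∫ x in (0 : ℝ)..t, LD_b x) / LD_I

theorem LD_gder (t : ℝ) : HasDerivAt LD_g (LD_b t / LD_I) t := by
  unfold LD_g
  exact (LD_cont.integral_hasStrictDerivAt 0 t).hasDerivAt.div_const _

theorem LD_gcont : Continuous LD_g :=
  continuous_iff_continuousAt.2 fun t => (LD_gder t).continuousAt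

theorem LD_g_mono : Monotone LD_g :=
  monotone_of_deriv_nonneg (fun t => (LD_gder t).differentiableAt) fun t => by
    rw [(LD_gder t).deriv]
    exact div_nonneg LD_b.nonneg LD_pos.le

theorem LD_g_zero {t : ℝ} (ht : t ≤ 0) : LD_g t = 0 := by
  unfold LD_g
  rw [intervalIntegral.integral_congr (g := fun _ => (0 : ℝ))]
  · simp
  · intro x hx
    rw [Set.uIcc_of_ge ht] at hx
    exact LD_zero (Or.inl hx.2)

theorem LD_g_one {t : ℝ} (ht : 3 ≤ t) : LD_g t = 1 := by
  unfold LD_g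
  rw [← intervalIntegral.integral_add_adjacent_intervals (b := 3) (LD_cont.intervalIntegrable _ _)
    (LD_cont.intervalIntegrable _ _)]
  have : ∫ x in (3 : ℝ)..t, LD_b x = 0 := by
    rw [intervalIntegral.integral_congr (g := fun _ => (0 : ℝ))]
    · simp
    · intro x hx
      rw [Set.uIcc_of_le ht] at hx
      exact LD_zero (Or.inr hx.1)
  rw [this, add_zero]
  exact div_self LD_pos.ne'

theorem LD_g_nonneg (t : ℝ) : 0 ≤ LD_g t := by
  rcases le_total t 0 with h | h
  · rw [LD_g_zero h]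
  · rw [← LD_g_zero le_rfl]
    exact LD_g_mono h

theorem LD_g_le (t : ℝ) : LD_g t ≤ 1 := by
  rcases le_total 3 t with h | h
  · rw [LD_g_one h]
  · rw [← LD_g_one le_rfl]
    exact LD_g_mono h

theorem LD_g_smooth : ContDiff ℝ ∞ LD_g := by
  rw [contDiff_infty_iff_deriv]
  refine ⟨fun t => (LD_gder t).differentiableAt, ?_⟩
  have : deriv LD_g = fun t => LD_b t / LD_I := funext fun t => (LD_gder t).deriv
  rw [this]
  exact LD_b.contDiff.div_const _

/-- the cut-off -/
noncomputable def LD_F (t : ℝ) : ℝ := ∫ x in (0 : ℝ)..t, LD_g x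

theorem LD_Fder (t : ℝ) : HasDerivAt LD_F (LD_g t) t :=
  (LD_gcont.integral_hasStrictDerivAt 0 t).hasDerivAt

theorem LD_Fd : deriv LD_F = LD_g := funext fun t => (LD_Fder t).deriv

theorem exists_convexCutoff : ∃ Φ : ℝ → ℝ, ContDiff ℝ ∞ Φ ∧ (∀ t ≤ 0, Φ t = 0) ∧
    (∀ t, 0 ≤ deriv Φ t ∧ deriv Φ t ≤ 1) ∧ (∀ t, 0 ≤ deriv (deriv Φ) t) ∧
    (∃ c > 0, ∀ t ∈ Set.Icc (1 : ℝ) 2, c ≤ deriv (deriv Φ) t) ∧ (∀ t, 3 ≤ t → deriv Φ t = 1) ∧
    (∀ t, 0 ≤ t → |Φ t - t| ≤ 3) := by
  refine ⟨LD_F, ?_, ?_, ?_, ?_, ⟨1 / LD_I, div_pos one_pos LD_pos, ?_⟩, ?_, ?_⟩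
  · rw [contDiff_infty_iff_deriv]
    refine ⟨fun t => (LD_Fder t).differentiableAt, ?_⟩
    rw [LD_Fd]
    exact LD_g_smooth
  · intro t ht
    unfold LD_F
    rw [intervalIntegral.integral_congr (g := fun _ => (0 : ℝ))]
    · simp
    · intro x hx
      rw [Set.uIcc_of_ge ht] at hx
      exact LD_g_zero hx.2
  · intro t
    rw [LD_Fd]
    exact ⟨LD_g_nonneg t, LD_g_le t⟩
  · intro t
    rw [LD_Fd, (LD_gder t).deriv]
    exact div_nonneg LD_b.nonneg LD_pos.le
  · intro t ht
    rw [LD_Fd, (LD_gder t).deriv, LD_one ht.1 ht.2]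
  · intro t ht
    rw [LD_Fd]
    exact LD_g_one ht
  · intro t ht
    have h0 : LD_F 0 = 0 := intervalIntegral.integral_same
    have hd : ∀ s, HasDerivAt (fun s => s - LD_F s) (1 - LD_g s) s := fun s =>
      (hasDerivAt_id s).sub (LD_Fder s)
    have hm : Monotone fun s => s - LD_F s :=
      monotone_of_deriv_nonneg (fun s => (hd s).differentiableAt) fun s => by
        rw [(hd s).deriv]
        linarith [LD_g_le s]
    have hm' : Monotone LD_F :=
      monotone_of_deriv_nonneg (fun s => (LD_Fder s).differentiableAt) fun s => by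
        rw [(LD_Fder s).deriv]
        exact LD_g_nonneg s
    have h1 : 0 ≤ t - LD_F t := by
      have := hm ht
      simp only [h0] at this
      linarith
    have h2 : t - LD_F t ≤ 3 := by
      rcases le_total t 3 with h | h
      · have := hm' ht
        rw [h0] at this
        linarith
      · have h3 : LD_F t = LD_F 3 + (t - 3) := by
          unfold LD_F
          rw [← intervalIntegral.integral_add_adjacent_intervals (b := 3)
            (LD_gcont.intervalIntegrable _ _) (LD_gcont.intervalIntegrable _ _)]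
          congr 1
          rw [intervalIntegral.integral_congr (g := fun _ => (1 : ℝ))]
          · simp
          · intro x hx
            rw [Set.uIcc_of_le h] at hx
            exact LD_g_one hx.1
        have h4 := hm' (show (0 : ℝ) ≤ 3 by norm_num)
        rw [h0] at h4
        linarith
    rw [abs_le]
    constructor <;> linarith

end FC76
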