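import Pool.Agent.H76.FL.Defs

/-!
# Row LA: evaluation of polynomials, basic calculus

All clear: ev f p = eval ![p.1, p.2] f.
* `ev_bl`, `ev_sw`: `MvPolynomial.aeval`/`eval` composition (induction on f or `eval₂_comp`, `MvPolynomial.induction_on`).
* `analyticAt_ev`: polynomials are analytic (induction on f: constants, coordinates, sums, products); `contDiff_ev` likewise.
* `fderiv_ev`: derivative by induction on f (`MvPolynomial.induction_on`: C a, sum, product with X i) using `pderiv` rules.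
* `fderiv_ev_vf` from it.
* `fderiv_real_ev`: the real derivative is the restriction of scalars of the complex derivative.
-/

open MvPolynomial MeasureTheory
open scoped ContDiff

namespace FC76

theorem ev_add (f g : P2) (p : ℂ × ℂ) : ev (f + g) p = ev f p + ev g p := by
  simp [ev]

theorem ev_sub (f g : P2) (p : ℂ × ℂ) : ev (f - g) p = ev f p - ev g p := by
  simp [ev]

theorem ev_mul (f g : P2) (p : ℂ × ℂ) : ev (f * g) p = ev f p * ev g p := by
  simp [ev]

theorem ev_pow (f : P2) (n : ℕ) (p : ℂ × ℂ) : ev (f ^ n) p = ev f p ^ n := by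
  simp [ev]

theorem ev_C (c : ℂ) (p : ℂ × ℂ) : ev (C c) p = c := by
  simp [ev]

theorem ev_X0 (p : ℂ × ℂ) : ev (X 0) p = p.1 := by
  simp [ev]

theorem ev_X1 (p : ℂ × ℂ) : ev (X 1) p = p.2 := by
  simp [ev]

theorem ev_zero (f : P2) : ev f 0 = eval 0 f := by
  have h : (![(0 : ℂ × ℂ).1, (0 : ℂ × ℂ).2] : Fin 2 → ℂ) = 0 := by
    ext i
    fin_cases i <;> simp
  unfold ev
  rw [h]

theorem ev_bl (c : ℂ) (f : P2) (p : ℂ × ℂ) : ev (bl c f) p = ev f (p.1, p.1 * (p.2 + c)) := by
  induction f using MvPolynomial.induction_on with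
  | C a =>
    have h : bl c (C a) = C a := by
      rw [← MvPolynomial.algebraMap_eq]
      exact AlgHom.commutes _ _
    rw [h, ev_C, ev_C]
  | add f g hf hg => rw [map_add, ev_add, ev_add, hf, hg]
  | mul_X f i hf =>
    rw [map_mul, ev_mul, ev_mul, hf]
    congr 1
    fin_cases i
    · simp [bl, ev]
    · simp [bl, ev]

theorem ev_sw (f : P2) (p : ℂ × ℂ) : ev (sw f) p = ev f (p.2, p.1) := by
  induction f using MvPolynomial.induction_on with
  | C a =>
    have h : sw (C a) = C a := by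
      rw [← MvPolynomial.algebraMap_eq]
      exact AlgHom.commutes _ _
    rw [h, ev_C, ev_C]
  | add f g hf hg => rw [map_add, ev_add, ev_add, hf, hg]
  | mul_X f i hf =>
    rw [map_mul, ev_mul, ev_mul, hf]
    congr 1
    fin_cases i
    · simp [sw, ev]
    · simp [sw, ev]

theorem LA_ev_C_fun (a : ℂ) : ev (C a) = fun _ => a := by
  ext p
  exact ev_C a p

theorem LA_ev_add_fun (f g : P2) : ev (f + g) = fun p => ev f p + ev g p := by
  ext p
  exact ev_add f g p

theorem LA_ev_mul_fun (f g : P2) : ev (f * g) = fun p => ev f p * ev g p := by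
  ext p
  exact ev_mul f g p

theorem LA_ev_X0_fun : ev (X 0) = fun p => p.1 := by
  ext p
  exact ev_X0 p

theorem LA_ev_X1_fun : ev (X 1) = fun p => p.2 := by
  ext p
  exact ev_X1 p

theorem analyticAt_ev (f : P2) (p : ℂ × ℂ) : AnalyticAt ℂ (ev f) p := by
  induction f using MvPolynomial.induction_on with
  | C a =>
    rw [LA_ev_C_fun]
    exact analyticAt_const
  | add f g hf hg =>
    rw [LA_ev_add_fun]
    exact hf.add hg
  | mul_X f i hf =>
    rw [LA_ev_mul_fun]
    refine hf.mul ?_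
    fin_cases i
    · show AnalyticAt ℂ (ev (X 0)) p
      rw [LA_ev_X0_fun]
      exact analyticAt_fst
    · show AnalyticAt ℂ (ev (X 1)) p
      rw [LA_ev_X1_fun]
      exact analyticAt_snd

theorem contDiff_ev (f : P2) : ContDiff ℂ ∞ (ev f) := by
  induction f using MvPolynomial.induction_on with
  | C a =>
    rw [LA_ev_C_fun]
    exact contDiff_const
  | add f g hf hg =>
    rw [LA_ev_add_fun]
    exact hf.add hg
  | mul_X f i hf =>
    rw [LA_ev_mul_fun]
    refine hf.mul ?_
    fin_cases i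
    · show ContDiff ℂ ∞ (ev (X 0))
      rw [LA_ev_X0_fun]
      exact contDiff_fst
    · show ContDiff ℂ ∞ (ev (X 1))
      rw [LA_ev_X1_fun]
      exact contDiff_snd

theorem contDiff_real_ev (f : P2) : ContDiff ℝ ∞ (ev f) :=
  (contDiff_ev f).restrict_scalars ℝ

theorem LA_hasFDerivAt (f : P2) (p : ℂ × ℂ) :
    HasFDerivAt (ev f) (ev (pderiv 0 f) p • ContinuousLinearMap.fst ℂ ℂ ℂ +
      ev (pderiv 1 f) p • ContinuousLinearMap.snd ℂ ℂ ℂ) p := by
  induction f using MvPolynomial.induction_on with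
  | C a =>
    rw [LA_ev_C_fun]
    have h0 : ev (pderiv 0 (C a : P2)) p = 0 := by
      rw [pderiv_C]
      simp [ev]
    have h1 : ev (pderiv 1 (C a : P2)) p = 0 := by
      rw [pderiv_C]
      simp [ev]
    rw [h0, h1]
    refine (hasFDerivAt_const a p).congr_fderiv ?_
    ext <;> simp
  | add f g hf hg =>
    rw [LA_ev_add_fun, map_add, map_add, ev_add, ev_add]
    refine (hf.add hg).congr_fderiv ?_
    ext <;> simp
  | mul_X f i hf =>
    rw [LA_ev_mul_fun]
    fin_cases i
    · have hX : HasFDerivAt (ev (X 0)) (ContinuousLinearMap.fst ℂ ℂ ℂ) p := by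
        rw [LA_ev_X0_fun]
        exact hasFDerivAt_fst
      refine (hf.mul hX).congr_fderiv ?_
      ext <;> simp [ev, pderiv_X, smul_eq_mul]
    · have hX : HasFDerivAt (ev (X 1)) (ContinuousLinearMap.snd ℂ ℂ ℂ) p := by
        rw [LA_ev_X1_fun]
        exact hasFDerivAt_snd
      refine (hf.mul hX).congr_fderiv ?_
      ext <;> simp [ev, pderiv_X, smul_eq_mul]

theorem fderiv_ev (f : P2) (p v : ℂ × ℂ) :
    fderiv ℂ (ev f) p v = ev (pderiv 0 f) p * v.1 + ev (pderiv 1 f) p * v.2 := by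
  rw [(LA_hasFDerivAt f p).fderiv]
  simp

theorem fderiv_real_ev (f : P2) (p v : ℂ × ℂ) : fderiv ℝ (ev f) p v = fderiv ℂ (ev f) p v := by
  rw [((LA_hasFDerivAt f p).restrictScalars ℝ).fderiv, (LA_hasFDerivAt f p).fderiv]
  rfl

theorem fderiv_ev_vf (A B f : P2) (p : ℂ × ℂ) : fderiv ℂ (ev f) p (vf A B p) = ev (Zp A B f) p := by
  rw [fderiv_ev]
  unfold Zp vf
  rw [ev_add, ev_mul, ev_mul]
  ring

theorem contDiff_vf (A B : P2) : ContDiff ℝ ∞ (vf A B) :=
  (contDiff_real_ev A).prodMk (contDiff_real_ev B)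

theorem nsq_nonneg (v : ℂ × ℂ) : 0 ≤ nsq v := by
  unfold nsq
  positivity

theorem norm_sq_le_nsq (v : ℂ × ℂ) : ‖v‖ ^ 2 ≤ nsq v ∧ nsq v ≤ 2 * ‖v‖ ^ 2 := by
  unfold nsq
  rw [Prod.norm_def]
  have h1 := norm_nonneg v.1
  have h2 := norm_nonneg v.2
  rcases le_total ‖v.1‖ ‖v.2‖ with h | h
  · rw [max_eq_right h]
    constructor <;> nlinarith
  · rw [max_eq_left h]
    constructor <;> nlinarith

end FC76
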