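import Pool.Agent.H76.FC.Defs

/-!
# MP_6873ef_an, block L (local theory of invariant measures of planar polynomial vector fields): definitions

Z = (A, B) is a polynomial vector field on C x C.  The measure M is T ∧ i ds ∧ dsbar, where T is a closed positive current
directed by Z and ds(Z) = 1; T is closed iff the integral of Z g over M vanishes for all test functions g.
-/

open MvPolynomial MeasureTheory
open scoped ContDiff

namespace FC76

/-- evaluation of a polynomial at a point of C x C -/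
noncomputable def ev (f : P2) (p : ℂ × ℂ) : ℂ := eval ![p.1, p.2] f

/-- the vector field Z = (A, B) at the point p -/
noncomputable def vf (A B : P2) (p : ℂ × ℂ) : ℂ × ℂ := (ev A p, ev B p)

/-- derivation of polynomials along Z -/
noncomputable def Zp (A B f : P2) : P2 := A * pderiv 0 f + B * pderiv 1 f

/-- divergence of Z -/
noncomputable def divp (A B : P2) : P2 := pderiv 0 A + pderiv 1 B

/-- the (1,0)-derivative of a complex valued function in the complex direction v -/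
noncomputable def dW (g : ℂ × ℂ → ℂ) (p v : ℂ × ℂ) : ℂ :=
  (fderiv ℝ g p v - Complex.I * fderiv ℝ g p (Complex.I • v)) / 2

/-- the (0,1)-derivative of a complex valued function in the complex direction v -/
noncomputable def dWb (g : ℂ × ℂ → ℂ) (p v : ℂ × ℂ) : ℂ :=
  (fderiv ℝ g p v + Complex.I * fderiv ℝ g p (Complex.I • v)) / 2

/-- four times the complex Hessian of the real function G in direction v -/
noncomputable def lev (G : ℂ × ℂ → ℝ) (p v : ℂ × ℂ) : ℝ :=
  fderiv ℝ (fderiv ℝ G) p v v + fderiv ℝ (fderiv ℝ G) p (Complex.I • v) (Complex.I • v)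

/-- the squared Euclidean norm -/
noncomputable def nsq (v : ℂ × ℂ) : ℝ := ‖v.1‖ ^ 2 + ‖v.2‖ ^ 2

/-- the domain: the polydisc of radius ρ minus the origin and the curve h = 0 -/
def dom (h : P2) (ρ : ℝ) : Set (ℂ × ℂ) := {p | p ∈ Metric.ball (0 : ℂ × ℂ) ρ ∧ ev h p ≠ 0 ∧ p ≠ 0}

/-- the punctured disc -/
def pdisc (R : ℝ) : Set ℂ := {t | 0 < ‖t‖ ∧ ‖t‖ < R}

/-- M is a Z-invariant measure on the polydisc of radius ρ minus {h = 0} and the origin -/
structure Inv0 (A B h : P2) (ρ : ℝ) (M : Measure (ℂ × ℂ)) : Prop where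
  carried : M (dom h ρ)ᶜ = 0
  locfin : ∀ K : Set (ℂ × ℂ), IsCompact K → K ⊆ dom h ρ → M K < ⊤
  fin : ∫⁻ p, ENNReal.ofReal (nsq (vf A B p)) ∂M < ⊤
  inv : ∀ g : ℂ × ℂ → ℂ, ContDiff ℝ ∞ g → HasCompactSupport g → tsupport g ⊆ dom h ρ →
    ∫ p, dW g p (vf A B p) ∂M = 0
  log : ∃ C : ℝ, ∀ r : ℝ, 0 < r → r < 1 →
    ∫⁻ p in {p | r < ‖ev h p‖}, ENNReal.ofReal (‖ev (Zp A B h) p‖ ^ 2 / ‖ev h p‖ ^ 2) ∂M ≤
      ENNReal.ofReal (C * (1 + Real.log (1 / r)))

/-- the full list of hypotheses: in addition the dd^c equation holds across the curve h = 0, and holomorphic punctured discs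
have measure zero -/
structure Inv (A B h : P2) (ρ : ℝ) (M : Measure (ℂ × ℂ)) : Prop extends Inv0 A B h ρ M where
  dd : ∀ G : ℂ × ℂ → ℝ, ContDiff ℝ ∞ G → HasCompactSupport G → tsupport G ⊆ Metric.ball 0 ρ →
    ∫ p, lev G p (vf A B p) ∂M = 0
  dif : ∀ (γ : ℂ → ℂ × ℂ) (R : ℝ), 0 < R → DifferentiableOn ℂ γ (pdisc R) → M (γ '' pdisc R) = 0

/-- logarithmic growth of the energy of the divergence -/
def EBound (A B h : P2) (M : Measure (ℂ × ℂ)) : Prop :=
  ∃ ρ' : ℝ, 0 < ρ' ∧ ∃ C : ℝ, ∀ r : ℝ, 0 < r → r < 1 →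
    ∫⁻ p in {p | p ∈ Metric.ball (0 : ℂ × ℂ) ρ' ∧ r < ‖ev h p‖ ∧ r < ‖p‖},
      ENNReal.ofReal (‖ev (divp A B) p‖ ^ 2) ∂M ≤ ENNReal.ofReal (C * (1 + Real.log (1 / r)))

/-- the (0,1)-derivative in one complex variable -/
noncomputable def dbar (χ : ℂ → ℂ) (x : ℂ) : ℂ := (fderiv ℝ χ x 1 + Complex.I * fderiv ℝ χ x Complex.I) / 2

/-- the germ of Z at the origin is good -/
def Good (A B : P2) : Prop :=
  ∀ (h : P2) (ρ : ℝ) (M : Measure (ℂ × ℂ)), 0 < ρ → Inv A B h ρ M → EBound A B h M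

/-- the germ of Z at the origin, with exceptional line x = 0, is good -/
def GoodE (A B : P2) : Prop :=
  ∀ (h : P2) (ρ : ℝ) (M : Measure (ℂ × ℂ)), 0 < ρ → X 0 ∣ h → Inv A B h ρ M → EBound A B h M

end FC76
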