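import Pool.Agent.H76.FL.LA

/-!
# Row LB: calculus of the (1,0) and (0,1) derivatives

Definitions: dW g p v = (Dg(v) - i Dg(iv))/2, dWb g p v = (Dg(v) + i Dg(iv))/2, D the real Frechet derivative.
* products: Leibniz rule of fderiv (`fderiv_mul`), linear combination.
* `dW_holo`: for F complex differentiable, the real derivative is complex linear: Dg(iv) = i Dg(v), so dW = DF(v), dWb = 0.
* `dW_conj`: D(conj g)(v) = conj (Dg v); conj of (Dg v + i Dg(iv))/2 is (conj Dg v - i conj Dg(iv))/2.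
* `dW_real`: for real valued u: formula, and norm squared ‖dW u‖^2 = ((Du v)^2 + (Du iv)^2)/4.
* `dW_comp`: chain rule for Φ(u), Φ real.
* `dW_re`: for u = Re F, F holomorphic: Du(v) = Re DF(v), Du(iv) = Re(i DF(v)) = - Im DF(v), so dW u = DF(v)/2.
* `dW_log_norm`: u = log ‖F‖, F(p) ≠ 0: locally u = Re log F (or u = (1/2) log(F conj F)): dW u = DF(v)/(2 F(p)).
* `dW_fst`: for χ : ℂ → ℂ real differentiable at p.1: dWb (χ ∘ fst) p v = dbar χ p.1 * conj v.1.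
-/

open MvPolynomial MeasureTheory
open scoped ContDiff ComplexConjugate

namespace FC76

theorem LB_lin (L : ℂ × ℂ →L[ℝ] ℂ) (v : ℂ × ℂ) (z : ℂ) :
    L (z • v) = (z.re : ℂ) * L v + (z.im : ℂ) * L (Complex.I • v) := by
  have h : z • v = z.re • v + z.im • (Complex.I • v) := by
    apply Prod.ext
    · show z * v.1 = z.re • v.1 + z.im • (Complex.I * v.1)
      rw [Complex.real_smul, Complex.real_smul]
      conv_lhs => rw [← Complex.re_add_im z]
      ring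
    · show z * v.2 = z.re • v.2 + z.im • (Complex.I * v.2)
      rw [Complex.real_smul, Complex.real_smul]
      conv_lhs => rw [← Complex.re_add_im z]
      ring
  rw [h, map_add, map_smul, map_smul, Complex.real_smul, Complex.real_smul]

theorem LB_II (v : ℂ × ℂ) : Complex.I • (Complex.I • v) = -v := by
  rw [smul_smul, Complex.I_mul_I, neg_one_smul]

theorem LB_holo {F : ℂ × ℂ → ℂ} {p : ℂ × ℂ} (hF : DifferentiableAt ℂ F p) (v : ℂ × ℂ) :
    fderiv ℝ F p v = fderiv ℂ F p v := by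
  rw [hF.fderiv_restrictScalars ℝ]
  rfl

theorem LB_real {u : ℂ × ℂ → ℝ} {p : ℂ × ℂ} (hu : DifferentiableAt ℝ u p) (v : ℂ × ℂ) :
    fderiv ℝ (fun q => (u q : ℂ)) p v = ((fderiv ℝ u p v : ℝ) : ℂ) := by
  have h := (Complex.ofRealCLM.hasFDerivAt.comp p hu.hasFDerivAt).fderiv
  have h2 : (fun q => (u q : ℂ)) = Complex.ofRealCLM ∘ u := rfl
  rw [h2, h]
  rfl

theorem dW_mul {f g : ℂ × ℂ → ℂ} {p : ℂ × ℂ} (hf : DifferentiableAt ℝ f p) (hg : DifferentiableAt ℝ g p)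
    (v : ℂ × ℂ) : dW (fun q => f q * g q) p v = f p * dW g p v + g p * dW f p v := by
  have h := (hf.hasFDerivAt.mul hg.hasFDerivAt).fderiv
  have h1 : ∀ w, fderiv ℝ (fun q => f q * g q) p w = f p * fderiv ℝ g p w + g p * fderiv ℝ f p w := by
    intro w
    have h2 := congrArg (fun L : ℂ × ℂ →L[ℝ] ℂ => L w) h
    exact h2
  unfold dW
  rw [h1, h1]
  ring

theorem dWb_mul {f g : ℂ × ℂ → ℂ} {p : ℂ × ℂ} (hf : DifferentiableAt ℝ f p) (hg : DifferentiableAt ℝ g p)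
    (v : ℂ × ℂ) : dWb (fun q => f q * g q) p v = f p * dWb g p v + g p * dWb f p v := by
  have h := (hf.hasFDerivAt.mul hg.hasFDerivAt).fderiv
  have h1 : ∀ w, fderiv ℝ (fun q => f q * g q) p w = f p * fderiv ℝ g p w + g p * fderiv ℝ f p w := by
    intro w
    have h2 := congrArg (fun L : ℂ × ℂ →L[ℝ] ℂ => L w) h
    exact h2
  unfold dWb
  rw [h1, h1]
  ring

theorem dW_holo {F : ℂ × ℂ → ℂ} {p : ℂ × ℂ} (hF : DifferentiableAt ℂ F p) (v : ℂ × ℂ) :
    dW F p v = fderiv ℂ F p v ∧ dWb F p v = 0 := by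
  unfold dW dWb
  rw [LB_holo hF, LB_holo hF, map_smul, smul_eq_mul]
  constructor
  · linear_combination (-(fderiv ℂ F p v) / 2) * Complex.I_mul_I
  · linear_combination ((fderiv ℂ F p v) / 2) * Complex.I_mul_I

theorem dW_conj (g : ℂ × ℂ → ℂ) (p v : ℂ × ℂ) :
    dW (fun q => conj (g q)) p v = conj (dWb g p v) ∧ dWb (fun q => conj (g q)) p v = conj (dW g p v) := by
  have h1 : ∀ w, fderiv ℝ (fun q => conj (g q)) p w = conj (fderiv ℝ g p w) := by
    intro w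
    have h2 : (fun q => conj (g q)) = Complex.conjCLE ∘ g := rfl
    rw [h2, Complex.conjCLE.comp_fderiv]
    rfl
  unfold dW dWb
  rw [h1, h1]
  constructor
  · rw [map_div₀, map_add, map_mul, Complex.conj_I, map_ofNat]
    ring
  · rw [map_div₀, map_sub, map_mul, Complex.conj_I, map_ofNat]
    ring

theorem dW_real {u : ℂ × ℂ → ℝ} {p : ℂ × ℂ} (hu : DifferentiableAt ℝ u p) (v : ℂ × ℂ) :
    dW (fun q => (u q : ℂ)) p v = ((fderiv ℝ u p v : ℂ) - Complex.I * (fderiv ℝ u p (Complex.I • v) : ℂ)) / 2 ∧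
    dWb (fun q => (u q : ℂ)) p v = conj (dW (fun q => (u q : ℂ)) p v) ∧
    ‖dW (fun q => (u q : ℂ)) p v‖ ^ 2 = ((fderiv ℝ u p v) ^ 2 + (fderiv ℝ u p (Complex.I • v)) ^ 2) / 4 := by
  have h1 : dW (fun q => (u q : ℂ)) p v =
      ((fderiv ℝ u p v : ℂ) - Complex.I * (fderiv ℝ u p (Complex.I • v) : ℂ)) / 2 := by
    unfold dW
    rw [LB_real hu, LB_real hu]
  refine ⟨h1, ?_, ?_⟩
  · rw [h1]
    unfold dWb
    rw [LB_real hu, LB_real hu, map_div₀, map_sub, map_mul, Complex.conj_I, map_ofNat,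
      Complex.conj_ofReal, Complex.conj_ofReal]
    ring
  · rw [h1]
    have h2 : ((fderiv ℝ u p v : ℂ) - Complex.I * (fderiv ℝ u p (Complex.I • v) : ℂ)) / 2 =
        (⟨fderiv ℝ u p v / 2, -(fderiv ℝ u p (Complex.I • v)) / 2⟩ : ℂ) := by
      apply Complex.ext
      · simp
      · simp
    rw [h2, Complex.sq_norm, Complex.normSq_mk]
    ring

theorem dW_comp {Φ : ℝ → ℝ} {u : ℂ × ℂ → ℝ} {p : ℂ × ℂ} (hΦ : DifferentiableAt ℝ Φ (u p))
    (hu : DifferentiableAt ℝ u p) (v : ℂ × ℂ) :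
    dW (fun q => ((Φ (u q) : ℝ) : ℂ)) p v = ((deriv Φ (u p) : ℝ) : ℂ) * dW (fun q => (u q : ℂ)) p v := by
  have h1 := hΦ.hasDerivAt.comp_hasFDerivAt p hu.hasFDerivAt
  have h2 : ∀ w, fderiv ℝ (fun q => Φ (u q)) p w = deriv Φ (u p) * fderiv ℝ u p w := by
    intro w
    have h3 := congrArg (fun L : ℂ × ℂ →L[ℝ] ℝ => L w) h1.fderiv
    exact h3
  rw [(dW_real (u := fun q => Φ (u q)) h1.differentiableAt v).1, (dW_real hu v).1, h2, h2]
  push_cast
  ring

theorem dW_re {F : ℂ × ℂ → ℂ} {p : ℂ × ℂ} (hF : DifferentiableAt ℂ F p) (v : ℂ × ℂ) :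
    dW (fun q => (((F q).re : ℝ) : ℂ)) p v = fderiv ℂ F p v / 2 := by
  have h1 := Complex.reCLM.hasFDerivAt.comp p (hF.hasFDerivAt.restrictScalars ℝ)
  have h2 : ∀ w, fderiv ℝ (fun q => (F q).re) p w = (fderiv ℂ F p w).re := by
    intro w
    have h3 := congrArg (fun L : ℂ × ℂ →L[ℝ] ℝ => L w) h1.fderiv
    exact h3
  rw [(dW_real (u := fun q => (F q).re) h1.differentiableAt v).1, h2, h2, map_smul, smul_eq_mul]
  congr 1
  apply Complex.ext
  · simp
  · simp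

theorem dW_log_norm {F : ℂ × ℂ → ℂ} {p : ℂ × ℂ} (hF : DifferentiableAt ℂ F p) (h0 : F p ≠ 0) (v : ℂ × ℂ) :
    dW (fun q => ((Real.log ‖F q‖ : ℝ) : ℂ)) p v = fderiv ℂ F p v / (2 * F p) := by
  set G : ℂ × ℂ → ℂ := fun q => (Real.log ‖F p‖ : ℂ) + Complex.log ((F p)⁻¹ * F q) with hG
  have e1 : (F p)⁻¹ * F p = 1 := inv_mul_cancel₀ h0
  have h1 : HasFDerivAt (fun q => (F p)⁻¹ * F q) ((F p)⁻¹ • fderiv ℂ F p) p :=
    hF.hasFDerivAt.const_mul (F p)⁻¹
  have h2 : HasFDerivAt G (((F p)⁻¹ * F p)⁻¹ • ((F p)⁻¹ • fderiv ℂ F p)) p := by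
    apply HasFDerivAt.const_add
    apply h1.clog
    show (F p)⁻¹ * F p ∈ Complex.slitPlane
    rw [e1]
    exact Complex.one_mem_slitPlane
  have hev : (fun q => ((Real.log ‖F q‖ : ℝ) : ℂ)) =ᶠ[nhds p] fun q => (((G q).re : ℝ) : ℂ) := by
    have hc : ContinuousAt F p := hF.continuousAt
    filter_upwards [hc.eventually_ne h0] with q hq
    congr 1
    simp only [hG]
    rw [Complex.add_re, Complex.ofReal_re, Complex.log_re, norm_mul, norm_inv,
      Real.log_mul (inv_ne_zero (norm_ne_zero_iff.2 h0)) (norm_ne_zero_iff.2 hq), Real.log_inv]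
    ring
  have h3 : dW (fun q => ((Real.log ‖F q‖ : ℝ) : ℂ)) p v = dW (fun q => (((G q).re : ℝ) : ℂ)) p v := by
    unfold dW
    rw [hev.fderiv_eq]
  rw [h3, dW_re h2.differentiableAt, h2.fderiv, e1, inv_one, one_smul]
  show (F p)⁻¹ * fderiv ℂ F p v / 2 = _
  field_simp

theorem dWb_fst {χ : ℂ → ℂ} {p : ℂ × ℂ} (h : DifferentiableAt ℝ χ p.1) (v : ℂ × ℂ) :
    dWb (fun q => χ q.1) p v = dbar χ p.1 * conj v.1 := by
  have h1 := h.hasFDerivAt.comp p (hasFDerivAt_fst (𝕜 := ℝ) (p := p))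
  have h2 : ∀ w, fderiv ℝ (fun q : ℂ × ℂ => χ q.1) p w = fderiv ℝ χ p.1 w.1 := by
    intro w
    have h3 := congrArg (fun L : ℂ × ℂ →L[ℝ] ℂ => L w) h1.fderiv
    exact h3
  have h4 : ∀ z : ℂ, fderiv ℝ χ p.1 z = (z.re : ℂ) * fderiv ℝ χ p.1 1 +
      (z.im : ℂ) * fderiv ℝ χ p.1 Complex.I := by
    intro z
    have h5 : z = z.re • (1 : ℂ) + z.im • Complex.I := by
      rw [Complex.real_smul, Complex.real_smul, mul_one]
      exact (Complex.re_add_im z).symm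
    conv_lhs => rw [h5]
    rw [map_add, map_smul, map_smul, Complex.real_smul, Complex.real_smul]
  have e1 : (Complex.I * v.1).re = -v.1.im := by simp
  have e2 : (Complex.I * v.1).im = v.1.re := by simp
  have e3 : conj v.1 = (v.1.re : ℂ) - (v.1.im : ℂ) * Complex.I := by
    apply Complex.ext
    · simp
    · simp
  unfold dWb dbar
  rw [h2, h2]
  show (fderiv ℝ χ p.1 v.1 + Complex.I * fderiv ℝ χ p.1 (Complex.I * v.1)) / 2 = _
  rw [h4 v.1, h4 (Complex.I * v.1), e1, e2, e3]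
  push_cast
  linear_combination (1 / 2 * (v.1.im : ℂ) * fderiv ℝ χ p.1 Complex.I) * Complex.I_mul_I

/-- linearity in the direction -/
theorem dW_smul (g : ℂ × ℂ → ℂ) (p v : ℂ × ℂ) (z : ℂ) :
    dW g p (z • v) = z * dW g p v ∧ dWb g p (z • v) = conj z * dWb g p v := by
  have e1 : Complex.I • (z • v) = z • (Complex.I • v) := smul_comm _ _ _
  have e3 : conj z = (z.re : ℂ) - (z.im : ℂ) * Complex.I := by
    apply Complex.ext
    · simp
    · simp
  have e4 := (Complex.re_add_im z).symm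
  unfold dW dWb
  rw [e1, LB_lin _ v z, LB_lin _ (Complex.I • v) z, LB_II, map_neg]
  constructor
  · conv_rhs => rw [e4]
    linear_combination ((1 : ℂ) / 2 * (z.im : ℂ) * fderiv ℝ g p (Complex.I • v)) * Complex.I_mul_I
  · rw [e3]
    linear_combination ((1 : ℂ) / 2 * (z.im : ℂ) * fderiv ℝ g p (Complex.I • v)) * Complex.I_mul_I

end FC76
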