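import Pool.Agent.H76.FL.S9

/-!
# The local theorem for helper24's bridge
-/

open MvPolynomial

namespace FC76

/-- every germ of finite multiplicity is good -/
theorem good_of_mult (A B : P2) (K : ℕ) (h : MultLe A B K) : Good A B :=
  resolution resClosed_good K A B h

end FC76
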