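import Pool.Agent.H76.FL.LA

/-!
# Row LC: calculus of the Levi form

lev G p v = D^2 G(v,v) + D^2 G(iv,iv).
* `lev_comp`: D^2(Φ(u))(v,v) = Φ'(u) D^2u(v,v) + Φ''(u) (Du v)^2; add for v and iv.
* `lev_mul`: Leibniz.
* F analytic at p (complex): D^2 F (v,v) (real second derivative) is complex bilinear, D^2F(iv,iv) = - D^2F(v,v).
  - `lev_re`: lev (Re F) = Re(D^2F(v,v) + D^2F(iv,iv)) = 0; 
  - `lev_normSq`: ‖F‖^2 = F conj F: D^2(v,v) = 2 Re(conj F D^2F(v,v)) + 2 |DF v|^2; for iv: - 2 Re(..) + 2|DF v|^2; sum 4 |DF v|^2.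
  - `lev_log_norm`: log‖F‖ = Re (log F) locally (choose a branch: log ‖F‖ = log ‖F/F(p)‖ + const, F/F(p) near 1 is in the slit plane,
    Re Complex.log), so 0.
* `lev_logPair`: u = log S, S = |F1|^2 + |F2|^2 > 0: lev u = lev S / S - ((DS v)^2 + (DS iv)^2)/S^2; lev S = 4(|a1|^2+|a2|^2), a_j = DF_j(v);
  DS v = 2 Re w, DS(iv) = - 2 Im w ... with w = conj F1 a1 + conj F2 a2, so (DS v)^2+(DS iv)^2 = 4|w|^2, and
  S (|a1|^2+|a2|^2) - |w|^2 = |F1 a2 - F2 a1|^2 (Lagrange).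
* `grad_logPair`: (Du v)^2 + (Du iv)^2 = 4 |w|^2 / S^2.
-/

open MvPolynomial MeasureTheory
open scoped ContDiff ComplexConjugate

namespace FC76

theorem LC_fm {f g : ℂ × ℂ → ℝ} {f' g' : (ℂ × ℂ) →L[ℝ] ℝ} {p : ℂ × ℂ} (hf : HasFDerivAt f f' p)
    (hg : HasFDerivAt g g' p) : HasFDerivAt (fun q => f q * g q) (f p • g' + g p • f') p := hf.mul hg

theorem LC_fa {f g : ℂ × ℂ → ℝ} {f' g' : (ℂ × ℂ) →L[ℝ] ℝ} {p : ℂ × ℂ} (hf : HasFDerivAt f f' p)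
    (hg : HasFDerivAt g g' p) : HasFDerivAt (fun q => f q + g q) (f' + g') p := hf.add hg

theorem LC_sd {E' : Type*} [NormedAddCommGroup E'] [NormedSpace ℝ E'] {G : ℂ × ℂ → E'} {p : ℂ × ℂ}
    (hG : ContDiffAt ℝ 2 G p) (v w : ℂ × ℂ) :
    fderiv ℝ (fun q => fderiv ℝ G q v) p w = fderiv ℝ (fderiv ℝ G) p w v := by
  have h1 : DifferentiableAt ℝ (fderiv ℝ G) p :=
    (hG.fderiv_right (m := 1) (by norm_num)).differentiableAt (by norm_num)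
  have h2 := h1.hasFDerivAt.clm_apply (hasFDerivAt_const v p)
  rw [h2.fderiv]
  simp

theorem LC_hd {E' : Type*} [NormedAddCommGroup E'] [NormedSpace ℝ E'] {G : ℂ × ℂ → E'} {p : ℂ × ℂ}
    (hG : ContDiffAt ℝ 2 G p) (v : ℂ × ℂ) :
    HasFDerivAt (fun q => fderiv ℝ G q v) (fderiv ℝ (fun q => fderiv ℝ G q v) p) p := by
  have h1 : DifferentiableAt ℝ (fderiv ℝ G) p :=
    (hG.fderiv_right (m := 1) (by norm_num)).differentiableAt (by norm_num)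
  exact (h1.hasFDerivAt.clm_apply (hasFDerivAt_const v p)).differentiableAt.hasFDerivAt

theorem LC_lev {G : ℂ × ℂ → ℝ} {p : ℂ × ℂ} (hG : ContDiffAt ℝ 2 G p) (v : ℂ × ℂ) :
    lev G p v = fderiv ℝ (fun q => fderiv ℝ G q v) p v +
      fderiv ℝ (fun q => fderiv ℝ G q (Complex.I • v)) p (Complex.I • v) := by
  rw [lev, LC_sd hG, LC_sd hG]

theorem LC_ev {E' : Type*} [NormedAddCommGroup E'] [NormedSpace ℝ E'] {G : ℂ × ℂ → E'} {p : ℂ × ℂ}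
    (hG : ContDiffAt ℝ 2 G p) : ∀ᶠ q in nhds p, DifferentiableAt ℝ G q := by
  filter_upwards [hG.eventually (by norm_num)] with q hq
  exact hq.differentiableAt (by norm_num)

theorem LC_dd {Φ : ℝ → ℝ} {x : ℝ} (hΦ : ContDiffAt ℝ 2 Φ x) : DifferentiableAt ℝ (deriv Φ) x := by
  have h1 : DifferentiableAt ℝ (fderiv ℝ Φ) x :=
    (hΦ.fderiv_right (m := 1) (by norm_num)).differentiableAt (by norm_num)
  have h2 : deriv Φ = fun y => fderiv ℝ Φ y 1 := by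
    funext y
    rw [fderiv_apply_one_eq_deriv]
  rw [h2]
  exact (h1.hasFDerivAt.clm_apply (hasFDerivAt_const (1 : ℝ) x)).differentiableAt

theorem LC_comp2 {Φ : ℝ → ℝ} {u : ℂ × ℂ → ℝ} {p : ℂ × ℂ} (hΦ : ContDiffAt ℝ 2 Φ (u p))
    (hu : ContDiffAt ℝ 2 u p) (w : ℂ × ℂ) :
    fderiv ℝ (fun q => fderiv ℝ (fun q => Φ (u q)) q w) p w =
      deriv Φ (u p) * fderiv ℝ (fun q => fderiv ℝ u q w) p w +
        deriv (deriv Φ) (u p) * (fderiv ℝ u p w) ^ 2 := by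
  have e : (fun q => fderiv ℝ (fun q => Φ (u q)) q w) =ᶠ[nhds p]
      fun q => deriv Φ (u q) * fderiv ℝ u q w := by
    have h1 : ∀ᶠ q in nhds p, ContDiffAt ℝ 2 Φ (u q) :=
      hu.continuousAt.eventually (hΦ.eventually (by norm_num))
    filter_upwards [h1, LC_ev hu] with q hq1 hq2
    have h3 : HasDerivAt Φ (deriv Φ (u q)) (u q) := (hq1.differentiableAt (by norm_num)).hasDerivAt
    have h4 : HasFDerivAt (fun q => Φ (u q)) (deriv Φ (u q) • fderiv ℝ u q) q :=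
      h3.comp_hasFDerivAt q hq2.hasFDerivAt
    rw [h4.fderiv]
    simp
  rw [e.fderiv_eq]
  have h5 : HasFDerivAt (fun q => deriv Φ (u q)) (deriv (deriv Φ) (u p) • fderiv ℝ u p) p :=
    (LC_dd hΦ).hasDerivAt.comp_hasFDerivAt p (hu.differentiableAt (by norm_num)).hasFDerivAt
  rw [(LC_fm h5 (LC_hd hu w)).fderiv]
  simp only [add_apply, smul_apply, smul_eq_mul]
  ring

theorem LC_mul2 {f g : ℂ × ℂ → ℝ} {p : ℂ × ℂ} (hf : ContDiffAt ℝ 2 f p) (hg : ContDiffAt ℝ 2 g p)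
    (w : ℂ × ℂ) :
    fderiv ℝ (fun q => fderiv ℝ (fun q => f q * g q) q w) p w =
      f p * fderiv ℝ (fun q => fderiv ℝ g q w) p w + g p * fderiv ℝ (fun q => fderiv ℝ f q w) p w +
        2 * (fderiv ℝ f p w * fderiv ℝ g p w) := by
  have e : (fun q => fderiv ℝ (fun q => f q * g q) q w) =ᶠ[nhds p]
      fun q => f q * fderiv ℝ g q w + g q * fderiv ℝ f q w := by
    filter_upwards [LC_ev hf, LC_ev hg] with q hq1 hq2
    rw [(LC_fm hq1.hasFDerivAt hq2.hasFDerivAt).fderiv]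
    simp
  rw [e.fderiv_eq]
  have h1 := LC_fa (LC_fm (hf.differentiableAt (by norm_num)).hasFDerivAt (LC_hd hg w))
    (LC_fm (hg.differentiableAt (by norm_num)).hasFDerivAt (LC_hd hf w))
  rw [h1.fderiv]
  simp only [add_apply, smul_apply, smul_eq_mul]
  ring

theorem lev_comp {Φ : ℝ → ℝ} {u : ℂ × ℂ → ℝ} {p : ℂ × ℂ} (hΦ : ContDiffAt ℝ 2 Φ (u p))
    (hu : ContDiffAt ℝ 2 u p) (v : ℂ × ℂ) :
    lev (fun q => Φ (u q)) p v = deriv Φ (u p) * lev u p v +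
      deriv (deriv Φ) (u p) * ((fderiv ℝ u p v) ^ 2 + (fderiv ℝ u p (Complex.I • v)) ^ 2) := by
  have hc : ContDiffAt ℝ 2 (fun q => Φ (u q)) p := hΦ.comp p hu
  rw [LC_lev hc, LC_lev hu, LC_comp2 hΦ hu, LC_comp2 hΦ hu]
  ring

theorem lev_mul {f g : ℂ × ℂ → ℝ} {p : ℂ × ℂ} (hf : ContDiffAt ℝ 2 f p) (hg : ContDiffAt ℝ 2 g p) (v : ℂ × ℂ) :
    lev (fun q => f q * g q) p v = f p * lev g p v + g p * lev f p v +
      2 * (fderiv ℝ f p v * fderiv ℝ g p v + fderiv ℝ f p (Complex.I • v) * fderiv ℝ g p (Complex.I • v)) := by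
  rw [LC_lev (hf.mul hg), LC_lev hf, LC_lev hg, LC_mul2 hf hg, LC_mul2 hf hg]
  ring

theorem LC_lev_add {f g : ℂ × ℂ → ℝ} {p : ℂ × ℂ} (hf : ContDiffAt ℝ 2 f p) (hg : ContDiffAt ℝ 2 g p)
    (v : ℂ × ℂ) : lev (fun q => f q + g q) p v = lev f p v + lev g p v := by
  have key : ∀ w, fderiv ℝ (fun q => fderiv ℝ (fun q => f q + g q) q w) p w =
      fderiv ℝ (fun q => fderiv ℝ f q w) p w + fderiv ℝ (fun q => fderiv ℝ g q w) p w := by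
    intro w
    have e : (fun q => fderiv ℝ (fun q => f q + g q) q w) =ᶠ[nhds p]
        fun q => fderiv ℝ f q w + fderiv ℝ g q w := by
      filter_upwards [LC_ev hf, LC_ev hg] with q hq1 hq2
      rw [(LC_fa hq1.hasFDerivAt hq2.hasFDerivAt).fderiv]
      simp
    rw [e.fderiv_eq, (LC_fa (LC_hd hf w) (LC_hd hg w)).fderiv]
    simp
  rw [LC_lev (hf.add hg), LC_lev hf, LC_lev hg, key, key]
  ring

theorem LC_cd {F : ℂ × ℂ → ℂ} {p : ℂ × ℂ} (hF : AnalyticAt ℂ F p) : ContDiffAt ℝ 2 F p :=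
  (hF.contDiffAt (n := 2)).restrict_scalars ℝ

theorem LC_cd_re {F : ℂ × ℂ → ℂ} {p : ℂ × ℂ} (hF : AnalyticAt ℂ F p) :
    ContDiffAt ℝ 2 (fun q => (F q).re) p :=
  Complex.reCLM.contDiff.contDiffAt.comp p (LC_cd hF)

theorem LC_fd {F : ℂ × ℂ → ℂ} {p : ℂ × ℂ} (hF : AnalyticAt ℂ F p) (v : ℂ × ℂ) :
    fderiv ℝ F p v = fderiv ℂ F p v := by
  rw [hF.differentiableAt.fderiv_restrictScalars ℝ]
  rfl

theorem LC_I {F : ℂ × ℂ → ℂ} {p : ℂ × ℂ} (v : ℂ × ℂ) :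
    fderiv ℂ F p (Complex.I • v) = Complex.I * fderiv ℂ F p v := by
  rw [map_smul, smul_eq_mul]

theorem LC_re1 {F : ℂ × ℂ → ℂ} {p : ℂ × ℂ} (hF : AnalyticAt ℂ F p) (v : ℂ × ℂ) :
    fderiv ℝ (fun q => (F q).re) p v = (fderiv ℂ F p v).re := by
  have h1 : HasFDerivAt (fun q => (F q).re) (Complex.reCLM.comp (fderiv ℝ F p)) p :=
    Complex.reCLM.hasFDerivAt.comp p ((LC_cd hF).differentiableAt (by norm_num)).hasFDerivAt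
  rw [h1.fderiv, ContinuousLinearMap.comp_apply, LC_fd hF]
  rfl

/-- the second derivative of an analytic function -/
theorem LC_an2 {F : ℂ × ℂ → ℂ} {p : ℂ × ℂ} (hF : AnalyticAt ℂ F p) (v w : ℂ × ℂ) :
    fderiv ℝ (fun q => (fderiv ℂ F q v).re) p w = (fderiv ℂ (fderiv ℂ F) p w v).re := by
  have h0 : AnalyticAt ℂ (fderiv ℂ F) p := hF.fderiv
  have h1 : DifferentiableAt ℂ (fderiv ℂ F) p := h0.differentiableAt
  have h2 := h1.hasFDerivAt.clm_apply (hasFDerivAt_const v p)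
  have h3 : HasFDerivAt (fun q => (fderiv ℂ F q v).re) (Complex.reCLM.comp
      ((((fderiv ℂ F p).comp (0 : (ℂ × ℂ) →L[ℂ] (ℂ × ℂ)) +
        (fderiv ℂ (fderiv ℂ F) p).flip v) : (ℂ × ℂ) →L[ℂ] ℂ).restrictScalars ℝ)) p :=
    Complex.reCLM.hasFDerivAt.comp p (h2.restrictScalars ℝ)
  rw [h3.fderiv]
  simp

theorem lev_re {F : ℂ × ℂ → ℂ} {p : ℂ × ℂ} (hF : AnalyticAt ℂ F p) (v : ℂ × ℂ) :
    lev (fun q => (F q).re) p v = 0 := by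
  have key : ∀ w, fderiv ℝ (fun q => fderiv ℝ (fun q => (F q).re) q w) p w =
      (fderiv ℂ (fderiv ℂ F) p w w).re := by
    intro w
    have e : (fun q => fderiv ℝ (fun q => (F q).re) q w) =ᶠ[nhds p] fun q => (fderiv ℂ F q w).re := by
      filter_upwards [hF.eventually_analyticAt] with q hq
      exact LC_re1 hq w
    rw [e.fderiv_eq, LC_an2 hF]
  have e2 : fderiv ℂ (fderiv ℂ F) p (Complex.I • v) (Complex.I • v) =
      - fderiv ℂ (fderiv ℂ F) p v v := by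
    rw [map_smul (fderiv ℂ (fderiv ℂ F) p), map_smul ((Complex.I : ℂ) • (fderiv ℂ (fderiv ℂ F) p) v)]
    show Complex.I • (Complex.I • fderiv ℂ (fderiv ℂ F) p v v) = _
    rw [smul_smul, Complex.I_mul_I, neg_one_smul]
  rw [LC_lev (LC_cd_re hF), key, key, e2, Complex.neg_re]
  ring

theorem LC_im_eq (F : ℂ × ℂ → ℂ) : (fun q => (F q).im) = fun q => ((-Complex.I) * F q).re := by
  funext q
  simp

theorem LC_an_I {F : ℂ × ℂ → ℂ} {p : ℂ × ℂ} (hF : AnalyticAt ℂ F p) :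
    AnalyticAt ℂ (fun q => (-Complex.I) * F q) p := analyticAt_const.mul hF

theorem LC_im1 {F : ℂ × ℂ → ℂ} {p : ℂ × ℂ} (hF : AnalyticAt ℂ F p) (v : ℂ × ℂ) :
    fderiv ℝ (fun q => (F q).im) p v = (fderiv ℂ F p v).im := by
  rw [LC_im_eq, LC_re1 (LC_an_I hF), (hF.differentiableAt.hasFDerivAt.const_mul (-Complex.I)).fderiv]
  simp

theorem LC_cd_im {F : ℂ × ℂ → ℂ} {p : ℂ × ℂ} (hF : AnalyticAt ℂ F p) :
    ContDiffAt ℝ 2 (fun q => (F q).im) p := by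
  rw [LC_im_eq]
  exact LC_cd_re (LC_an_I hF)

theorem LC_ns (F : ℂ × ℂ → ℂ) : (fun q => ‖F q‖ ^ 2) =
    fun q => (F q).re * (F q).re + (F q).im * (F q).im := by
  funext q
  rw [← Complex.normSq_eq_norm_sq, Complex.normSq_apply]

theorem LC_cd_ns {F : ℂ × ℂ → ℂ} {p : ℂ × ℂ} (hF : AnalyticAt ℂ F p) :
    ContDiffAt ℝ 2 (fun q => ‖F q‖ ^ 2) p := by
  rw [LC_ns]
  exact ((LC_cd_re hF).mul (LC_cd_re hF)).add ((LC_cd_im hF).mul (LC_cd_im hF))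

theorem LC_ns1 {F : ℂ × ℂ → ℂ} {p : ℂ × ℂ} (hF : AnalyticAt ℂ F p) (v : ℂ × ℂ) :
    fderiv ℝ (fun q => ‖F q‖ ^ 2) p v = 2 * (conj (F p) * fderiv ℂ F p v).re := by
  rw [LC_ns]
  have h1 := ((LC_cd_re hF).differentiableAt (by norm_num)).hasFDerivAt
  have h2 := ((LC_cd_im hF).differentiableAt (by norm_num)).hasFDerivAt
  rw [(LC_fa (LC_fm h1 h1) (LC_fm h2 h2)).fderiv]
  simp only [add_apply, smul_apply, smul_eq_mul]
  rw [LC_re1 hF, LC_im1 hF, Complex.mul_re, Complex.conj_re, Complex.conj_im]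
  ring

theorem lev_normSq {F : ℂ × ℂ → ℂ} {p : ℂ × ℂ} (hF : AnalyticAt ℂ F p) (v : ℂ × ℂ) :
    lev (fun q => ‖F q‖ ^ 2) p v = 4 * ‖fderiv ℂ F p v‖ ^ 2 := by
  have hre := lev_re hF v
  have him : lev (fun q => (F q).im) p v = 0 := by
    rw [LC_im_eq]
    exact lev_re (LC_an_I hF) v
  rw [LC_ns, LC_lev_add ((LC_cd_re hF).mul (LC_cd_re hF)) ((LC_cd_im hF).mul (LC_cd_im hF)),
    lev_mul (LC_cd_re hF) (LC_cd_re hF), lev_mul (LC_cd_im hF) (LC_cd_im hF), hre, him,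
    LC_re1 hF, LC_im1 hF, LC_re1 hF, LC_im1 hF, LC_I, ← Complex.normSq_eq_norm_sq,
    Complex.normSq_apply, Complex.mul_re, Complex.mul_im, Complex.I_re, Complex.I_im]
  ring

theorem LC_S_pos {F1 F2 : ℂ × ℂ → ℂ} {p : ℂ × ℂ} (h0 : F1 p ≠ 0 ∨ F2 p ≠ 0) :
    0 < ‖F1 p‖ ^ 2 + ‖F2 p‖ ^ 2 := by
  rcases h0 with h | h
  · have := norm_pos_iff.2 h
    positivity
  · have := norm_pos_iff.2 h
    positivity

theorem LC_S1 {F1 F2 : ℂ × ℂ → ℂ} {p : ℂ × ℂ} (h1 : AnalyticAt ℂ F1 p) (h2 : AnalyticAt ℂ F2 p)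
    (v : ℂ × ℂ) : fderiv ℝ (fun q => ‖F1 q‖ ^ 2 + ‖F2 q‖ ^ 2) p v =
      2 * (conj (F1 p) * fderiv ℂ F1 p v + conj (F2 p) * fderiv ℂ F2 p v).re := by
  have e1 := ((LC_cd_ns h1).differentiableAt (by norm_num)).hasFDerivAt
  have e2 := ((LC_cd_ns h2).differentiableAt (by norm_num)).hasFDerivAt
  rw [(LC_fa e1 e2).fderiv, add_apply, LC_ns1 h1, LC_ns1 h2, Complex.add_re]
  ring

theorem LC_S2 {F1 F2 : ℂ × ℂ → ℂ} {p : ℂ × ℂ} (h1 : AnalyticAt ℂ F1 p) (h2 : AnalyticAt ℂ F2 p)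
    (v : ℂ × ℂ) : (fderiv ℝ (fun q => ‖F1 q‖ ^ 2 + ‖F2 q‖ ^ 2) p v) ^ 2 +
      (fderiv ℝ (fun q => ‖F1 q‖ ^ 2 + ‖F2 q‖ ^ 2) p (Complex.I • v)) ^ 2 =
      4 * ‖conj (F1 p) * fderiv ℂ F1 p v + conj (F2 p) * fderiv ℂ F2 p v‖ ^ 2 := by
  rw [LC_S1 h1 h2, LC_S1 h1 h2, LC_I, LC_I]
  have e : conj (F1 p) * (Complex.I * fderiv ℂ F1 p v) + conj (F2 p) * (Complex.I * fderiv ℂ F2 p v) =
      Complex.I * (conj (F1 p) * fderiv ℂ F1 p v + conj (F2 p) * fderiv ℂ F2 p v) := by ring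
  rw [e]
  generalize conj (F1 p) * fderiv ℂ F1 p v + conj (F2 p) * fderiv ℂ F2 p v = w
  rw [← Complex.normSq_eq_norm_sq, Complex.normSq_apply, Complex.mul_re, Complex.I_re, Complex.I_im]
  ring

theorem lev_logPair {F1 F2 : ℂ × ℂ → ℂ} {p : ℂ × ℂ} (h1 : AnalyticAt ℂ F1 p) (h2 : AnalyticAt ℂ F2 p)
    (h0 : F1 p ≠ 0 ∨ F2 p ≠ 0) (v : ℂ × ℂ) :
    lev (fun q => Real.log (‖F1 q‖ ^ 2 + ‖F2 q‖ ^ 2)) p v =
      4 * (‖F1 p * fderiv ℂ F2 p v - F2 p * fderiv ℂ F1 p v‖ ^ 2 / (‖F1 p‖ ^ 2 + ‖F2 p‖ ^ 2) ^ 2) := by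
  have hS := LC_S_pos h0
  have hcd : ContDiffAt ℝ 2 (fun q => ‖F1 q‖ ^ 2 + ‖F2 q‖ ^ 2) p := (LC_cd_ns h1).add (LC_cd_ns h2)
  have hlog : ContDiffAt ℝ 2 Real.log (‖F1 p‖ ^ 2 + ‖F2 p‖ ^ 2) := Real.contDiffAt_log.2 hS.ne'
  rw [lev_comp (Φ := Real.log) (u := fun q => ‖F1 q‖ ^ 2 + ‖F2 q‖ ^ 2) hlog hcd, LC_S2 h1 h2,
    LC_lev_add (LC_cd_ns h1) (LC_cd_ns h2), lev_normSq h1, lev_normSq h2]
  have hd1 : deriv Real.log = fun x => x⁻¹ := by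
    funext x
    exact Real.deriv_log x
  rw [hd1, deriv_inv]
  have hlag : (‖F1 p‖ ^ 2 + ‖F2 p‖ ^ 2) * (‖fderiv ℂ F1 p v‖ ^ 2 + ‖fderiv ℂ F2 p v‖ ^ 2) -
      ‖conj (F1 p) * fderiv ℂ F1 p v + conj (F2 p) * fderiv ℂ F2 p v‖ ^ 2 =
      ‖F1 p * fderiv ℂ F2 p v - F2 p * fderiv ℂ F1 p v‖ ^ 2 := by
    generalize fderiv ℂ F1 p v = a
    generalize fderiv ℂ F2 p v = b
    generalize F1 p = x
    generalize F2 p = y
    simp only [← Complex.normSq_eq_norm_sq, Complex.normSq_apply, Complex.mul_re, Complex.mul_im,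
      Complex.sub_re, Complex.sub_im, Complex.add_re, Complex.add_im, Complex.conj_re, Complex.conj_im]
    ring
  rw [← hlag]
  have hS' := hS.ne'
  generalize ‖F1 p‖ ^ 2 + ‖F2 p‖ ^ 2 = S at hS' ⊢
  field_simp
  ring

theorem lev_log_norm {F : ℂ × ℂ → ℂ} {p : ℂ × ℂ} (hF : AnalyticAt ℂ F p) (h0 : F p ≠ 0) (v : ℂ × ℂ) :
    lev (fun q => Real.log ‖F q‖) p v = 0 := by
  have h1 := lev_logPair (F2 := fun _ => 0) hF analyticAt_const (Or.inl h0) v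
  have e : (fun q => Real.log ‖F q‖) = fun q => (1 / 2 : ℝ) * Real.log (‖F q‖ ^ 2 + ‖(0 : ℂ)‖ ^ 2) := by
    funext q
    rw [norm_zero, zero_pow two_ne_zero, add_zero, Real.log_pow]
    push_cast
    ring
  have hS : 0 < ‖F p‖ ^ 2 + ‖(0 : ℂ)‖ ^ 2 := LC_S_pos (F2 := fun _ => 0) (Or.inl h0)
  have hu : ContDiffAt ℝ 2 (fun q => ‖F q‖ ^ 2 + ‖(0 : ℂ)‖ ^ 2) p := (LC_cd_ns hF).add contDiffAt_const
  have hl : ContDiffAt ℝ 2 Real.log (‖F p‖ ^ 2 + ‖(0 : ℂ)‖ ^ 2) := Real.contDiffAt_log.2 hS.ne'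
  have hc : ContDiffAt ℝ 2 (fun q => Real.log (‖F q‖ ^ 2 + ‖(0 : ℂ)‖ ^ 2)) p :=
    ContDiffAt.comp (g := Real.log) p hl hu
  rw [e, lev_mul contDiffAt_const hc]
  have h3 : lev (fun _ : ℂ × ℂ => (1 / 2 : ℝ)) p v = 0 := by
    simp [lev]
  rw [h1, h3]
  simp

theorem grad_logPair {F1 F2 : ℂ × ℂ → ℂ} {p : ℂ × ℂ} (h1 : AnalyticAt ℂ F1 p) (h2 : AnalyticAt ℂ F2 p)
    (h0 : F1 p ≠ 0 ∨ F2 p ≠ 0) (v : ℂ × ℂ) :
    (fderiv ℝ (fun q => Real.log (‖F1 q‖ ^ 2 + ‖F2 q‖ ^ 2)) p v) ^ 2 +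
      (fderiv ℝ (fun q => Real.log (‖F1 q‖ ^ 2 + ‖F2 q‖ ^ 2)) p (Complex.I • v)) ^ 2 =
      4 * (‖conj (F1 p) * fderiv ℂ F1 p v + conj (F2 p) * fderiv ℂ F2 p v‖ ^ 2 /
        (‖F1 p‖ ^ 2 + ‖F2 p‖ ^ 2) ^ 2) := by
  have hS := LC_S_pos h0
  have hcd : ContDiffAt ℝ 2 (fun q => ‖F1 q‖ ^ 2 + ‖F2 q‖ ^ 2) p := (LC_cd_ns h1).add (LC_cd_ns h2)
  have hl : HasDerivAt Real.log (‖F1 p‖ ^ 2 + ‖F2 p‖ ^ 2)⁻¹ (‖F1 p‖ ^ 2 + ‖F2 p‖ ^ 2) :=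
    Real.hasDerivAt_log hS.ne'
  have h3 : HasFDerivAt (fun q => Real.log (‖F1 q‖ ^ 2 + ‖F2 q‖ ^ 2))
      ((‖F1 p‖ ^ 2 + ‖F2 p‖ ^ 2)⁻¹ • fderiv ℝ (fun q => ‖F1 q‖ ^ 2 + ‖F2 q‖ ^ 2) p) p :=
    HasDerivAt.comp_hasFDerivAt (h₂ := Real.log) p hl (hcd.differentiableAt (by norm_num)).hasFDerivAt
  rw [h3.fderiv]
  simp only [smul_apply, smul_eq_mul]
  rw [mul_pow, mul_pow, ← mul_add, LC_S2 h1 h2]
  have hS' := hS.ne'
  generalize ‖F1 p‖ ^ 2 + ‖F2 p‖ ^ 2 = S at hS' ⊢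
  field_simp

end FC76
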