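import Pool.Agent.H76.FL.LB
import Pool.Agent.H76.FL.LC

/-!
# Row LE: logarithmic cut-offs along a polynomial curve

Let θ : ℝ → ℝ be smooth, 0 <= θ <= 1, θ = 1 on (-oo,1], θ = 0 on [2,oo) (from `Real.smoothTransition`), |θ'|, |θ''| <= C.
ζ(p) := θ(- log ‖ev h p‖ / K) if ev h p ≠ 0, and 0 if ev h p = 0.
Smooth: on {h ≠ 0} it is a composition of smooth functions (log ‖F‖ smooth where F ≠ 0); near a point with h(p) = 0 it vanishes identically
(‖h‖ < e^(-2K) in a neighbourhood).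
Derivatives at h(p) ≠ 0: dW ζ = θ'(.) * (-1/K) * dW log‖h‖ = - θ'/(2K) * Dh(v)/h(p) (`dW_comp`, `dW_log_norm`);
lev ζ = θ'' / K^2 * ((D log‖h‖ v)^2 + (D log‖h‖ iv)^2) = θ''/K^2 * |Dh(v)/h|^2 (`lev_comp`, `lev_log_norm`, `dW_real`).
Both vanish if ‖h‖ > e^(-K) or ‖h‖ < e^(-2K) (locally constant), and by continuity (θ'(1)=θ'(2)=0..) also on the boundary; the statement only claims
vanishing in the open regions.
-/

open MvPolynomial MeasureTheory
open scoped ContDiff ComplexConjugate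

namespace FC76

/-- the profile -/
noncomputable def LE_th (x : ℝ) : ℝ := Real.smoothTransition (2 - x)

theorem LE_th_smooth : ContDiff ℝ ∞ LE_th := by
  unfold LE_th
  exact Real.smoothTransition.contDiff.comp (contDiff_const.sub contDiff_id)

theorem LE_th_one {x : ℝ} (h : x ≤ 1) : LE_th x = 1 :=
  Real.smoothTransition.one_of_one_le (by linarith)

theorem LE_th_zero {x : ℝ} (h : 2 ≤ x) : LE_th x = 0 :=
  Real.smoothTransition.zero_of_nonpos (by linarith)

theorem LE_th_mem (x : ℝ) : 0 ≤ LE_th x ∧ LE_th x ≤ 1 :=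
  ⟨Real.smoothTransition.nonneg _, Real.smoothTransition.le_one _⟩

theorem LE_d1 {x : ℝ} (hx : x ∉ Set.Icc (1 : ℝ) 2) : deriv LE_th x = 0 := by
  rw [Set.mem_Icc, not_and_or, not_le, not_le] at hx
  rcases hx with hx | hx
  · have h1 : LE_th =ᶠ[nhds x] fun _ => (1 : ℝ) := by
      filter_upwards [Iio_mem_nhds hx] with y hy
      exact LE_th_one (le_of_lt hy)
    rw [h1.deriv_eq, deriv_const]
  · have h1 : LE_th =ᶠ[nhds x] fun _ => (0 : ℝ) := by
      filter_upwards [Ioi_mem_nhds hx] with y hy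
      exact LE_th_zero (le_of_lt hy)
    rw [h1.deriv_eq, deriv_const]

theorem LE_d2 {x : ℝ} (hx : x ∉ Set.Icc (1 : ℝ) 2) : deriv (deriv LE_th) x = 0 := by
  have h1 : deriv LE_th =ᶠ[nhds x] fun _ => (0 : ℝ) := by
    filter_upwards [isClosed_Icc.isOpen_compl.mem_nhds hx] with y hy
    exact LE_d1 hy
  rw [h1.deriv_eq, deriv_const]

theorem LE_two : (2 : WithTop ℕ∞) ≤ ∞ := WithTop.coe_le_coe.2 (le_top : (2 : ℕ∞) ≤ ⊤)

theorem LE_bound : ∃ C : ℝ, 0 < C ∧ (∀ x, |deriv LE_th x| ≤ C) ∧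
    ∀ x, |deriv (deriv LE_th) x| ≤ C := by
  have s2 : ContDiff ℝ 2 LE_th := LE_th_smooth.of_le LE_two
  have s1 : ContDiff ℝ 1 (deriv LE_th) := by
    have h2 : ContDiff ℝ (1 + 1) LE_th := by
      rw [one_add_one_eq_two]
      exact s2
    exact (contDiff_succ_iff_deriv.1 h2).2.2
  have c1 : Continuous (deriv LE_th) := s1.continuous
  have c2 : Continuous (deriv (deriv LE_th)) := s1.continuous_deriv le_rfl
  obtain ⟨C1, h1⟩ := (HasCompactSupport.intro isCompact_Icc fun x hx =>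
    LE_d1 hx).exists_bound_of_continuous c1
  obtain ⟨C2, h2⟩ := (HasCompactSupport.intro isCompact_Icc fun x hx =>
    LE_d2 hx).exists_bound_of_continuous c2
  refine ⟨max (max C1 C2) 1, lt_max_of_lt_right one_pos, fun x => ?_, fun x => ?_⟩
  · exact (h1 x).trans ((le_max_left _ _).trans (le_max_left _ _))
  · exact (h2 x).trans ((le_max_right _ _).trans (le_max_left _ _))

/-- the rescaled profile -/
noncomputable def LE_Ph (K x : ℝ) : ℝ := LE_th ((-1 / K) * x)

theorem LE_Ph_smooth (K : ℝ) : ContDiff ℝ ∞ (LE_Ph K) := by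
  unfold LE_Ph
  exact LE_th_smooth.comp (contDiff_const.mul contDiff_id)

theorem LE_Ph_d1 (K x : ℝ) : deriv (LE_Ph K) x = (-1 / K) * deriv LE_th ((-1 / K) * x) := by
  unfold LE_Ph
  rw [deriv_comp_mul_left]
  rfl

theorem LE_Ph_d2 (K x : ℝ) : deriv (deriv (LE_Ph K)) x =
    (-1 / K) * ((-1 / K) * deriv (deriv LE_th) ((-1 / K) * x)) := by
  have h1 : deriv (LE_Ph K) = fun x => (-1 / K) * deriv LE_th ((-1 / K) * x) :=
    funext fun x => LE_Ph_d1 K x
  rw [h1, deriv_const_mul_field]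
  congr 1
  rw [deriv_comp_mul_left]
  rfl

theorem LE_dW {f g : ℂ × ℂ → ℝ} {p : ℂ × ℂ} (h : f =ᶠ[nhds p] g) (v : ℂ × ℂ) :
    dW (fun q => (f q : ℂ)) p v = dW (fun q => (g q : ℂ)) p v := by
  have h1 : (fun q => (f q : ℂ)) =ᶠ[nhds p] fun q => (g q : ℂ) := by
    filter_upwards [h] with q hq
    rw [hq]
  unfold dW
  rw [h1.fderiv_eq]

theorem LE_lev {f g : ℂ × ℂ → ℝ} {p : ℂ × ℂ} (h : f =ᶠ[nhds p] g) (v : ℂ × ℂ) :
    lev f p v = lev g p v := by
  unfold lev
  rw [h.fderiv.fderiv_eq]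

theorem LE_const (c : ℝ) (p v : ℂ × ℂ) :
    dW (fun _ => (c : ℂ)) p v = 0 ∧ lev (fun _ => c) p v = 0 := by
  constructor
  · unfold dW
    simp
  · unfold lev
    simp

theorem exists_logCutoff : ∃ C : ℝ, 0 < C ∧ ∀ (h : P2) (K : ℝ), 1 ≤ K → ∃ ζ : ℂ × ℂ → ℝ, ContDiff ℝ ∞ ζ ∧
    (∀ p, 0 ≤ ζ p ∧ ζ p ≤ 1) ∧ (∀ p, ‖ev h p‖ ≤ Real.exp (-(2 * K)) → ζ p = 0) ∧
    (∀ p, Real.exp (-K) ≤ ‖ev h p‖ → ζ p = 1) ∧
    (∀ p v, ev h p ≠ 0 → ‖dW (fun q => (ζ q : ℂ)) p v‖ ≤ C / K * (‖fderiv ℂ (ev h) p v‖ / ‖ev h p‖)) ∧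
    (∀ p v, ev h p ≠ 0 → |lev ζ p v| ≤ C / K ^ 2 * (‖fderiv ℂ (ev h) p v‖ / ‖ev h p‖) ^ 2) ∧
    (∀ p v, (‖ev h p‖ < Real.exp (-(2 * K)) ∨ Real.exp (-K) < ‖ev h p‖) →
      dW (fun q => (ζ q : ℂ)) p v = 0 ∧ lev ζ p v = 0) := by
  classical
  obtain ⟨C, hC, hC1, hC2⟩ := LE_bound
  refine ⟨C, hC, fun h K hK => ?_⟩
  have hK0 : 0 < K := by linarith
  have hsm : ContDiff ℝ ∞ (ev h) := contDiff_real_ev h
  have hcont : Continuous (ev h) := hsm.continuous
  let L : ℂ × ℂ → ℝ := fun q => Real.log ‖ev h q‖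
  let ζ : ℂ × ℂ → ℝ := fun q => if ev h q = 0 then 0 else LE_Ph K (L q)
  have hL : ∀ p, ev h p ≠ 0 → ContDiffAt ℝ ∞ L p := fun p hp =>
    (hsm.contDiffAt.norm ℝ hp).log (norm_ne_zero_iff.2 hp)
  have hgerm : ∀ p, ev h p ≠ 0 → ζ =ᶠ[nhds p] fun q => LE_Ph K (L q) := by
    intro p hp
    filter_upwards [hcont.continuousAt.eventually_ne hp] with q hq
    exact if_neg hq
  have h0 : ∀ p, ‖ev h p‖ ≤ Real.exp (-(2 * K)) → ζ p = 0 := by
    intro p hp
    by_cases hz : ev h p = 0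
    · exact if_pos hz
    · show (if ev h p = 0 then 0 else LE_Ph K (L p)) = 0
      rw [if_neg hz]
      apply LE_th_zero
      have h1 : L p ≤ -(2 * K) := by
        have := Real.log_le_log (norm_pos_iff.2 hz) hp
        rwa [Real.log_exp] at this
      rw [neg_div, neg_mul, one_div, inv_mul_eq_div, ← neg_div, le_div_iff₀ hK0]
      linarith
  have h1 : ∀ p, Real.exp (-K) ≤ ‖ev h p‖ → ζ p = 1 := by
    intro p hp
    have hz : ev h p ≠ 0 := by
      rw [← norm_pos_iff]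
      exact lt_of_lt_of_le (Real.exp_pos _) hp
    show (if ev h p = 0 then 0 else LE_Ph K (L p)) = 1
    rw [if_neg hz]
    apply LE_th_one
    have h1 : -K ≤ L p := by
      have := Real.log_le_log (Real.exp_pos _) hp
      rwa [Real.log_exp] at this
    rw [neg_div, neg_mul, one_div, inv_mul_eq_div, ← neg_div, div_le_iff₀ hK0]
    linarith
  have hn : Continuous fun q => ‖ev h q‖ := hcont.norm
  refine ⟨ζ, ?_, ?_, h0, h1, ?_, ?_, ?_⟩
  · rw [contDiff_iff_contDiffAt]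
    intro p
    by_cases hz : ev h p = 0
    · have hev : ζ =ᶠ[nhds p] fun _ => (0 : ℝ) := by
        have h2 : ∀ᶠ q in nhds p, ‖ev h q‖ < Real.exp (-(2 * K)) := by
          refine hn.continuousAt.eventually_lt continuousAt_const ?_
          rw [hz, norm_zero]
          exact Real.exp_pos _
        filter_upwards [h2] with q hq
        exact h0 q hq.le
      exact contDiffAt_const.congr_of_eventuallyEq hev
    · exact ((LE_Ph_smooth K).contDiffAt.comp p (hL p hz)).congr_of_eventuallyEq (hgerm p hz)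
  · intro p
    show 0 ≤ (if ev h p = 0 then 0 else LE_Ph K (L p)) ∧ (if ev h p = 0 then 0 else LE_Ph K (L p)) ≤ 1
    split_ifs
    · exact ⟨le_rfl, zero_le_one⟩
    · exact LE_th_mem _
  · intro p v hz
    have hLd : DifferentiableAt ℝ L p := (hL p hz).differentiableAt (by simp)
    have hFd : DifferentiableAt ℂ (ev h) p := (analyticAt_ev h p).differentiableAt
    have hPd : DifferentiableAt ℝ (LE_Ph K) (L p) :=
      (LE_Ph_smooth K).contDiffAt.differentiableAt (by simp)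
    rw [LE_dW (hgerm p hz), dW_comp hPd hLd, dW_log_norm hFd hz, LE_Ph_d1, norm_mul,
      Complex.norm_real, norm_div, norm_mul, norm_mul, Complex.norm_ofNat, Real.norm_eq_abs,
      Real.norm_eq_abs, abs_div, abs_neg, abs_one, abs_of_pos hK0]
    have hb := hC1 (-1 / K * L p)
    have e0 := norm_nonneg (fderiv ℂ (ev h) p v)
    have e1 : 0 < ‖ev h p‖ := norm_pos_iff.2 hz
    have e2 : ‖fderiv ℂ (ev h) p v‖ / (2 * ‖ev h p‖) ≤ ‖fderiv ℂ (ev h) p v‖ / ‖ev h p‖ := by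
      apply div_le_div_of_nonneg_left e0 e1
      linarith
    have e3 : 1 / K * |deriv LE_th (-1 / K * L p)| ≤ C / K := by
      rw [one_div, inv_mul_eq_div]
      exact div_le_div_of_nonneg_right hb hK0.le
    exact mul_le_mul e3 e2 (by positivity) (by positivity)
  · intro p v hz
    have hLd : DifferentiableAt ℝ L p := (hL p hz).differentiableAt (by simp)
    have hFd : DifferentiableAt ℂ (ev h) p := (analyticAt_ev h p).differentiableAt
    have hP2 : ContDiffAt ℝ 2 (LE_Ph K) (L p) :=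
      (LE_Ph_smooth K).contDiffAt.of_le LE_two
    have hL2 : ContDiffAt ℝ 2 L p := (hL p hz).of_le LE_two
    have hlog := lev_log_norm (analyticAt_ev h p) hz v
    have hreal := (dW_real hLd v).2.2
    have hdl : dW (fun q => (L q : ℂ)) p v = fderiv ℂ (ev h) p v / (2 * ev h p) :=
      dW_log_norm hFd hz v
    rw [hdl] at hreal
    have e1 : 0 < ‖ev h p‖ := norm_pos_iff.2 hz
    have hq : (fderiv ℝ L p v) ^ 2 + (fderiv ℝ L p (Complex.I • v)) ^ 2 =
        (‖fderiv ℂ (ev h) p v‖ / ‖ev h p‖) ^ 2 := by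
      rw [norm_div, norm_mul, Complex.norm_ofNat] at hreal
      have e4 : (‖fderiv ℂ (ev h) p v‖ / (2 * ‖ev h p‖)) ^ 2 =
          (‖fderiv ℂ (ev h) p v‖ / ‖ev h p‖) ^ 2 / 4 := by
        field_simp
        norm_num
      rw [e4] at hreal
      linarith
    have hlog' : lev L p v = 0 := hlog
    rw [LE_lev (hgerm p hz), lev_comp hP2 hL2, hlog', mul_zero, zero_add, hq, LE_Ph_d2, abs_mul,
      abs_of_nonneg (sq_nonneg (‖fderiv ℂ (ev h) p v‖ / ‖ev h p‖))]
    refine mul_le_mul_of_nonneg_right ?_ (sq_nonneg _)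
    rw [← mul_assoc, abs_mul]
    have hb := hC2 (-1 / K * L p)
    have e5 : |(-1 / K) * (-1 / K)| = 1 / K ^ 2 := by
      rw [abs_mul, abs_div, abs_neg, abs_one, abs_of_pos hK0]
      field_simp
    rw [e5, one_div, inv_mul_eq_div]
    exact div_le_div_of_nonneg_right hb (by positivity)
  · intro p v hp
    rcases hp with hp | hp
    · have hev : ζ =ᶠ[nhds p] fun _ => (0 : ℝ) := by
        have h2 : ∀ᶠ q in nhds p, ‖ev h q‖ < Real.exp (-(2 * K)) :=
          hn.continuousAt.eventually_lt continuousAt_const hp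
        filter_upwards [h2] with q hq
        exact h0 q hq.le
      rw [LE_dW hev, LE_lev hev]
      exact LE_const 0 p v
    · have hev : ζ =ᶠ[nhds p] fun _ => (1 : ℝ) := by
        have h2 : ∀ᶠ q in nhds p, Real.exp (-K) < ‖ev h q‖ :=
          continuousAt_const.eventually_lt hn.continuousAt hp
        filter_upwards [h2] with q hq
        exact h1 q hq.le
      rw [LE_dW hev, LE_lev hev]
      exact LE_const 1 p v

end FC76
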