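import Pool.Agent.H76.FL.LE

/-!
# Row LF: consequences of the invariance

1. `inv_bar`: ∫ dWb g(Z) dM = 0 for g smooth with compact support in dom: apply inv to conj g and `dW_conj`.
2. `lev_dom`: for G real, smooth, compactly supported in dom: ∫ lev G(Z) dM = 0.
   Let g(q) := dWb (G) q (Z q) = (DG_q(Z_q) + i DG_q(i Z_q))/2, smooth, supported in tsupport G.
   4 Re dW g p (Z p) = lev G p (Z p): the derivative of q ↦ DG_q(Z_q) in direction v is D^2G(v,Z) + DG(DZ v), the derivative of q ↦ DG_q(iZ_q) in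
   direction v is D^2G(v,iZ) + DG(i DZ v).  dW g(Z) = (Dg(Z) - i Dg(iZ))/2, real part:
   (1/4)[ D^2G(Z,Z) + DG(DZ Z) + D^2G(iZ,iZ) + DG(i DZ(iZ)) ] and DZ(iZ) = i DZ(Z), so DG(i DZ(iZ)) = - DG(DZ Z): they cancel (DZ is complex linear since
   A, B are holomorphic).  Then integrate and take real parts (integrability: bounded with compact support, `locfin`).
3. `inv_ext`: g smooth, compact support in the ball, M (tsupport g) < ⊤, and (h(0) = 0 or 0 not in tsupport g).  Take ζ_K from `exists_logCutoff`.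
   g ζ_K has compact support in dom (if h(0)=0, ζ_K vanishes near 0).  0 = ∫ dW(g ζ_K)(Z) = ∫ ζ_K dW g(Z) + ∫ g dW ζ_K(Z).
   First -> ∫ dW g(Z) (dominated by C‖Z‖ 1_{tsupport g} which is integrable: Cauchy-Schwarz with fin and M(tsupport g) < ⊤; ζ_K -> 1 on h ≠ 0, which carries M).
   Second: |.| <= sup|g| ∫_{tsupport g} ‖dW ζ_K(Z)‖ <= sup|g| M(tsupport g)^(1/2) (∫ ‖dW ζ_K(Z)‖^2)^(1/2) and
   ∫ ‖dWζ_K(Z)‖^2 dM <= (C/K)^2 ∫_{‖h‖ >= e^(-2K)} ‖Zh/h‖^2 dM <= (C/K)^2 C' (1 + 2K + 1) -> 0 (`log` with r = e^(-2K)/2; `fderiv_ev_vf`).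
   Same for dWb (apply to conj g).
4. `dd_of_inv`: if h(0) = 0 then ∫ lev G(Z) dM = 0 for every G smooth with compact support in the ball.
   G ζ_K has compact support in dom, `lev_dom`; lev(G ζ) = ζ lev G + G lev ζ + 2(...) (`lev_mul`); |lev G(Z)| <= C nsq Z integrable, dominated convergence;
   |∫ G lev ζ_K(Z)| <= C (C/K^2)(C'(2+2K)) -> 0; cross term: |DG(Z) Dζ(Z) + ..| <= C ‖Z‖ ‖dW ζ(Z)‖, Cauchy-Schwarz with fin -> 0.
-/

open MvPolynomial MeasureTheory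
open scoped ContDiff ComplexConjugate Topology
open Filter (Tendsto atTop)

namespace FC76

theorem LF_conv {α : Type*} [MeasurableSpace α] {μ : Measure α} {E : Type*} [NormedAddCommGroup E]
    [NormedSpace ℝ E] {f : α → E} (hf : Integrable f μ) {ζ : ℕ → α → ℝ}
    (hζm : ∀ n, AEStronglyMeasurable (ζ n) μ)
    (hζ : ∀ n p, 0 ≤ ζ n p ∧ ζ n p ≤ 1) (hlim : ∀ᵐ p ∂μ, Tendsto (fun n => ζ n p) atTop (𝓝 1))
    {R : ℕ → α → E} (hR : ∀ n, AEStronglyMeasurable (R n) μ) {δ : ℕ → ℝ} (hδ0 : ∀ n, 0 ≤ δ n)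
    (hδ : Tendsto δ atTop (𝓝 0)) (hRδ : ∀ n, ∫⁻ p, ‖R n p‖ₑ ∂μ ≤ ENNReal.ofReal (δ n))
    (h0 : ∀ n, ∫ p, (ζ n p • f p + R n p) ∂μ = 0) : ∫ p, f p ∂μ = 0 := by
  have h1 : Tendsto (fun n => ∫ p, ζ n p • f p ∂μ) atTop (𝓝 (∫ p, f p ∂μ)) := by
    apply tendsto_integral_of_dominated_convergence (fun p => ‖f p‖)
    · intro n; exact (hζm n).smul hf.aestronglyMeasurable
    · exact hf.norm
    · intro n
      refine Filter.Eventually.of_forall (fun p => ?_)
      rw [norm_smul, Real.norm_of_nonneg (hζ n p).1]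
      exact mul_le_of_le_one_left (norm_nonneg _) (hζ n p).2
    · filter_upwards [hlim] with p hp
      have h2 := hp.smul_const (f p)
      rwa [one_smul] at h2
  have hRi : ∀ n, Integrable (R n) μ :=
    fun n => ⟨hR n, lt_of_le_of_lt (hRδ n) ENNReal.ofReal_lt_top⟩
  have hζi : ∀ n, Integrable (fun p => ζ n p • f p) μ := by
    intro n
    refine hf.mono ((hζm n).smul hf.aestronglyMeasurable) (Filter.Eventually.of_forall (fun p => ?_))
    rw [norm_smul, Real.norm_of_nonneg (hζ n p).1]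
    exact mul_le_of_le_one_left (norm_nonneg _) (hζ n p).2
  have h2 : Tendsto (fun n => ∫ p, R n p ∂μ) atTop (𝓝 0) := by
    rw [tendsto_zero_iff_norm_tendsto_zero]
    refine squeeze_zero (fun n => norm_nonneg _) (fun n => ?_) hδ
    have h3 : ‖∫ p, R n p ∂μ‖ₑ ≤ ENNReal.ofReal (δ n) :=
      (enorm_integral_le_lintegral_enorm _).trans (hRδ n)
    rw [← ofReal_norm] at h3
    exact (ENNReal.ofReal_le_ofReal_iff (hδ0 n)).1 h3
  have h3 : ∀ n, ∫ p, ζ n p • f p ∂μ = - ∫ p, R n p ∂μ := by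
    intro n
    have h4 := h0 n
    rw [integral_add (hζi n) (hRi n)] at h4
    exact eq_neg_of_add_eq_zero_left h4
  have h5 : Tendsto (fun n => ∫ p, ζ n p • f p ∂μ) atTop (𝓝 0) := by
    have h6 := h2.neg
    rw [neg_zero] at h6
    exact h6.congr (fun n => (h3 n).symm)
  exact tendsto_nhds_unique h1 h5

theorem LF_norm_I (v : ℂ × ℂ) : ‖Complex.I • v‖ = ‖v‖ := by
  rw [norm_smul, Complex.norm_I, one_mul]

theorem LF_dW_bound (g : ℂ × ℂ → ℂ) (p v : ℂ × ℂ) : ‖dW g p v‖ ≤ ‖fderiv ℝ g p‖ * ‖v‖ := by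
  unfold dW
  rw [norm_div, Complex.norm_ofNat, div_le_iff₀ (by norm_num)]
  have h1 := (fderiv ℝ g p).le_opNorm v
  have h2 := (fderiv ℝ g p).le_opNorm (Complex.I • v)
  rw [LF_norm_I] at h2
  calc _ ≤ ‖fderiv ℝ g p v‖ + ‖Complex.I * fderiv ℝ g p (Complex.I • v)‖ := norm_sub_le _ _
    _ = ‖fderiv ℝ g p v‖ + ‖fderiv ℝ g p (Complex.I • v)‖ := by rw [norm_mul, Complex.norm_I, one_mul]
    _ ≤ _ := by linarith

theorem LF_dWb_bound (g : ℂ × ℂ → ℂ) (p v : ℂ × ℂ) : ‖dWb g p v‖ ≤ ‖fderiv ℝ g p‖ * ‖v‖ := by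
  unfold dWb
  rw [norm_div, Complex.norm_ofNat, div_le_iff₀ (by norm_num)]
  have h1 := (fderiv ℝ g p).le_opNorm v
  have h2 := (fderiv ℝ g p).le_opNorm (Complex.I • v)
  rw [LF_norm_I] at h2
  calc _ ≤ ‖fderiv ℝ g p v‖ + ‖Complex.I * fderiv ℝ g p (Complex.I • v)‖ := norm_add_le _ _
    _ = ‖fderiv ℝ g p v‖ + ‖fderiv ℝ g p (Complex.I • v)‖ := by rw [norm_mul, Complex.norm_I, one_mul]
    _ ≤ _ := by linarith

theorem LF_lev_bound (G : ℂ × ℂ → ℝ) (p v : ℂ × ℂ) :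
    |lev G p v| ≤ 2 * ‖fderiv ℝ (fderiv ℝ G) p‖ * ‖v‖ ^ 2 := by
  unfold lev
  have h1 := (fderiv ℝ (fderiv ℝ G) p).le_opNorm₂ v v
  have h2 := (fderiv ℝ (fderiv ℝ G) p).le_opNorm₂ (Complex.I • v) (Complex.I • v)
  rw [LF_norm_I] at h2
  rw [Real.norm_eq_abs] at h1 h2
  calc _ ≤ |fderiv ℝ (fderiv ℝ G) p v v| + |fderiv ℝ (fderiv ℝ G) p (Complex.I • v) (Complex.I • v)| :=
        abs_add_le _ _
    _ ≤ _ := by nlinarith

theorem LF_cont_vf (A B : P2) : Continuous (vf A B) := (contDiff_vf A B).continuous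

theorem LF_contDiff_D {g : ℂ × ℂ → ℂ} (hg : ContDiff ℝ ∞ g) (A B : P2) :
    ContDiff ℝ ∞ (fun p => fderiv ℝ g p (vf A B p)) ∧
    ContDiff ℝ ∞ (fun p => fderiv ℝ g p (Complex.I • vf A B p)) := by
  have h1 : ContDiff ℝ ∞ (fderiv ℝ g) := hg.fderiv_right (by simp)
  exact ⟨h1.clm_apply (contDiff_vf A B), h1.clm_apply ((contDiff_vf A B).const_smul Complex.I)⟩

theorem LF_contDiff_dW {g : ℂ × ℂ → ℂ} (hg : ContDiff ℝ ∞ g) (A B : P2) :
    ContDiff ℝ ∞ (fun p => dW g p (vf A B p)) ∧ ContDiff ℝ ∞ (fun p => dWb g p (vf A B p)) := by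
  obtain ⟨h1, h2⟩ := LF_contDiff_D hg A B
  exact ⟨(h1.sub (contDiff_const.mul h2)).div_const 2, (h1.add (contDiff_const.mul h2)).div_const 2⟩

theorem LF_cont_lev {G : ℂ × ℂ → ℝ} (hG : ContDiff ℝ ∞ G) (A B : P2) :
    Continuous (fun p => lev G p (vf A B p)) := by
  have h1 : ContDiff ℝ ∞ (fderiv ℝ G) := hG.fderiv_right (by simp)
  have h2 : Continuous (fderiv ℝ (fderiv ℝ G)) := h1.continuous_fderiv (by simp)
  have h3 := LF_cont_vf A B
  have h4 : Continuous (fun p => Complex.I • vf A B p) := h3.const_smul Complex.I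
  exact ((h2.clm_apply h3).clm_apply h3).add ((h2.clm_apply h4).clm_apply h4)

theorem LF_supp_dW {g : ℂ × ℂ → ℂ} {p : ℂ × ℂ} (hp : p ∉ tsupport g) (v : ℂ × ℂ) :
    dW g p v = 0 ∧ dWb g p v = 0 := by
  have h1 : fderiv ℝ g p = 0 := by
    by_contra h
    exact hp (support_fderiv_subset ℝ (Function.mem_support.2 h))
  unfold dW dWb
  rw [h1]
  simp

theorem LF_supp_lev {G : ℂ × ℂ → ℝ} {p : ℂ × ℂ} (hp : p ∉ tsupport G) (v : ℂ × ℂ) : lev G p v = 0 := by
  have h1 : fderiv ℝ (fderiv ℝ G) p = 0 := by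
    by_contra h
    exact hp (tsupport_fderiv_subset ℝ (support_fderiv_subset ℝ (Function.mem_support.2 h)))
  unfold lev
  rw [h1]
  simp

theorem LF_integrable {E : Type*} [NormedAddCommGroup E] {A B h : P2} {ρ : ℝ} {M : Measure (ℂ × ℂ)}
    (hI : Inv0 A B h ρ M) {f : ℂ × ℂ → E} (hf : Continuous f) {K : Set (ℂ × ℂ)} (hK : IsCompact K)
    (hKd : K ⊆ dom h ρ) (h0 : ∀ p, p ∉ K → f p = 0) : Integrable f M := by
  have hsupp : Function.support f ⊆ K := by
    intro p hp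
    by_contra hpK
    exact hp (h0 p hpK)
  rw [← integrableOn_iff_integrable_of_support_subset hsupp]
  obtain ⟨C, hC⟩ := hK.exists_bound_of_continuousOn hf.continuousOn
  have hm : AEStronglyMeasurable f M := hf.aestronglyMeasurable
  refine Measure.integrableOn_of_bounded (M := C) (hI.locfin K hK hKd).ne hm ?_
  exact (ae_restrict_iff' hK.measurableSet).2 (Filter.Eventually.of_forall (fun p hp => hC p hp))

theorem LF_two {G : ℂ × ℂ → ℝ} (hG : ContDiff ℝ ∞ G) : ContDiff ℝ 2 G := by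
  exact_mod_cast (contDiff_infty.1 hG 2)

theorem LF_energy {A B h : P2} {ρ : ℝ} {M : Measure (ℂ × ℂ)} (hI : Inv0 A B h ρ M) :
    ∃ C' : ℝ, 0 ≤ C' ∧ ∀ K : ℝ, 1 ≤ K → ∀ (w : ℂ × ℂ → ℝ) (c : ℝ), 0 ≤ c →
      (∀ p, ev h p ≠ 0 → w p ≤ c * (‖ev (Zp A B h) p‖ / ‖ev h p‖) ^ 2) →
      (∀ p, ‖ev h p‖ < Real.exp (-(2 * K)) → w p = 0) →
      ∫⁻ p, ENNReal.ofReal (w p) ∂M ≤ ENNReal.ofReal (c * (C' * K)) := by
  obtain ⟨C, hC⟩ := hI.log
  refine ⟨4 * |C|, by positivity, ?_⟩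
  intro K hK w c hc hw hw0
  obtain ⟨r, hr⟩ : ∃ r : ℝ, r = Real.exp (-(2 * K)) / 2 := ⟨_, rfl⟩
  have hr0 : 0 < r := by rw [hr]; positivity
  have hr1 : r < 1 := by
    rw [hr]
    have : Real.exp (-(2 * K)) ≤ 1 := Real.exp_le_one_iff.2 (by linarith)
    linarith
  have hrK : r < Real.exp (-(2 * K)) := by
    rw [hr]
    have := Real.exp_pos (-(2 * K))
    linarith
  have hlog : Real.log (1 / r) ≤ 2 * K + 1 := by
    rw [hr, one_div, Real.log_inv, Real.log_div (Real.exp_pos _).ne' (by norm_num), Real.log_exp]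
    have := Real.log_two_lt_d9
    linarith
  have hlog0 : 0 ≤ Real.log (1 / r) := by
    apply Real.log_nonneg
    rw [one_div]
    exact (one_le_inv₀ hr0).2 hr1.le
  have hms : MeasurableSet {p : ℂ × ℂ | r < ‖ev h p‖} := by
    apply IsOpen.measurableSet
    exact isOpen_lt continuous_const (contDiff_ev h).continuous.norm
  have h1 : ∀ p, ENNReal.ofReal (w p) ≤ ENNReal.ofReal c *
      ({p : ℂ × ℂ | r < ‖ev h p‖}.indicator
        (fun p => ENNReal.ofReal (‖ev (Zp A B h) p‖ ^ 2 / ‖ev h p‖ ^ 2)) p) := by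
    intro p
    by_cases hp : r < ‖ev h p‖
    · rw [Set.indicator_of_mem (by exact hp), ← ENNReal.ofReal_mul hc, ← div_pow]
      apply ENNReal.ofReal_le_ofReal
      apply hw
      intro h0
      rw [h0, norm_zero] at hp
      linarith
    · rw [hw0 p (lt_of_le_of_lt (not_lt.1 hp) hrK), ENNReal.ofReal_zero]
      exact zero_le
  calc _ ≤ ∫⁻ p, ENNReal.ofReal c * ({p : ℂ × ℂ | r < ‖ev h p‖}.indicator
        (fun p => ENNReal.ofReal (‖ev (Zp A B h) p‖ ^ 2 / ‖ev h p‖ ^ 2)) p) ∂M := lintegral_mono h1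
    _ = ENNReal.ofReal c * ∫⁻ p in {p | r < ‖ev h p‖}, ENNReal.ofReal (‖ev (Zp A B h) p‖ ^ 2 / ‖ev h p‖ ^ 2) ∂M := by
        rw [lintegral_const_mul' _ _ ENNReal.ofReal_ne_top, lintegral_indicator hms]
    _ ≤ ENNReal.ofReal c * ENNReal.ofReal (C * (1 + Real.log (1 / r))) :=
        mul_le_mul_of_nonneg_left (hC r hr0 hr1) zero_le
    _ ≤ ENNReal.ofReal c * ENNReal.ofReal (4 * |C| * K) := by
        apply mul_le_mul_of_nonneg_left _ zero_le
        apply ENNReal.ofReal_le_ofReal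
        calc C * (1 + Real.log (1 / r)) ≤ |C| * (1 + Real.log (1 / r)) :=
              mul_le_mul_of_nonneg_right (le_abs_self C) (by linarith)
          _ ≤ |C| * (4 * K) := mul_le_mul_of_nonneg_left (by linarith) (abs_nonneg C)
          _ = 4 * |C| * K := by ring
    _ = _ := by rw [← ENNReal.ofReal_mul hc]

theorem LF_bound {M : Measure (ℂ × ℂ)} {E : Type*} [NormedAddCommGroup E] {R : ℂ × ℂ → E}
    {s w : ℂ × ℂ → ℝ} (hsm : Measurable s) {a I W : ℝ} (ha : 0 ≤ a) (hI0 : 0 ≤ I) (hW0 : 0 ≤ W)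
    (hs : ∫⁻ p, ENNReal.ofReal (s p) ∂M ≤ ENNReal.ofReal I)
    (hw : ∫⁻ p, ENNReal.ofReal (w p) ∂M ≤ ENNReal.ofReal W)
    (hR : ∀ p, ‖R p‖ ≤ a * s p + w p) : ∫⁻ p, ‖R p‖ₑ ∂M ≤ ENNReal.ofReal (a * I + W) := by
  have h1 : ∀ p, ‖R p‖ₑ ≤ ENNReal.ofReal a * ENNReal.ofReal (s p) + ENNReal.ofReal (w p) := by
    intro p
    rw [← ofReal_norm, ← ENNReal.ofReal_mul ha]
    exact (ENNReal.ofReal_le_ofReal (hR p)).trans ENNReal.ofReal_add_le
  have hm : Measurable (fun p => ENNReal.ofReal a * ENNReal.ofReal (s p)) :=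
    (hsm.ennreal_ofReal).const_mul _
  calc _ ≤ ∫⁻ p, (ENNReal.ofReal a * ENNReal.ofReal (s p) + ENNReal.ofReal (w p)) ∂M := lintegral_mono h1
    _ = ENNReal.ofReal a * ∫⁻ p, ENNReal.ofReal (s p) ∂M + ∫⁻ p, ENNReal.ofReal (w p) ∂M := by
        rw [lintegral_add_left hm, lintegral_const_mul' _ _ ENNReal.ofReal_ne_top]
    _ ≤ ENNReal.ofReal a * ENNReal.ofReal I + ENNReal.ofReal W := by gcongr
    _ = _ := by rw [← ENNReal.ofReal_mul ha, ← ENNReal.ofReal_add (mul_nonneg ha hI0) hW0]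

theorem LF_supp {R' : Type*} [Zero R'] {F : ℂ × ℂ → R'} {T : Set (ℂ × ℂ)} (hT : IsClosed T) {h : P2}
    {ρ K : ℝ} (hs : T ⊆ Metric.ball 0 ρ) (h0 : ev h 0 = 0 ∨ (0 : ℂ × ℂ) ∉ T)
    (h1 : ∀ p, p ∉ T → F p = 0) (h2 : ∀ p, ‖ev h p‖ ≤ Real.exp (-(2 * K)) → F p = 0) :
    tsupport F ⊆ dom h ρ ∧ tsupport F ⊆ T := by
  have hcl : IsClosed {p : ℂ × ℂ | Real.exp (-(2 * K)) ≤ ‖ev h p‖} :=
    isClosed_le continuous_const (contDiff_ev h).continuous.norm
  have hsub : tsupport F ⊆ T ∩ {p : ℂ × ℂ | Real.exp (-(2 * K)) ≤ ‖ev h p‖} := by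
    apply closure_minimal _ (hT.inter hcl)
    intro p hp
    refine ⟨?_, ?_⟩
    · by_contra hpT
      exact hp (h1 p hpT)
    · by_contra hpK
      exact hp (h2 p (not_le.1 hpK).le)
  refine ⟨?_, fun p hp => (hsub hp).1⟩
  intro p hp
  obtain ⟨hpT, hpK⟩ := hsub hp
  have hne : ev h p ≠ 0 := by
    intro h3
    have h4 : Real.exp (-(2 * K)) ≤ ‖ev h p‖ := hpK
    rw [h3, norm_zero] at h4
    exact absurd (Real.exp_pos (-(2 * K))) (not_lt.2 h4)
  refine ⟨hs hpT, hne, ?_⟩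
  rintro rfl
  rcases h0 with h0 | h0
  · exact hne h0
  · exact h0 hpT

theorem LF_ae {A B h : P2} {ρ : ℝ} {M : Measure (ℂ × ℂ)} (hI : Inv0 A B h ρ M) {ζ : ℕ → ℂ × ℂ → ℝ}
    (hζ : ∀ (n : ℕ) (p : ℂ × ℂ), Real.exp (-((n : ℝ) + 1)) ≤ ‖ev h p‖ → ζ n p = 1) :
    ∀ᵐ p ∂M, Tendsto (fun n => ζ n p) atTop (𝓝 1) := by
  have h1 : ∀ᵐ p ∂M, p ∈ dom h ρ := hI.carried
  filter_upwards [h1] with p hp
  have hpos : 0 < ‖ev h p‖ := norm_pos_iff.2 hp.2.1
  have h2 : Tendsto (fun n : ℕ => Real.exp (-((n : ℝ) + 1))) atTop (𝓝 0) := by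
    apply Real.tendsto_exp_neg_atTop_nhds_zero.comp
    exact Filter.tendsto_atTop_add_const_right _ _ tendsto_natCast_atTop_atTop
  have h3 : ∀ᶠ n : ℕ in atTop, Real.exp (-((n : ℝ) + 1)) < ‖ev h p‖ := h2.eventually (gt_mem_nhds hpos)
  apply tendsto_const_nhds.congr'
  filter_upwards [h3] with n hn
  exact (hζ n p hn.le).symm

theorem LF_rate (c d : ℝ) : Tendsto (fun n : ℕ => c / Real.sqrt ((n : ℝ) + 1) + d / ((n : ℝ) + 1)) atTop (𝓝 0) := by
  have h1 : Tendsto (fun n : ℕ => (n : ℝ) + 1) atTop atTop :=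
    Filter.tendsto_atTop_add_const_right _ _ tendsto_natCast_atTop_atTop
  have h2 := (Real.tendsto_sqrt_atTop.comp h1).const_div_atTop c
  have h3 := h1.const_div_atTop d
  have h4 := h2.add h3
  rw [add_zero] at h4
  exact h4

theorem LF_ab (x ε : ℝ) (hε : 0 < ε) : x ≤ ε + x ^ 2 / ε := by
  rw [← sub_nonneg]
  have h1 : ε + x ^ 2 / ε - x = ((ε - x / 2) ^ 2 + 3 / 4 * x ^ 2) / ε := by
    field_simp
    ring
  rw [h1]
  positivity

theorem inv_bar {A B h : P2} {ρ : ℝ} {M : Measure (ℂ × ℂ)} (hI : Inv0 A B h ρ M) (g : ℂ × ℂ → ℂ)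
    (hg : ContDiff ℝ ∞ g) (hc : HasCompactSupport g) (hs : tsupport g ⊆ dom h ρ) :
    ∫ p, dWb g p (vf A B p) ∂M = 0 := by
  have hcd : ContDiff ℝ ∞ (fun q => conj (g q)) := Complex.conjCLE.contDiff.comp hg
  have hsub : tsupport (fun q => conj (g q)) ⊆ tsupport g :=
    tsupport_comp_subset (g := fun z : ℂ => conj z) (map_zero _) g
  have h1 := hI.inv (fun q => conj (g q)) hcd (hc.comp_left (g := fun z : ℂ => conj z) (map_zero _))
    (hsub.trans hs)
  have h2 : ∀ p, dW (fun q => conj (g q)) p (vf A B p) = conj (dWb g p (vf A B p)) :=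
    fun p => (dW_conj g p _).1
  simp_rw [h2] at h1
  rw [integral_conj] at h1
  exact (map_eq_zero _).1 h1

/-- pointwise identity: four times the real part of Z (Zbar G) is the Levi form -/
theorem lev_eq_dW_dWb (A B : P2) {G : ℂ × ℂ → ℝ} {p : ℂ × ℂ} (hG : ContDiffAt ℝ 2 G p) :
    lev G p (vf A B p) = 4 * (dW (fun q => dWb (fun q' => (G q' : ℂ)) q (vf A B q)) p (vf A B p)).re := by
  have hZ : DifferentiableAt ℝ (vf A B) p := (contDiff_vf A B).differentiable (by simp) p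
  have hZI : DifferentiableAt ℝ (fun q => Complex.I • vf A B q) p := hZ.const_smul Complex.I
  have hG1 : ContDiffAt ℝ 1 (fderiv ℝ G) p := hG.fderiv_right (by norm_num)
  have hG2 : DifferentiableAt ℝ (fderiv ℝ G) p := hG1.differentiableAt (by norm_num)
  have hev : ∀ᶠ q in 𝓝 p, DifferentiableAt ℝ G q := by
    have := hG.eventually (by simp)
    filter_upwards [this] with q hq
    exact hq.differentiableAt (by norm_num)
  have hEq : (fun q => dWb (fun q' => (G q' : ℂ)) q (vf A B q)) =ᶠ[𝓝 p]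
      (fun q => (((fderiv ℝ G q (vf A B q) : ℝ) : ℂ) +
        Complex.I * ((fderiv ℝ G q (Complex.I • vf A B q) : ℝ) : ℂ)) / 2) := by
    filter_upwards [hev] with q hq
    obtain ⟨h1, h2, -⟩ := dW_real hq (vf A B q)
    rw [h2, h1]
    simp only [map_div₀, map_sub, map_mul, Complex.conj_ofReal, Complex.conj_I, map_ofNat]
    ring
  have hder : fderiv ℝ (fun q => dWb (fun q' => (G q' : ℂ)) q (vf A B q)) p =
      fderiv ℝ (fun q => (((fderiv ℝ G q (vf A B q) : ℝ) : ℂ) +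
        Complex.I * ((fderiv ℝ G q (Complex.I • vf A B q) : ℝ) : ℂ)) / 2) p := hEq.fderiv_eq
  obtain ⟨a, ha⟩ : ∃ a : (ℂ × ℂ) →L[ℝ] ℝ, a = (fderiv ℝ G p ∘SL fderiv ℝ (vf A B) p +
      (fderiv ℝ (fderiv ℝ G) p).flip (vf A B p)) := ⟨_, rfl⟩
  obtain ⟨b, hb⟩ : ∃ b : (ℂ × ℂ) →L[ℝ] ℝ, b = (fderiv ℝ G p ∘SL fderiv ℝ (fun q => Complex.I • vf A B q) p +
      (fderiv ℝ (fderiv ℝ G) p).flip (Complex.I • vf A B p)) := ⟨_, rfl⟩
  have hA : HasFDerivAt (fun q => fderiv ℝ G q (vf A B q)) a p := by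
    rw [ha]; exact hG2.hasFDerivAt.clm_apply hZ.hasFDerivAt
  have hB : HasFDerivAt (fun q => fderiv ℝ G q (Complex.I • vf A B q)) b p := by
    rw [hb]; exact hG2.hasFDerivAt.clm_apply hZI.hasFDerivAt
  have hA' : HasFDerivAt (fun q => ((fderiv ℝ G q (vf A B q) : ℝ) : ℂ)) (Complex.ofRealCLM ∘SL a) p :=
    Complex.ofRealCLM.hasFDerivAt.comp p hA
  have hB' : HasFDerivAt (fun q => ((fderiv ℝ G q (Complex.I • vf A B q) : ℝ) : ℂ)) (Complex.ofRealCLM ∘SL b) p :=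
    Complex.ofRealCLM.hasFDerivAt.comp p hB
  have hF : HasFDerivAt (fun q => (((fderiv ℝ G q (vf A B q) : ℝ) : ℂ) +
        Complex.I * ((fderiv ℝ G q (Complex.I • vf A B q) : ℝ) : ℂ)) / 2)
      ((2 : ℂ)⁻¹ • ((Complex.ofRealCLM ∘SL a) + Complex.I • (Complex.ofRealCLM ∘SL b))) p := by
    have h3 := (hA'.add (hB'.const_mul Complex.I)).const_mul ((2 : ℂ)⁻¹)
    refine h3.congr_of_eventuallyEq (Filter.Eventually.of_forall (fun q => ?_))
    simp only [Pi.add_apply]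
    ring
  have hval : ∀ w, fderiv ℝ (fun q => dWb (fun q' => (G q' : ℂ)) q (vf A B q)) p w =
      ((a w : ℝ) + Complex.I * (b w : ℝ)) / 2 := by
    intro w
    rw [hder, hF.fderiv]
    simp only [ContinuousLinearMap.smul_apply, ContinuousLinearMap.add_apply,
      ContinuousLinearMap.comp_apply, Complex.ofRealCLM_apply, smul_eq_mul]
    ring
  have hre : (dW (fun q => dWb (fun q' => (G q' : ℂ)) q (vf A B q)) p (vf A B p)).re =
      (a (vf A B p) + b (Complex.I • vf A B p)) / 4 := by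
    unfold dW
    rw [hval, hval]
    have e : (((a (vf A B p) : ℝ) : ℂ) + Complex.I * ((b (vf A B p) : ℝ) : ℂ)) / 2 -
        Complex.I * ((((a (Complex.I • vf A B p) : ℝ) : ℂ) + Complex.I * ((b (Complex.I • vf A B p) : ℝ) : ℂ)) / 2) =
        (((a (vf A B p) + b (Complex.I • vf A B p)) / 2 : ℝ) : ℂ) +
        (((b (vf A B p) - a (Complex.I • vf A B p)) / 2 : ℝ) : ℂ) * Complex.I := by
      push_cast
      linear_combination (-(((b (Complex.I • vf A B p) : ℝ) : ℂ)) / 2) * Complex.I_mul_I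
    rw [e]
    simp only [Complex.div_ofNat_re, Complex.add_re, Complex.ofReal_re, Complex.mul_re, Complex.I_re,
      Complex.I_im, Complex.ofReal_im]
    ring
  have hDZ : ∀ w : ℂ × ℂ, fderiv ℝ (vf A B) p (Complex.I • w) = Complex.I • fderiv ℝ (vf A B) p w := by
    intro w
    have hc : DifferentiableAt ℂ (vf A B) p := by
      unfold vf
      exact ((contDiff_ev A).differentiable (by simp) p).prodMk ((contDiff_ev B).differentiable (by simp) p)
    have h5 : fderiv ℝ (vf A B) p = (fderiv ℂ (vf A B) p).restrictScalars ℝ := hc.fderiv_restrictScalars ℝ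
    rw [h5]
    simp only [ContinuousLinearMap.coe_restrictScalars', map_smul]
  have hIZ : ∀ w : ℂ × ℂ, fderiv ℝ (fun q => Complex.I • vf A B q) p w = Complex.I • fderiv ℝ (vf A B) p w := by
    intro w
    rw [fderiv_fun_const_smul hZ]
    rfl
  rw [hre, ha, hb]
  unfold lev
  simp only [ContinuousLinearMap.add_apply, ContinuousLinearMap.comp_apply, ContinuousLinearMap.flip_apply]
  rw [hIZ, hDZ, smul_smul, Complex.I_mul_I, neg_smul, one_smul, map_neg]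
  ring

theorem lev_dom {A B h : P2} {ρ : ℝ} {M : Measure (ℂ × ℂ)} (hI : Inv0 A B h ρ M) (G : ℂ × ℂ → ℝ)
    (hG : ContDiff ℝ ∞ G) (hc : HasCompactSupport G) (hs : tsupport G ⊆ dom h ρ) :
    ∫ p, lev G p (vf A B p) ∂M = 0 := by
  have hGc : ContDiff ℝ ∞ (fun q => (G q : ℂ)) := Complex.ofRealCLM.contDiff.comp hG
  have hg : ContDiff ℝ ∞ (fun q => dWb (fun q' => (G q' : ℂ)) q (vf A B q)) := (LF_contDiff_dW hGc A B).2
  have hts : tsupport (fun q => (G q : ℂ)) ⊆ tsupport G :=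
    tsupport_comp_subset (g := fun x : ℝ => (x : ℂ)) Complex.ofReal_zero G
  have hz : ∀ q, q ∉ tsupport G → dWb (fun q' => (G q' : ℂ)) q (vf A B q) = 0 :=
    fun q hq => (LF_supp_dW (fun h => hq (hts h)) _).2
  have hsub : tsupport (fun q => dWb (fun q' => (G q' : ℂ)) q (vf A B q)) ⊆ tsupport G := by
    apply closure_minimal _ (isClosed_tsupport G)
    intro q hq
    by_contra hq2
    exact hq (hz q hq2)
  have hcs : HasCompactSupport (fun q => dWb (fun q' => (G q' : ℂ)) q (vf A B q)) :=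
    HasCompactSupport.of_support_subset_isCompact hc (subset_tsupport _ |>.trans hsub)
  have h1 := hI.inv _ hg hcs (hsub.trans hs)
  have hint : Integrable (fun p => dW (fun q => dWb (fun q' => (G q' : ℂ)) q (vf A B q)) p (vf A B p)) M := by
    apply LF_integrable hI ((LF_contDiff_dW hg A B).1.continuous) (K := tsupport G) hc hs
    intro p hp
    exact (LF_supp_dW (fun h => hp (hsub h)) _).1
  have h2 : ∀ p, lev G p (vf A B p) =
      4 * RCLike.re (dW (fun q => dWb (fun q' => (G q' : ℂ)) q (vf A B q)) p (vf A B p)) := by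
    intro p
    exact lev_eq_dW_dWb A B (LF_two hG).contDiffAt
  simp_rw [h2]
  rw [integral_const_mul, integral_re hint, h1]
  simp

theorem LF_nsq_int {A B h : P2} {ρ : ℝ} {M : Measure (ℂ × ℂ)} (hI : Inv0 A B h ρ M) :
    Integrable (fun p => nsq (vf A B p)) M := by
  have hc : Continuous (fun p => nsq (vf A B p)) := by
    unfold nsq
    have h1 := LF_cont_vf A B
    exact (h1.fst.norm.pow 2).add (h1.snd.norm.pow 2)
  refine ⟨hc.aestronglyMeasurable, ?_⟩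
  rw [hasFiniteIntegral_iff_ofReal (Filter.Eventually.of_forall (fun p => nsq_nonneg _))]
  exact hI.fin

theorem LF_ext {A B h : P2} {ρ : ℝ} {M : Measure (ℂ × ℂ)} (hI : Inv0 A B h ρ M) (g : ℂ × ℂ → ℂ)
    (hg : ContDiff ℝ ∞ g) (hc : HasCompactSupport g) (hs : tsupport g ⊆ Metric.ball 0 ρ)
    (h0 : ev h 0 = 0 ∨ (0 : ℂ × ℂ) ∉ tsupport g) (hM : M (tsupport g) < ⊤) :
    ∫ p, dW g p (vf A B p) ∂M = 0 := by
  obtain ⟨C, hC0, hC⟩ := exists_logCutoff
  obtain ⟨C', hC'0, hC'⟩ := LF_energy hI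
  have hch : ∀ n : ℕ, ∃ ζ : ℂ × ℂ → ℝ, ContDiff ℝ ∞ ζ ∧
    (∀ p, 0 ≤ ζ p ∧ ζ p ≤ 1) ∧ (∀ p, ‖ev h p‖ ≤ Real.exp (-(2 * ((n : ℝ) + 1))) → ζ p = 0) ∧
    (∀ p, Real.exp (-((n : ℝ) + 1)) ≤ ‖ev h p‖ → ζ p = 1) ∧
    (∀ p v, ev h p ≠ 0 → ‖dW (fun q => (ζ q : ℂ)) p v‖ ≤ C / ((n : ℝ) + 1) * (‖fderiv ℂ (ev h) p v‖ / ‖ev h p‖)) ∧
    (∀ p v, ev h p ≠ 0 → |lev ζ p v| ≤ C / ((n : ℝ) + 1) ^ 2 * (‖fderiv ℂ (ev h) p v‖ / ‖ev h p‖) ^ 2) ∧
    (∀ p v, (‖ev h p‖ < Real.exp (-(2 * ((n : ℝ) + 1))) ∨ Real.exp (-((n : ℝ) + 1)) < ‖ev h p‖) →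
      dW (fun q => (ζ q : ℂ)) p v = 0 ∧ lev ζ p v = 0) :=
    fun n => hC h ((n : ℝ) + 1) (by have : (0 : ℝ) ≤ n := Nat.cast_nonneg n; linarith)
  choose ζ hζs hζ01 hζ0 hζ1 hζd hζl hζv using hch
  have hζc : ∀ n, ContDiff ℝ ∞ (fun q => (ζ n q : ℂ)) := fun n => Complex.ofRealCLM.contDiff.comp (hζs n)
  obtain ⟨Cg, hCg⟩ := (hg.continuous_fderiv (by simp)).bounded_above_of_compact_support (hc.fderiv ℝ)
  obtain ⟨Bg, hBg⟩ := hg.continuous.bounded_above_of_compact_support hc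
  have hCg0 : 0 ≤ Cg := (norm_nonneg _).trans (hCg 0)
  have hBg0 : 0 ≤ Bg := (norm_nonneg _).trans (hBg 0)
  have hTm : MeasurableSet (tsupport g) := (isClosed_tsupport g).measurableSet
  have hindm : Measurable ((tsupport g).indicator (fun _ : ℂ × ℂ => (1 : ℝ))) := measurable_const.indicator hTm
  have hind : Integrable ((tsupport g).indicator (fun _ : ℂ × ℂ => (1 : ℝ))) M := by
    rw [integrable_indicator_iff hTm]
    exact integrableOn_const hM.ne
  have hfi : Integrable (fun p => dW g p (vf A B p)) M := by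
    refine ((hind.add (LF_nsq_int hI)).const_mul Cg).mono (LF_contDiff_dW hg A B).1.continuous.aestronglyMeasurable
      (Filter.Eventually.of_forall (fun p => ?_))
    rw [Real.norm_eq_abs]
    refine le_trans ?_ (le_abs_self _)
    simp only [Pi.add_apply]
    by_cases hp : p ∈ tsupport g
    · rw [Set.indicator_of_mem hp]
      have h1 := LF_dW_bound g p (vf A B p)
      have h2 := (norm_sq_le_nsq (vf A B p)).1
      have h3 := hCg p
      have h4 : ‖vf A B p‖ ≤ 1 + nsq (vf A B p) := by nlinarith [sq_nonneg (‖vf A B p‖ - 1)]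
      calc ‖dW g p (vf A B p)‖ ≤ ‖fderiv ℝ g p‖ * ‖vf A B p‖ := h1
        _ ≤ Cg * (1 + nsq (vf A B p)) := mul_le_mul h3 h4 (norm_nonneg _) hCg0
    · rw [(LF_supp_dW hp _).1, norm_zero, Set.indicator_of_notMem hp, zero_add]
      exact mul_nonneg hCg0 (nsq_nonneg _)
  obtain ⟨m, hm⟩ : ∃ m : ℝ, m = (M (tsupport g)).toReal := ⟨_, rfl⟩
  have hm0 : 0 ≤ m := by rw [hm]; exact ENNReal.toReal_nonneg
  have hsM : ∫⁻ p, ENNReal.ofReal ((tsupport g).indicator (fun _ : ℂ × ℂ => (1 : ℝ)) p) ∂M ≤ ENNReal.ofReal m := by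
    have h1 : ∀ p, ENNReal.ofReal ((tsupport g).indicator (fun _ : ℂ × ℂ => (1 : ℝ)) p) =
        (tsupport g).indicator 1 p := by
      intro p
      by_cases hp : p ∈ tsupport g
      · rw [Set.indicator_of_mem hp, Set.indicator_of_mem hp, ENNReal.ofReal_one]; rfl
      · rw [Set.indicator_of_notMem hp, Set.indicator_of_notMem hp, ENNReal.ofReal_zero]
    simp_rw [h1]
    rw [lintegral_indicator_one hTm, hm, ENNReal.ofReal_toReal hM.ne]
  refine LF_conv hfi (ζ := ζ) (fun n => (hζs n).continuous.aestronglyMeasurable) hζ01 (LF_ae hI hζ1)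
    (R := fun n p => g p * dW (fun q => (ζ n q : ℂ)) p (vf A B p))
    (δ := fun n => (Bg * m + Bg * C ^ 2 * C') / Real.sqrt ((n : ℝ) + 1) + 0 / ((n : ℝ) + 1))
    (fun n => (hg.continuous.mul (LF_contDiff_dW (hζc n) A B).1.continuous).aestronglyMeasurable)
    (fun n => by positivity) (LF_rate _ _) ?_ ?_
  · intro n
    obtain ⟨K, hK⟩ : ∃ K : ℝ, K = (n : ℝ) + 1 := ⟨_, rfl⟩
    have hK1 : 1 ≤ K := by
      have : (0 : ℝ) ≤ n := Nat.cast_nonneg n
      linarith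
    have hK0 : 0 < K := by linarith
    obtain ⟨e, he⟩ : ∃ e : ℝ, e = 1 / Real.sqrt K := ⟨_, rfl⟩
    have hsq0 : 0 < Real.sqrt K := Real.sqrt_pos.2 hK0
    have he0 : 0 < e := by rw [he]; positivity
    have h2 := hC' K hK1 (fun p => Bg * (‖dW (fun q => (ζ n q : ℂ)) p (vf A B p)‖ ^ 2 / e))
      (Bg * ((C / K) ^ 2 / e)) (by positivity)
      (fun p hp => by
        have h3 := hζd n p (vf A B p) hp
        rw [← hK, fderiv_ev_vf] at h3
        have h4 : ‖dW (fun q => (ζ n q : ℂ)) p (vf A B p)‖ ^ 2 ≤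
            (C / K) ^ 2 * (‖ev (Zp A B h) p‖ / ‖ev h p‖) ^ 2 := by
          rw [← mul_pow]
          exact pow_le_pow_left₀ (norm_nonneg _) h3 2
        calc _ ≤ Bg * ((C / K) ^ 2 * (‖ev (Zp A B h) p‖ / ‖ev h p‖) ^ 2 / e) := by gcongr
          _ = _ := by ring)
      (fun p hp => by
        rw [hK] at hp
        rw [(hζv n p (vf A B p) (Or.inl hp)).1]
        simp)
    have h5 := LF_bound (R := fun p => g p * dW (fun q => (ζ n q : ℂ)) p (vf A B p)) hindm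
      (a := Bg * e) (by positivity) hm0 (W := Bg * ((C / K) ^ 2 / e) * (C' * K)) (by positivity) hsM h2
      (fun p => by
        rw [norm_mul]
        by_cases hp : p ∈ tsupport g
        · rw [Set.indicator_of_mem hp]
          have h6 := LF_ab ‖dW (fun q => (ζ n q : ℂ)) p (vf A B p)‖ e he0
          calc _ ≤ Bg * (e + ‖dW (fun q => (ζ n q : ℂ)) p (vf A B p)‖ ^ 2 / e) :=
                mul_le_mul (hBg p) h6 (norm_nonneg _) hBg0
            _ = _ := by ring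
        · rw [image_eq_zero_of_notMem_tsupport hp, norm_zero, zero_mul, Set.indicator_of_notMem hp]
          positivity)
    refine h5.trans (ENNReal.ofReal_le_ofReal (le_of_eq ?_))
    rw [← hK, he, zero_div, add_zero]
    have hsq : Real.sqrt K ^ 2 = K := Real.sq_sqrt hK0.le
    have hsq3 : C' * K = C' * Real.sqrt K ^ 2 := by rw [hsq]
    have hKK : C / K = C / Real.sqrt K ^ 2 := by rw [hsq]
    rw [hsq3, hKK]
    field_simp
  · intro n
    have h6 := LF_supp (F := fun q => g q * (ζ n q : ℂ)) (K := (n : ℝ) + 1) (isClosed_tsupport g) hs h0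
      (fun p hp => by rw [image_eq_zero_of_notMem_tsupport hp, zero_mul])
      (fun p hp => by rw [hζ0 n p hp, Complex.ofReal_zero, mul_zero])
    have h7 := hI.inv (fun q => g q * (ζ n q : ℂ)) (hg.mul (hζc n)) hc.mul_right h6.1
    rw [← h7]
    apply integral_congr_ae
    refine Filter.Eventually.of_forall (fun p => ?_)
    simp only
    rw [dW_mul (hg.differentiable (by simp) p) ((hζc n).differentiable (by simp) p), Complex.real_smul]
    ring

theorem inv_ext {A B h : P2} {ρ : ℝ} {M : Measure (ℂ × ℂ)} (hI : Inv0 A B h ρ M) (g : ℂ × ℂ → ℂ)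
    (hg : ContDiff ℝ ∞ g) (hc : HasCompactSupport g) (hs : tsupport g ⊆ Metric.ball 0 ρ)
    (h0 : ev h 0 = 0 ∨ (0 : ℂ × ℂ) ∉ tsupport g) (hM : M (tsupport g) < ⊤) :
    ∫ p, dW g p (vf A B p) ∂M = 0 ∧ ∫ p, dWb g p (vf A B p) ∂M = 0 := by
  refine ⟨LF_ext hI g hg hc hs h0 hM, ?_⟩
  have hcd : ContDiff ℝ ∞ (fun q => conj (g q)) := Complex.conjCLE.contDiff.comp hg
  have hsub : tsupport (fun q => conj (g q)) ⊆ tsupport g :=
    tsupport_comp_subset (g := fun z : ℂ => conj z) (map_zero _) g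
  have h1 := LF_ext hI (fun q => conj (g q)) hcd (hc.comp_left (g := fun z : ℂ => conj z) (map_zero _))
    (hsub.trans hs) (h0.imp_right (fun h2 h3 => h2 (hsub h3))) ((measure_mono hsub).trans_lt hM)
  have h2 : ∀ p, dW (fun q => conj (g q)) p (vf A B p) = conj (dWb g p (vf A B p)) :=
    fun p => (dW_conj g p _).1
  simp_rw [h2] at h1
  rw [integral_conj] at h1
  exact (map_eq_zero _).1 h1

theorem dd_of_inv {A B h : P2} {ρ : ℝ} {M : Measure (ℂ × ℂ)} (hI : Inv0 A B h ρ M) (h0 : ev h 0 = 0)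
    (G : ℂ × ℂ → ℝ) (hG : ContDiff ℝ ∞ G) (hc : HasCompactSupport G) (hs : tsupport G ⊆ Metric.ball 0 ρ) :
    ∫ p, lev G p (vf A B p) ∂M = 0 := by
  obtain ⟨C, hC0, hC⟩ := exists_logCutoff
  obtain ⟨C', hC'0, hC'⟩ := LF_energy hI
  have hch : ∀ n : ℕ, ∃ ζ : ℂ × ℂ → ℝ, ContDiff ℝ ∞ ζ ∧
    (∀ p, 0 ≤ ζ p ∧ ζ p ≤ 1) ∧ (∀ p, ‖ev h p‖ ≤ Real.exp (-(2 * ((n : ℝ) + 1))) → ζ p = 0) ∧
    (∀ p, Real.exp (-((n : ℝ) + 1)) ≤ ‖ev h p‖ → ζ p = 1) ∧
    (∀ p v, ev h p ≠ 0 → ‖dW (fun q => (ζ q : ℂ)) p v‖ ≤ C / ((n : ℝ) + 1) * (‖fderiv ℂ (ev h) p v‖ / ‖ev h p‖)) ∧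
    (∀ p v, ev h p ≠ 0 → |lev ζ p v| ≤ C / ((n : ℝ) + 1) ^ 2 * (‖fderiv ℂ (ev h) p v‖ / ‖ev h p‖) ^ 2) ∧
    (∀ p v, (‖ev h p‖ < Real.exp (-(2 * ((n : ℝ) + 1))) ∨ Real.exp (-((n : ℝ) + 1)) < ‖ev h p‖) →
      dW (fun q => (ζ q : ℂ)) p v = 0 ∧ lev ζ p v = 0) :=
    fun n => hC h ((n : ℝ) + 1) (by have : (0 : ℝ) ≤ n := Nat.cast_nonneg n; linarith)
  choose ζ hζs hζ01 hζ0 hζ1 hζd hζl hζv using hch
  have hD : ContDiff ℝ ∞ (fderiv ℝ G) := hG.fderiv_right (by simp)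
  obtain ⟨C1, hC1⟩ := (hG.continuous_fderiv (by simp)).bounded_above_of_compact_support (hc.fderiv ℝ)
  obtain ⟨C2, hC2⟩ := (hD.continuous_fderiv (by simp)).bounded_above_of_compact_support ((hc.fderiv ℝ).fderiv ℝ)
  obtain ⟨BG, hBG⟩ := hG.continuous.bounded_above_of_compact_support hc
  have hC10 : 0 ≤ C1 := (norm_nonneg _).trans (hC1 0)
  have hC20 : 0 ≤ C2 := (norm_nonneg _).trans (hC2 0)
  have hBG0 : 0 ≤ BG := (norm_nonneg _).trans (hBG 0)
  have hni := LF_nsq_int hI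
  have hnc : Continuous (fun p => nsq (vf A B p)) := by
    unfold nsq
    have h1 := LF_cont_vf A B
    exact (h1.fst.norm.pow 2).add (h1.snd.norm.pow 2)
  have hfi : Integrable (fun p => lev G p (vf A B p)) M := by
    refine (hni.const_mul (2 * C2)).mono (LF_cont_lev hG A B).aestronglyMeasurable
      (Filter.Eventually.of_forall (fun p => ?_))
    rw [Real.norm_eq_abs, Real.norm_eq_abs]
    refine le_trans ?_ (le_abs_self _)
    have h1 := LF_lev_bound G p (vf A B p)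
    have h2 := (norm_sq_le_nsq (vf A B p)).1
    calc _ ≤ 2 * ‖fderiv ℝ (fderiv ℝ G) p‖ * ‖vf A B p‖ ^ 2 := h1
      _ ≤ 2 * C2 * nsq (vf A B p) := mul_le_mul (by linarith [hC2 p]) h2 (sq_nonneg _) (by positivity)
  obtain ⟨m, hm⟩ : ∃ m : ℝ, m = (∫⁻ p, ENNReal.ofReal (nsq (vf A B p)) ∂M).toReal := ⟨_, rfl⟩
  have hm0 : 0 ≤ m := by rw [hm]; exact ENNReal.toReal_nonneg
  have hsM : ∫⁻ p, ENNReal.ofReal (nsq (vf A B p)) ∂M ≤ ENNReal.ofReal m := by
    rw [hm, ENNReal.ofReal_toReal hI.fin.ne]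
  have hcontDu : ∀ u : ℂ × ℂ → ℝ, ContDiff ℝ ∞ u → Continuous (fun p => fderiv ℝ u p (vf A B p)) ∧
      Continuous (fun p => fderiv ℝ u p (Complex.I • vf A B p)) := by
    intro u hu
    have h1 := hu.continuous_fderiv (by simp)
    have h3 := LF_cont_vf A B
    have h4 : Continuous (fun p => Complex.I • vf A B p) := h3.const_smul Complex.I
    exact ⟨h1.clm_apply h3, h1.clm_apply h4⟩
  refine LF_conv hfi (ζ := ζ) (fun n => (hζs n).continuous.aestronglyMeasurable) hζ01 (LF_ae hI hζ1)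
    (R := fun n p => G p * lev (ζ n) p (vf A B p) + 2 * (fderiv ℝ G p (vf A B p) * fderiv ℝ (ζ n) p (vf A B p) +
      fderiv ℝ G p (Complex.I • vf A B p) * fderiv ℝ (ζ n) p (Complex.I • vf A B p)))
    (δ := fun n => (8 * C1 * m + 8 * C1 * C ^ 2 * C') / Real.sqrt ((n : ℝ) + 1) + (BG * C * C') / ((n : ℝ) + 1))
    ?_ (fun n => by positivity) (LF_rate _ _) ?_ ?_
  · intro n
    apply Continuous.aestronglyMeasurable
    have h1 := (hcontDu G hG).1
    have h2 := (hcontDu G hG).2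
    have h3 := (hcontDu (ζ n) (hζs n)).1
    have h4 := (hcontDu (ζ n) (hζs n)).2
    exact (hG.continuous.mul (LF_cont_lev (hζs n) A B)).add (continuous_const.mul ((h1.mul h3).add (h2.mul h4)))
  · intro n
    obtain ⟨K, hK⟩ : ∃ K : ℝ, K = (n : ℝ) + 1 := ⟨_, rfl⟩
    have hK1 : 1 ≤ K := by
      have : (0 : ℝ) ≤ n := Nat.cast_nonneg n
      linarith
    have hK0 : 0 < K := by linarith
    obtain ⟨e, he⟩ : ∃ e : ℝ, e = 1 / Real.sqrt K := ⟨_, rfl⟩
    have hsq0 : 0 < Real.sqrt K := Real.sqrt_pos.2 hK0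
    have he0 : 0 < e := by rw [he]; positivity
    have h2 := hC' K hK1 (fun p => BG * |lev (ζ n) p (vf A B p)| +
        8 * C1 * (‖dW (fun q => (ζ n q : ℂ)) p (vf A B p)‖ ^ 2 / e))
      (BG * (C / K ^ 2) + 8 * C1 * ((C / K) ^ 2 / e)) (by positivity)
      (fun p hp => by
        have h3 := hζd n p (vf A B p) hp
        have h3' := hζl n p (vf A B p) hp
        rw [← hK, fderiv_ev_vf] at h3 h3'
        have h4 : ‖dW (fun q => (ζ n q : ℂ)) p (vf A B p)‖ ^ 2 ≤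
            (C / K) ^ 2 * (‖ev (Zp A B h) p‖ / ‖ev h p‖) ^ 2 := by
          rw [← mul_pow]
          exact pow_le_pow_left₀ (norm_nonneg _) h3 2
        calc _ ≤ BG * (C / K ^ 2 * (‖ev (Zp A B h) p‖ / ‖ev h p‖) ^ 2) +
              8 * C1 * ((C / K) ^ 2 * (‖ev (Zp A B h) p‖ / ‖ev h p‖) ^ 2 / e) := by gcongr
          _ = _ := by ring)
      (fun p hp => by
        rw [hK] at hp
        rw [(hζv n p (vf A B p) (Or.inl hp)).1, (hζv n p (vf A B p) (Or.inl hp)).2]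
        simp)
    have h5 := LF_bound (R := fun p => G p * lev (ζ n) p (vf A B p) +
        2 * (fderiv ℝ G p (vf A B p) * fderiv ℝ (ζ n) p (vf A B p) +
        fderiv ℝ G p (Complex.I • vf A B p) * fderiv ℝ (ζ n) p (Complex.I • vf A B p)))
      hnc.measurable (a := 8 * C1 * e) (by positivity) hm0
      (W := (BG * (C / K ^ 2) + 8 * C1 * ((C / K) ^ 2 / e)) * (C' * K)) (by positivity) hsM h2
      (fun p => by
        obtain ⟨x, hx⟩ : ∃ x : ℝ, x = ‖dW (fun q => (ζ n q : ℂ)) p (vf A B p)‖ := ⟨_, rfl⟩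
        have hx0 : 0 ≤ x := by rw [hx]; exact norm_nonneg _
        have h6 := (dW_real ((hζs n).differentiable (by simp) p) (vf A B p)).2.2
        rw [← hx] at h6
        have h7 : |fderiv ℝ (ζ n) p (vf A B p)| ≤ 2 * x := by
          apply abs_le_of_sq_le_sq _ (by positivity)
          nlinarith [sq_nonneg (fderiv ℝ (ζ n) p (Complex.I • vf A B p))]
        have h8 : |fderiv ℝ (ζ n) p (Complex.I • vf A B p)| ≤ 2 * x := by
          apply abs_le_of_sq_le_sq _ (by positivity)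
          nlinarith [sq_nonneg (fderiv ℝ (ζ n) p (vf A B p))]
        have h9 : |fderiv ℝ G p (vf A B p)| ≤ C1 * ‖vf A B p‖ :=
          ((fderiv ℝ G p).le_opNorm _).trans (mul_le_mul_of_nonneg_right (hC1 p) (norm_nonneg _))
        have h10 : |fderiv ℝ G p (Complex.I • vf A B p)| ≤ C1 * ‖vf A B p‖ := by
          have h11 := ((fderiv ℝ G p).le_opNorm (Complex.I • vf A B p)).trans
            (mul_le_mul_of_nonneg_right (hC1 p) (norm_nonneg _))
          rwa [LF_norm_I] at h11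
        have h12 : ‖vf A B p‖ * x ≤ e * nsq (vf A B p) + x ^ 2 / e := by
          have h13 := (norm_sq_le_nsq (vf A B p)).1
          have h14 : ‖vf A B p‖ * x ≤ e * ‖vf A B p‖ ^ 2 + x ^ 2 / e := by
            rw [← sub_nonneg]
            have h15 : e * ‖vf A B p‖ ^ 2 + x ^ 2 / e - ‖vf A B p‖ * x =
                ((e * ‖vf A B p‖ - x / 2) ^ 2 + 3 / 4 * x ^ 2) / e := by
              field_simp
              ring
            rw [h15]
            positivity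
          nlinarith
        rw [← hx]
        calc ‖G p * lev (ζ n) p (vf A B p) +
              2 * (fderiv ℝ G p (vf A B p) * fderiv ℝ (ζ n) p (vf A B p) +
              fderiv ℝ G p (Complex.I • vf A B p) * fderiv ℝ (ζ n) p (Complex.I • vf A B p))‖
            ≤ |G p| * |lev (ζ n) p (vf A B p)| + 2 * (|fderiv ℝ G p (vf A B p)| * |fderiv ℝ (ζ n) p (vf A B p)| +
              |fderiv ℝ G p (Complex.I • vf A B p)| * |fderiv ℝ (ζ n) p (Complex.I • vf A B p)|) := by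
              rw [Real.norm_eq_abs, ← abs_mul, ← abs_mul, ← abs_mul]
              refine (abs_add_le _ _).trans ?_
              rw [abs_mul (2 : ℝ), abs_two]
              have := abs_add_le (fderiv ℝ G p (vf A B p) * fderiv ℝ (ζ n) p (vf A B p))
                (fderiv ℝ G p (Complex.I • vf A B p) * fderiv ℝ (ζ n) p (Complex.I • vf A B p))
              linarith
          _ ≤ BG * |lev (ζ n) p (vf A B p)| + 2 * ((C1 * ‖vf A B p‖) * (2 * x) + (C1 * ‖vf A B p‖) * (2 * x)) := by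
              have h16 : |G p| ≤ BG := hBG p
              gcongr
          _ = BG * |lev (ζ n) p (vf A B p)| + 8 * C1 * (‖vf A B p‖ * x) := by ring
          _ ≤ BG * |lev (ζ n) p (vf A B p)| + 8 * C1 * (e * nsq (vf A B p) + x ^ 2 / e) := by gcongr
          _ = _ := by ring)
    refine h5.trans (ENNReal.ofReal_le_ofReal (le_of_eq ?_))
    rw [← hK, he]
    have hsq : Real.sqrt K ^ 2 = K := Real.sq_sqrt hK0.le
    obtain ⟨t, ht⟩ : ∃ t : ℝ, t = Real.sqrt K := ⟨_, rfl⟩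
    rw [← ht] at hsq hsq0 ⊢
    rw [← hsq]
    field_simp
    ring
  · intro n
    have h6 := LF_supp (F := fun q => G q * ζ n q) (K := (n : ℝ) + 1) (isClosed_tsupport G) hs (Or.inl h0)
      (fun p hp => by rw [image_eq_zero_of_notMem_tsupport hp, zero_mul])
      (fun p hp => by rw [hζ0 n p hp, mul_zero])
    have h7 := lev_dom hI (fun q => G q * ζ n q) (hG.mul (hζs n)) hc.mul_right h6.1
    rw [← h7]
    apply integral_congr_ae
    refine Filter.Eventually.of_forall (fun p => ?_)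
    simp only
    rw [lev_mul (LF_two hG).contDiffAt (LF_two (hζs n)).contDiffAt, smul_eq_mul]
    ring

end FC76
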