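import Pool.Agent.H76.FL.LF
import Pool.Agent.H76.FL.LD

/-!
# Row LH: energy estimates with plurisubharmonic weights

S := ‖f1‖^2 + ‖f2‖^2 (evaluated), u := log S.  Choose Φ, c from `exists_convexCutoff`, and a smooth χ, 0 <= χ <= 1, χ = 1 on the closed ball ρ1/2, compact
support in the ball ρ1 (sup norm ball of ℂ x ℂ; `exists_contDiff_tsupport_subset` or ContDiffBump in a normed space with smooth norm is not available for sup norm:
use products of bumps in each coordinate, or `exists_smooth_zero_one_of_isClosed` / `exists_contMDiff...`).  For R real put R' := R + 2 and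
 Ψ_R(p) := Φ(log S(p) + R') if S(p) > 0, 0 if S(p) = 0.   Ψ_R is smooth (it vanishes where S < e^(-R')).
 G_R := χ (Ψ_R - R'), smooth with compact support in ball ρ: 0 = ∫ lev G_R(Z) dM (`Inv.dd`).
 lev G_R = χ lev Ψ_R + (Ψ_R - R') lev χ + 2 (Dχ DΨ_R + Dχ(i.) DΨ_R(i.)) (`lev_mul`).
 At S > 0: lev Ψ_R = Φ'(u+R') lev u + Φ''(u+R') |grad u|^2 = 4 Φ' E1 + 4 Φ'' E2, with E1 = ‖f1 Zf2 - f2 Zf1‖^2/S^2, E2 = ‖conj f1 Zf1 + conj f2 Zf2‖^2/S^2
 (`lev_comp`, `lev_logPair`, `grad_logPair`, `fderiv_ev_vf`); at S = 0 both lev Ψ_R and E1, E2 (division by zero) vanish.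
 On the set where Dχ or lev χ is nonzero (ρ1/2 <= ‖p‖ <= ρ1, compact) c1 <= S <= c2 with c1 > 0, and the derivatives of u are bounded.
 Let R0 be such that S < e^(R0) on the ball ρ1.  For R >= -R0 - 2:  |Ψ_R - R'| <= C there: if u + R' >= 0 then |Φ(u+R') - (u+R')| <= 3, |u| bounded;
 if u + R' < 0 then Ψ = 0 and R' < -u is bounded above, and below by -R0.  |DΨ_R(Z)| <= |Du(Z)| <= C ‖Z‖.  |lev χ(Z)|, |Dχ(Z)| <= C ‖Z‖^2, C‖Z‖.
 Hence ∫ χ (4 Φ' E1 + 4 Φ'' E2) dM <= C ∫ nsq Z dM =: C0 < oo for all R >= -R0-2 (all integrals finite: integrands bounded by C_R nsq Z).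
 (a) R -> oo: Φ'(u+R') -> 1 where S > 0: Fatou (or monotone) gives ∫_{ball ρ1/2} E1 <= C0/4.
 (b) on {e^(-(R+1)) <= S <= e^(-R)}: u + R' in [1,2], Φ'' >= c: ∫ E2 <= C0/(4c).  For R < -R0 - 2 that set is empty in the ball.
-/

open MvPolynomial MeasureTheory
open scoped ContDiff ComplexConjugate

namespace FC76

theorem LH_two : (2 : WithTop ℕ∞) ≤ ∞ := ENat.LEInfty.out

theorem LH_congr {G G' : ℂ × ℂ → ℝ} {p : ℂ × ℂ} (h : G =ᶠ[nhds p] G') (v : ℂ × ℂ) :
    lev G p v = lev G' p v := by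
  unfold lev
  rw [h.fderiv.fderiv_eq]

theorem LH_const (c : ℝ) (p v : ℂ × ℂ) : lev (fun _ => c) p v = 0 := by
  unfold lev
  simp

theorem LH_cont (A B : P2) {G : ℂ × ℂ → ℝ} (hG : ContDiff ℝ ∞ G) :
    Continuous fun p => lev G p (vf A B p) := by
  have h1 : ContDiff ℝ ∞ (fderiv ℝ G) := hG.fderiv_right (by simp)
  have h2 : Continuous (fderiv ℝ (fderiv ℝ G)) := h1.continuous_fderiv (by simp)
  have hZ := (contDiff_vf A B).continuous
  have hZI : Continuous fun p => Complex.I • vf A B p := hZ.const_smul Complex.I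
  unfold lev
  exact ((h2.clm_apply hZ).clm_apply hZ).add ((h2.clm_apply hZI).clm_apply hZI)

theorem LH_contD (A B : P2) {G : ℂ × ℂ → ℝ} (hG : ContDiff ℝ ∞ G) :
    Continuous (fun p => fderiv ℝ G p (vf A B p)) ∧
      Continuous fun p => fderiv ℝ G p (Complex.I • vf A B p) := by
  have h2 : Continuous (fderiv ℝ G) := hG.continuous_fderiv (by simp)
  have hZ := (contDiff_vf A B).continuous
  have hZI : Continuous fun p => Complex.I • vf A B p := hZ.const_smul Complex.I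
  exact ⟨h2.clm_apply hZ, h2.clm_apply hZI⟩

theorem LH_I (v : ℂ × ℂ) : ‖Complex.I • v‖ = ‖v‖ := by
  rw [norm_smul, Complex.norm_I, one_mul]

theorem LH_off {G : ℂ × ℂ → ℝ} {p : ℂ × ℂ} (hp : p ∉ tsupport G) :
    fderiv ℝ G p = 0 ∧ fderiv ℝ (fderiv ℝ G) p = 0 := by
  have h1 : G =ᶠ[nhds p] 0 := notMem_tsupport_iff_eventuallyEq.1 hp
  have h2 : G =ᶠ[nhds p] fun _ => (0 : ℝ) := h1
  constructor
  · rw [h2.fderiv_eq]
    simp
  · rw [h2.fderiv.fderiv_eq]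
    simp

theorem LH_lev_le {G : ℂ × ℂ → ℝ} {p : ℂ × ℂ} {C : ℝ} (h : ‖fderiv ℝ (fderiv ℝ G) p‖ ≤ C)
    (v : ℂ × ℂ) : |lev G p v| ≤ 2 * C * ‖v‖ ^ 2 := by
  have h3 : ∀ v : ℂ × ℂ, |fderiv ℝ (fderiv ℝ G) p v v| ≤ C * ‖v‖ ^ 2 := by
    intro v
    have h4 : ‖fderiv ℝ (fderiv ℝ G) p v v‖ ≤ ‖fderiv ℝ (fderiv ℝ G) p v‖ * ‖v‖ :=
      (fderiv ℝ (fderiv ℝ G) p v).le_opNorm v
    have h5 : ‖fderiv ℝ (fderiv ℝ G) p v‖ ≤ ‖fderiv ℝ (fderiv ℝ G) p‖ * ‖v‖ :=
      (fderiv ℝ (fderiv ℝ G) p).le_opNorm v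
    rw [Real.norm_eq_abs] at h4
    have h6 : ‖fderiv ℝ (fderiv ℝ G) p v‖ * ‖v‖ ≤ C * ‖v‖ * ‖v‖ :=
      mul_le_mul_of_nonneg_right (h5.trans (mul_le_mul_of_nonneg_right h (norm_nonneg v)))
        (norm_nonneg v)
    refine h4.trans (h6.trans (le_of_eq ?_))
    ring
  have h4 := h3 v
  have h5 := h3 (Complex.I • v)
  rw [LH_I] at h5
  unfold lev
  refine (abs_add_le _ _).trans ?_
  linarith

theorem LH_normc {E F X : Type*} [NormedAddCommGroup E] [NormedSpace ℝ E]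
    [NormedAddCommGroup F] [NormedSpace ℝ F] [TopologicalSpace X] {f : X → E →L[ℝ] F}
    (hf : Continuous f) : Continuous fun p => ‖f p‖ := hf.norm

theorem LH_bound {G : ℂ × ℂ → ℝ} (hG : ContDiff ℝ ∞ G) (hc : HasCompactSupport G) :
    ∃ C : ℝ, 0 ≤ C ∧ ∀ p v, |lev G p v| ≤ C * ‖v‖ ^ 2 ∧ ‖fderiv ℝ G p‖ ≤ C := by
  have h1 : ContDiff ℝ ∞ (fderiv ℝ G) := hG.fderiv_right (by simp)
  have h2 : Continuous (fderiv ℝ (fderiv ℝ G)) := h1.continuous_fderiv (by simp)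
  have g1 : Continuous fun p => ‖fderiv ℝ G p‖ := LH_normc h1.continuous
  have g2 : Continuous fun p => ‖fderiv ℝ (fderiv ℝ G) p‖ := LH_normc h2
  have hK : IsCompact (tsupport G) := hc
  obtain ⟨C1, hC1⟩ := hK.exists_bound_of_continuousOn g1.continuousOn
  obtain ⟨C2, hC2⟩ := hK.exists_bound_of_continuousOn g2.continuousOn
  have e1 : ∀ p, ‖fderiv ℝ G p‖ ≤ max C1 0 := by
    intro p
    by_cases hp : p ∈ tsupport G
    · have := hC1 p hp
      rw [norm_norm] at this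
      exact this.trans (le_max_left _ _)
    · rw [(LH_off hp).1, norm_zero]
      exact le_max_right _ _
  have e2 : ∀ p, ‖fderiv ℝ (fderiv ℝ G) p‖ ≤ max C2 0 := by
    intro p
    by_cases hp : p ∈ tsupport G
    · exact (Real.le_norm_self _).trans ((hC2 p hp).trans (le_max_left _ _))
    · rw [(LH_off hp).2]
      exact ContinuousLinearMap.opNorm_zero.le.trans (le_max_right _ _)
  have p1 : 0 ≤ max C1 0 := le_max_right _ _
  have p2 : 0 ≤ max C2 0 := le_max_right _ _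
  refine ⟨max C1 0 + 2 * max C2 0, by positivity, fun p v => ⟨?_, ?_⟩⟩
  · refine (LH_lev_le (e2 p) v).trans ?_
    exact mul_le_mul_of_nonneg_right (by linarith) (sq_nonneg _)
  · exact (e1 p).trans (by linarith)

/-- the composed weight -/
noncomputable def LH_g (Φ : ℝ → ℝ) (S : ℂ × ℂ → ℝ) (s : ℝ) (p : ℂ × ℂ) : ℝ :=
  (if 0 < S p then Φ (Real.log (S p) + s) else 0) - s

theorem LH_near0 {Φ : ℝ → ℝ} {S : ℂ × ℂ → ℝ} (hS : Continuous S) (h0 : ∀ t ≤ 0, Φ t = 0)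
    {s : ℝ} {p : ℂ × ℂ} (hp : S p ≤ 0) : LH_g Φ S s =ᶠ[nhds p] fun _ => -s := by
  have h1 : ∀ᶠ q in nhds p, S q < Real.exp (-s) :=
    hS.continuousAt.eventually (gt_mem_nhds (lt_of_le_of_lt hp (Real.exp_pos _)))
  filter_upwards [h1] with q hq
  unfold LH_g
  split_ifs with h
  · have h2 : Real.log (S q) < -s := (Real.log_lt_iff_lt_exp h).2 hq
    rw [h0 _ (by linarith)]
    ring
  · ring

theorem LH_near {Φ : ℝ → ℝ} {S : ℂ × ℂ → ℝ} (hS : Continuous S)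
    {s : ℝ} {p : ℂ × ℂ} (hp : 0 < S p) :
    LH_g Φ S s =ᶠ[nhds p] fun q => (fun t => Φ (t + s) - s) (Real.log (S q)) := by
  have h1 : ∀ᶠ q in nhds p, 0 < S q := hS.continuousAt.eventually (lt_mem_nhds hp)
  filter_upwards [h1] with q hq
  unfold LH_g
  rw [if_pos hq]

theorem LH_smooth {Φ : ℝ → ℝ} {S : ℂ × ℂ → ℝ} (hΦ : ContDiff ℝ ∞ Φ) (hS : ContDiff ℝ ∞ S)
    (h0 : ∀ t ≤ 0, Φ t = 0) (s : ℝ) : ContDiff ℝ ∞ (LH_g Φ S s) := by
  rw [contDiff_iff_contDiffAt]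
  intro p
  by_cases hp : 0 < S p
  · refine ContDiffAt.congr_of_eventuallyEq ?_ (LH_near hS.continuous hp)
    have h1 : ContDiffAt ℝ ∞ (fun q => Real.log (S q)) p := hS.contDiffAt.log hp.ne'
    have h2 : ContDiff ℝ ∞ (fun t : ℝ => Φ (t + s) - s) :=
      (hΦ.comp (contDiff_id.add contDiff_const)).sub contDiff_const
    exact h2.contDiffAt.comp p h1
  · exact ContDiffAt.congr_of_eventuallyEq contDiffAt_const
      (LH_near0 hS.continuous h0 (not_lt.1 hp))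

theorem LH_dPhi (Φ : ℝ → ℝ) (s : ℝ) : deriv (fun t => Φ (t + s) - s) = fun t => deriv Φ (t + s) := by
  funext t
  rw [deriv_sub_const, deriv_comp_add_const]

/-- the sum of squares -/
noncomputable def LH_S (f1 f2 : P2) (q : ℂ × ℂ) : ℝ := ‖ev f1 q‖ ^ 2 + ‖ev f2 q‖ ^ 2

noncomputable def LH_E1 (A B f1 f2 : P2) (p : ℂ × ℂ) : ℝ :=
  ‖ev f1 p * ev (Zp A B f2) p - ev f2 p * ev (Zp A B f1) p‖ ^ 2 /
    (‖ev f1 p‖ ^ 2 + ‖ev f2 p‖ ^ 2) ^ 2

noncomputable def LH_E2 (A B f1 f2 : P2) (p : ℂ × ℂ) : ℝ :=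
  ‖conj (ev f1 p) * ev (Zp A B f1) p + conj (ev f2 p) * ev (Zp A B f2) p‖ ^ 2 /
    (‖ev f1 p‖ ^ 2 + ‖ev f2 p‖ ^ 2) ^ 2

theorem LH_S_smooth (f1 f2 : P2) : ContDiff ℝ ∞ (LH_S f1 f2) :=
  ((contDiff_real_ev f1).norm_sq ℝ).add ((contDiff_real_ev f2).norm_sq ℝ)

theorem LH_S_nonneg (f1 f2 : P2) (p : ℂ × ℂ) : 0 ≤ LH_S f1 f2 p := by
  unfold LH_S
  positivity

theorem LH_S_ne (f1 f2 : P2) (p : ℂ × ℂ) (h : 0 < LH_S f1 f2 p) : ev f1 p ≠ 0 ∨ ev f2 p ≠ 0 := by
  by_contra hc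
  push Not at hc
  unfold LH_S at h
  rw [hc.1, hc.2] at h
  simp at h

theorem LH_S_pos (f1 f2 : P2) (p : ℂ × ℂ) (h : ev f1 p ≠ 0 ∨ ev f2 p ≠ 0) : 0 < LH_S f1 f2 p := by
  unfold LH_S
  rcases h with h | h
  · have := norm_pos_iff.2 h
    positivity
  · have := norm_pos_iff.2 h
    positivity

theorem LH_E1_nonneg (A B f1 f2 : P2) (p : ℂ × ℂ) : 0 ≤ LH_E1 A B f1 f2 p := by
  unfold LH_E1
  positivity

theorem LH_E2_nonneg (A B f1 f2 : P2) (p : ℂ × ℂ) : 0 ≤ LH_E2 A B f1 f2 p := by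
  unfold LH_E2
  positivity

theorem LH_lev_g (A B f1 f2 : P2) {Φ : ℝ → ℝ} (hΦ : ContDiff ℝ ∞ Φ) (h0 : ∀ t ≤ 0, Φ t = 0)
    (s : ℝ) (p : ℂ × ℂ) : lev (LH_g Φ (LH_S f1 f2) s) p (vf A B p) =
      4 * (deriv Φ (Real.log (LH_S f1 f2 p) + s) * LH_E1 A B f1 f2 p +
        deriv (deriv Φ) (Real.log (LH_S f1 f2 p) + s) * LH_E2 A B f1 f2 p) := by
  have hS := LH_S_smooth f1 f2
  by_cases hp : 0 < LH_S f1 f2 p
  · rw [LH_congr (LH_near hS.continuous hp)]
    have h1 : ContDiffAt ℝ 2 (fun t : ℝ => Φ (t + s) - s) (Real.log (LH_S f1 f2 p)) := by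
      have h2 : ContDiff ℝ ∞ (fun t : ℝ => Φ (t + s) - s) :=
        (hΦ.comp (contDiff_id.add contDiff_const)).sub contDiff_const
      exact (h2.of_le LH_two).contDiffAt
    have h2 : ContDiffAt ℝ 2 (fun q => Real.log (LH_S f1 f2 q)) p :=
      ((hS.of_le LH_two).contDiffAt).log hp.ne'
    have h3 := lev_comp h1 h2 (vf A B p)
    rw [h3, LH_dPhi, deriv_comp_add_const]
    have h4 := lev_logPair (analyticAt_ev f1 p) (analyticAt_ev f2 p) (LH_S_ne f1 f2 p hp)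
      (vf A B p)
    have h5 := grad_logPair (analyticAt_ev f1 p) (analyticAt_ev f2 p) (LH_S_ne f1 f2 p hp)
      (vf A B p)
    rw [fderiv_ev_vf, fderiv_ev_vf] at h4 h5
    have e1 : (fun q => Real.log (LH_S f1 f2 q)) =
      fun q => Real.log (‖ev f1 q‖ ^ 2 + ‖ev f2 q‖ ^ 2) := rfl
    rw [e1, h4, h5, LH_E1, LH_E2]
    ring
  · rw [LH_congr (LH_near0 hS.continuous h0 (not_lt.1 hp)), LH_const]
    have h1 : ‖ev f1 p‖ ^ 2 + ‖ev f2 p‖ ^ 2 = 0 :=
      le_antisymm (not_lt.1 hp) (LH_S_nonneg f1 f2 p)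
    rw [LH_E1, LH_E2, h1]
    simp

theorem LH_fd_g (f1 f2 : P2) {Φ : ℝ → ℝ} (hΦ : ContDiff ℝ ∞ Φ)
    (h01 : ∀ t, 0 ≤ deriv Φ t ∧ deriv Φ t ≤ 1) (s : ℝ) (p v : ℂ × ℂ)
    (hp : 0 < LH_S f1 f2 p) : |fderiv ℝ (LH_g Φ (LH_S f1 f2) s) p v| ≤
      |fderiv ℝ (fun q => Real.log (LH_S f1 f2 q)) p v| := by
  have hS := LH_S_smooth f1 f2
  rw [(LH_near hS.continuous hp).fderiv_eq]
  have h1 : HasDerivAt (fun t : ℝ => Φ (t + s) - s) (deriv Φ (Real.log (LH_S f1 f2 p) + s))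
      (Real.log (LH_S f1 f2 p)) := by
    have h2 : Differentiable ℝ (fun t : ℝ => Φ (t + s) - s) :=
      ((hΦ.comp (contDiff_id.add contDiff_const)).sub contDiff_const).differentiable (by simp)
    have h3 := (h2 (Real.log (LH_S f1 f2 p))).hasDerivAt
    rwa [LH_dPhi] at h3
  have h2 : HasFDerivAt (fun q => Real.log (LH_S f1 f2 q))
      (fderiv ℝ (fun q => Real.log (LH_S f1 f2 q)) p) p :=
    ((hS.contDiffAt.log hp.ne').differentiableAt (by simp)).hasFDerivAt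
  have h3 := h1.comp_hasFDerivAt p h2
  have h4 : fderiv ℝ (fun q => (fun t : ℝ => Φ (t + s) - s) (Real.log (LH_S f1 f2 q))) p =
      deriv Φ (Real.log (LH_S f1 f2 p) + s) •
        fderiv ℝ (fun q => Real.log (LH_S f1 f2 q)) p := h3.fderiv
  rw [h4, _root_.smul_apply, smul_eq_mul, abs_mul,
    abs_of_nonneg (h01 _).1]
  exact mul_le_of_le_one_left (abs_nonneg _) (h01 _).2

/-- the bump function -/
noncomputable def LH_chi (ρ1 : ℝ) (h : 0 < ρ1) : ContDiffBump (0 : ℂ × ℂ) :=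
  ⟨ρ1 / 2, 3 * ρ1 / 4, by linarith, by linarith⟩

theorem LH_main {A B h : P2} {ρ : ℝ} {M : Measure (ℂ × ℂ)} (hI : Inv A B h ρ M) (f1 f2 : P2)
    (ρ1 : ℝ) (hρ1 : 0 < ρ1) (hρ : ρ1 < ρ)
    (hne : ∀ p : ℂ × ℂ, ρ1 / 2 ≤ ‖p‖ → ‖p‖ ≤ ρ1 → ev f1 p ≠ 0 ∨ ev f2 p ≠ 0) (R0 : ℝ)
    {Φ : ℝ → ℝ} (hΦ : ContDiff ℝ ∞ Φ) (h0 : ∀ t ≤ 0, Φ t = 0)
    (h01 : ∀ t, 0 ≤ deriv Φ t ∧ deriv Φ t ≤ 1) (h2 : ∀ t, 0 ≤ deriv (deriv Φ) t)
    (h3 : ∀ t, 0 ≤ t → |Φ t - t| ≤ 3) :
    ∃ C : ℝ, 0 ≤ C ∧ ∀ s, -R0 ≤ s → ∃ H : ℂ × ℂ → ℝ, Continuous H ∧ (∀ p, 0 ≤ H p) ∧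
      (∀ p ∈ Metric.ball (0 : ℂ × ℂ) (ρ1 / 2), H p =
        4 * (deriv Φ (Real.log (LH_S f1 f2 p) + s) * LH_E1 A B f1 f2 p +
        deriv (deriv Φ) (Real.log (LH_S f1 f2 p) + s) * LH_E2 A B f1 f2 p)) ∧
      ∫⁻ p, ENNReal.ofReal (H p) ∂M ≤ ENNReal.ofReal C := by
  set χ := LH_chi ρ1 hρ1 with hχ
  have hrIn : χ.rIn = ρ1 / 2 := rfl
  have hrOut : χ.rOut = 3 * ρ1 / 4 := rfl
  have hχs : ContDiff ℝ ∞ χ := χ.contDiff
  have hχc : HasCompactSupport χ := χ.hasCompactSupport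
  have hχt : tsupport χ = Metric.closedBall 0 (3 * ρ1 / 4) := by
    rw [χ.tsupport_eq, hrOut]
  have hS := LH_S_smooth f1 f2
  have hZ := (contDiff_vf A B).continuous
  -- the energy
  have hwc : Continuous fun p => nsq (vf A B p) := by
    unfold nsq
    exact ((continuous_fst.comp hZ).norm.pow 2).add ((continuous_snd.comp hZ).norm.pow 2)
  have hwi : Integrable (fun p => nsq (vf A B p)) M := by
    refine ⟨hwc.aestronglyMeasurable, ?_⟩
    rw [hasFiniteIntegral_iff_ofReal (Filter.Eventually.of_forall fun p => nsq_nonneg _)]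
    exact hI.fin
  -- the shell
  set K : Set (ℂ × ℂ) := Metric.closedBall 0 ρ1 \ Metric.ball 0 (ρ1 / 2) with hK
  have hKc : IsCompact K := (isCompact_closedBall 0 ρ1).diff Metric.isOpen_ball
  have hKmem : ∀ p, p ∈ K → 0 < LH_S f1 f2 p := by
    intro p hp
    rw [hK, Set.mem_sdiff, mem_closedBall_zero_iff, mem_ball_zero_iff, not_lt] at hp
    exact LH_S_pos f1 f2 p (hne p hp.2 hp.1)
  have hO : IsOpen {p | 0 < LH_S f1 f2 p} := isOpen_lt continuous_const hS.continuous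
  have hu : ContDiffOn ℝ ∞ (fun q => Real.log (LH_S f1 f2 q)) {p | 0 < LH_S f1 f2 p} :=
    hS.contDiffOn.log fun p hp => ne_of_gt hp
  obtain ⟨U, hU⟩ := hKc.exists_bound_of_continuousOn (hu.continuousOn.mono hKmem)
  have hdu : ContinuousOn (fun p => fderiv ℝ (fun q => Real.log (LH_S f1 f2 q)) p) K :=
    (hu.continuousOn_fderiv_of_isOpen hO (by simp)).mono hKmem
  obtain ⟨D, hD⟩ := hKc.exists_bound_of_continuousOn hdu
  obtain ⟨Cχ, hCχ0, hCχ⟩ := LH_bound hχs hχc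
  set U' := max U 0 with hU'
  set D' := max D 0 with hD'
  set R' := max R0 0 with hR'
  have hU0 : 0 ≤ U' := le_max_right _ _
  have hD0 : 0 ≤ D' := le_max_right _ _
  have hR0 : 0 ≤ R' := le_max_right _ _
  set C1 : ℝ := (3 + U' + R') * Cχ + 4 * (Cχ * D') with hC1
  have hC10 : 0 ≤ C1 := by positivity
  refine ⟨C1 * ∫ p, nsq (vf A B p) ∂M, mul_nonneg hC10 (integral_nonneg fun p => nsq_nonneg _),
    fun s hs => ?_⟩
  set g := LH_g Φ (LH_S f1 f2) s with hg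
  have hgs : ContDiff ℝ ∞ g := LH_smooth hΦ hS h0 s
  have hgl : ∀ p, lev g p (vf A B p) =
      4 * (deriv Φ (Real.log (LH_S f1 f2 p) + s) * LH_E1 A B f1 f2 p +
        deriv (deriv Φ) (Real.log (LH_S f1 f2 p) + s) * LH_E2 A B f1 f2 p) :=
    fun p => LH_lev_g A B f1 f2 hΦ h0 s p
  have hgl0 : ∀ p, 0 ≤ lev g p (vf A B p) := by
    intro p
    rw [hgl]
    have e1 := mul_nonneg (h01 (Real.log (LH_S f1 f2 p) + s)).1 (LH_E1_nonneg A B f1 f2 p)
    have e2 := mul_nonneg (h2 (Real.log (LH_S f1 f2 p) + s)) (LH_E2_nonneg A B f1 f2 p)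
    linarith
  -- the error term
  set er : ℂ × ℂ → ℝ := fun p => g p * lev χ p (vf A B p) +
    2 * (fderiv ℝ χ p (vf A B p) * fderiv ℝ g p (vf A B p) +
      fderiv ℝ χ p (Complex.I • vf A B p) * fderiv ℝ g p (Complex.I • vf A B p)) with her
  have hG := hχs.mul hgs
  have hGl : ∀ p, lev (fun q => χ q * g q) p (vf A B p) = χ p * lev g p (vf A B p) + er p := by
    intro p
    have := lev_mul ((hχs.of_le LH_two).contDiffAt (x := p)) ((hgs.of_le LH_two).contDiffAt (x := p))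
      (vf A B p)
    rw [this, her]
    ring
  have hGc : HasCompactSupport (fun q => χ q * g q) := hχc.mul_right
  have hGt : tsupport (fun q => χ q * g q) ⊆ Metric.ball 0 ρ := by
    refine (tsupport_mul_subset_left).trans ?_
    rw [hχt]
    intro p hp
    rw [mem_closedBall_zero_iff] at hp
    rw [mem_ball_zero_iff]
    linarith
  have hdd := hI.dd _ hG hGc hGt
  -- continuity
  have hHc : Continuous fun p => χ p * lev g p (vf A B p) :=
    hχs.continuous.mul (LH_cont A B hgs)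
  have herc : Continuous er := by
    have c1 := LH_cont A B hχs
    obtain ⟨c2, c3⟩ := LH_contD A B hχs
    obtain ⟨c4, c5⟩ := LH_contD A B hgs
    exact (hgs.continuous.mul c1).add (continuous_const.mul ((c2.mul c4).add (c3.mul c5)))
  -- the bound of the error term
  have hergle : ∀ p, |er p| ≤ C1 * nsq (vf A B p) := by
    intro p
    have hn := (norm_sq_le_nsq (vf A B p)).1
    by_cases hp : p ∈ K
    · have hpS := hKmem p hp
      have u1 : |Real.log (LH_S f1 f2 p)| ≤ U' := (hU p hp).trans (le_max_left _ _)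
      have d1 : ‖fderiv ℝ (fun q => Real.log (LH_S f1 f2 q)) p‖ ≤ D' :=
        (hD p hp).trans (le_max_left _ _)
      have g1 : |g p| ≤ 3 + U' + R' := by
        rw [hg, LH_g, if_pos hpS]
        rcases le_total 0 (Real.log (LH_S f1 f2 p) + s) with hh | hh
        · have e1 := h3 _ hh
          rw [abs_le] at e1 u1 ⊢
          constructor <;> linarith
        · rw [h0 _ hh]
          have e2 : -R' ≤ s := le_trans (neg_le_neg (le_max_left _ _)) hs
          rw [abs_le] at u1 ⊢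
          constructor <;> linarith
      have dg : ∀ v : ℂ × ℂ, |fderiv ℝ g p v| ≤ D' * ‖v‖ := by
        intro v
        refine (LH_fd_g f1 f2 hΦ h01 s p v hpS).trans ?_
        have := (fderiv ℝ (fun q => Real.log (LH_S f1 f2 q)) p).le_opNorm v
        rw [Real.norm_eq_abs] at this
        exact this.trans (mul_le_mul_of_nonneg_right d1 (norm_nonneg _))
      have dχ : ∀ v : ℂ × ℂ, |fderiv ℝ χ p v| ≤ Cχ * ‖v‖ := by
        intro v
        have := (fderiv ℝ χ p).le_opNorm v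
        rw [Real.norm_eq_abs] at this
        exact this.trans (mul_le_mul_of_nonneg_right (hCχ p v).2 (norm_nonneg _))
      have l1 := (hCχ p (vf A B p)).1
      have m1 : |g p * lev χ p (vf A B p)| ≤ (3 + U' + R') * (Cχ * ‖vf A B p‖ ^ 2) := by
        rw [abs_mul]
        exact mul_le_mul g1 l1 (abs_nonneg _) (by positivity)
      have m2 : ∀ v : ℂ × ℂ, |fderiv ℝ χ p v * fderiv ℝ g p v| ≤ Cχ * D' * ‖v‖ ^ 2 := by
        intro v
        rw [abs_mul]
        have := mul_le_mul (dχ v) (dg v) (abs_nonneg _) (by positivity)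
        refine this.trans (le_of_eq ?_)
        ring
      have m3 := m2 (vf A B p)
      have m4 := m2 (Complex.I • vf A B p)
      rw [LH_I] at m4
      have m5 : |er p| ≤ C1 * ‖vf A B p‖ ^ 2 := by
        rw [her]
        refine (abs_add_le _ _).trans ?_
        have m6 : |2 * (fderiv ℝ χ p (vf A B p) * fderiv ℝ g p (vf A B p) +
            fderiv ℝ χ p (Complex.I • vf A B p) * fderiv ℝ g p (Complex.I • vf A B p))| ≤
            2 * (Cχ * D' * ‖vf A B p‖ ^ 2 + Cχ * D' * ‖vf A B p‖ ^ 2) := by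
          rw [abs_mul, abs_two]
          refine mul_le_mul_of_nonneg_left ?_ (by norm_num)
          exact (abs_add_le _ _).trans (add_le_add m3 m4)
        refine (add_le_add m1 m6).trans (le_of_eq ?_)
        rw [hC1]
        ring
      exact m5.trans (mul_le_mul_of_nonneg_left hn hC10)
    · -- outside the shell
      have hz : (fderiv ℝ χ p = 0) ∧ lev χ p (vf A B p) = 0 := by
        rw [hK, Set.mem_sdiff, not_and_or, not_not] at hp
        rcases hp with hp | hp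
        · have hp' : p ∉ tsupport χ := by
            rw [hχt]
            intro hh
            apply hp
            rw [mem_closedBall_zero_iff] at hh ⊢
            linarith
          refine ⟨(LH_off hp').1, ?_⟩
          unfold lev
          rw [(LH_off hp').2]
          simp
        · have hev : χ =ᶠ[nhds p] fun _ => (1 : ℝ) := by
            filter_upwards [Metric.isOpen_ball.mem_nhds hp] with q hq
            exact χ.one_of_mem_closedBall (by
              rw [hrIn]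
              exact Metric.ball_subset_closedBall hq)
          refine ⟨?_, ?_⟩
          · rw [hev.fderiv_eq]
            simp
          · rw [LH_congr hev, LH_const]
      have : er p = 0 := by
        rw [her]
        simp only [hz.1, hz.2]
        simp
      rw [this, abs_zero]
      exact mul_nonneg hC10 (nsq_nonneg _)
  -- integrability
  have heri : Integrable er M :=
    (hwi.const_mul C1).mono' herc.aestronglyMeasurable
      (Filter.Eventually.of_forall fun p => by rw [Real.norm_eq_abs]; exact hergle p)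
  have hGi : Integrable (fun p => lev (fun q => χ q * g q) p (vf A B p)) M := by
    obtain ⟨C2, hC20, hC2⟩ := LH_bound hG hGc
    refine (hwi.const_mul C2).mono' (LH_cont A B hG).aestronglyMeasurable
      (Filter.Eventually.of_forall fun p => ?_)
    rw [Real.norm_eq_abs]
    exact (hC2 p (vf A B p)).1.trans
      (mul_le_mul_of_nonneg_left (norm_sq_le_nsq (vf A B p)).1 hC20)
  have hHeq : (fun p => χ p * lev g p (vf A B p)) =
      fun p => lev (fun q => χ q * g q) p (vf A B p) - er p := by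
    funext p
    rw [hGl]
    ring
  have hHi : Integrable (fun p => χ p * lev g p (vf A B p)) M := by
    rw [hHeq]
    exact hGi.sub heri
  have hHint : ∫ p, χ p * lev g p (vf A B p) ∂M ≤ C1 * ∫ p, nsq (vf A B p) ∂M := by
    rw [hHeq, integral_sub hGi heri, hdd, zero_sub, ← integral_const_mul]
    refine (neg_le_abs _).trans ((abs_integral_le_integral_abs).trans ?_)
    exact integral_mono heri.abs (hwi.const_mul C1) hergle
  have hH0 : ∀ p, 0 ≤ χ p * lev g p (vf A B p) := fun p => mul_nonneg χ.nonneg (hgl0 p)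
  refine ⟨fun p => χ p * lev g p (vf A B p), hHc, hH0, ?_, ?_⟩
  · intro p hp
    have h1 : χ p = 1 := χ.one_of_mem_closedBall (by
      rw [hrIn]
      exact Metric.ball_subset_closedBall hp)
    show χ p * lev g p (vf A B p) = _
    rw [h1, one_mul, hgl]
  · rw [← ofReal_integral_eq_lintegral_ofReal hHi (Filter.Eventually.of_forall hH0)]
    exact ENNReal.ofReal_le_ofReal hHint

theorem psh_energy {A B h : P2} {ρ : ℝ} {M : Measure (ℂ × ℂ)} (hI : Inv A B h ρ M) (f1 f2 : P2) (ρ1 : ℝ)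
    (hρ1 : 0 < ρ1) (hρ : ρ1 < ρ)
    (hne : ∀ p : ℂ × ℂ, ρ1 / 2 ≤ ‖p‖ → ‖p‖ ≤ ρ1 → ev f1 p ≠ 0 ∨ ev f2 p ≠ 0) :
    ∃ C : ℝ, 0 ≤ C ∧
    (∫⁻ p in Metric.ball (0 : ℂ × ℂ) (ρ1 / 2),
      ENNReal.ofReal (‖ev f1 p * ev (Zp A B f2) p - ev f2 p * ev (Zp A B f1) p‖ ^ 2 /
        (‖ev f1 p‖ ^ 2 + ‖ev f2 p‖ ^ 2) ^ 2) ∂M ≤ ENNReal.ofReal C) ∧
    ∀ R : ℝ, ∫⁻ p in {p | p ∈ Metric.ball (0 : ℂ × ℂ) (ρ1 / 2) ∧
        Real.exp (-(R + 1)) ≤ ‖ev f1 p‖ ^ 2 + ‖ev f2 p‖ ^ 2 ∧ ‖ev f1 p‖ ^ 2 + ‖ev f2 p‖ ^ 2 ≤ Real.exp (-R)},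
      ENNReal.ofReal (‖conj (ev f1 p) * ev (Zp A B f1) p + conj (ev f2 p) * ev (Zp A B f2) p‖ ^ 2 /
        (‖ev f1 p‖ ^ 2 + ‖ev f2 p‖ ^ 2) ^ 2) ∂M ≤ ENNReal.ofReal C := by
  obtain ⟨Φ, hΦ, h0, h01, h2, ⟨c, hc, hc'⟩, h1, h3⟩ := exists_convexCutoff
  have hS := LH_S_smooth f1 f2
  obtain ⟨S0, hS0⟩ := (isCompact_closedBall (0 : ℂ × ℂ) ρ1).exists_bound_of_continuousOn
    hS.continuous.continuousOn
  obtain ⟨R0, hR0⟩ : ∃ R0 : ℝ, S0 < Real.exp R0 := by
    refine ⟨S0, ?_⟩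
    have := Real.add_one_le_exp S0
    linarith
  obtain ⟨C0, hC0, hmain⟩ := LH_main hI f1 f2 ρ1 hρ1 hρ hne R0 hΦ h0 h01 h2 h3
  have hsub : ∀ p ∈ Metric.ball (0 : ℂ × ℂ) (ρ1 / 2), LH_S f1 f2 p < Real.exp R0 := by
    intro p hp
    rw [mem_ball_zero_iff] at hp
    have h4 := hS0 p (by rw [mem_closedBall_zero_iff]; linarith)
    exact (le_abs_self _).trans_lt (h4.trans_lt hR0)
  refine ⟨C0 / 4 + C0 / (4 * c), by positivity, ?_, ?_⟩
  · -- Fatou
    have hk : ∀ n : ℕ, ∃ H : ℂ × ℂ → ℝ, Continuous H ∧ (∀ p, 0 ≤ H p) ∧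
      (∀ p ∈ Metric.ball (0 : ℂ × ℂ) (ρ1 / 2), H p =
        4 * (deriv Φ (Real.log (LH_S f1 f2 p) + (-R0 + n)) * LH_E1 A B f1 f2 p +
        deriv (deriv Φ) (Real.log (LH_S f1 f2 p) + (-R0 + n)) * LH_E2 A B f1 f2 p)) ∧
      ∫⁻ p, ENNReal.ofReal (H p) ∂M ≤ ENNReal.ofReal C0 := fun n =>
      hmain (-R0 + n) (by
        have : (0 : ℝ) ≤ n := Nat.cast_nonneg n
        linarith)
    choose H Hc Hn He Hi using hk
    have hmeas : ∀ n, Measurable fun p => ENNReal.ofReal (H n p / 4) := fun n =>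
      ((Hc n).measurable.div_const 4).ennreal_ofReal
    have hle : ∀ p ∈ Metric.ball (0 : ℂ × ℂ) (ρ1 / 2), ENNReal.ofReal (LH_E1 A B f1 f2 p) ≤
        Filter.liminf (fun n => ENNReal.ofReal (H n p / 4)) Filter.atTop := by
      intro p hp
      refine Filter.le_liminf_of_le (by isBoundedDefault) ?_
      obtain ⟨N, hN⟩ := exists_nat_ge (3 - Real.log (LH_S f1 f2 p) + R0)
      filter_upwards [Filter.eventually_ge_atTop N] with n hn
      refine ENNReal.ofReal_le_ofReal ?_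
      have hn' : (N : ℝ) ≤ n := by exact_mod_cast hn
      rw [He n p hp, h1 _ (by linarith)]
      have e2 := mul_nonneg (h2 (Real.log (LH_S f1 f2 p) + (-R0 + n)))
        (LH_E2_nonneg A B f1 f2 p)
      linarith
    have hint : ∀ n, ∫⁻ p in Metric.ball (0 : ℂ × ℂ) (ρ1 / 2), ENNReal.ofReal (H n p / 4) ∂M ≤
        ENNReal.ofReal (C0 / 4) := by
      intro n
      refine (setLIntegral_le_lintegral _ _).trans ?_
      have e1 : ∀ p, ENNReal.ofReal (H n p / 4) =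
          ENNReal.ofReal (1 / 4) * ENNReal.ofReal (H n p) := fun p => by
        rw [← ENNReal.ofReal_mul (by norm_num)]
        congr 1
        ring
      simp only [e1]
      rw [lintegral_const_mul _ (Hc n).measurable.ennreal_ofReal]
      refine (mul_le_mul_right (Hi n) _).trans (le_of_eq ?_)
      rw [← ENNReal.ofReal_mul (by norm_num)]
      congr 1
      ring
    have hfat : ∫⁻ p in Metric.ball (0 : ℂ × ℂ) (ρ1 / 2),
        ENNReal.ofReal (LH_E1 A B f1 f2 p) ∂M ≤ ENNReal.ofReal (C0 / 4) := by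
      calc ∫⁻ p in Metric.ball (0 : ℂ × ℂ) (ρ1 / 2), ENNReal.ofReal (LH_E1 A B f1 f2 p) ∂M
          ≤ ∫⁻ p in Metric.ball (0 : ℂ × ℂ) (ρ1 / 2),
            Filter.liminf (fun n => ENNReal.ofReal (H n p / 4)) Filter.atTop ∂M :=
            setLIntegral_mono (Measurable.liminf hmeas) hle
        _ ≤ Filter.liminf (fun n => ∫⁻ p in Metric.ball (0 : ℂ × ℂ) (ρ1 / 2),
            ENNReal.ofReal (H n p / 4) ∂M) Filter.atTop := lintegral_liminf_le hmeas
        _ ≤ ENNReal.ofReal (C0 / 4) := by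
            refine Filter.liminf_le_of_le (by isBoundedDefault) fun b hb => ?_
            obtain ⟨n, hn⟩ := hb.exists
            exact hn.trans (hint n)
    refine le_trans ?_ (hfat.trans (ENNReal.ofReal_le_ofReal ?_))
    · exact le_rfl
    · have : 0 ≤ C0 / (4 * c) := by positivity
      linarith
  · intro R
    by_cases hR : -R0 ≤ R + 2
    · obtain ⟨H, Hc, Hn, He, Hi⟩ := hmain (R + 2) hR
      have hle : ∀ p ∈ {p | p ∈ Metric.ball (0 : ℂ × ℂ) (ρ1 / 2) ∧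
          Real.exp (-(R + 1)) ≤ ‖ev f1 p‖ ^ 2 + ‖ev f2 p‖ ^ 2 ∧
          ‖ev f1 p‖ ^ 2 + ‖ev f2 p‖ ^ 2 ≤ Real.exp (-R)},
          ENNReal.ofReal (LH_E2 A B f1 f2 p) ≤ ENNReal.ofReal (1 / (4 * c) * H p) := by
        rintro p ⟨hp, hp1, hp2⟩
        refine ENNReal.ofReal_le_ofReal ?_
        have hpos : 0 < LH_S f1 f2 p := lt_of_lt_of_le (Real.exp_pos _) hp1
        have l1 : -(R + 1) ≤ Real.log (LH_S f1 f2 p) := (Real.le_log_iff_exp_le hpos).2 hp1
        have l2 : Real.log (LH_S f1 f2 p) ≤ -R := (Real.log_le_iff_le_exp hpos).2 hp2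
        have l3 := hc' (Real.log (LH_S f1 f2 p) + (R + 2)) ⟨by linarith, by linarith⟩
        rw [He p hp]
        have e1 := mul_nonneg (h01 (Real.log (LH_S f1 f2 p) + (R + 2))).1
          (LH_E1_nonneg A B f1 f2 p)
        have e2 := mul_le_mul_of_nonneg_right l3 (LH_E2_nonneg A B f1 f2 p)
        rw [div_mul_eq_mul_div, one_mul, le_div_iff₀ (by positivity)]
        nlinarith
      calc ∫⁻ p in {p | p ∈ Metric.ball (0 : ℂ × ℂ) (ρ1 / 2) ∧
            Real.exp (-(R + 1)) ≤ ‖ev f1 p‖ ^ 2 + ‖ev f2 p‖ ^ 2 ∧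
            ‖ev f1 p‖ ^ 2 + ‖ev f2 p‖ ^ 2 ≤ Real.exp (-R)},
            ENNReal.ofReal (LH_E2 A B f1 f2 p) ∂M
          ≤ ∫⁻ p in {p | p ∈ Metric.ball (0 : ℂ × ℂ) (ρ1 / 2) ∧
            Real.exp (-(R + 1)) ≤ ‖ev f1 p‖ ^ 2 + ‖ev f2 p‖ ^ 2 ∧
            ‖ev f1 p‖ ^ 2 + ‖ev f2 p‖ ^ 2 ≤ Real.exp (-R)},
            ENNReal.ofReal (1 / (4 * c) * H p) ∂M :=
            setLIntegral_mono (measurable_const.mul Hc.measurable).ennreal_ofReal hle
        _ ≤ ∫⁻ p, ENNReal.ofReal (1 / (4 * c) * H p) ∂M := setLIntegral_le_lintegral _ _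
        _ ≤ ENNReal.ofReal (C0 / 4 + C0 / (4 * c)) := by
            have e1 : ∀ p, ENNReal.ofReal (1 / (4 * c) * H p) =
                ENNReal.ofReal (1 / (4 * c)) * ENNReal.ofReal (H p) := fun p =>
              ENNReal.ofReal_mul (by positivity)
            simp only [e1]
            rw [lintegral_const_mul _ Hc.measurable.ennreal_ofReal]
            refine (mul_le_mul_right Hi _).trans ?_
            rw [← ENNReal.ofReal_mul (by positivity)]
            refine ENNReal.ofReal_le_ofReal ?_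
            have e3 : 1 / (4 * c) * C0 = C0 / (4 * c) := by ring
            rw [e3]
            linarith
    · have hempty : {p | p ∈ Metric.ball (0 : ℂ × ℂ) (ρ1 / 2) ∧
          Real.exp (-(R + 1)) ≤ ‖ev f1 p‖ ^ 2 + ‖ev f2 p‖ ^ 2 ∧
          ‖ev f1 p‖ ^ 2 + ‖ev f2 p‖ ^ 2 ≤ Real.exp (-R)} = ∅ := by
        ext p
        simp only [Set.mem_ofPred_eq, Set.mem_empty_iff_false, iff_false]
        rintro ⟨hp, hp1, -⟩
        have h4 := hsub p hp
        have h5 : Real.exp R0 < Real.exp (-(R + 1)) := Real.exp_lt_exp.2 (by linarith)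
        have h6 : LH_S f1 f2 p = ‖ev f1 p‖ ^ 2 + ‖ev f2 p‖ ^ 2 := rfl
        linarith
      rw [hempty, Measure.restrict_empty, lintegral_zero_measure]
      exact zero_le

end FC76
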