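import Pool.Agent.H76.FL.LH

/-!
# Row LI: logarithmic growth of the energy of log |x|, and of log |Z|

1. `norm_energy`.  ρ1' := ρ/2, `psh_energy` with f1 = X 0, f2 = X 1 (Zp A B (X 0) = A, Zp A B (X 1) = B; no zero except the origin), ball ρ/4 =: ball ρ1.
   Lagrange: nsq(Z) nsq(p) = |x B - y A|^2 + |conj x A + conj y B|^2.  So nsq(Z)/nsq(p) = E1 + E2.  The region r < ‖p‖, p in ball ρ1 is contained in the union of the
   shells e^(-(R+1)) <= nsq p <= e^(-R), R = -R0, ..., R_max, where e^(R0) >= nsq on the ball and R_max = ceil(2 log(1/r)): at most C(1+log(1/r)) shells; add up.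
2. `psh_energy_log` (general): same summation for a pair f1, f2 with ‖f1‖^2+‖f2‖^2 >= c r^N on the region r < ‖p‖ (in the ball ρ1/2): the total of E2 is
   <= C (1 + log 1/r).
-/

open MvPolynomial MeasureTheory
open scoped ContDiff ComplexConjugate

namespace FC76

theorem LI_cont (f : P2) : Continuous (ev f) := (contDiff_real_ev f).continuous

theorem psh_energy_log {A B h : P2} {ρ : ℝ} {M : Measure (ℂ × ℂ)} (hI : Inv A B h ρ M) (f1 f2 : P2) (ρ1 c : ℝ) (N : ℕ)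
    (hρ1 : 0 < ρ1) (hρ : ρ1 < ρ)
    (hne : ∀ p : ℂ × ℂ, ρ1 / 2 ≤ ‖p‖ → ‖p‖ ≤ ρ1 → ev f1 p ≠ 0 ∨ ev f2 p ≠ 0) (hc : 0 < c)
    (hlow : ∀ p : ℂ × ℂ, ‖p‖ ≤ ρ1 → c * ‖p‖ ^ N ≤ ‖ev f1 p‖ ^ 2 + ‖ev f2 p‖ ^ 2) :
    ∃ C : ℝ, 0 ≤ C ∧ ∀ r : ℝ, 0 < r → r < 1 →
    ∫⁻ p in {p | p ∈ Metric.ball (0 : ℂ × ℂ) (ρ1 / 2) ∧ r < ‖p‖},
      ENNReal.ofReal (‖conj (ev f1 p) * ev (Zp A B f1) p + conj (ev f2 p) * ev (Zp A B f2) p‖ ^ 2 /
        (‖ev f1 p‖ ^ 2 + ‖ev f2 p‖ ^ 2) ^ 2) ∂M ≤ ENNReal.ofReal (C * (1 + Real.log (1 / r))) := by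
  obtain ⟨C0, hC0, -, hsh⟩ := psh_energy hI f1 f2 ρ1 hρ1 hρ hne
  obtain ⟨S, hS⟩ : ∃ S : ℂ × ℂ → ℝ, S = fun p => ‖ev f1 p‖ ^ 2 + ‖ev f2 p‖ ^ 2 := ⟨_, rfl⟩
  have hSc : Continuous S := by
    rw [hS]
    exact (((LI_cont f1).norm).pow 2).add (((LI_cont f2).norm).pow 2)
  obtain ⟨Cm, hCm⟩ := (isCompact_closedBall (0 : ℂ × ℂ) ρ1).exists_bound_of_continuousOn
    hSc.continuousOn
  obtain ⟨R0, hR0⟩ : ∃ R0 : ℝ, R0 = |Cm| := ⟨_, rfl⟩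
  have hR0' : 0 ≤ R0 := by
    rw [hR0]
    exact abs_nonneg _
  have hSle : ∀ p : ℂ × ℂ, ‖p‖ ≤ ρ1 → S p ≤ Real.exp R0 := by
    intro p hp
    have h1 := hCm p (by rwa [mem_closedBall_zero_iff])
    have h2 : S p ≤ R0 := (le_abs_self _).trans (h1.trans (by rw [hR0]; exact le_abs_self _))
    have h3 := Real.add_one_le_exp R0
    linarith
  refine ⟨C0 * (N + |Real.log c| + R0 + 1), by positivity, ?_⟩
  intro r hr hr1
  obtain ⟨L, hL⟩ : ∃ L : ℝ, L = Real.log (1 / r) := ⟨_, rfl⟩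
  have hL0 : 0 ≤ L := by
    rw [hL]
    exact Real.log_nonneg (by rw [le_div_iff₀ hr]; linarith)
  have hLr : Real.log r = -L := by
    rw [hL, one_div, Real.log_inv, neg_neg]
  rw [← hL]
  obtain ⟨K, hK⟩ : ∃ K : ℝ, K = N * L + |Real.log c| + R0 := ⟨_, rfl⟩
  have hK0 : 0 ≤ K := by
    rw [hK]
    positivity
  obtain ⟨n, hn⟩ : ∃ n : ℕ, n = ⌊K⌋₊ + 1 := ⟨_, rfl⟩
  obtain ⟨sh, hsh'⟩ : ∃ sh : Fin n → Set (ℂ × ℂ), sh = fun i : Fin n =>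
      {p : ℂ × ℂ | p ∈ Metric.ball (0 : ℂ × ℂ) (ρ1 / 2) ∧
        Real.exp (-((-R0 + ((i : ℕ) : ℝ)) + 1)) ≤ ‖ev f1 p‖ ^ 2 + ‖ev f2 p‖ ^ 2 ∧
        ‖ev f1 p‖ ^ 2 + ‖ev f2 p‖ ^ 2 ≤ Real.exp (-(-R0 + ((i : ℕ) : ℝ)))} := ⟨_, rfl⟩
  have hcov : {p | p ∈ Metric.ball (0 : ℂ × ℂ) (ρ1 / 2) ∧ r < ‖p‖} ⊆ ⋃ i, sh i := by
    rintro p ⟨hp1, hp2⟩
    have hp3 : ‖p‖ < ρ1 / 2 := by rwa [mem_ball_zero_iff] at hp1
    have hp4 : ‖p‖ ≤ ρ1 := by linarith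
    have h1 := hlow p hp4
    have h2 : c * r ^ N ≤ S p := by
      rw [hS]
      refine le_trans ?_ h1
      exact mul_le_mul_of_nonneg_left (pow_le_pow_left₀ hr.le hp2.le _) hc.le
    have hcr : 0 < c * r ^ N := mul_pos hc (pow_pos hr _)
    have hSp : 0 < S p := lt_of_lt_of_le hcr h2
    have h3 : Real.log c - N * L ≤ Real.log (S p) := by
      have h4 := Real.log_le_log hcr h2
      rw [Real.log_mul hc.ne' (pow_pos hr _).ne', Real.log_pow, hLr] at h4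
      linarith
    have h5 : Real.log (S p) ≤ R0 := by
      have h6 := Real.log_le_log hSp (hSle p hp4)
      rwa [Real.log_exp] at h6
    obtain ⟨t, ht⟩ : ∃ t : ℝ, t = -Real.log (S p) + R0 := ⟨_, rfl⟩
    have ht0 : 0 ≤ t := by
      rw [ht]
      linarith
    have htK : t ≤ K := by
      rw [ht, hK]
      have := neg_abs_le (Real.log c)
      linarith
    have hi : ⌊t⌋₊ < n := by
      rw [hn]
      exact Nat.lt_succ_of_le (Nat.floor_le_floor htK)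
    have h7 : (⌊t⌋₊ : ℝ) ≤ t := Nat.floor_le ht0
    have h8 : t < ⌊t⌋₊ + 1 := Nat.lt_floor_add_one t
    refine Set.mem_iUnion.2 ⟨⟨⌊t⌋₊, hi⟩, ?_⟩
    rw [hsh']
    have hSp' : ‖ev f1 p‖ ^ 2 + ‖ev f2 p‖ ^ 2 = Real.exp (Real.log (S p)) := by
      rw [Real.exp_log hSp, hS]
    refine ⟨hp1, ?_, ?_⟩
    · rw [hSp']
      refine Real.exp_le_exp.2 ?_
      show -((-R0 + (⌊t⌋₊ : ℝ)) + 1) ≤ Real.log (S p)
      linarith
    · rw [hSp']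
      refine Real.exp_le_exp.2 ?_
      show Real.log (S p) ≤ -(-R0 + (⌊t⌋₊ : ℝ))
      linarith
  calc ∫⁻ p in {p | p ∈ Metric.ball (0 : ℂ × ℂ) (ρ1 / 2) ∧ r < ‖p‖},
      ENNReal.ofReal (‖conj (ev f1 p) * ev (Zp A B f1) p + conj (ev f2 p) * ev (Zp A B f2) p‖ ^ 2 /
        (‖ev f1 p‖ ^ 2 + ‖ev f2 p‖ ^ 2) ^ 2) ∂M
      ≤ ∫⁻ p in ⋃ i, sh i,
      ENNReal.ofReal (‖conj (ev f1 p) * ev (Zp A B f1) p + conj (ev f2 p) * ev (Zp A B f2) p‖ ^ 2 /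
        (‖ev f1 p‖ ^ 2 + ‖ev f2 p‖ ^ 2) ^ 2) ∂M := lintegral_mono_set hcov
    _ ≤ ∑' i, ∫⁻ p in sh i,
      ENNReal.ofReal (‖conj (ev f1 p) * ev (Zp A B f1) p + conj (ev f2 p) * ev (Zp A B f2) p‖ ^ 2 /
        (‖ev f1 p‖ ^ 2 + ‖ev f2 p‖ ^ 2) ^ 2) ∂M := lintegral_iUnion_le _ _
    _ ≤ ∑' _i : Fin n, ENNReal.ofReal C0 := by
        refine ENNReal.tsum_le_tsum fun i => ?_
        rw [hsh']
        exact hsh (-R0 + ((i : ℕ) : ℝ))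
    _ = n * ENNReal.ofReal C0 := by
        rw [tsum_fintype, Finset.sum_const, Finset.card_univ, Fintype.card_fin, nsmul_eq_mul]
    _ = ENNReal.ofReal (n * C0) := by
        rw [ENNReal.ofReal_mul (Nat.cast_nonneg _), ENNReal.ofReal_natCast]
    _ ≤ ENNReal.ofReal (C0 * (N + |Real.log c| + R0 + 1) * (1 + L)) := by
        refine ENNReal.ofReal_le_ofReal ?_
        have h1 : (n : ℝ) ≤ K + 1 := by
          rw [hn]
          push_cast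
          have := Nat.floor_le hK0
          linarith
        have h2 : K + 1 ≤ (N + |Real.log c| + R0 + 1) * (1 + L) := by
          rw [hK]
          have h3 : 0 ≤ (|Real.log c| + R0 + 1) * L := by positivity
          have h4 : (0 : ℝ) ≤ N := Nat.cast_nonneg _
          nlinarith
        calc (n : ℝ) * C0 ≤ ((N + |Real.log c| + R0 + 1) * (1 + L)) * C0 :=
              mul_le_mul_of_nonneg_right (h1.trans h2) hC0
          _ = C0 * (N + |Real.log c| + R0 + 1) * (1 + L) := by ring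

theorem LI_nsq_pos {p : ℂ × ℂ} (h : p ≠ 0) : 0 < nsq p := by
  have h1 := (norm_sq_le_nsq p).1
  have h2 : 0 < ‖p‖ ^ 2 := pow_pos (norm_pos_iff.2 h) 2
  linarith

/-- Lagrange identity -/
theorem LI_lag (x y a b : ℂ) : (‖a‖ ^ 2 + ‖b‖ ^ 2) * (‖x‖ ^ 2 + ‖y‖ ^ 2) =
    ‖x * b - y * a‖ ^ 2 + ‖conj x * a + conj y * b‖ ^ 2 := by
  simp only [← Complex.normSq_eq_norm_sq, Complex.normSq_apply, Complex.mul_re, Complex.mul_im,
    Complex.sub_re, Complex.sub_im, Complex.add_re, Complex.add_im, Complex.conj_re, Complex.conj_im]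
  ring

theorem norm_energy {A B h : P2} {ρ : ℝ} {M : Measure (ℂ × ℂ)} (h0 : 0 < ρ) (hI : Inv A B h ρ M) :
    ∃ ρ1 : ℝ, 0 < ρ1 ∧ ρ1 < ρ ∧ ∃ C : ℝ, 0 ≤ C ∧
    (∀ r : ℝ, 0 < r → r < 1 → ∫⁻ p in {p | p ∈ Metric.ball (0 : ℂ × ℂ) ρ1 ∧ r < ‖p‖},
      ENNReal.ofReal (nsq (vf A B p) / nsq p) ∂M ≤ ENNReal.ofReal (C * (1 + Real.log (1 / r)))) ∧
    ∫⁻ p in Metric.ball (0 : ℂ × ℂ) ρ1,
      ENNReal.ofReal (‖p.1 * ev B p - p.2 * ev A p‖ ^ 2 / (nsq p) ^ 2) ∂M ≤ ENNReal.ofReal C := by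
  have hZ0 : Zp A B (X 0) = A := by
    unfold Zp
    simp [pderiv_X]
  have hZ1 : Zp A B (X 1) = B := by
    unfold Zp
    simp [pderiv_X]
  have hne : ∀ p : ℂ × ℂ, ρ / 2 / 2 ≤ ‖p‖ → ‖p‖ ≤ ρ / 2 → ev (X 0) p ≠ 0 ∨ ev (X 1) p ≠ 0 := by
    intro p hp _
    rw [ev_X0, ev_X1]
    by_contra hcon
    push Not at hcon
    have h1 : p = 0 := Prod.ext hcon.1 hcon.2
    rw [h1, norm_zero] at hp
    linarith
  have hlow : ∀ p : ℂ × ℂ, ‖p‖ ≤ ρ / 2 →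
      1 * ‖p‖ ^ 2 ≤ ‖ev (X 0) p‖ ^ 2 + ‖ev (X 1) p‖ ^ 2 := by
    intro p _
    rw [ev_X0, ev_X1, one_mul]
    exact (norm_sq_le_nsq p).1
  obtain ⟨C1, hC1, hE1, -⟩ := psh_energy hI (X 0) (X 1) (ρ / 2) (by linarith) (by linarith) hne
  obtain ⟨C2, hC2, hE2⟩ := psh_energy_log hI (X 0) (X 1) (ρ / 2) 1 2 (by linarith) (by linarith)
    hne one_pos hlow
  simp only [hZ0, hZ1, ev_X0, ev_X1] at hE1 hE2
  have hm1 : Measurable (fun p : ℂ × ℂ =>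
      ENNReal.ofReal (‖p.1 * ev B p - p.2 * ev A p‖ ^ 2 / (‖p.1‖ ^ 2 + ‖p.2‖ ^ 2) ^ 2)) := by
    have hA := (LI_cont A).measurable
    have hB := (LI_cont B).measurable
    fun_prop
  refine ⟨ρ / 2 / 2, by linarith, by linarith, C1 + C2, by linarith, ?_, ?_⟩
  · intro r hr hr1
    have hL0 : 0 ≤ Real.log (1 / r) :=
      Real.log_nonneg (by rw [le_div_iff₀ hr]; linarith)
    have hms : MeasurableSet {p : ℂ × ℂ | p ∈ Metric.ball (0 : ℂ × ℂ) (ρ / 2 / 2) ∧ r < ‖p‖} :=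
      Metric.isOpen_ball.measurableSet.inter (isOpen_lt continuous_const continuous_norm).measurableSet
    calc ∫⁻ p in {p | p ∈ Metric.ball (0 : ℂ × ℂ) (ρ / 2 / 2) ∧ r < ‖p‖},
        ENNReal.ofReal (nsq (vf A B p) / nsq p) ∂M
        = ∫⁻ p in {p | p ∈ Metric.ball (0 : ℂ × ℂ) (ρ / 2 / 2) ∧ r < ‖p‖},
          (ENNReal.ofReal (‖p.1 * ev B p - p.2 * ev A p‖ ^ 2 / (‖p.1‖ ^ 2 + ‖p.2‖ ^ 2) ^ 2) +
          ENNReal.ofReal (‖conj p.1 * ev A p + conj p.2 * ev B p‖ ^ 2 /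
            (‖p.1‖ ^ 2 + ‖p.2‖ ^ 2) ^ 2)) ∂M := by
          refine setLIntegral_congr_fun hms ?_
          rintro p ⟨-, hp2⟩
          have hp0 : p ≠ 0 := by
            rintro rfl
            rw [norm_zero] at hp2
            linarith
          have hpos := LI_nsq_pos hp0
          have hpos' : 0 < ‖p.1‖ ^ 2 + ‖p.2‖ ^ 2 := hpos
          beta_reduce
          rw [← ENNReal.ofReal_add (by positivity) (by positivity), ← add_div, ← LI_lag]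
          congr 1
          show (‖ev A p‖ ^ 2 + ‖ev B p‖ ^ 2) / (‖p.1‖ ^ 2 + ‖p.2‖ ^ 2) = _
          rw [pow_two (‖p.1‖ ^ 2 + ‖p.2‖ ^ 2), mul_div_mul_right _ _ hpos'.ne']
      _ = ∫⁻ p in {p | p ∈ Metric.ball (0 : ℂ × ℂ) (ρ / 2 / 2) ∧ r < ‖p‖},
          ENNReal.ofReal (‖p.1 * ev B p - p.2 * ev A p‖ ^ 2 / (‖p.1‖ ^ 2 + ‖p.2‖ ^ 2) ^ 2) ∂M +
          ∫⁻ p in {p | p ∈ Metric.ball (0 : ℂ × ℂ) (ρ / 2 / 2) ∧ r < ‖p‖},
          ENNReal.ofReal (‖conj p.1 * ev A p + conj p.2 * ev B p‖ ^ 2 /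
            (‖p.1‖ ^ 2 + ‖p.2‖ ^ 2) ^ 2) ∂M := lintegral_add_left hm1 _
      _ ≤ ENNReal.ofReal C1 + ENNReal.ofReal (C2 * (1 + Real.log (1 / r))) := by
          refine add_le_add ?_ (hE2 r hr hr1)
          exact (lintegral_mono_set (fun p hp => hp.1)).trans hE1
      _ = ENNReal.ofReal (C1 + C2 * (1 + Real.log (1 / r))) := by
          rw [ENNReal.ofReal_add hC1 (by positivity)]
      _ ≤ ENNReal.ofReal ((C1 + C2) * (1 + Real.log (1 / r))) := by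
          refine ENNReal.ofReal_le_ofReal ?_
          have := mul_nonneg hC1 hL0
          linarith
  · refine hE1.trans (ENNReal.ofReal_le_ofReal (by linarith))

end FC76
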