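import Pool.Agent.H76.FL.LI
import Pool.Agent.H76.FC.DB

/-!
# Row LJ: isolated leading jets are good; elementary closure properties

`good_of_LJ`.  Let k, A, B in mI^k with the homogeneous components A_k, B_k without common zero ≠ 0.
 * k = 0: (A(0),B(0)) ≠ 0, so nsq Z >= c > 0 on a small ball and ‖div‖^2 <= C <= (C/c) nsq Z: the bound follows from `fin`.
 * k >= 1: on the compact sphere {nsq p = 1} (or ‖p‖ = 1) |A_k|^2+|B_k|^2 >= c; by homogeneity |A_k(p)|^2+|B_k(p)|^2 >= c' ‖p‖^(2k); A - A_k, B - B_k are O(‖p‖^(k+1)) near 0;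
   so nsq(Z p) >= c'' ‖p‖^(2k) on a small ball.  A, B in mI^k imply pderiv in mI^(k-1), so ‖div p‖ <= C ‖p‖^(k-1).  Hence for p ≠ 0: ‖div‖^2 <= C ‖p‖^(2k-2) <= C' nsq(Z)/nsq(p)
   and `norm_energy` gives EBound (with ρ' = min of the radii); the region {r < ‖h‖, r < ‖p‖} is contained in {r < ‖p‖}.
   (Useful: |ev f p| <= C_f ‖p‖^k for f in mI^k and ‖p‖ <= 1, by expanding f in monomials.)
`good_toE`: trivial.
`good_swap`: given Inv (sw B) (sw A) h ρ M, the measure M' := M.map Prod.swap satisfies Inv A B (sw h) ρ M' (change of variables; ev (sw f) p = ev f p.swap; the norm of ℂ × ℂ, nsq, and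
 DifferentiableOn are invariant under swap; Zp A B (sw h) = sw (Zp (sw B) (sw A) h) because pderiv 0 (sw h) = sw (pderiv 1 h)), and divp (sw B) (sw A) = sw (divp A B); EBound transfers back.
-/

open MvPolynomial MeasureTheory
open scoped ContDiff ComplexConjugate

namespace FC76

theorem LJ_evm (a b : ℕ) (c : ℂ) (p : ℂ × ℂ) :
    ev (C c * X 0 ^ a * X 1 ^ b : P2) p = c * p.1 ^ a * p.2 ^ b := by
  simp [ev]

theorem LJ_ev_add (f g : P2) (p : ℂ × ℂ) : ev (f + g) p = ev f p + ev g p := by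
  simp [ev]

theorem LJ_ev_sub (f g : P2) (p : ℂ × ℂ) : ev (f - g) p = ev f p - ev g p := by
  simp [ev]

theorem LJ_ev_mul (f g : P2) (p : ℂ × ℂ) : ev (f * g) p = ev f p * ev g p := by
  simp [ev]

theorem LJ_cont (f : P2) : Continuous (ev f) := by
  unfold ev
  refine (MvPolynomial.continuous_eval f).comp ?_
  refine continuous_pi fun i => ?_
  fin_cases i
  · exact continuous_fst
  · exact continuous_snd

/-- size of polynomials vanishing to order k -/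
theorem ev_bound_of_mem (f : P2) (k : ℕ) (hf : f ∈ mI ^ k) :
    ∃ C : ℝ, 0 ≤ C ∧ ∀ p : ℂ × ℂ, ‖p‖ ≤ 1 → ‖ev f p‖ ≤ C * ‖p‖ ^ k := by
  rw [DB_mem] at hf
  refine ⟨∑ u ∈ f.support, ‖coeff u f‖, Finset.sum_nonneg fun _ _ => norm_nonneg _, fun p hp => ?_⟩
  have h1 : ev f p = ∑ u ∈ f.support, coeff u f * p.1 ^ (u 0) * p.2 ^ (u 1) := by
    have h2 : ev f p = ev (∑ u ∈ f.support, C (coeff u f) * X 0 ^ (u 0) * X 1 ^ (u 1)) p := by
      rw [← DB_as_sum f]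
    rw [h2]
    simp [ev]
  rw [h1, Finset.sum_mul]
  refine (norm_sum_le _ _).trans (Finset.sum_le_sum fun u hu => ?_)
  rw [norm_mul, norm_mul, norm_pow, norm_pow, mul_assoc]
  refine mul_le_mul_of_nonneg_left ?_ (norm_nonneg _)
  have hk : k ≤ u 0 + u 1 := by
    by_contra hlt
    have h3 := hf (u 0) (u 1) (by omega)
    have h4 : coeff u f ≠ 0 := mem_support_iff.1 hu
    apply h4
    unfold cf at h3
    rwa [← DB_u u] at h3
  have h5 : ‖p.1‖ ≤ ‖p‖ := norm_fst_le p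
  have h6 : ‖p.2‖ ≤ ‖p‖ := norm_snd_le p
  calc ‖p.1‖ ^ (u 0) * ‖p.2‖ ^ (u 1) ≤ ‖p‖ ^ (u 0) * ‖p‖ ^ (u 1) :=
        mul_le_mul (pow_le_pow_left₀ (norm_nonneg _) h5 _) (pow_le_pow_left₀ (norm_nonneg _) h6 _)
          (by positivity) (by positivity)
    _ = ‖p‖ ^ (u 0 + u 1) := (pow_add _ _ _).symm
    _ ≤ ‖p‖ ^ k := pow_le_pow_of_le_one (norm_nonneg _) hp hk

theorem LJ_hom (f : P2) (k : ℕ) (hf : f ∈ mI ^ k) :
    f - homogeneousComponent k f ∈ mI ^ (k + 1) := by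
  rw [DB_mem] at hf ⊢
  intro i j hij
  have h1 : cf i j (homogeneousComponent k f) = if i + j = k then cf i j f else 0 := by
    unfold cf
    rw [coeff_homogeneousComponent]
    have h2 : (Finsupp.single (0 : Fin 2) i + Finsupp.single 1 j).degree = i + j := by
      rw [map_add, Finsupp.degree_single, Finsupp.degree_single]
    rw [h2]
  have h3 : cf i j (f - homogeneousComponent k f) = cf i j f - cf i j (homogeneousComponent k f) := by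
    unfold cf
    rw [coeff_sub]
  rw [h3, h1]
  split_ifs with h4
  · rw [sub_self]
  · rw [hf i j (by omega), sub_self]

theorem LJ_scal (f : P2) (k : ℕ) (t : ℝ) (p : ℂ × ℂ) :
    ev (homogeneousComponent k f) (t • p) = (t : ℂ) ^ k * ev (homogeneousComponent k f) p := by
  have h1 : (homogeneousComponent k f).IsHomogeneous k := homogeneousComponent_isHomogeneous k f
  unfold ev
  have h2 : (![(t • p).1, (t • p).2] : Fin 2 → ℂ) = (t : ℂ) • ![p.1, p.2] := by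
    funext i
    fin_cases i <;> simp
  rw [h2, eval_eq', eval_eq', Finset.mul_sum]
  refine Finset.sum_congr rfl fun d hd => ?_
  have h3 : d 0 + d 1 = k := by
    have h4 := h1 (mem_support_iff.1 hd)
    rw [← h4, Finsupp.weight_apply, Finsupp.sum_fintype _ _ (fun _ => by simp), Fin.sum_univ_two]
    simp
  rw [Fin.prod_univ_two, Fin.prod_univ_two, ← h3]
  simp only [Pi.smul_apply, smul_eq_mul, mul_pow, pow_add]
  ring

/-- lower bound for an isolated leading jet -/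
theorem LJ_lower (A B : P2) (k : ℕ) (hA : A ∈ mI ^ k) (hB : B ∈ mI ^ k)
    (h : ∀ p : Fin 2 → ℂ, eval p (homogeneousComponent k A) = 0 → eval p (homogeneousComponent k B) = 0 → p = 0) :
    ∃ c ρ : ℝ, 0 < c ∧ 0 < ρ ∧ ∀ p : ℂ × ℂ, ‖p‖ ≤ ρ → c * ‖p‖ ^ (2 * k) ≤ nsq (vf A B p) := by
  set a := homogeneousComponent k A with ha
  set b := homogeneousComponent k B with hb
  obtain ⟨CA, hCA0, hCA⟩ := ev_bound_of_mem _ _ (LJ_hom A k hA)
  obtain ⟨CB, hCB0, hCB⟩ := ev_bound_of_mem _ _ (LJ_hom B k hB)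
  have hcont : Continuous fun p : ℂ × ℂ => ‖ev a p‖ ^ 2 + ‖ev b p‖ ^ 2 :=
    ((LJ_cont a).norm.pow 2).add ((LJ_cont b).norm.pow 2)
  have hne : (Metric.sphere (0 : ℂ × ℂ) 1).Nonempty := ⟨(1, 0), by simp [Prod.norm_def]⟩
  obtain ⟨u0, hu0, hmin⟩ := (isCompact_sphere (0 : ℂ × ℂ) 1).exists_isMinOn hne hcont.continuousOn
  have hpos : 0 < ‖ev a u0‖ ^ 2 + ‖ev b u0‖ ^ 2 := by
    rcases (add_nonneg (sq_nonneg ‖ev a u0‖) (sq_nonneg ‖ev b u0‖)).lt_or_eq with h1 | h1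
    · exact h1
    · exfalso
      have h2 : ‖ev a u0‖ ^ 2 = 0 := by nlinarith [sq_nonneg ‖ev a u0‖, sq_nonneg ‖ev b u0‖]
      have h3 : ‖ev b u0‖ ^ 2 = 0 := by nlinarith [sq_nonneg ‖ev a u0‖, sq_nonneg ‖ev b u0‖]
      have h4 : ev a u0 = 0 := norm_eq_zero.1 (pow_eq_zero_iff two_ne_zero |>.1 h2)
      have h5 : ev b u0 = 0 := norm_eq_zero.1 (pow_eq_zero_iff two_ne_zero |>.1 h3)
      have h6 := h _ h4 h5
      have h7 : u0 = 0 := by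
        have e0 := congrFun h6 0
        have e1 := congrFun h6 1
        simp at e0 e1
        exact Prod.ext e0 e1
      rw [h7] at hu0
      simp at hu0
  set c := ‖ev a u0‖ ^ 2 + ‖ev b u0‖ ^ 2 with hc
  have hlow : ∀ p : ℂ × ℂ, c * ‖p‖ ^ (2 * k) ≤ ‖ev a p‖ ^ 2 + ‖ev b p‖ ^ 2 := by
    intro p
    obtain ⟨u, hu, hpu⟩ : ∃ u : ℂ × ℂ, ‖u‖ = 1 ∧ p = ‖p‖ • u := by
      by_cases hp : p = 0
      · exact ⟨(1, 0), by simp [Prod.norm_def], by simp [hp]⟩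
      · have hp' : ‖p‖ ≠ 0 := norm_ne_zero_iff.2 hp
        refine ⟨‖p‖⁻¹ • p, ?_, ?_⟩
        · rw [norm_smul, norm_inv, norm_norm, inv_mul_cancel₀ hp']
        · rw [smul_smul, mul_inv_cancel₀ hp', one_smul]
    have h1 : c ≤ ‖ev a u‖ ^ 2 + ‖ev b u‖ ^ 2 := hmin (by simpa using hu)
    have h2 : ‖ev a p‖ = ‖p‖ ^ k * ‖ev a u‖ := by
      conv_lhs => rw [hpu]
      rw [ha, LJ_scal, norm_mul, norm_pow, Complex.norm_real, norm_norm]
    have h3 : ‖ev b p‖ = ‖p‖ ^ k * ‖ev b u‖ := by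
      conv_lhs => rw [hpu]
      rw [hb, LJ_scal, norm_mul, norm_pow, Complex.norm_real, norm_norm]
    rw [h2, h3]
    have h4 : (‖p‖ ^ k * ‖ev a u‖) ^ 2 + (‖p‖ ^ k * ‖ev b u‖) ^ 2 =
        (‖ev a u‖ ^ 2 + ‖ev b u‖ ^ 2) * ‖p‖ ^ (2 * k) := by ring
    rw [h4]
    exact mul_le_mul_of_nonneg_right h1 (by positivity)
  set D := CA ^ 2 + CB ^ 2 + 1 with hD
  have hD0 : 0 < D := by positivity
  refine ⟨c / 4, min 1 (Real.sqrt (c / (4 * D))), by positivity, lt_min one_pos (Real.sqrt_pos.2 (by positivity)),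
    fun p hp => ?_⟩
  have hp1 : ‖p‖ ≤ 1 := hp.trans (min_le_left _ _)
  have hp2 : ‖p‖ ^ 2 ≤ c / (4 * D) := by
    have h1 := hp.trans (min_le_right _ _)
    calc ‖p‖ ^ 2 ≤ (Real.sqrt (c / (4 * D))) ^ 2 := pow_le_pow_left₀ (norm_nonneg _) h1 2
      _ = c / (4 * D) := Real.sq_sqrt (by positivity)
  have hp3 : D * ‖p‖ ^ 2 ≤ c / 4 := by
    rw [le_div_iff₀ (by positivity)] at hp2
    linarith
  have key : ∀ (f g : P2) (K : ℝ), 0 ≤ K → (‖ev (f - g) p‖ ≤ K * ‖p‖ ^ (k + 1)) →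
      ‖ev g p‖ ^ 2 ≤ 2 * ‖ev f p‖ ^ 2 + 2 * (K ^ 2 * (‖p‖ ^ 2 * ‖p‖ ^ (2 * k))) := by
    intro f g K hK hfg
    have e1 : ev g p = ev f p - ev (f - g) p := by
      rw [LJ_ev_sub]
      ring
    have e2 : ‖ev g p‖ ≤ ‖ev f p‖ + ‖ev (f - g) p‖ := by
      rw [e1]
      exact norm_sub_le _ _
    have e3 : ‖ev (f - g) p‖ ^ 2 ≤ (K * ‖p‖ ^ (k + 1)) ^ 2 := pow_le_pow_left₀ (norm_nonneg _) hfg 2
    have e4 : (K * ‖p‖ ^ (k + 1)) ^ 2 = K ^ 2 * (‖p‖ ^ 2 * ‖p‖ ^ (2 * k)) := by ring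
    have e5 : ‖ev g p‖ ^ 2 ≤ (‖ev f p‖ + ‖ev (f - g) p‖) ^ 2 :=
      pow_le_pow_left₀ (norm_nonneg _) e2 2
    nlinarith [sq_nonneg (‖ev f p‖ - ‖ev (f - g) p‖)]
  have hkA := key A a CA hCA0 (hCA p hp1)
  have hkB := key B b CB hCB0 (hCB p hp1)
  have hl := hlow p
  have hq : 0 ≤ ‖p‖ ^ (2 * k) := by positivity
  have hfin : (CA ^ 2 + CB ^ 2) * (‖p‖ ^ 2 * ‖p‖ ^ (2 * k)) ≤ c / 4 * ‖p‖ ^ (2 * k) := by
    have h1 : (CA ^ 2 + CB ^ 2) * ‖p‖ ^ 2 ≤ c / 4 := by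
      have h2 : (CA ^ 2 + CB ^ 2) * ‖p‖ ^ 2 ≤ D * ‖p‖ ^ 2 :=
        mul_le_mul_of_nonneg_right (by rw [hD]; linarith) (by positivity)
      linarith
    calc (CA ^ 2 + CB ^ 2) * (‖p‖ ^ 2 * ‖p‖ ^ (2 * k)) = ((CA ^ 2 + CB ^ 2) * ‖p‖ ^ 2) * ‖p‖ ^ (2 * k) := by ring
      _ ≤ _ := mul_le_mul_of_nonneg_right h1 hq
  show c / 4 * ‖p‖ ^ (2 * k) ≤ ‖ev A p‖ ^ 2 + ‖ev B p‖ ^ 2
  nlinarith

theorem LJ_cf_pd0 (i j : ℕ) (f : P2) : cf i j (pderiv 0 f) = ((i : ℂ) + 1) * cf (i + 1) j f := by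
  induction f using DB_ind with
  | h1 a b c =>
    have h1 : pderiv 0 (C c * X 0 ^ a * X 1 ^ b : P2) = C (c * a) * X 0 ^ (a - 1) * X 1 ^ b := by
      rw [Derivation.leibniz, Derivation.leibniz, Derivation.leibniz_pow, Derivation.leibniz_pow, pderiv_C,
        pderiv_X_self, pderiv_X_of_ne (by decide : (1 : Fin 2) ≠ 0)]
      simp only [smul_eq_mul, mul_one, mul_zero, smul_zero, zero_add, add_zero, nsmul_eq_mul, C_mul]
      rw [show (C (a : ℂ) : P2) = (a : P2) from map_natCast C a]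
      ring
    rw [h1, DB_cfm, DB_cfm]
    rcases a with _ | a
    · simp
    · by_cases h2 : a = i ∧ b = j
      · rw [if_pos (by omega), if_pos (by omega), h2.1]
        push_cast
        ring
      · rw [if_neg (by omega), if_neg (by omega), mul_zero]
  | h2 p q hp hq => rw [map_add, DB_add, DB_add, hp, hq, mul_add]

theorem LJ_pd_sw (f : P2) : pderiv 1 (sw f) = sw (pderiv 0 f) ∧ pderiv 0 (sw f) = sw (pderiv 1 f) := by
  induction f using DB_ind with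
  | h1 a b c =>
    have h0 : ∀ (a b : ℕ) (c : ℂ), pderiv 0 (C c * X 0 ^ a * X 1 ^ b : P2) =
        C (c * a) * X 0 ^ (a - 1) * X 1 ^ b := by
      intro a b c
      rw [Derivation.leibniz, Derivation.leibniz, Derivation.leibniz_pow, Derivation.leibniz_pow, pderiv_C,
        pderiv_X_self, pderiv_X_of_ne (by decide : (1 : Fin 2) ≠ 0)]
      simp only [smul_eq_mul, mul_one, mul_zero, smul_zero, zero_add, add_zero, nsmul_eq_mul, C_mul]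
      rw [show (C (a : ℂ) : P2) = (a : P2) from map_natCast C a]
      ring
    have h1 : ∀ (a b : ℕ) (c : ℂ), pderiv 1 (C c * X 0 ^ a * X 1 ^ b : P2) =
        C (c * b) * X 0 ^ a * X 1 ^ (b - 1) := by
      intro a b c
      rw [Derivation.leibniz, Derivation.leibniz, Derivation.leibniz_pow, Derivation.leibniz_pow, pderiv_C,
        pderiv_X_self, pderiv_X_of_ne (by decide : (0 : Fin 2) ≠ 1)]
      simp only [smul_eq_mul, mul_one, mul_zero, smul_zero, zero_add, add_zero, nsmul_eq_mul, C_mul]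
      rw [show (C (b : ℂ) : P2) = (b : P2) from map_natCast C b]
      ring
    rw [DB_swm, h0, h1, h0, h1, DB_swm, DB_swm]
    exact ⟨rfl, rfl⟩
  | h2 p q hp hq =>
    simp only [map_add, hp.1, hp.2, hq.1, hq.2]
    exact ⟨trivial, trivial⟩

theorem LJ_pd0_mem (f : P2) (k : ℕ) (hf : f ∈ mI ^ k) : pderiv 0 f ∈ mI ^ (k - 1) := by
  rw [DB_mem] at hf ⊢
  intro i j hij
  rw [LJ_cf_pd0, hf (i + 1) j (by omega), mul_zero]

theorem LJ_pd1_mem (f : P2) (k : ℕ) (hf : f ∈ mI ^ k) : pderiv 1 f ∈ mI ^ (k - 1) := by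
  have h1 := sw_mem _ _ (LJ_pd0_mem _ _ (sw_mem f k hf))
  rwa [← (LJ_pd_sw (sw f)).1, sw_sw] at h1

theorem good_of_LJ (A B : P2) (h : LJ A B) : Good A B := by
  obtain ⟨k, hA, hB, h0⟩ := h
  intro f ρ M hρ hI
  obtain ⟨c, ρ0, hc, hρ0, hlow⟩ := LJ_lower A B k hA hB h0
  obtain ⟨K, hK0, hK⟩ := ev_bound_of_mem (divp A B) (k - 1)
    (Ideal.add_mem _ (LJ_pd0_mem A k hA) (LJ_pd1_mem B k hB))
  obtain ⟨ρ1, h1, -, C1, hC1, hE, -⟩ := norm_energy hρ hI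
  refine ⟨min (min ρ0 ρ1) 1, lt_min (lt_min hρ0 h1) one_pos, 2 * K ^ 2 / c * C1, fun r hr0 hr1 => ?_⟩
  set ρ' := min (min ρ0 ρ1) 1 with hρ'
  have hsub : {p : ℂ × ℂ | p ∈ Metric.ball (0 : ℂ × ℂ) ρ' ∧ r < ‖ev f p‖ ∧ r < ‖p‖} ⊆
      {p | p ∈ Metric.ball (0 : ℂ × ℂ) ρ' ∧ r < ‖p‖} := fun p hp => ⟨hp.1, hp.2.2⟩
  have hsub2 : {p : ℂ × ℂ | p ∈ Metric.ball (0 : ℂ × ℂ) ρ' ∧ r < ‖p‖} ⊆
      {p | p ∈ Metric.ball (0 : ℂ × ℂ) ρ1 ∧ r < ‖p‖} := fun p hp =>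
    ⟨Metric.ball_subset_ball ((min_le_left _ _).trans (min_le_right _ _)) hp.1, hp.2⟩
  have hmeas : MeasurableSet {p : ℂ × ℂ | p ∈ Metric.ball (0 : ℂ × ℂ) ρ' ∧ r < ‖p‖} :=
    (Metric.isOpen_ball.inter (isOpen_lt continuous_const continuous_norm)).measurableSet
  have hpt : ∀ p ∈ {p : ℂ × ℂ | p ∈ Metric.ball (0 : ℂ × ℂ) ρ' ∧ r < ‖p‖},
      ENNReal.ofReal (‖ev (divp A B) p‖ ^ 2) ≤
        ENNReal.ofReal (2 * K ^ 2 / c) * ENNReal.ofReal (nsq (vf A B p) / nsq p) := by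
    rintro p ⟨hp, hrp⟩
    rw [← ENNReal.ofReal_mul (by positivity)]
    apply ENNReal.ofReal_le_ofReal
    rw [mem_ball_zero_iff] at hp
    have hp1 : ‖p‖ ≤ 1 := hp.le.trans (min_le_right _ _)
    have hp2 : ‖p‖ ≤ ρ0 := hp.le.trans ((min_le_left _ _).trans (min_le_left _ _))
    have hpp : 0 < ‖p‖ := hr0.trans hrp
    have hn1 : nsq p ≤ 2 * ‖p‖ ^ 2 := by
      have e1 := pow_le_pow_left₀ (norm_nonneg _) (norm_fst_le p) 2
      have e2 := pow_le_pow_left₀ (norm_nonneg _) (norm_snd_le p) 2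
      unfold nsq
      linarith
    have hn0 : 0 < nsq p := by
      have hne : p ≠ 0 := norm_pos_iff.1 hpp
      unfold nsq
      by_contra hle
      have e1 : ‖p.1‖ ^ 2 = 0 := by nlinarith [sq_nonneg ‖p.1‖, sq_nonneg ‖p.2‖]
      have e2 : ‖p.2‖ ^ 2 = 0 := by nlinarith [sq_nonneg ‖p.1‖, sq_nonneg ‖p.2‖]
      exact hne (Prod.ext (norm_eq_zero.1 (pow_eq_zero_iff two_ne_zero |>.1 e1))
        (norm_eq_zero.1 (pow_eq_zero_iff two_ne_zero |>.1 e2)))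
    have hd : ‖ev (divp A B) p‖ ^ 2 ≤ (K * ‖p‖ ^ (k - 1)) ^ 2 :=
      pow_le_pow_left₀ (norm_nonneg _) (hK p hp1) 2
    have hpow : ‖p‖ ^ (2 * (k - 1)) * ‖p‖ ^ 2 ≤ ‖p‖ ^ (2 * k) := by
      rw [← pow_add]
      exact pow_le_pow_of_le_one (norm_nonneg _) hp1 (by omega)
    have hl := hlow p hp2
    have hm : ‖ev (divp A B) p‖ ^ 2 * nsq p ≤ 2 * K ^ 2 / c * nsq (vf A B p) := by
      calc ‖ev (divp A B) p‖ ^ 2 * nsq p ≤ (K * ‖p‖ ^ (k - 1)) ^ 2 * (2 * ‖p‖ ^ 2) :=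
            mul_le_mul hd hn1 hn0.le (by positivity)
        _ = 2 * K ^ 2 * (‖p‖ ^ (2 * (k - 1)) * ‖p‖ ^ 2) := by ring
        _ ≤ 2 * K ^ 2 * ‖p‖ ^ (2 * k) := mul_le_mul_of_nonneg_left hpow (by positivity)
        _ = 2 * K ^ 2 / c * (c * ‖p‖ ^ (2 * k)) := by
            field_simp
        _ ≤ _ := mul_le_mul_of_nonneg_left hl (by positivity)
    rw [← mul_div_assoc, le_div_iff₀ hn0]
    exact hm
  calc ∫⁻ p in {p : ℂ × ℂ | p ∈ Metric.ball (0 : ℂ × ℂ) ρ' ∧ r < ‖ev f p‖ ∧ r < ‖p‖},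
        ENNReal.ofReal (‖ev (divp A B) p‖ ^ 2) ∂M
      ≤ ∫⁻ p in {p : ℂ × ℂ | p ∈ Metric.ball (0 : ℂ × ℂ) ρ' ∧ r < ‖p‖},
        ENNReal.ofReal (‖ev (divp A B) p‖ ^ 2) ∂M := lintegral_mono_set hsub
    _ ≤ ∫⁻ p in {p : ℂ × ℂ | p ∈ Metric.ball (0 : ℂ × ℂ) ρ' ∧ r < ‖p‖},
        ENNReal.ofReal (2 * K ^ 2 / c) * ENNReal.ofReal (nsq (vf A B p) / nsq p) ∂M :=
        setLIntegral_mono' hmeas hpt
    _ = ENNReal.ofReal (2 * K ^ 2 / c) * ∫⁻ p in {p : ℂ × ℂ | p ∈ Metric.ball (0 : ℂ × ℂ) ρ' ∧ r < ‖p‖},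
        ENNReal.ofReal (nsq (vf A B p) / nsq p) ∂M :=
        lintegral_const_mul' _ _ ENNReal.ofReal_ne_top
    _ ≤ ENNReal.ofReal (2 * K ^ 2 / c) * ENNReal.ofReal (C1 * (1 + Real.log (1 / r))) := by
        gcongr
        exact (lintegral_mono_set hsub2).trans (hE r hr0 hr1)
    _ = ENNReal.ofReal (2 * K ^ 2 / c * C1 * (1 + Real.log (1 / r))) := by
        rw [← ENNReal.ofReal_mul (by positivity), mul_assoc]

theorem good_toE (A B : P2) (h : Good A B) : GoodE A B :=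
  fun f ρ M h0 _ hI => h f ρ M h0 hI

theorem LJ_ev_sw (f : P2) (p : ℂ × ℂ) : ev (sw f) p = ev f p.swap := by
  induction f using DB_ind with
  | h1 a b c =>
    rw [DB_swm, LJ_evm, LJ_evm]
    simp only [Prod.fst_swap, Prod.snd_swap]
    ring
  | h2 f g hf hg => rw [map_add, LJ_ev_add, LJ_ev_add, hf, hg]

theorem LJ_divp (A B : P2) : divp (sw B) (sw A) = sw (divp A B) := by
  unfold divp
  rw [map_add, (LJ_pd_sw B).2, (LJ_pd_sw A).1, add_comm]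

theorem LJ_Zp (A B f : P2) : Zp (sw B) (sw A) (sw f) = sw (Zp A B f) := by
  unfold Zp
  rw [map_add, map_mul, map_mul, (LJ_pd_sw f).2, (LJ_pd_sw f).1, add_comm]

theorem LJ_norm_swap (p : ℂ × ℂ) : ‖p.swap‖ = ‖p‖ := by
  rw [Prod.norm_def, Prod.norm_def, max_comm]
  rfl

theorem LJ_nsq_swap (p : ℂ × ℂ) : nsq p.swap = nsq p := by
  unfold nsq
  rw [add_comm]
  rfl

theorem LJ_vf (A B : P2) (p : ℂ × ℂ) : vf (sw B) (sw A) p.swap = (vf A B p).swap := by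
  unfold vf
  rw [LJ_ev_sw, LJ_ev_sw, Prod.swap_swap]
  rfl

theorem LJ_lint (M : Measure (ℂ × ℂ)) (F : ℂ × ℂ → ENNReal) (S : Set (ℂ × ℂ)) :
    ∫⁻ p in S, F p ∂(M.map Prod.swap) = ∫⁻ p in Prod.swap ⁻¹' S, F p.swap ∂M := by
  have h1 : M.map Prod.swap = M.map (MeasurableEquiv.prodComm : ℂ × ℂ ≃ᵐ ℂ × ℂ) := rfl
  rw [h1, MeasurableEquiv.restrict_map, lintegral_map_equiv]
  rfl

theorem LJ_dom (f : P2) (ρ : ℝ) : Prod.swap ⁻¹' (dom (sw f) ρ) = dom f ρ := by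
  ext p
  simp only [dom, Set.mem_preimage, Set.mem_ofPred_eq, mem_ball_zero_iff, LJ_norm_swap, LJ_ev_sw,
    Prod.swap_swap]
  refine and_congr_right fun _ => and_congr_right fun _ => not_congr ?_
  constructor
  · intro h
    rw [← Prod.swap_swap p, h]
    rfl
  · rintro rfl
    rfl

theorem LJ_map (M : Measure (ℂ × ℂ)) (S : Set (ℂ × ℂ)) :
    M.map Prod.swap S = M (Prod.swap ⁻¹' S) :=
  MeasurableEquiv.map_apply (MeasurableEquiv.prodComm : ℂ × ℂ ≃ᵐ ℂ × ℂ) S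

theorem LJ_fd {F : Type*} [NormedAddCommGroup F] [NormedSpace ℝ F] (g : ℂ × ℂ → F) (p v : ℂ × ℂ) :
    fderiv ℝ (fun q => g q.swap) p v = fderiv ℝ g p.swap v.swap := by
  have h1 := (ContinuousLinearEquiv.prodComm ℝ ℂ ℂ).comp_right_fderiv (f := g) (x := p)
  have h2 : (g ∘ (ContinuousLinearEquiv.prodComm ℝ ℂ ℂ)) = fun q => g q.swap := rfl
  rw [h2] at h1
  rw [h1]
  rfl

theorem LJ_fd' {F : Type*} [NormedAddCommGroup F] [NormedSpace ℝ F] (g : ℂ × ℂ → F) (p : ℂ × ℂ) :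
    fderiv ℝ (fun q => g q.swap) p =
      (fderiv ℝ g p.swap).comp (ContinuousLinearEquiv.prodComm ℝ ℂ ℂ : ℂ × ℂ →L[ℝ] ℂ × ℂ) :=
  ContinuousLinearMap.ext fun v => LJ_fd g p v

theorem LJ_dW (g : ℂ × ℂ → ℂ) (p v : ℂ × ℂ) : dW (fun q => g q.swap) p v = dW g p.swap v.swap := by
  unfold dW
  rw [LJ_fd, LJ_fd]
  rfl

theorem LJ_fd2 (G : ℂ × ℂ → ℝ) (hG : ContDiff ℝ ∞ G) (p v w : ℂ × ℂ) :
    fderiv ℝ (fderiv ℝ (fun q => G q.swap)) p v w = fderiv ℝ (fderiv ℝ G) p.swap v.swap w.swap := by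
  have h1 : fderiv ℝ (fun q => G q.swap) = fun q =>
      ((ContinuousLinearMap.compL ℝ (ℂ × ℂ) (ℂ × ℂ) ℝ).flip
        (ContinuousLinearEquiv.prodComm ℝ ℂ ℂ : ℂ × ℂ →L[ℝ] ℂ × ℂ)) (fderiv ℝ G q.swap) := by
    funext q
    rw [LJ_fd']
    rfl
  have h2 : Differentiable ℝ (fderiv ℝ G) := (hG.fderiv_right (m := 1) (by norm_cast)).differentiable one_ne_zero
  have h3 : DifferentiableAt ℝ (fun q : ℂ × ℂ => fderiv ℝ G q.swap) p :=
    (h2 p.swap).comp p (ContinuousLinearEquiv.prodComm ℝ ℂ ℂ).differentiableAt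
  rw [h1]
  have h4 := (((ContinuousLinearMap.compL ℝ (ℂ × ℂ) (ℂ × ℂ) ℝ).flip
    (ContinuousLinearEquiv.prodComm ℝ ℂ ℂ : ℂ × ℂ →L[ℝ] ℂ × ℂ)).hasFDerivAt.comp p h3.hasFDerivAt).fderiv
  rw [show (fun q => ((ContinuousLinearMap.compL ℝ (ℂ × ℂ) (ℂ × ℂ) ℝ).flip
        (ContinuousLinearEquiv.prodComm ℝ ℂ ℂ : ℂ × ℂ →L[ℝ] ℂ × ℂ)) (fderiv ℝ G q.swap)) =
      (((ContinuousLinearMap.compL ℝ (ℂ × ℂ) (ℂ × ℂ) ℝ).flip
        (ContinuousLinearEquiv.prodComm ℝ ℂ ℂ : ℂ × ℂ →L[ℝ] ℂ × ℂ)) ∘ fun q : ℂ × ℂ => fderiv ℝ G q.swap)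
      from rfl, h4, LJ_fd' (fderiv ℝ G)]
  rfl

theorem LJ_lev (G : ℂ × ℂ → ℝ) (hG : ContDiff ℝ ∞ G) (p v : ℂ × ℂ) :
    lev (fun q => G q.swap) p v = lev G p.swap v.swap := by
  unfold lev
  rw [LJ_fd2 G hG, LJ_fd2 G hG]
  rfl

theorem LJ_int {F : Type*} [NormedAddCommGroup F] [NormedSpace ℝ F] (M : Measure (ℂ × ℂ))
    (f : ℂ × ℂ → F) : ∫ p, f p ∂(M.map Prod.swap) = ∫ p, f p.swap ∂M :=
  MeasureTheory.integral_map_equiv (MeasurableEquiv.prodComm : ℂ × ℂ ≃ᵐ ℂ × ℂ) f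

theorem LJ_cs {F : Type*} [NormedAddCommGroup F] [NormedSpace ℝ F] (g : ℂ × ℂ → F)
    (hg : ContDiff ℝ ∞ g) (hc : HasCompactSupport g) :
    ContDiff ℝ ∞ (fun q : ℂ × ℂ => g q.swap) ∧ HasCompactSupport (fun q : ℂ × ℂ => g q.swap) ∧
    tsupport (fun q : ℂ × ℂ => g q.swap) = Prod.swap ⁻¹' (tsupport g) := by
  refine ⟨hg.comp (ContinuousLinearEquiv.prodComm ℝ ℂ ℂ).contDiff,
    hc.comp_homeomorph (Homeomorph.prodComm ℂ ℂ), ?_⟩
  exact tsupport_comp_eq_preimage g (Homeomorph.prodComm ℂ ℂ)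

/-- transfer of the hypotheses under exchange of the variables -/
theorem inv_swap {A B h : P2} {ρ : ℝ} {M : Measure (ℂ × ℂ)} (hI : Inv A B h ρ M) :
    Inv (sw B) (sw A) (sw h) ρ (M.map Prod.swap) := by
  refine ⟨⟨?_, ?_, ?_, ?_, ?_⟩, ?_, ?_⟩
  · rw [LJ_map, Set.preimage_compl, LJ_dom]
    exact hI.carried
  · intro K hK hKd
    rw [LJ_map]
    refine hI.locfin _ ((Homeomorph.prodComm ℂ ℂ).isCompact_preimage.2 hK) ?_
    rw [← LJ_dom h ρ]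
    exact Set.preimage_mono hKd
  · have h1 := LJ_lint M (fun p => ENNReal.ofReal (nsq (vf (sw B) (sw A) p))) Set.univ
    rw [Set.preimage_univ, Measure.restrict_univ, Measure.restrict_univ] at h1
    rw [h1]
    simp only [LJ_vf, LJ_nsq_swap]
    exact hI.fin
  · intro g hg hc hs
    obtain ⟨c1, c2, c3⟩ := LJ_cs g hg hc
    rw [LJ_int]
    simp only [LJ_vf, ← LJ_dW]
    refine hI.inv _ c1 c2 ?_
    rw [c3, ← LJ_dom h ρ]
    exact Set.preimage_mono hs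
  · obtain ⟨K, hK⟩ := hI.log
    refine ⟨K, fun r h0 h1 => ?_⟩
    rw [LJ_lint]
    simp only [LJ_Zp, LJ_ev_sw, Prod.swap_swap, Set.preimage_ofPred_eq]
    exact hK r h0 h1
  · intro G hG hc hs
    obtain ⟨c1, c2, c3⟩ := LJ_cs G hG hc
    rw [LJ_int]
    simp only [LJ_vf, ← LJ_lev G hG]
    refine hI.dd _ c1 c2 ?_
    rw [c3]
    intro p hp
    have h1 := hs hp
    rw [mem_ball_zero_iff] at h1 ⊢
    rwa [LJ_norm_swap] at h1
  · intro γ R hR hγ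
    rw [LJ_map]
    have h1 : Prod.swap ⁻¹' (γ '' pdisc R) = (fun t => (γ t).swap) '' pdisc R := by
      ext p
      constructor
      · rintro ⟨t, ht, htp⟩
        refine ⟨t, ht, ?_⟩
        show (γ t).swap = p
        rw [htp, Prod.swap_swap]
      · rintro ⟨t, ht, rfl⟩
        exact ⟨t, ht, (Prod.swap_swap _).symm⟩
    rw [h1]
    exact hI.dif _ R hR
      ((ContinuousLinearEquiv.prodComm ℂ ℂ ℂ).differentiable.comp_differentiableOn hγ)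

theorem good_swap (A B : P2) (h : Good A B) : Good (sw B) (sw A) := by
  intro f ρ M h0 hI
  have h1 := inv_swap hI
  rw [sw_sw, sw_sw] at h1
  obtain ⟨ρ', hρ', K, hK⟩ := h _ _ _ h0 h1
  refine ⟨ρ', hρ', K, fun r hr0 hr1 => ?_⟩
  have h2 := hK r hr0 hr1
  rw [LJ_lint] at h2
  simp only [LJ_ev_sw, Prod.swap_swap, Set.preimage_ofPred_eq, mem_ball_zero_iff, LJ_norm_swap] at h2
  simp only [LJ_divp, LJ_ev_sw, mem_ball_zero_iff]
  exact h2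

end FC76
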