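import Pool.Agent.H76.FL.LI

/-!
# Row MA: the blow-up of the measure: definitions and change of variables

chart c p = (x, y/x - c), unchart c (x,u) = (x, x(u+c)); they are inverse to each other where x ≠ 0.
`lintegral_blM`, `integral_blM`: definitions unfolded (`lintegral_map'`, `lintegral_withDensity_eq_lintegral_mul`, `integral_map`,
`integral_withDensity_eq_integral_smul`, restrict under map: (μ.map f).restrict s = (μ.restrict (f⁻¹ s)).map f).
chart c is measurable (division in ℂ).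
`blTo_ev`: from the two polynomial identities of BlTo, `ev_bl`, at q = (x,u), p = unchart c q.
`blTo_field`: for x ≠ 0, p = unchart c q: the complex derivative of chart c at p applied to Z(p) is x^e Z~(q):
  d(chart)(Z) = (A, B/x - y A/x^2) = (A, (B - (u+c) A)/x) = x^e (A1, C1).
`bl_carried_locfin`: carried: a point p of dom h ρ with x ≠ 0 and chart p in the ball δ has ev (bl c h)(chart p) = ev h p ≠ 0, so chart p in dom (X 0 * bl c h) δ.
  Compact K in dom(X 0 * bl c h) δ: unchart c (K) is a compact subset of dom h ρ (its first coordinate does not vanish so it is ≠ 0), ‖x‖^(2e) bounded on it, so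
  blM K <= C M(unchart K) < oo.
-/

open MvPolynomial MeasureTheory
open scoped ContDiff ComplexConjugate

namespace FC76

noncomputable def chart (c : ℂ) (p : ℂ × ℂ) : ℂ × ℂ := (p.1, p.2 / p.1 - c)

noncomputable def unchart (c : ℂ) (q : ℂ × ℂ) : ℂ × ℂ := (q.1, q.1 * (q.2 + c))

/-- the transformed measure in the chart -/
noncomputable def blM (c : ℂ) (e : ℕ) (δ : ℝ) (M : Measure (ℂ × ℂ)) : Measure (ℂ × ℂ) :=
  (((M.restrict {p | p.1 ≠ 0}).withDensity (fun p => ENNReal.ofReal (‖p.1‖ ^ (2 * e)))).map (chart c)).restrict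
    (Metric.ball 0 δ)

theorem measurable_chart (c : ℂ) : Measurable (chart c) :=
  measurable_fst.prodMk ((measurable_snd.div measurable_fst).sub_const c)

theorem chart_unchart (c : ℂ) (q : ℂ × ℂ) (h : q.1 ≠ 0) : chart c (unchart c q) = q := by
  unfold chart unchart
  refine Prod.ext rfl ?_
  show q.1 * (q.2 + c) / q.1 - c = q.2
  rw [mul_div_cancel_left₀ _ h]
  ring

theorem unchart_chart (c : ℂ) (p : ℂ × ℂ) (h : p.1 ≠ 0) : unchart c (chart c p) = p := by
  unfold chart unchart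
  refine Prod.ext rfl ?_
  show p.1 * (p.2 / p.1 - c + c) = p.2
  rw [sub_add_cancel, mul_div_cancel₀ _ h]

theorem MA_set (c : ℂ) (δ : ℝ) : {p : ℂ × ℂ | p.1 ≠ 0 ∧ chart c p ∈ Metric.ball (0 : ℂ × ℂ) δ} =
    chart c ⁻¹' (Metric.ball (0 : ℂ × ℂ) δ) ∩ {p | p.1 ≠ 0} := by
  ext p
  exact and_comm

theorem MA_meas0 : MeasurableSet {p : ℂ × ℂ | p.1 ≠ 0} :=
  (isOpen_ne_fun continuous_fst continuous_const).measurableSet

theorem MA_measU (c : ℂ) (δ : ℝ) :
    MeasurableSet {p : ℂ × ℂ | p.1 ≠ 0 ∧ chart c p ∈ Metric.ball (0 : ℂ × ℂ) δ} := by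
  rw [MA_set]
  exact (measurable_chart c Metric.isOpen_ball.measurableSet).inter MA_meas0

theorem MA_w (e : ℕ) : Measurable (fun p : ℂ × ℂ => ENNReal.ofReal (‖p.1‖ ^ (2 * e))) := by
  fun_prop

theorem lintegral_blM (c : ℂ) (e : ℕ) (δ : ℝ) (M : Measure (ℂ × ℂ)) (F : ℂ × ℂ → ENNReal) (hF : Measurable F) :
    ∫⁻ q, F q ∂(blM c e δ M) =
      ∫⁻ p in {p | p.1 ≠ 0 ∧ chart c p ∈ Metric.ball (0 : ℂ × ℂ) δ},
        ENNReal.ofReal (‖p.1‖ ^ (2 * e)) * F (chart c p) ∂M := by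
  have hB : MeasurableSet (Metric.ball (0 : ℂ × ℂ) δ) := Metric.isOpen_ball.measurableSet
  unfold blM
  have hG : Measurable (fun p => F (chart c p)) := hF.comp (measurable_chart c)
  rw [setLIntegral_map hB hF (measurable_chart c),
    setLIntegral_withDensity_eq_setLIntegral_mul _ (MA_w e) hG (measurable_chart c hB),
    Measure.restrict_restrict (measurable_chart c hB), ← MA_set]
  rfl

theorem integral_blM (c : ℂ) (e : ℕ) (δ : ℝ) (M : Measure (ℂ × ℂ)) (F : ℂ × ℂ → ℂ) (hF : StronglyMeasurable F) :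
    ∫ q, F q ∂(blM c e δ M) =
      ∫ p in {p | p.1 ≠ 0 ∧ chart c p ∈ Metric.ball (0 : ℂ × ℂ) δ},
        ((‖p.1‖ ^ (2 * e) : ℝ) : ℂ) * F (chart c p) ∂M := by
  have hB : MeasurableSet (Metric.ball (0 : ℂ × ℂ) δ) := Metric.isOpen_ball.measurableSet
  unfold blM
  rw [setIntegral_map hB hF.aestronglyMeasurable (measurable_chart c).aemeasurable,
    setIntegral_withDensity_eq_setIntegral_toReal_smul (MA_w e)
      (Filter.Eventually.of_forall fun p => ENNReal.ofReal_lt_top) _ (measurable_chart c hB),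
    Measure.restrict_restrict (measurable_chart c hB), ← MA_set]
  refine integral_congr_ae (Filter.Eventually.of_forall fun p => ?_)
  show (ENNReal.ofReal (‖p.1‖ ^ (2 * e))).toReal • F (chart c p) = _
  rw [ENNReal.toReal_ofReal (by positivity), Complex.real_smul]

theorem blTo_ev {A B A1 C1 : P2} {c : ℂ} {e : ℕ} (h : BlTo A B c e A1 C1) (q : ℂ × ℂ) :
    q.1 ^ e * ev A1 q = ev A (unchart c q) ∧
    q.1 ^ (e + 1) * ev C1 q = ev B (unchart c q) - (q.2 + c) * ev A (unchart c q) := by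
  obtain ⟨h1, h2⟩ := h
  have e1 := congrArg (fun f => ev f q) h1
  have e2 := congrArg (fun f => ev f q) h2
  simp only [ev_mul, ev_pow, ev_X0, ev_bl] at e1
  simp only [ev_mul, ev_pow, ev_X0, ev_bl, ev_sub, ev_add, ev_X1, ev_C] at e2
  exact ⟨e1, e2⟩

theorem chart_holo (c : ℂ) (p : ℂ × ℂ) (h : p.1 ≠ 0) : AnalyticAt ℂ (chart c) p := by
  have h1 : AnalyticAt ℂ (fun p : ℂ × ℂ => p.2 / p.1 - c) p :=
    (analyticAt_snd.div analyticAt_fst h).sub analyticAt_const
  exact analyticAt_fst.prod h1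

theorem MA_deriv (c : ℂ) (p v : ℂ × ℂ) (h : p.1 ≠ 0) :
    fderiv ℂ (chart c) p v = (v.1, p.1⁻¹ * (v.2 - p.2 / p.1 * v.1)) := by
  have h1 : HasFDerivAt (fun q : ℂ × ℂ => q.1⁻¹) (-(p.1 ^ 2)⁻¹ • ContinuousLinearMap.fst ℂ ℂ ℂ) p :=
    (hasDerivAt_inv h).comp_hasFDerivAt p hasFDerivAt_fst
  have h2 : HasFDerivAt (fun q : ℂ × ℂ => q.2 * q.1⁻¹ - c) (p.2 • (-(p.1 ^ 2)⁻¹ •
      ContinuousLinearMap.fst ℂ ℂ ℂ) + p.1⁻¹ • ContinuousLinearMap.snd ℂ ℂ ℂ) p :=
    ((hasFDerivAt_snd (𝕜 := ℂ) (E := ℂ) (F := ℂ) (p := p)).mul h1).sub_const c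
  have h3 : HasFDerivAt (chart c) ((ContinuousLinearMap.fst ℂ ℂ ℂ).prod (p.2 • (-(p.1 ^ 2)⁻¹ •
      ContinuousLinearMap.fst ℂ ℂ ℂ) + p.1⁻¹ • ContinuousLinearMap.snd ℂ ℂ ℂ)) p :=
    (hasFDerivAt_fst (𝕜 := ℂ) (E := ℂ) (F := ℂ) (p := p)).prodMk h2
  rw [h3.fderiv]
  refine Prod.ext rfl ?_
  show p.2 * (-(p.1 ^ 2)⁻¹ * v.1) + p.1⁻¹ * v.2 = p.1⁻¹ * (v.2 - p.2 / p.1 * v.1)
  field_simp
  ring

theorem blTo_field {A B A1 C1 : P2} {c : ℂ} {e : ℕ} (h : BlTo A B c e A1 C1) (p : ℂ × ℂ) (hp : p.1 ≠ 0) :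
    fderiv ℂ (chart c) p (vf A B p) = (p.1 ^ e) • vf A1 C1 (chart c p) := by
  obtain ⟨e1, e2⟩ := blTo_ev h (chart c p)
  rw [unchart_chart c p hp] at e1 e2
  have e3 : (chart c p).1 = p.1 := rfl
  have e4 : (chart c p).2 + c = p.2 / p.1 := by
    show p.2 / p.1 - c + c = p.2 / p.1
    ring
  rw [e3] at e1 e2
  rw [e4] at e2
  rw [MA_deriv c p _ hp]
  refine Prod.ext ?_ ?_
  · show ev A p = p.1 ^ e * ev A1 (chart c p)
    exact e1.symm
  · show p.1⁻¹ * (ev B p - p.2 / p.1 * ev A p) = p.1 ^ e * ev C1 (chart c p)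
    rw [← e2, pow_succ]
    field_simp

theorem MA_ev (h : P2) (c : ℂ) (q : ℂ × ℂ) :
    ev (X 0 * bl c h) q = q.1 * ev h (unchart c q) := by
  rw [ev_mul, ev_X0, ev_bl]
  rfl

theorem MA_dom_open (h : P2) (ρ : ℝ) : IsOpen (dom h ρ) := by
  have h1 : dom h ρ = Metric.ball (0 : ℂ × ℂ) ρ ∩ ({p | ev h p ≠ 0} ∩ {p | p ≠ 0}) := rfl
  rw [h1]
  refine Metric.isOpen_ball.inter (IsOpen.inter ?_ ?_)
  · exact isOpen_ne_fun (contDiff_real_ev h).continuous continuous_const
  · exact isOpen_ne_fun continuous_id continuous_const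

theorem bl_carried_locfin {A B h : P2} {ρ : ℝ} {M : Measure (ℂ × ℂ)} (hI : Inv0 A B h ρ M) (c : ℂ) (e : ℕ) (δ : ℝ)
    (hδ : ∀ q ∈ Metric.ball (0 : ℂ × ℂ) δ, unchart c q ∈ Metric.ball (0 : ℂ × ℂ) ρ) :
    blM c e δ M (dom (X 0 * bl c h) δ)ᶜ = 0 ∧
    ∀ K : Set (ℂ × ℂ), IsCompact K → K ⊆ dom (X 0 * bl c h) δ → blM c e δ M K < ⊤ := by
  constructor
  · have hT : MeasurableSet (dom (X 0 * bl c h) δ)ᶜ := (MA_dom_open _ _).measurableSet.compl
    rw [← lintegral_indicator_one hT, lintegral_blM c e δ M _ (measurable_one.indicator hT)]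
    have hae : ∀ᵐ p ∂M, p ∈ dom h ρ := by
      rw [ae_iff]
      exact hI.carried
    have h2 : ∀ᵐ p ∂(M.restrict {p | p.1 ≠ 0 ∧ chart c p ∈ Metric.ball (0 : ℂ × ℂ) δ}),
        ENNReal.ofReal (‖p.1‖ ^ (2 * e)) *
          (dom (X 0 * bl c h) δ)ᶜ.indicator (1 : ℂ × ℂ → ENNReal) (chart c p) = 0 := by
      rw [ae_restrict_iff' (MA_measU c δ)]
      filter_upwards [hae] with p hp hpU
      obtain ⟨hp0, hpB⟩ := hpU
      have hmem : chart c p ∈ dom (X 0 * bl c h) δ := by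
        refine ⟨hpB, ?_, ?_⟩
        · rw [MA_ev, unchart_chart c p hp0]
          exact mul_ne_zero hp0 hp.2.1
        · intro h0
          exact hp0 (congrArg Prod.fst h0)
      have hnot : chart c p ∉ (dom (X 0 * bl c h) δ)ᶜ := by
        rw [Set.mem_compl_iff, not_not]
        exact hmem
      rw [Set.indicator_of_notMem hnot, mul_zero]
    rw [lintegral_congr_ae h2, lintegral_zero]
  · intro K hK hKd
    have hKm : MeasurableSet K := hK.isClosed.measurableSet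
    have hcont : Continuous (unchart c) := by
      unfold unchart
      fun_prop
    have hK' : IsCompact (unchart c '' K) := hK.image hcont
    have hne : ∀ q ∈ K, q.1 ≠ 0 ∧ ev h (unchart c q) ≠ 0 := by
      intro q hq
      have h1 := (hKd hq).2.1
      rw [MA_ev] at h1
      exact ⟨left_ne_zero_of_mul h1, right_ne_zero_of_mul h1⟩
    have hsub : unchart c '' K ⊆ dom h ρ := by
      rintro _ ⟨q, hq, rfl⟩
      refine ⟨hδ q (hKd hq).1, (hne q hq).2, ?_⟩
      intro h0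
      exact (hne q hq).1 (congrArg Prod.fst h0)
    have hfin := hI.locfin _ hK' hsub
    rw [← lintegral_indicator_one hKm, lintegral_blM c e δ M _ (measurable_one.indicator hKm)]
    have hle : ∫⁻ p in {p | p.1 ≠ 0 ∧ chart c p ∈ Metric.ball (0 : ℂ × ℂ) δ},
        ENNReal.ofReal (‖p.1‖ ^ (2 * e)) * K.indicator (1 : ℂ × ℂ → ENNReal) (chart c p) ∂M ≤
        ∫⁻ p, ENNReal.ofReal (δ ^ (2 * e)) * (unchart c '' K).indicator (1 : ℂ × ℂ → ENNReal) p ∂M := by
      refine le_trans (setLIntegral_mono' (MA_measU c δ) (fun p hp => ?_)) (setLIntegral_le_lintegral _ _)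
      by_cases hpK : chart c p ∈ K
      · have h1 : p ∈ unchart c '' K := ⟨chart c p, hpK, unchart_chart c p hp.1⟩
        rw [Set.indicator_of_mem hpK, Set.indicator_of_mem h1]
        refine mul_le_mul_left (ENNReal.ofReal_le_ofReal ?_) _
        refine pow_le_pow_left₀ (norm_nonneg _) ?_ _
        have h2 : ‖chart c p‖ < δ := by
          have := hp.2
          rwa [mem_ball_zero_iff] at this
        have h3 : ‖(chart c p).1‖ ≤ ‖chart c p‖ := norm_fst_le _
        exact h3.trans h2.le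
      · rw [Set.indicator_of_notMem hpK, mul_zero]
        exact zero_le
    refine lt_of_le_of_lt hle ?_
    rw [lintegral_const_mul _ (measurable_one.indicator hK'.isClosed.measurableSet),
      lintegral_indicator_one hK'.isClosed.measurableSet]
    exact ENNReal.mul_lt_top ENNReal.ofReal_lt_top hfin

end FC76
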