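import Pool.Agent.H76.FL.MA

/-!
# Row MB: finite mass and logarithmic growth in the chart

Let ρ1, C from `norm_energy`.  Choose δ0 <= 1 with unchart c (ball δ0) contained in ball ρ1 (continuity at 0: ‖unchart c q‖ <= ‖x‖ (1 + ‖c‖ + 1)).
At p = unchart c q, q = (x,u) in ball δ, x ≠ 0:  ‖y‖ <= ‖x‖ (‖c‖+1), so nsq p <= Λ ‖x‖^2, Λ := 1 + (‖c‖+1)^2.
1. `bl_fin`: ‖x‖^(2e) nsq(vf A1 C1 q) = ‖A‖^2 + ‖x B - y A‖^2/‖x‖^4 (`blTo_ev`) <= nsq(Z p) + Λ^2 ‖x B - y A‖^2/(nsq p)^2; integrate: `lintegral_blM`, `fin`, `norm_energy`.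
2. `bl_log`: h1 := X 0 * bl c h; Zp A1 C1 h1 = A1 * bl c h + X 0 * Zp A1 C1 (bl c h), and x^e ev (Zp A1 C1 (bl c h)) q = ev (Zp A B h) p
   (ev (bl c h) = ev h ∘ unchart c, chain rule; or polynomial identities; `fderiv_ev_vf`, `blTo_field` and the inverse chart: D(unchart) (x^e Z~) = Z).
   So ‖x‖^(2e) ‖Z~ h1/h1‖^2 <= 2 ‖A‖^2/‖x‖^2 + 2 ‖Zh/h‖^2 <= 2 Λ nsq(Z)/nsq(p) + 2‖Zh/h‖^2.
   On r < ‖h1(q)‖ = ‖x‖ ‖h(p)‖: with H := bound of ‖ev h‖ on ball ρ1, H >= 1: ‖x‖ > r/H, ‖h(p)‖ > r (δ <= 1).  So the integral over {r < ‖h1‖} is at most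
   2 Λ * C (1 + log(H/r)) + 2 C_log (1 + log(1/r)) (for r/H < 1) <= C'(1 + log(1/r)).
-/

open MvPolynomial MeasureTheory
open scoped ContDiff ComplexConjugate

namespace FC76

theorem MB_X0 (c : ℂ) : bl c (X 0) = X 0 := by
  simp [bl]

theorem MB_X1 (c : ℂ) : bl c (X 1) = X 0 * (X 1 + C c) := by
  simp [bl]

/-- chain rule for polynomials -/
theorem MB_pd (c : ℂ) (f : P2) : pderiv 1 (bl c f) = X 0 * bl c (pderiv 1 f) ∧
    pderiv 0 (bl c f) = bl c (pderiv 0 f) + (X 1 + C c) * bl c (pderiv 1 f) := by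
  have h01 : pderiv 0 (X 1 : P2) = 0 := pderiv_X_of_ne (by decide)
  have h10 : pderiv 1 (X 0 : P2) = 0 := pderiv_X_of_ne (by decide)
  have h00 : pderiv 0 (X 0 : P2) = 1 := pderiv_X_self _
  have h11 : pderiv 1 (X 1 : P2) = 1 := pderiv_X_self _
  induction f using MvPolynomial.induction_on with
  | C a =>
    have h : bl c (C a) = C a := by
      rw [← MvPolynomial.algebraMap_eq]
      exact AlgHom.commutes _ _
    rw [h, pderiv_C, pderiv_C, map_zero, mul_zero, mul_zero, add_zero]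
    exact ⟨rfl, rfl⟩
  | add f g hf hg =>
    simp only [map_add]
    rw [hf.1, hg.1, hf.2, hg.2]
    constructor <;> ring
  | mul_X f i hf =>
    fin_cases i
    · show pderiv 1 (bl c (f * X 0)) = X 0 * bl c (pderiv 1 (f * X 0)) ∧
        pderiv 0 (bl c (f * X 0)) =
          bl c (pderiv 0 (f * X 0)) + (X 1 + C c) * bl c (pderiv 1 (f * X 0))
      rw [map_mul, MB_X0, pderiv_mul, pderiv_mul, pderiv_mul, pderiv_mul, hf.1, hf.2, h00, h10,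
        mul_zero, mul_zero, add_zero, add_zero, map_mul, MB_X0, map_add, map_mul, MB_X0, map_mul,
        map_one]
      constructor <;> ring
    · show pderiv 1 (bl c (f * X 1)) = X 0 * bl c (pderiv 1 (f * X 1)) ∧
        pderiv 0 (bl c (f * X 1)) =
          bl c (pderiv 0 (f * X 1)) + (X 1 + C c) * bl c (pderiv 1 (f * X 1))
      simp only [map_mul, MB_X1, pderiv_mul, map_add, pderiv_C, hf.1, hf.2, h00, h10, h01, h11,
        map_one, map_zero]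
      constructor <;> ring

theorem MB_poly {A B A1 C1 : P2} {c : ℂ} {e : ℕ} (hb : BlTo A B c e A1 C1) (h : P2) :
    X 0 ^ e * Zp A1 C1 (bl c h) = bl c (Zp A B h) := by
  obtain ⟨h1, h2⟩ := hb
  unfold Zp
  rw [(MB_pd c h).1, (MB_pd c h).2, map_add, map_mul, map_mul]
  linear_combination (bl c (pderiv 0 h) + (X 1 + C c) * bl c (pderiv 1 h)) * h1 +
    bl c (pderiv 1 h) * h2

theorem MB_ev_bl (c : ℂ) (f : P2) (q : ℂ × ℂ) : ev (bl c f) q = ev f (unchart c q) := ev_bl c f q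

theorem MB_D (c : ℂ) (δ : ℝ) :
    MeasurableSet {p : ℂ × ℂ | p.1 ≠ 0 ∧ chart c p ∈ Metric.ball (0 : ℂ × ℂ) δ} := by
  refine MeasurableSet.inter ?_ ?_
  · exact (measurable_fst (measurableSet_singleton (0 : ℂ))).compl
  · exact measurable_chart c Metric.isOpen_ball.measurableSet

theorem MB_geom (c : ℂ) {ρ1 : ℝ} (hρ1 : 0 < ρ1) :
    ∃ δ0 : ℝ, 0 < δ0 ∧ δ0 ≤ 1 ∧ ∀ δ : ℝ, δ ≤ δ0 → ∀ p : ℂ × ℂ, p.1 ≠ 0 →
      chart c p ∈ Metric.ball (0 : ℂ × ℂ) δ → p ∈ Metric.ball (0 : ℂ × ℂ) ρ1 ∧ ‖p.1‖ < 1 ∧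
        nsq p ≤ (1 + (1 + ‖c‖) ^ 2) * ‖p.1‖ ^ 2 := by
  have hc : 0 < 1 + ‖c‖ := by positivity
  refine ⟨min 1 (ρ1 / (1 + ‖c‖)), lt_min one_pos (div_pos hρ1 hc), min_le_left _ _, ?_⟩
  intro δ hδ p hp hq
  have hδ1 : δ ≤ 1 := hδ.trans (min_le_left _ _)
  have hδ2 : δ ≤ ρ1 / (1 + ‖c‖) := hδ.trans (min_le_right _ _)
  rw [mem_ball_zero_iff, Prod.norm_def, max_lt_iff] at hq
  have h1 : ‖p.1‖ < δ := hq.1
  have h2 : ‖p.2 / p.1 - c‖ < δ := hq.2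
  have hN : 0 < ‖p.1‖ := norm_pos_iff.2 hp
  have h3 : ‖p.2‖ ≤ ‖p.1‖ * (1 + ‖c‖) := by
    have h4 : p.2 = p.1 * ((p.2 / p.1 - c) + c) := by
      field_simp
      ring
    calc ‖p.2‖ = ‖p.1 * ((p.2 / p.1 - c) + c)‖ := by rw [← h4]
      _ = ‖p.1‖ * ‖(p.2 / p.1 - c) + c‖ := norm_mul _ _
      _ ≤ ‖p.1‖ * (1 + ‖c‖) := by
          refine mul_le_mul_of_nonneg_left ?_ hN.le
          have := norm_add_le (p.2 / p.1 - c) c
          linarith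
  have h5 : ‖p.1‖ * (1 + ‖c‖) < ρ1 := by
    rw [← lt_div_iff₀ hc]
    linarith
  have h6 : ‖p.1‖ ≤ ‖p.1‖ * (1 + ‖c‖) := by
    have := norm_nonneg c
    nlinarith
  refine ⟨?_, lt_of_lt_of_le h1 hδ1, ?_⟩
  · rw [mem_ball_zero_iff, Prod.norm_def, max_lt_iff]
    exact ⟨by linarith, by linarith⟩
  · unfold nsq
    have h7 : ‖p.2‖ ^ 2 ≤ (‖p.1‖ * (1 + ‖c‖)) ^ 2 := pow_le_pow_left₀ (norm_nonneg _) h3 2
    calc ‖p.1‖ ^ 2 + ‖p.2‖ ^ 2 ≤ ‖p.1‖ ^ 2 + (‖p.1‖ * (1 + ‖c‖)) ^ 2 := by linarith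
      _ = (1 + (1 + ‖c‖) ^ 2) * ‖p.1‖ ^ 2 := by ring

theorem MB_nsq_pos {p : ℂ × ℂ} (h : p.1 ≠ 0) : 0 < nsq p := by
  unfold nsq
  have := norm_pos_iff.2 h
  positivity

theorem MB_real1 {N a1 c1 a b w s Λ : ℝ} {e : ℕ} (hN : 0 < N) (hs : 0 < s) (hΛ : s ≤ Λ * N ^ 2)
    (h1 : N ^ e * a1 = a) (h2 : N ^ (e + 1) * c1 = b) (h3 : N * b = w) :
    N ^ (2 * e) * (a1 ^ 2 + c1 ^ 2) ≤ a ^ 2 + Λ ^ 2 * (w ^ 2 / s ^ 2) := by
  have h4 : N ^ (2 * e) * c1 ^ 2 = w ^ 2 / N ^ 4 := by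
    rw [eq_div_iff (by positivity), ← h3, ← h2]
    ring
  have h5 : w ^ 2 / N ^ 4 ≤ Λ ^ 2 * (w ^ 2 / s ^ 2) := by
    have h6 : s ^ 2 ≤ Λ ^ 2 * N ^ 4 := by
      calc s ^ 2 ≤ (Λ * N ^ 2) ^ 2 := pow_le_pow_left₀ hs.le hΛ 2
        _ = Λ ^ 2 * N ^ 4 := by ring
    rw [← mul_div_assoc, div_le_div_iff₀ (by positivity) (by positivity)]
    calc w ^ 2 * s ^ 2 ≤ w ^ 2 * (Λ ^ 2 * N ^ 4) := mul_le_mul_of_nonneg_left h6 (sq_nonneg _)
      _ = Λ ^ 2 * w ^ 2 * N ^ 4 := by ring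
  have h7 : N ^ (2 * e) * a1 ^ 2 = a ^ 2 := by
    rw [← h1]
    ring
  calc N ^ (2 * e) * (a1 ^ 2 + c1 ^ 2) = N ^ (2 * e) * a1 ^ 2 + N ^ (2 * e) * c1 ^ 2 := by ring
    _ ≤ _ := by
      rw [h7, h4]
      linarith

theorem bl_fin {A B h A1 C1 : P2} {ρ : ℝ} {M : Measure (ℂ × ℂ)} (h0 : 0 < ρ) (hI : Inv A B h ρ M) {c : ℂ} {e : ℕ}
    (hb : BlTo A B c e A1 C1) :
    ∃ δ0 : ℝ, 0 < δ0 ∧ ∀ δ : ℝ, 0 < δ → δ ≤ δ0 →
      ∫⁻ q, ENNReal.ofReal (nsq (vf A1 C1 q)) ∂(blM c e δ M) < ⊤ := by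
  obtain ⟨ρ1, hρ1, hρ1ρ, K, hK, -, hE⟩ := norm_energy h0 hI
  obtain ⟨δ0, hδ0, hδ01, hg⟩ := MB_geom c hρ1
  refine ⟨δ0, hδ0, fun δ hδ hδ' => ?_⟩
  have hev : ∀ f : P2, Continuous (ev f) := fun f => (contDiff_real_ev f).continuous
  have hvf : ∀ f g : P2, Measurable (fun q => ENNReal.ofReal (nsq (vf f g q))) := by
    intro f g
    refine ENNReal.measurable_ofReal.comp ?_
    have hf := (hev f).measurable
    have hg := (hev g).measurable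
    show Measurable (fun q => ‖ev f q‖ ^ 2 + ‖ev g q‖ ^ 2)
    fun_prop
  obtain ⟨Λ, hΛ⟩ : ∃ Λ : ℝ, Λ = 1 + (1 + ‖c‖) ^ 2 := ⟨_, rfl⟩
  rw [lintegral_blM c e δ M _ (hvf A1 C1)]
  have hpt : ∀ p ∈ {p : ℂ × ℂ | p.1 ≠ 0 ∧ chart c p ∈ Metric.ball (0 : ℂ × ℂ) δ},
      ENNReal.ofReal (‖p.1‖ ^ (2 * e)) * ENNReal.ofReal (nsq (vf A1 C1 (chart c p))) ≤
      ENNReal.ofReal (nsq (vf A B p)) + (Metric.ball (0 : ℂ × ℂ) ρ1).indicator
        (fun p => ENNReal.ofReal (Λ ^ 2) *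
          ENNReal.ofReal (‖p.1 * ev B p - p.2 * ev A p‖ ^ 2 / (nsq p) ^ 2)) p := by
    rintro p ⟨hp, hq⟩
    obtain ⟨g1, g2, g3⟩ := hg δ hδ' p hp hq
    rw [Set.indicator_of_mem g1, ← ENNReal.ofReal_mul (by positivity),
      ← ENNReal.ofReal_mul (by positivity),
      ← ENNReal.ofReal_add (nsq_nonneg _) (by positivity)]
    refine ENNReal.ofReal_le_ofReal ?_
    obtain ⟨b1, b2⟩ := blTo_ev hb (chart c p)
    rw [unchart_chart c p hp] at b1 b2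
    have e1 : (chart c p).1 = p.1 := rfl
    have e2 : (chart c p).2 + c = p.2 / p.1 := by
      show p.2 / p.1 - c + c = p.2 / p.1
      ring
    rw [e1] at b1 b2
    rw [e2] at b2
    have b3 : p.1 * (ev B p - p.2 / p.1 * ev A p) = p.1 * ev B p - p.2 * ev A p := by
      field_simp
    have n1 := congrArg norm b1
    have n2 := congrArg norm b2
    have n3 := congrArg norm b3
    rw [norm_mul, norm_pow] at n1 n2
    rw [norm_mul] at n3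
    have := MB_real1 (norm_pos_iff.2 hp) (MB_nsq_pos hp) g3 n1 n2 n3
    rw [← hΛ] at this
    have h9 : ‖ev A p‖ ^ 2 ≤ nsq (vf A B p) := by
      show ‖ev A p‖ ^ 2 ≤ ‖ev A p‖ ^ 2 + ‖ev B p‖ ^ 2
      have := sq_nonneg ‖ev B p‖
      linarith
    have h10 : nsq (vf A1 C1 (chart c p)) = ‖ev A1 (chart c p)‖ ^ 2 + ‖ev C1 (chart c p)‖ ^ 2 := rfl
    rw [h10]
    linarith
  refine lt_of_le_of_lt (setLIntegral_mono' (MB_D c δ) hpt) ?_
  refine lt_of_le_of_lt (setLIntegral_le_lintegral _ _) ?_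
  rw [lintegral_add_left (hvf A B), lintegral_indicator Metric.isOpen_ball.measurableSet,
    lintegral_const_mul']
  · refine ENNReal.add_lt_top.2 ⟨hI.fin, ENNReal.mul_lt_top ENNReal.ofReal_lt_top ?_⟩
    exact lt_of_le_of_lt hE ENNReal.ofReal_lt_top
  · exact ENNReal.ofReal_ne_top

/-- derivative of the transported polynomial -/
theorem bl_Zp {A B h A1 C1 : P2} {c : ℂ} {e : ℕ} (hb : BlTo A B c e A1 C1) (q : ℂ × ℂ) (hq : q.1 ≠ 0) :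
    q.1 ^ e * ev (Zp A1 C1 (bl c h)) q = ev (Zp A B h) (unchart c q) := by
  rw [← MB_ev_bl, ← MB_poly hb h, ev_mul, ev_pow, ev_X0]

theorem MB_log_pt {A B h A1 C1 : P2} {c : ℂ} {e : ℕ} (hb : BlTo A B c e A1 C1) {p : ℂ × ℂ}
    (hp : p.1 ≠ 0) (hh : ev h p ≠ 0) {Λ : ℝ} (hΛ : nsq p ≤ Λ * ‖p.1‖ ^ 2) :
    ‖p.1‖ ^ (2 * e) * (‖ev (Zp A1 C1 (X 0 * bl c h)) (chart c p)‖ ^ 2 /
      ‖ev (X 0 * bl c h) (chart c p)‖ ^ 2) ≤
      2 * Λ * (nsq (vf A B p) / nsq p) + 2 * (‖ev (Zp A B h) p‖ ^ 2 / ‖ev h p‖ ^ 2) := by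
  have e1 : (chart c p).1 = p.1 := rfl
  have hq : (chart c p).1 ≠ 0 := hp
  have hzp : Zp A1 C1 (X 0 * bl c h) = A1 * bl c h + X 0 * Zp A1 C1 (bl c h) := by
    unfold Zp
    rw [pderiv_mul, pderiv_mul, pderiv_X_self, pderiv_X_of_ne (by decide : (0 : Fin 2) ≠ 1)]
    ring
  have hN := norm_pos_iff.2 hp
  have hs := MB_nsq_pos hp
  have hb1 := (blTo_ev hb (chart c p)).1
  have hb2 := bl_Zp (h := h) hb (chart c p) hq
  rw [unchart_chart c p hp, e1] at hb1 hb2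
  have hbh : ev (bl c h) (chart c p) = ev h p := by
    rw [MB_ev_bl, unchart_chart c p hp]
  rw [hzp, ev_add, ev_mul, ev_mul, ev_mul, ev_X0, e1, hbh]
  have key : p.1 ^ e * ((ev A1 (chart c p) * ev h p + p.1 * ev (Zp A1 C1 (bl c h)) (chart c p)) /
      (p.1 * ev h p)) = ev A p / p.1 + ev (Zp A B h) p / ev h p := by
    rw [← hb1, ← hb2]
    field_simp
  have n1 : ‖p.1‖ ^ (2 * e) *
      (‖ev A1 (chart c p) * ev h p + p.1 * ev (Zp A1 C1 (bl c h)) (chart c p)‖ ^ 2 /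
        ‖p.1 * ev h p‖ ^ 2) = ‖ev A p / p.1 + ev (Zp A B h) p / ev h p‖ ^ 2 := by
    rw [← key, norm_mul (p.1 ^ e), norm_pow, norm_div]
    ring
  rw [n1]
  have n2 := norm_add_le (ev A p / p.1) (ev (Zp A B h) p / ev h p)
  have n3 : ‖ev A p / p.1 + ev (Zp A B h) p / ev h p‖ ^ 2 ≤
      2 * ‖ev A p / p.1‖ ^ 2 + 2 * ‖ev (Zp A B h) p / ev h p‖ ^ 2 := by
    have n4 := norm_nonneg (ev A p / p.1 + ev (Zp A B h) p / ev h p)
    nlinarith [sq_nonneg (‖ev A p / p.1‖ - ‖ev (Zp A B h) p / ev h p‖)]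
  have n5 : ‖ev A p / p.1‖ ^ 2 ≤ Λ * (nsq (vf A B p) / nsq p) := by
    rw [norm_div, div_pow, ← mul_div_assoc, div_le_div_iff₀ (by positivity) hs]
    have n6 : ‖ev A p‖ ^ 2 ≤ nsq (vf A B p) := by
      show ‖ev A p‖ ^ 2 ≤ ‖ev A p‖ ^ 2 + ‖ev B p‖ ^ 2
      have := sq_nonneg ‖ev B p‖
      linarith
    calc ‖ev A p‖ ^ 2 * nsq p ≤ nsq (vf A B p) * (Λ * ‖p.1‖ ^ 2) :=
          mul_le_mul n6 hΛ hs.le (nsq_nonneg _)
      _ = Λ * nsq (vf A B p) * ‖p.1‖ ^ 2 := by ring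
  have n7 : ‖ev (Zp A B h) p / ev h p‖ ^ 2 = ‖ev (Zp A B h) p‖ ^ 2 / ‖ev h p‖ ^ 2 := by
    rw [norm_div, div_pow]
  rw [n7] at n3
  linarith

theorem bl_log {A B h A1 C1 : P2} {ρ : ℝ} {M : Measure (ℂ × ℂ)} (h0 : 0 < ρ) (hI : Inv A B h ρ M) {c : ℂ} {e : ℕ}
    (hb : BlTo A B c e A1 C1) :
    ∃ δ0 : ℝ, 0 < δ0 ∧ ∀ δ : ℝ, 0 < δ → δ ≤ δ0 → ∃ C : ℝ, ∀ r : ℝ, 0 < r → r < 1 →
      ∫⁻ q in {q | r < ‖ev (X 0 * bl c h) q‖},
        ENNReal.ofReal (‖ev (Zp A1 C1 (X 0 * bl c h)) q‖ ^ 2 / ‖ev (X 0 * bl c h) q‖ ^ 2) ∂(blM c e δ M) ≤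
      ENNReal.ofReal (C * (1 + Real.log (1 / r))) := by
  obtain ⟨ρ1, hρ1, hρ1ρ, K, hK, hE, -⟩ := norm_energy h0 hI
  obtain ⟨δ0, hδ0, hδ01, hg⟩ := MB_geom c hρ1
  obtain ⟨K2, hK2⟩ := hI.log
  refine ⟨δ0, hδ0, fun δ hδ hδ' => ?_⟩
  have hev : ∀ f : P2, Continuous (ev f) := fun f => (contDiff_real_ev f).continuous
  obtain ⟨H0, hH0⟩ := (isCompact_closedBall (0 : ℂ × ℂ) ρ1).exists_bound_of_continuousOn
    (hev h).continuousOn
  obtain ⟨H, hH1, hH⟩ : ∃ H : ℝ, 1 ≤ H ∧ ∀ p ∈ Metric.ball (0 : ℂ × ℂ) ρ1, ‖ev h p‖ ≤ H :=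
    ⟨max 1 H0, le_max_left _ _, fun p hp =>
      (hH0 p (Metric.ball_subset_closedBall hp)).trans (le_max_right _ _)⟩
  have hHpos : 0 < H := by linarith
  obtain ⟨Λ, hΛ⟩ : ∃ Λ : ℝ, Λ = 1 + (1 + ‖c‖) ^ 2 := ⟨_, rfl⟩
  have hΛ0 : 0 ≤ Λ := by
    rw [hΛ]
    positivity
  have hlogH : 0 ≤ Real.log H := Real.log_nonneg hH1
  refine ⟨2 * Λ * (K * (1 + Real.log H)) + 2 * |K2|, fun r hr hr1 => ?_⟩
  have hL0 : 0 ≤ Real.log (1 / r) := Real.log_nonneg (by rw [le_div_iff₀ hr]; linarith)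
  obtain ⟨F, hF⟩ : ∃ F : ℂ × ℂ → ENNReal, F = fun q =>
      ENNReal.ofReal (‖ev (Zp A1 C1 (X 0 * bl c h)) q‖ ^ 2 / ‖ev (X 0 * bl c h) q‖ ^ 2) :=
    ⟨_, rfl⟩
  have hFm : Measurable F := by
    rw [hF]
    have m1 := (hev (Zp A1 C1 (X 0 * bl c h))).measurable
    have m2 := (hev (X 0 * bl c h)).measurable
    fun_prop
  obtain ⟨S, hS⟩ : ∃ S : Set (ℂ × ℂ), S = {q | r < ‖ev (X 0 * bl c h) q‖} := ⟨_, rfl⟩
  have hSm : MeasurableSet S := by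
    rw [hS]
    exact (isOpen_lt continuous_const (hev _).norm).measurableSet
  rw [← hS, ← hF, ← lintegral_indicator hSm, lintegral_blM c e δ M _ (hFm.indicator hSm)]
  obtain ⟨T1, hT1⟩ : ∃ T1 : Set (ℂ × ℂ),
      T1 = {p | p ∈ Metric.ball (0 : ℂ × ℂ) ρ1 ∧ r / H < ‖p‖} := ⟨_, rfl⟩
  obtain ⟨T2, hT2⟩ : ∃ T2 : Set (ℂ × ℂ), T2 = {p | r < ‖ev h p‖} := ⟨_, rfl⟩
  have hT1m : MeasurableSet T1 := by
    rw [hT1]
    exact Metric.isOpen_ball.measurableSet.inter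
      (isOpen_lt continuous_const continuous_norm).measurableSet
  have hT2m : MeasurableSet T2 := by
    rw [hT2]
    exact (isOpen_lt continuous_const (hev h).norm).measurableSet
  obtain ⟨g1, hg1⟩ : ∃ g1 : ℂ × ℂ → ENNReal, g1 = fun p =>
      ENNReal.ofReal (2 * Λ) * ENNReal.ofReal (nsq (vf A B p) / nsq p) := ⟨_, rfl⟩
  obtain ⟨g2, hg2⟩ : ∃ g2 : ℂ × ℂ → ENNReal, g2 = fun p =>
      ENNReal.ofReal 2 * ENNReal.ofReal (‖ev (Zp A B h) p‖ ^ 2 / ‖ev h p‖ ^ 2) := ⟨_, rfl⟩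
  have hg1m : Measurable g1 := by
    rw [hg1]
    have m1 := (hev A).measurable
    have m2 := (hev B).measurable
    show Measurable fun p : ℂ × ℂ => ENNReal.ofReal (2 * Λ) *
      ENNReal.ofReal ((‖ev A p‖ ^ 2 + ‖ev B p‖ ^ 2) / (‖p.1‖ ^ 2 + ‖p.2‖ ^ 2))
    fun_prop
  have hpt : ∀ p ∈ {p : ℂ × ℂ | p.1 ≠ 0 ∧ chart c p ∈ Metric.ball (0 : ℂ × ℂ) δ},
      ENNReal.ofReal (‖p.1‖ ^ (2 * e)) * S.indicator F (chart c p) ≤
        T1.indicator g1 p + T2.indicator g2 p := by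
    rintro p ⟨hp, hq⟩
    obtain ⟨b1, b2, b3⟩ := hg δ hδ' p hp hq
    by_cases hpS : chart c p ∈ S
    · rw [Set.indicator_of_mem hpS]
      have hN := norm_pos_iff.2 hp
      have hbh : ev (bl c h) (chart c p) = ev h p := by
        rw [MB_ev_bl, unchart_chart c p hp]
      have hr' : r < ‖p.1‖ * ‖ev h p‖ := by
        rw [hS] at hpS
        have h5 : r < ‖ev (X 0 * bl c h) (chart c p)‖ := hpS
        rw [ev_mul, ev_X0, hbh, norm_mul] at h5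
        exact h5
      have hhp := hH p b1
      have hh0 := norm_nonneg (ev h p)
      have c1 : r / H < ‖p.1‖ := by
        rw [div_lt_iff₀ hHpos]
        exact lt_of_lt_of_le hr' (mul_le_mul_of_nonneg_left hhp hN.le)
      have c2 : r < ‖ev h p‖ := by
        refine lt_of_lt_of_le hr' ?_
        calc ‖p.1‖ * ‖ev h p‖ ≤ 1 * ‖ev h p‖ := mul_le_mul_of_nonneg_right b2.le hh0
          _ = ‖ev h p‖ := one_mul _
      have m1 : p ∈ T1 := by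
        rw [hT1]
        refine ⟨b1, lt_of_lt_of_le c1 ?_⟩
        rw [Prod.norm_def]
        exact le_max_left _ _
      have m2 : p ∈ T2 := by
        rw [hT2]
        exact c2
      have hh : ev h p ≠ 0 := norm_pos_iff.1 (lt_trans hr c2)
      rw [Set.indicator_of_mem m1, Set.indicator_of_mem m2, hF, hg1, hg2]
      beta_reduce
      have hq1 : 0 ≤ nsq (vf A B p) / nsq p := div_nonneg (nsq_nonneg _) (nsq_nonneg _)
      rw [← ENNReal.ofReal_mul (by positivity), ← ENNReal.ofReal_mul (by positivity),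
        ← ENNReal.ofReal_mul (by positivity), ← ENNReal.ofReal_add (by positivity) (by positivity)]
      refine ENNReal.ofReal_le_ofReal ?_
      rw [← hΛ] at b3
      exact MB_log_pt hb hp hh b3
    · rw [Set.indicator_of_notMem hpS, mul_zero]
      exact zero_le
  have hrH : 0 < r / H := div_pos hr hHpos
  have hrH1 : r / H < 1 := by
    rw [div_lt_one hHpos]
    linarith
  have hlog : Real.log (1 / (r / H)) = Real.log H + Real.log (1 / r) := by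
    rw [one_div_div, Real.log_div hHpos.ne' hr.ne', one_div, Real.log_inv]
    ring
  calc ∫⁻ p in {p : ℂ × ℂ | p.1 ≠ 0 ∧ chart c p ∈ Metric.ball (0 : ℂ × ℂ) δ},
        ENNReal.ofReal (‖p.1‖ ^ (2 * e)) * S.indicator F (chart c p) ∂M
      ≤ ∫⁻ p in {p : ℂ × ℂ | p.1 ≠ 0 ∧ chart c p ∈ Metric.ball (0 : ℂ × ℂ) δ},
        (T1.indicator g1 p + T2.indicator g2 p) ∂M := setLIntegral_mono' (MB_D c δ) hpt
    _ ≤ ∫⁻ p, (T1.indicator g1 p + T2.indicator g2 p) ∂M := setLIntegral_le_lintegral _ _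
    _ = ENNReal.ofReal (2 * Λ) * (∫⁻ p in T1, ENNReal.ofReal (nsq (vf A B p) / nsq p) ∂M) +
        ENNReal.ofReal 2 *
          (∫⁻ p in T2, ENNReal.ofReal (‖ev (Zp A B h) p‖ ^ 2 / ‖ev h p‖ ^ 2) ∂M) := by
        rw [lintegral_add_left (hg1m.indicator hT1m), lintegral_indicator hT1m,
          lintegral_indicator hT2m, hg1, hg2, lintegral_const_mul' _ _ ENNReal.ofReal_ne_top,
          lintegral_const_mul' _ _ ENNReal.ofReal_ne_top]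
    _ ≤ ENNReal.ofReal (2 * Λ) * ENNReal.ofReal (K * (1 + Real.log (1 / (r / H)))) +
        ENNReal.ofReal 2 * ENNReal.ofReal (|K2| * (1 + Real.log (1 / r))) := by
        refine add_le_add (mul_le_mul_right ?_ _) (mul_le_mul_right ?_ _)
        · rw [hT1]
          exact hE (r / H) hrH hrH1
        · rw [hT2]
          refine (hK2 r hr hr1).trans (ENNReal.ofReal_le_ofReal ?_)
          exact mul_le_mul_of_nonneg_right (le_abs_self _) (by linarith)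
    _ = ENNReal.ofReal (2 * Λ * (K * (1 + Real.log (1 / (r / H)))) +
          2 * (|K2| * (1 + Real.log (1 / r)))) := by
        have i1 : 0 ≤ K * (1 + Real.log (1 / (r / H))) := by
          rw [hlog]
          positivity
        have i2 : 0 ≤ |K2| * (1 + Real.log (1 / r)) := by positivity
        rw [← ENNReal.ofReal_mul (by positivity), ← ENNReal.ofReal_mul (by positivity),
          ← ENNReal.ofReal_add (by positivity) (by positivity)]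
    _ ≤ ENNReal.ofReal ((2 * Λ * (K * (1 + Real.log H)) + 2 * |K2|) *
          (1 + Real.log (1 / r))) := by
        refine ENNReal.ofReal_le_ofReal ?_
        rw [hlog]
        have i1 : 1 + (Real.log H + Real.log (1 / r)) ≤
            (1 + Real.log H) * (1 + Real.log (1 / r)) := by
          have := mul_nonneg hlogH hL0
          nlinarith
        have i2 : 0 ≤ 2 * Λ * K := by positivity
        have i3 := mul_le_mul_of_nonneg_left i1 i2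
        nlinarith

end FC76
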