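import Pool.Agent.H76.FL.MA

/-!
# Row MC: invariance in the chart

Let g be smooth with compact support in dom (X 0 * bl c h) δ.  Put G(p) := g(chart c p) if x ≠ 0, and 0 if x = 0.  tsupport g is a compact set K on which x ≠ 0; unchart c (K) is compact,
contained in dom h ρ, and G vanishes outside of it; G is smooth (near points of {x ≠ 0} composition with the analytic map chart; near other points outside the closed set unchart K it is 0).
 ∫ dW g(q)(Z~ q) d blM = ∫_{x ≠ 0, chart p in ball δ} ‖x‖^(2e) dW g(chart p)(Z~) dM (`integral_blM`) and by `blTo_field`, `dW_smul` and the chain rule for the holomorphic map chart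
 (D(g∘chart)(v) = Dg(Dchart v), Dchart complex linear, so dW (g∘chart) p v = dW g (chart p) (Dchart v)):
 x^e dW g(chart p)(Z~) = dW G p (Z p);  ‖x‖^(2e) = conj(x)^e x^e.  So the integrand is conj(x)^e dW G p (Z p) = dW (conj(x)^e G) p (Z p)
 (`dW_mul`; dW of conj(x)^e is the conjugate of dWb(x^e) = 0, `dW_conj`, `dW_holo`).  The function conj(x)^e G is smooth with compact support in dom h ρ: `inv` gives 0.
-/

open MvPolynomial MeasureTheory
open scoped ContDiff ComplexConjugate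

namespace FC76

theorem MC_chain {g : ℂ × ℂ → ℂ} {c : ℂ} {p : ℂ × ℂ} (hp : p.1 ≠ 0)
    (hg : DifferentiableAt ℝ g (chart c p)) (v : ℂ × ℂ) :
    dW (fun q => g (chart c q)) p v = dW g (chart c p) (fderiv ℂ (chart c) p v) := by
  have hch : DifferentiableAt ℂ (chart c) p := (chart_holo c p hp).differentiableAt
  have h1 : HasFDerivAt (chart c) ((fderiv ℂ (chart c) p).restrictScalars ℝ) p :=
    hch.hasFDerivAt.restrictScalars ℝ
  have h2 := (hg.hasFDerivAt.comp p h1).fderiv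
  have h3 : ∀ w, fderiv ℝ (fun q => g (chart c q)) p w = fderiv ℝ g (chart c p) (fderiv ℂ (chart c) p w) := by
    intro w
    exact congrArg (fun L : ℂ × ℂ →L[ℝ] ℂ => L w) h2
  unfold dW
  rw [h3, h3, map_smul]

theorem MC_monomial {G : ℂ × ℂ → ℂ} {p : ℂ × ℂ} (hG : DifferentiableAt ℝ G p) (e : ℕ) (v : ℂ × ℂ) :
    dW (fun q => conj (q.1 ^ e) * G q) p v = conj (p.1 ^ e) * dW G p v := by
  have h1 : DifferentiableAt ℂ (fun q : ℂ × ℂ => q.1 ^ e) p := differentiableAt_fst.pow e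
  have h2 : DifferentiableAt ℝ (fun q : ℂ × ℂ => conj (q.1 ^ e)) p :=
    Complex.conjCLE.differentiableAt.comp p (h1.restrictScalars ℝ)
  rw [dW_mul h2 hG, (dW_conj (fun q : ℂ × ℂ => q.1 ^ e) p v).1, (dW_holo h1 v).2, map_zero, mul_zero,
    add_zero]

theorem bl_inv {A B h A1 C1 : P2} {ρ : ℝ} {M : Measure (ℂ × ℂ)} (hI : Inv0 A B h ρ M) {c : ℂ} {e : ℕ}
    (hb : BlTo A B c e A1 C1) (δ : ℝ)
    (hδ : ∀ q ∈ Metric.ball (0 : ℂ × ℂ) δ, unchart c q ∈ Metric.ball (0 : ℂ × ℂ) ρ)
    (g : ℂ × ℂ → ℂ) (hg : ContDiff ℝ ∞ g) (hc : HasCompactSupport g) (hs : tsupport g ⊆ dom (X 0 * bl c h) δ) :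
    ∫ q, dW g q (vf A1 C1 q) ∂(blM c e δ M) = 0 := by
  classical
  have hcont : Continuous (unchart c) := by
    unfold unchart
    fun_prop
  have hKc : IsCompact (tsupport g) := hc
  have hK' : IsCompact (unchart c '' tsupport g) := hKc.image hcont
  have hne : ∀ q ∈ tsupport g, q.1 ≠ 0 ∧ ev h (unchart c q) ≠ 0 := by
    intro q hq
    have h1 := (hs hq).2.1
    rw [MA_ev] at h1
    exact ⟨left_ne_zero_of_mul h1, right_ne_zero_of_mul h1⟩
  have hsub : unchart c '' tsupport g ⊆ dom h ρ := by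
    rintro _ ⟨q, hq, rfl⟩
    refine ⟨hδ q (hs hq).1, (hne q hq).2, ?_⟩
    intro h0
    exact (hne q hq).1 (congrArg Prod.fst h0)
  have hne' : ∀ p ∈ unchart c '' tsupport g, p.1 ≠ 0 ∧ chart c p ∈ Metric.ball (0 : ℂ × ℂ) δ := by
    rintro _ ⟨q, hq, rfl⟩
    refine ⟨(hne q hq).1, ?_⟩
    rw [chart_unchart c q (hne q hq).1]
    exact (hs hq).1
  let G : ℂ × ℂ → ℂ := fun p => if p.1 = 0 then 0 else g (chart c p)
  have hG0 : ∀ p, p ∉ unchart c '' tsupport g → G p = 0 := by
    intro p hp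
    show (if p.1 = 0 then 0 else g (chart c p)) = 0
    split_ifs with h1
    · rfl
    · by_contra h2
      apply hp
      exact ⟨chart c p, subset_tsupport _ h2, unchart_chart c p h1⟩
  have hGev : ∀ p : ℂ × ℂ, p.1 ≠ 0 → G =ᶠ[nhds p] fun q => g (chart c q) := by
    intro p hp
    filter_upwards [continuous_fst.continuousAt.eventually_ne hp] with q hq
    exact if_neg hq
  have hGs : ContDiff ℝ ∞ G := by
    rw [contDiff_iff_contDiffAt]
    intro p
    by_cases hp : p.1 = 0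
    · have h1 : p ∉ unchart c '' tsupport g := fun h2 => (hne' p h2).1 hp
      have e1 : G =ᶠ[nhds p] fun _ => 0 := by
        filter_upwards [hK'.isClosed.isOpen_compl.mem_nhds h1] with q hq
        exact hG0 q hq
      exact contDiffAt_const.congr_of_eventuallyEq e1
    · have h1 : ContDiffAt ℝ ∞ (chart c) p :=
        ((chart_holo c p hp).contDiffAt (n := ∞)).restrict_scalars ℝ
      exact (hg.contDiffAt.comp p h1).congr_of_eventuallyEq (hGev p hp)
  have hm : ContDiff ℝ ∞ (fun q : ℂ × ℂ => conj (q.1 ^ e)) :=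
    Complex.conjCLE.contDiff.comp (contDiff_fst.pow e)
  have hF0 : ∀ p, p ∉ unchart c '' tsupport g → conj (p.1 ^ e) * G p = 0 := by
    intro p hp
    rw [hG0 p hp, mul_zero]
  have hFs : tsupport (fun q : ℂ × ℂ => conj (q.1 ^ e) * G q) ⊆ unchart c '' tsupport g := by
    apply closure_minimal _ hK'.isClosed
    intro q hq
    by_contra hq2
    exact hq (hF0 q hq2)
  have hFc : HasCompactSupport (fun q : ℂ × ℂ => conj (q.1 ^ e) * G q) :=
    HasCompactSupport.intro hK' hF0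
  have h1 := hI.inv (fun q : ℂ × ℂ => conj (q.1 ^ e) * G q) (hm.mul hGs) hFc (hFs.trans hsub)
  have h2 : ∫ p in {p : ℂ × ℂ | p.1 ≠ 0 ∧ chart c p ∈ Metric.ball (0 : ℂ × ℂ) δ},
      dW (fun q : ℂ × ℂ => conj (q.1 ^ e) * G q) p (vf A B p) ∂M =
      ∫ p, dW (fun q : ℂ × ℂ => conj (q.1 ^ e) * G q) p (vf A B p) ∂M := by
    apply setIntegral_eq_integral_of_forall_compl_eq_zero
    intro p hp
    have h3 : p ∉ tsupport (fun q : ℂ × ℂ => conj (q.1 ^ e) * G q) := fun h4 => hp (hne' p (hFs h4))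
    exact (LF_supp_dW h3 _).1
  rw [integral_blM c e δ M _ (LF_contDiff_dW hg A1 C1).1.continuous.stronglyMeasurable]
  refine Eq.trans ?_ (h2.trans h1)
  apply setIntegral_congr_fun (MA_measU c δ)
  intro p hp
  have hp0 : p.1 ≠ 0 := hp.1
  have hgd : DifferentiableAt ℝ g (chart c p) := hg.differentiable (by simp) _
  have e3 : dW G p (vf A B p) = dW (fun q => g (chart c q)) p (vf A B p) := by
    unfold dW
    rw [(hGev p hp0).fderiv_eq]
  show ((‖p.1‖ ^ (2 * e) : ℝ) : ℂ) * dW g (chart c p) (vf A1 C1 (chart c p)) =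
    dW (fun q : ℂ × ℂ => conj (q.1 ^ e) * G q) p (vf A B p)
  rw [MC_monomial (hGs.differentiable (by simp) p), e3, MC_chain hp0 hgd, blTo_field hb p hp0,
    (dW_smul _ _ _ _).1, ← mul_assoc, ← Complex.normSq_eq_conj_mul_self, Complex.normSq_eq_norm_sq,
    norm_pow, ← pow_mul]
  congr 3
  ring

end FC76
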