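import Pool.Agent.H76.FL.MB
import Pool.Agent.H76.FL.MC

/-!
# Row MD: the hypotheses are inherited by the blow-up, and the bound in one chart

1. `bl_Inv`: take δ0 smaller than those of `bl_fin`, `bl_log` and such that unchart c (ball δ0) is in ball ρ.  carried, locfin: `bl_carried_locfin`; fin: `bl_fin`; inv: `bl_inv`; log: `bl_log`;
   dd: `dd_of_inv` (ev (X 0 * bl c h) 0 = 0); dif: for γ holomorphic on pdisc R, unchart c ∘ γ is holomorphic, blM(γ '' pdisc R) <= (integral over the set of p with x ≠ 0, chart p in γ '' pdisc R,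
   i.e. p in (unchart c ∘ γ) '' pdisc R) of ‖x‖^(2e) dM = 0 because that set has M-measure 0 (`Measure.map_apply` needs measurability: γ '' pdisc R is sigma-compact hence measurable: pdisc R is a countable
   union of compact sets on which γ is continuous).
2. `bl_div`: div in the two charts: with p = unchart c q, x ≠ 0:
     ev (divp A B) p = x^e * ev (divp A1 C1) q + (e+1) * x^e * ev A1 q / x.
   From the polynomial identities bl c A = x^e A1 and bl c B = x^(e+1) C1 + (y + c) x^e A1, differentiating: pderiv 1 (bl c f) = X 0 * bl c (pderiv 1 f),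
   pderiv 0 (bl c f) = bl c (pderiv 0 f) + (X 1 + C c) * bl c (pderiv 1 f).
3. `chart_bound`: `bl_Inv` with δ0, GoodE A1 C1 applied to h1 = X 0 * bl c h gives ρ', C'.  δ := min δ0 ρ' (and <= 1).  On the set in question q = chart c p is in ball δ, r^2 < ‖x‖ ‖ev h p‖ = ‖ev h1 q‖, r^2 < r < ‖q‖,
   and ‖div Z‖^2 <= 2 ‖x‖^(2e) ‖div Z~‖^2 + 2 (e+1)^2 ‖A‖^2/‖x‖^2, the last term <= C nsq(Z)/nsq(p): integrate (`lintegral_blM`, `norm_energy`, with δ small so that p in ball ρ1).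
   log(1/r^2) = 2 log(1/r).
-/

open MvPolynomial MeasureTheory
open scoped ContDiff ComplexConjugate

namespace FC76

theorem MD_cont_unchart (c : ℂ) : Continuous (unchart c) := by
  unfold unchart
  fun_prop

theorem MD_unchart_zero (c : ℂ) : unchart c 0 = 0 := by
  simp [unchart]

theorem MD_ball (c : ℂ) {ρ : ℝ} (h : 0 < ρ) :
    ∃ δ : ℝ, 0 < δ ∧ ∀ q ∈ Metric.ball (0 : ℂ × ℂ) δ, unchart c q ∈ Metric.ball (0 : ℂ × ℂ) ρ := by
  have h1 : unchart c ⁻¹' Metric.ball 0 ρ ∈ nhds (0 : ℂ × ℂ) :=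
    (MD_cont_unchart c).continuousAt.preimage_mem_nhds
      (by rw [MD_unchart_zero]; exact Metric.ball_mem_nhds 0 h)
  obtain ⟨δ, hδ, h2⟩ := Metric.mem_nhds_iff.1 h1
  exact ⟨δ, hδ, fun q hq => h2 hq⟩

theorem MD_null {c : ℂ} {e : ℕ} {δ : ℝ} {M : Measure (ℂ × ℂ)} {s : Set (ℂ × ℂ)}
    (h : M (unchart c '' s) = 0) : blM c e δ M s = 0 := by
  obtain ⟨t, ht⟩ : ∃ t, t = toMeasurable M (unchart c '' s) := ⟨_, rfl⟩
  have ht1 : MeasurableSet t := by rw [ht]; exact measurableSet_toMeasurable _ _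
  have ht2 : M t = 0 := by rw [ht, measure_toMeasurable, h]
  have ht3 : unchart c '' s ⊆ t := by rw [ht]; exact subset_toMeasurable _ _
  have hu : MeasurableSet ({q : ℂ × ℂ | q.1 = 0} ∪ unchart c ⁻¹' t) := by
    refine MeasurableSet.union ?_ ((MD_cont_unchart c).measurable ht1)
    exact measurable_fst (measurableSet_singleton (0 : ℂ))
  have hsub : s ⊆ {q : ℂ × ℂ | q.1 = 0} ∪ unchart c ⁻¹' t := by
    intro q hq
    exact Or.inr (ht3 ⟨q, hq, rfl⟩)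
  refine measure_mono_null hsub ?_
  unfold blM
  refine le_antisymm ((Measure.restrict_apply_le _ _).trans ?_) zero_le
  rw [Measure.map_apply (measurable_chart c) hu]
  refine le_of_eq (withDensity_absolutelyContinuous _ _ ?_)
  have hm : MeasurableSet (chart c ⁻¹' ({q : ℂ × ℂ | q.1 = 0} ∪ unchart c ⁻¹' t)) :=
    measurable_chart c hu
  rw [Measure.restrict_apply hm]
  refine measure_mono_null ?_ ht2
  rintro p ⟨hp1, hp2⟩
  have hp2' : p.1 ≠ 0 := hp2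
  rcases hp1 with hp1 | hp1
  · exact absurd hp1 hp2'
  · have h1 : unchart c (chart c p) ∈ t := hp1
    rwa [unchart_chart c p hp2'] at h1

theorem bl_Inv {A B h A1 C1 : P2} {ρ : ℝ} {M : Measure (ℂ × ℂ)} (h0 : 0 < ρ) (hI : Inv A B h ρ M) {c : ℂ} {e : ℕ}
    (hb : BlTo A B c e A1 C1) :
    ∃ δ0 : ℝ, 0 < δ0 ∧ ∀ δ : ℝ, 0 < δ → δ ≤ δ0 → Inv A1 C1 (X 0 * bl c h) δ (blM c e δ M) := by
  obtain ⟨δ1, hδ1, k1⟩ := MD_ball c h0
  obtain ⟨δ2, hδ2, k2⟩ := bl_fin h0 hI hb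
  obtain ⟨δ3, hδ3, k3⟩ := bl_log h0 hI hb
  refine ⟨min δ1 (min δ2 δ3), lt_min hδ1 (lt_min hδ2 hδ3), ?_⟩
  intro δ hδ hle
  have l1 : δ ≤ δ1 := hle.trans (min_le_left _ _)
  have l2 : δ ≤ δ2 := hle.trans ((min_le_right _ _).trans (min_le_left _ _))
  have l3 : δ ≤ δ3 := hle.trans ((min_le_right _ _).trans (min_le_right _ _))
  have hδρ : ∀ q ∈ Metric.ball (0 : ℂ × ℂ) δ, unchart c q ∈ Metric.ball (0 : ℂ × ℂ) ρ :=
    fun q hq => k1 q (Metric.ball_subset_ball l1 hq)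
  obtain ⟨c1, c2⟩ := bl_carried_locfin hI.toInv0 c e δ hδρ
  have hI0 : Inv0 A1 C1 (X 0 * bl c h) δ (blM c e δ M) :=
    { carried := c1
      locfin := c2
      fin := k2 δ hδ l2
      inv := fun g hg hc hs => bl_inv hI.toInv0 hb δ hδρ g hg hc hs
      log := k3 δ hδ l3 }
  refine { toInv0 := hI0, dd := ?_, dif := ?_ }
  · intro G hG hc hs
    exact dd_of_inv hI0 (by rw [ev_mul, ev_X0]; simp) G hG hc hs
  · intro γ R hR hγ
    apply MD_null
    rw [← Set.image_comp]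
    refine hI.dif (unchart c ∘ γ) R hR ?_
    have hd : Differentiable ℂ (unchart c) := by
      unfold unchart
      fun_prop
    exact hd.comp_differentiableOn hγ

theorem MD_bl_C (c a : ℂ) : bl c (C a) = C a := by
  rw [← MvPolynomial.algebraMap_eq]
  exact AlgHom.commutes _ _

theorem MD_bl_X0 (c : ℂ) : bl c (X 0) = X 0 := by
  simp [bl]

theorem MD_bl_X1 (c : ℂ) : bl c (X 1) = X 0 * (X 1 + C c) := by
  simp [bl]

theorem MD_p1 (c : ℂ) (f : P2) : pderiv 1 (bl c f) = X 0 * bl c (pderiv 1 f) := by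
  induction f using MvPolynomial.induction_on with
  | C a => rw [MD_bl_C]; simp
  | add f g hf hg => rw [map_add, map_add, hf, hg, map_add, map_add]; ring
  | mul_X f i hf =>
    rw [map_mul, pderiv_mul, pderiv_mul, hf, map_add, map_mul, map_mul]
    fin_cases i
    · change X 0 * bl c (pderiv 1 f) * bl c (X 0) + bl c f * pderiv 1 (bl c (X 0)) =
        X 0 * (bl c (pderiv 1 f) * bl c (X 0) + bl c f * bl c (pderiv 1 (X 0)))
      rw [MD_bl_X0, pderiv_X_of_ne (by decide), map_zero]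
      ring
    · change X 0 * bl c (pderiv 1 f) * bl c (X 1) + bl c f * pderiv 1 (bl c (X 1)) =
        X 0 * (bl c (pderiv 1 f) * bl c (X 1) + bl c f * bl c (pderiv 1 (X 1)))
      rw [MD_bl_X1, pderiv_mul, map_add, pderiv_C, pderiv_X_self, pderiv_X_of_ne (by decide), map_one]
      ring

theorem MD_p0 (c : ℂ) (f : P2) :
    pderiv 0 (bl c f) = bl c (pderiv 0 f) + (X 1 + C c) * bl c (pderiv 1 f) := by
  induction f using MvPolynomial.induction_on with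
  | C a => rw [MD_bl_C]; simp
  | add f g hf hg => rw [map_add, map_add, hf, hg, map_add, map_add, map_add, map_add]; ring
  | mul_X f i hf =>
    rw [map_mul, pderiv_mul, pderiv_mul, pderiv_mul, hf, map_add, map_mul, map_mul, map_add, map_mul,
      map_mul]
    fin_cases i
    · change (bl c (pderiv 0 f) + (X 1 + C c) * bl c (pderiv 1 f)) * bl c (X 0) +
        bl c f * pderiv 0 (bl c (X 0)) =
        bl c (pderiv 0 f) * bl c (X 0) + bl c f * bl c (pderiv 0 (X 0)) +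
        (X 1 + C c) * (bl c (pderiv 1 f) * bl c (X 0) + bl c f * bl c (pderiv 1 (X 0)))
      rw [MD_bl_X0, pderiv_X_self, pderiv_X_of_ne (by decide : (0 : Fin 2) ≠ 1), map_zero, map_one]
      ring
    · change (bl c (pderiv 0 f) + (X 1 + C c) * bl c (pderiv 1 f)) * bl c (X 1) +
        bl c f * pderiv 0 (bl c (X 1)) =
        bl c (pderiv 0 f) * bl c (X 1) + bl c f * bl c (pderiv 0 (X 1)) +
        (X 1 + C c) * (bl c (pderiv 1 f) * bl c (X 1) + bl c f * bl c (pderiv 1 (X 1)))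
      rw [MD_bl_X1, pderiv_mul, map_add, pderiv_C, pderiv_X_self, pderiv_X_self,
        pderiv_X_of_ne (by decide : (1 : Fin 2) ≠ 0), map_one, map_zero]
      ring

theorem bl_div {A B A1 C1 : P2} {c : ℂ} {e : ℕ} (hb : BlTo A B c e A1 C1) (q : ℂ × ℂ) (hq : q.1 ≠ 0) :
    ev (divp A B) (unchart c q) = q.1 ^ e * ev (divp A1 C1) q + (e + 1) * (q.1 ^ e * ev A1 q / q.1) := by
  obtain ⟨h1, h2⟩ := hb
  have hu : ∀ f : P2, ev (bl c f) q = ev f (unchart c q) := fun f => ev_bl c f q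
  have d1 : ev (pderiv 0 (X 0 ^ e * A1)) q = ev (pderiv 0 (bl c A)) q := by rw [h1]
  have d2 : ev (pderiv 1 (X 0 ^ (e + 1) * C1)) q =
      ev (pderiv 1 (bl c B - (X 1 + C c) * bl c A)) q := by rw [h2]
  have e0 : ev (bl c A) q = q.1 ^ e * ev A1 q := by rw [← h1, ev_mul, ev_pow, ev_X0]
  rw [pderiv_mul, pderiv_pow, MD_p0, pderiv_X_self] at d1
  rw [pderiv_mul, pderiv_pow, map_sub, pderiv_mul, MD_p1, MD_p1, map_add, pderiv_C, pderiv_X_self,
    pderiv_X_of_ne (by decide : (0 : Fin 2) ≠ 1)] at d2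
  simp only [ev_add, ev_sub, ev_mul, ev_pow, ev_X0, ev_X1, ev_C, hu, mul_zero, zero_mul, zero_add,
    add_zero, mul_one] at d1 d2
  have hone : ev (1 : P2) q = 1 := by
    have := ev_C 1 q
    rwa [C_1] at this
  have hnat : ev ((e : ℕ) : P2) q = e := by
    unfold ev
    exact map_natCast _ _
  rw [hone] at d2
  rw [hnat] at d1
  rw [hu] at e0
  unfold divp
  rw [ev_add, ev_add]
  have e3 : q.1 * ((e : ℂ) * q.1 ^ (e - 1)) = e * q.1 ^ e := by
    rcases e with _ | e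
    · simp
    · rw [Nat.add_sub_cancel, pow_succ]; ring
  apply mul_left_cancel₀ hq
  have e4 : q.1 * (q.1 ^ e * (ev (pderiv 0 A1) q + ev (pderiv 1 C1) q) +
      (↑e + 1) * (q.1 ^ e * ev A1 q / q.1)) =
      q.1 ^ (e + 1) * (ev (pderiv 0 A1) q + ev (pderiv 1 C1) q) + (↑e + 1) * (q.1 ^ e * ev A1 q) := by
    field_simp
    ring
  rw [e4]
  linear_combination (-q.1) * d1 - d2 + e0 + ev A1 q * e3

theorem MD_log {r : ℝ} (hr : 0 < r) (hr1 : r < 1) : 0 ≤ Real.log (1 / r) :=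
  Real.log_nonneg (by rw [le_div_iff₀ hr]; linarith)

theorem chart_bound {A B h A1 C1 : P2} {ρ : ℝ} {M : Measure (ℂ × ℂ)} (h0 : 0 < ρ) (hI : Inv A B h ρ M) {c : ℂ} {e : ℕ}
    (hb : BlTo A B c e A1 C1) (hG : GoodE A1 C1) :
    ∃ δ : ℝ, 0 < δ ∧ ∃ C : ℝ, 0 ≤ C ∧ ∀ r : ℝ, 0 < r → r < 1 →
      ∫⁻ p in {p : ℂ × ℂ | 0 < ‖p.1‖ ∧ ‖p.1‖ < δ ∧ ‖p.2 / p.1 - c‖ < δ ∧ r < ‖ev h p‖ ∧ r < ‖p.1‖},
        ENNReal.ofReal (‖ev (divp A B) p‖ ^ 2) ∂M ≤ ENNReal.ofReal (C * (1 + Real.log (1 / r))) := by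
  obtain ⟨δ0, hδ0, hInv⟩ := bl_Inv h0 hI hb
  obtain ⟨ρ', hρ', C', hC'⟩ := hG (X 0 * bl c h) δ0 (blM c e δ0 M) hδ0 (dvd_mul_right _ _)
    (hInv δ0 hδ0 le_rfl)
  obtain ⟨ρ1, hρ1, -, C1', hC1', hn, -⟩ := norm_energy h0 hI
  obtain ⟨δ2, hδ2, hδ2'⟩ := MD_ball c hρ1
  obtain ⟨δ, hδ⟩ : ∃ δ : ℝ, δ = min (min δ0 ρ') (min 1 δ2) := ⟨_, rfl⟩
  have hδpos : 0 < δ := by rw [hδ]; exact lt_min (lt_min hδ0 hρ') (lt_min one_pos hδ2)
  have hle0 : δ ≤ δ0 := by rw [hδ]; exact (min_le_left _ _).trans (min_le_left _ _)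
  have hleρ : δ ≤ ρ' := by rw [hδ]; exact (min_le_left _ _).trans (min_le_right _ _)
  have hle1 : δ ≤ 1 := by rw [hδ]; exact (min_le_right _ _).trans (min_le_left _ _)
  have hle2 : δ ≤ δ2 := by rw [hδ]; exact (min_le_right _ _).trans (min_le_right _ _)
  obtain ⟨K, hK⟩ : ∃ K : ℝ, K = 2 * ((e : ℝ) + 1) ^ 2 * (1 + (‖c‖ + 1) ^ 2) := ⟨_, rfl⟩
  have hK0 : 0 ≤ K := by rw [hK]; positivity
  refine ⟨δ, hδpos, 4 * |C'| + K * C1', by positivity, ?_⟩
  intro r hr hr1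
  have hL := MD_log hr hr1
  have hr2 : 0 < r ^ 2 := by positivity
  have hr2r : r ^ 2 < r := by nlinarith
  obtain ⟨T, hT⟩ : ∃ T : Set (ℂ × ℂ), T = {q | q ∈ Metric.ball (0 : ℂ × ℂ) ρ' ∧
    r ^ 2 < ‖ev (X 0 * bl c h) q‖ ∧ r ^ 2 < ‖q‖} := ⟨_, rfl⟩
  have hTm : MeasurableSet T := by
    rw [hT]
    refine (Metric.isOpen_ball.measurableSet).inter (MeasurableSet.inter ?_ ?_)
    · exact (isOpen_lt continuous_const ((contDiff_real_ev _).continuous.norm)).measurableSet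
    · exact (isOpen_lt continuous_const continuous_norm).measurableSet
  obtain ⟨F, hF⟩ : ∃ F : ℂ × ℂ → ENNReal, F = T.indicator
    (fun q => ENNReal.ofReal (‖ev (divp A1 C1) q‖ ^ 2)) := ⟨_, rfl⟩
  have hFm : Measurable F := by
    rw [hF]
    refine Measurable.indicator ?_ hTm
    exact (((contDiff_real_ev (divp A1 C1)).continuous.norm).pow 2).measurable.ennreal_ofReal
  obtain ⟨D, hD⟩ : ∃ D : Set (ℂ × ℂ), D = {p : ℂ × ℂ | 0 < ‖p.1‖ ∧ ‖p.1‖ < δ ∧
    ‖p.2 / p.1 - c‖ < δ ∧ r < ‖ev h p‖ ∧ r < ‖p.1‖} := ⟨_, rfl⟩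
  have hDm : MeasurableSet D := by
    rw [hD]
    have m1 : Measurable fun p : ℂ × ℂ => ‖p.1‖ := measurable_fst.norm
    have m2 : Measurable fun p : ℂ × ℂ => ‖p.2 / p.1 - c‖ :=
      ((measurable_snd.div measurable_fst).sub_const c).norm
    have m3 : Measurable fun p : ℂ × ℂ => ‖ev h p‖ := (contDiff_real_ev h).continuous.norm.measurable
    exact (measurableSet_lt measurable_const m1).inter ((measurableSet_lt m1 measurable_const).inter
      ((measurableSet_lt m2 measurable_const).inter ((measurableSet_lt measurable_const m3).inter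
        (measurableSet_lt measurable_const m1))))
  -- facts on D
  have hch : ∀ p ∈ D, p.1 ≠ 0 ∧ chart c p ∈ Metric.ball (0 : ℂ × ℂ) δ := by
    intro p hp
    rw [hD] at hp
    obtain ⟨a1, a2, a3, -, -⟩ := hp
    refine ⟨norm_pos_iff.1 a1, ?_⟩
    rw [mem_ball_zero_iff, Prod.norm_def]
    exact max_lt a2 a3
  have hpt : ∀ p ∈ D, ENNReal.ofReal (‖ev (divp A B) p‖ ^ 2) ≤
      2 * (ENNReal.ofReal (‖p.1‖ ^ (2 * e)) * F (chart c p)) +
        ENNReal.ofReal K * ENNReal.ofReal (nsq (vf A B p) / nsq p) := by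
    intro p hp
    obtain ⟨b1, b2⟩ := hch p hp
    have hp' := hp
    rw [hD] at hp'
    obtain ⟨a1, a2, a3, a4, a5⟩ := hp'
    have hun := unchart_chart c p b1
    have hq1 : (chart c p).1 = p.1 := rfl
    have hqT : chart c p ∈ T := by
      rw [hT]
      refine ⟨Metric.ball_subset_ball hleρ b2, ?_, ?_⟩
      · rw [ev_mul, ev_X0, ev_bl, norm_mul]
        change r ^ 2 < ‖p.1‖ * ‖ev h (unchart c (chart c p))‖
        rw [hun]
        nlinarith
      · have h1 : ‖p.1‖ ≤ ‖chart c p‖ := norm_fst_le (chart c p)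
        linarith
    have hFq : F (chart c p) = ENNReal.ofReal (‖ev (divp A1 C1) (chart c p)‖ ^ 2) := by
      rw [hF, Set.indicator_of_mem hqT]
    have hdiv := bl_div hb (chart c p) b1
    have hA := (blTo_ev hb (chart c p)).1
    rw [hA, hun, hq1] at hdiv
    rw [hFq]
    -- the real inequality
    have hy : ‖p.2‖ ≤ (‖c‖ + 1) * ‖p.1‖ := by
      have h1 : ‖p.2 / p.1‖ ≤ ‖c‖ + 1 := by
        have h2 : ‖p.2 / p.1‖ ≤ ‖p.2 / p.1 - c‖ + ‖c‖ := by
          have := norm_add_le (p.2 / p.1 - c) c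
          rwa [sub_add_cancel] at this
        linarith
      rw [norm_div, div_le_iff₀ a1] at h1
      exact h1
    have hns : nsq p ≤ (1 + (‖c‖ + 1) ^ 2) * ‖p.1‖ ^ 2 := by
      unfold nsq
      have h1 : ‖p.2‖ ^ 2 ≤ ((‖c‖ + 1) * ‖p.1‖) ^ 2 := pow_le_pow_left₀ (norm_nonneg _) hy 2
      nlinarith
    have hns0 : 0 < nsq p := by
      unfold nsq
      positivity
    have hZ : ‖ev A p‖ ^ 2 ≤ nsq (vf A B p) := by
      change ‖ev A p‖ ^ 2 ≤ ‖ev A p‖ ^ 2 + ‖ev B p‖ ^ 2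
      nlinarith [sq_nonneg ‖ev B p‖]
    have hfrac : ‖ev A p‖ ^ 2 / ‖p.1‖ ^ 2 ≤ (1 + (‖c‖ + 1) ^ 2) * (nsq (vf A B p) / nsq p) := by
      rw [div_le_iff₀ (by positivity), mul_div_assoc', div_mul_eq_mul_div, le_div_iff₀ hns0]
      calc ‖ev A p‖ ^ 2 * nsq p ≤ nsq (vf A B p) * ((1 + (‖c‖ + 1) ^ 2) * ‖p.1‖ ^ 2) :=
            mul_le_mul hZ hns hns0.le (nsq_nonneg _)
        _ = (1 + (‖c‖ + 1) ^ 2) * nsq (vf A B p) * ‖p.1‖ ^ 2 := by ring
    have hreal : ‖ev (divp A B) p‖ ^ 2 ≤ 2 * (‖p.1‖ ^ (2 * e) * ‖ev (divp A1 C1) (chart c p)‖ ^ 2) +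
        K * (nsq (vf A B p) / nsq p) := by
      have h1 : ‖ev (divp A B) p‖ ≤ ‖p.1‖ ^ e * ‖ev (divp A1 C1) (chart c p)‖ +
          ((e : ℝ) + 1) * (‖ev A p‖ / ‖p.1‖) := by
        rw [hdiv]
        refine (norm_add_le _ _).trans ?_
        rw [norm_mul, norm_pow, norm_mul, norm_div]
        have h2 : ‖((e : ℂ) + 1)‖ = (e : ℝ) + 1 := by
          have h3 : ((e : ℂ) + 1) = ((e + 1 : ℕ) : ℂ) := by push_cast; ring
          rw [h3, Complex.norm_natCast]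
          push_cast
          ring
        rw [h2]
      obtain ⟨u, hu⟩ : ∃ u, u = ‖p.1‖ ^ e * ‖ev (divp A1 C1) (chart c p)‖ := ⟨_, rfl⟩
      obtain ⟨w, hw⟩ : ∃ w, w = ((e : ℝ) + 1) * (‖ev A p‖ / ‖p.1‖) := ⟨_, rfl⟩
      have h4 : ‖ev (divp A B) p‖ ^ 2 ≤ (u + w) ^ 2 := by
        rw [hu, hw]
        exact pow_le_pow_left₀ (norm_nonneg _) h1 2
      have h5 : u ^ 2 = ‖p.1‖ ^ (2 * e) * ‖ev (divp A1 C1) (chart c p)‖ ^ 2 := by
        rw [hu, mul_pow, ← pow_mul, mul_comm e 2]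
      have h6 : 2 * w ^ 2 ≤ K * (nsq (vf A B p) / nsq p) := by
        rw [hw, mul_pow, div_pow, hK]
        have h7 : 0 ≤ 2 * ((e : ℝ) + 1) ^ 2 := by positivity
        have h8 := mul_le_mul_of_nonneg_left hfrac h7
        calc 2 * (((e : ℝ) + 1) ^ 2 * (‖ev A p‖ ^ 2 / ‖p.1‖ ^ 2)) =
              2 * ((e : ℝ) + 1) ^ 2 * (‖ev A p‖ ^ 2 / ‖p.1‖ ^ 2) := by ring
          _ ≤ _ := h8
          _ = _ := by ring
      rw [← h5]
      nlinarith [sq_nonneg (u - w)]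
    refine (ENNReal.ofReal_le_ofReal hreal).trans ?_
    rw [ENNReal.ofReal_add (by positivity) (mul_nonneg hK0 (div_nonneg (nsq_nonneg _) hns0.le)),
      ENNReal.ofReal_mul (by norm_num), ENNReal.ofReal_mul (by positivity), ENNReal.ofReal_mul hK0,
      ENNReal.ofReal_ofNat]
  have hDsub1 : D ⊆ {p : ℂ × ℂ | p.1 ≠ 0 ∧ chart c p ∈ Metric.ball (0 : ℂ × ℂ) δ0} := by
    intro p hp
    obtain ⟨b1, b2⟩ := hch p hp
    exact ⟨b1, Metric.ball_subset_ball hle0 b2⟩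
  have hDsub2 : D ⊆ {p : ℂ × ℂ | p ∈ Metric.ball (0 : ℂ × ℂ) ρ1 ∧ r < ‖p‖} := by
    intro p hp
    obtain ⟨b1, b2⟩ := hch p hp
    refine ⟨?_, ?_⟩
    · have h1 := hδ2' (chart c p) (Metric.ball_subset_ball hle2 b2)
      rwa [unchart_chart c p b1] at h1
    · rw [hD] at hp
      exact lt_of_lt_of_le hp.2.2.2.2 (norm_fst_le p)
  have hgm : Measurable fun p : ℂ × ℂ => ENNReal.ofReal (‖p.1‖ ^ (2 * e)) * F (chart c p) :=
    ((measurable_fst.norm.pow_const (2 * e)).ennreal_ofReal).mul (hFm.comp (measurable_chart c))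
  have hlog : Real.log (1 / r ^ 2) = 2 * Real.log (1 / r) := by
    have h1 : (1 : ℝ) / r ^ 2 = (1 / r) ^ 2 := by rw [div_pow, one_pow]
    rw [h1, Real.log_pow]
    norm_num
  have hr2' : r ^ 2 < 1 := by nlinarith
  have hE := hC' (r ^ 2) hr2 hr2'
  rw [← hT] at hE
  have hN := hn r hr hr1
  rw [← hD]
  calc ∫⁻ p in D, ENNReal.ofReal (‖ev (divp A B) p‖ ^ 2) ∂M
      ≤ ∫⁻ p in D, (2 * (ENNReal.ofReal (‖p.1‖ ^ (2 * e)) * F (chart c p)) +
        ENNReal.ofReal K * ENNReal.ofReal (nsq (vf A B p) / nsq p)) ∂M :=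
        setLIntegral_mono' hDm hpt
    _ = ∫⁻ p in D, 2 * (ENNReal.ofReal (‖p.1‖ ^ (2 * e)) * F (chart c p)) ∂M +
        ∫⁻ p in D, ENNReal.ofReal K * ENNReal.ofReal (nsq (vf A B p) / nsq p) ∂M :=
        lintegral_add_left (hgm.const_mul 2) _
    _ = 2 * ∫⁻ p in D, ENNReal.ofReal (‖p.1‖ ^ (2 * e)) * F (chart c p) ∂M +
        ENNReal.ofReal K * ∫⁻ p in D, ENNReal.ofReal (nsq (vf A B p) / nsq p) ∂M := by
        rw [lintegral_const_mul _ hgm, lintegral_const_mul' _ _ ENNReal.ofReal_ne_top]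
    _ ≤ 2 * ∫⁻ p in {p : ℂ × ℂ | p.1 ≠ 0 ∧ chart c p ∈ Metric.ball (0 : ℂ × ℂ) δ0},
          ENNReal.ofReal (‖p.1‖ ^ (2 * e)) * F (chart c p) ∂M +
        ENNReal.ofReal K * ∫⁻ p in {p : ℂ × ℂ | p ∈ Metric.ball (0 : ℂ × ℂ) ρ1 ∧ r < ‖p‖},
          ENNReal.ofReal (nsq (vf A B p) / nsq p) ∂M := by
        refine add_le_add ?_ ?_
        · exact mul_le_mul_right (lintegral_mono_set hDsub1) _
        · exact mul_le_mul_right (lintegral_mono_set hDsub2) _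
    _ = 2 * ∫⁻ q in T, ENNReal.ofReal (‖ev (divp A1 C1) q‖ ^ 2) ∂(blM c e δ0 M) +
        ENNReal.ofReal K * ∫⁻ p in {p : ℂ × ℂ | p ∈ Metric.ball (0 : ℂ × ℂ) ρ1 ∧ r < ‖p‖},
          ENNReal.ofReal (nsq (vf A B p) / nsq p) ∂M := by
        rw [← lintegral_blM c e δ0 M F hFm, hF, lintegral_indicator hTm]
    _ ≤ 2 * ENNReal.ofReal (C' * (1 + Real.log (1 / r ^ 2))) +
        ENNReal.ofReal K * ENNReal.ofReal (C1' * (1 + Real.log (1 / r))) := by
        refine add_le_add ?_ ?_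
        · exact mul_le_mul_right hE _
        · exact mul_le_mul_right hN _
    _ ≤ ENNReal.ofReal ((4 * |C'| + K * C1') * (1 + Real.log (1 / r))) := by
        rw [hlog, ← ENNReal.ofReal_mul hK0]
        have h1 : (2 : ENNReal) * ENNReal.ofReal (C' * (1 + 2 * Real.log (1 / r))) ≤
            ENNReal.ofReal (4 * |C'| * (1 + Real.log (1 / r))) := by
          rw [← ENNReal.ofReal_ofNat 2, ← ENNReal.ofReal_mul (by norm_num)]
          refine ENNReal.ofReal_le_ofReal ?_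
          have h2 : C' * (1 + 2 * Real.log (1 / r)) ≤ |C'| * (1 + 2 * Real.log (1 / r)) :=
            mul_le_mul_of_nonneg_right (le_abs_self _) (by linarith)
          have h3 : 0 ≤ |C'| := abs_nonneg _
          nlinarith
        refine (add_le_add_left h1 _).trans ?_
        rw [← ENNReal.ofReal_add (by positivity) (by positivity)]
        refine ENNReal.ofReal_le_ofReal (le_of_eq ?_)
        ring

end FC76
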