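import Pool.Agent.H76.FL.MD
import Pool.Agent.H76.FL.LJ

/-!
# Row ME: blow-up step

Given Inv A B h ρ M.  First the chart at infinity: Inv (sw B) (sw A) (sw h) ρ (M.map Prod.swap) (`inv_swap`), `chart_bound` with c = 0 gives δ', C', i.e. (after undoing the swap, divp (sw B) (sw A) = sw (divp A B))
 the integral of ‖div‖^2 over {0 < ‖y‖ < δ', ‖x/y‖ < δ', r < ‖h‖, r < ‖y‖} is <= C'(1+log 1/r).
Put Λ := 2/δ' (>= 2 wlog).  For every c in the closed disc of radius Λ `chart_bound` gives δ_c, C_c.  By compactness finitely many discs D(c_j, δ_(c_j)) cover the closed disc Λ.  δ'' := min over j (and δ').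
Let ρ' := min(δ'', 1).  A point p with 0 < ‖p‖ < ρ', r < ‖p‖, r < ‖h(p)‖ satisfies one of
 (a) ‖x‖ < δ' ‖y‖: then y ≠ 0, ‖y‖ = ‖p‖ > r if δ' <= 1 (sup norm): it is in the first set;
 (b) ‖x‖ >= δ' ‖y‖: then x ≠ 0, ‖y/x‖ <= 1/δ' <= Λ, ‖x‖ >= min(1,δ') ‖p‖ > δ' r: it is in the j-th set with r replaced by δ' r (δ' <= 1).
Add up: total <= C'(1+log 1/r) + sum_j C_j (1 + log(1/(δ' r))) <= C (1 + log 1/r).  (The origin and y=0.. are covered by (b).)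
-/

open MvPolynomial MeasureTheory
open scoped ContDiff ComplexConjugate

namespace FC76

private theorem ME_union (M : Measure (ℂ × ℂ)) (F : ℂ × ℂ → ENNReal) (t : Finset ℂ)
    (U : ℂ → Set (ℂ × ℂ)) :
    ∫⁻ p in ⋃ c ∈ t, U c, F p ∂M ≤ ∑ c ∈ t, ∫⁻ p in U c, F p ∂M := by
  classical
  induction t using Finset.induction_on with
  | empty => simp
  | insert a s ha ih =>
    rw [Finset.set_biUnion_insert, Finset.sum_insert ha]
    exact (lintegral_union_le _ _ _).trans (add_le_add le_rfl ih)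

private theorem ME_log (d r : ℝ) (hd0 : 0 < d) (hd1 : d ≤ 1) (hr0 : 0 < r) (hr1 : r < 1) :
    1 + Real.log (1 / (d * r)) ≤ (1 + Real.log (1 / d)) * (1 + Real.log (1 / r)) := by
  have h1 : Real.log (1 / (d * r)) = Real.log (1 / d) + Real.log (1 / r) := by
    rw [← Real.log_mul (by positivity) (by positivity)]
    congr 1
    field_simp
  have h2 : 0 ≤ Real.log (1 / d) := Real.log_nonneg (by rw [le_div_iff₀ hd0]; linarith)
  have h3 : 0 ≤ Real.log (1 / r) := Real.log_nonneg (by rw [le_div_iff₀ hr0]; linarith)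
  rw [h1]
  nlinarith [mul_nonneg h2 h3]

theorem good_blow (A B : P2) (e : ℕ) (h1 : ∀ c : ℂ, ∃ A1 C1, BlTo A B c e A1 C1 ∧ GoodE A1 C1)
    (h2 : ∃ A1 C1, BlTo (sw B) (sw A) 0 e A1 C1 ∧ GoodE A1 C1) : Good A B := by
  classical
  intro h ρ M hρ hI
  -- the chart at infinity
  obtain ⟨δ, hδ, C', hC', hT⟩ : ∃ δ : ℝ, 0 < δ ∧ ∃ C : ℝ, 0 ≤ C ∧ ∀ r : ℝ, 0 < r → r < 1 →
      ∫⁻ p in {p : ℂ × ℂ | 0 < ‖p.2‖ ∧ ‖p.2‖ < δ ∧ ‖p.1 / p.2‖ < δ ∧ r < ‖ev h p‖ ∧ r < ‖p.2‖},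
        ENNReal.ofReal (‖ev (divp A B) p‖ ^ 2) ∂M ≤ ENNReal.ofReal (C * (1 + Real.log (1 / r))) := by
    obtain ⟨A1, C1, hb, hG⟩ := h2
    obtain ⟨δ, hδ, C, hC, hb⟩ := chart_bound hρ (inv_swap hI) hb hG
    refine ⟨δ, hδ, C, hC, fun r hr0 hr1 => ?_⟩
    have h3 := hb r hr0 hr1
    rw [LJ_lint] at h3
    simp only [LJ_divp, LJ_ev_sw, Prod.swap_swap, Set.preimage_ofPred_eq, Prod.fst_swap,
      Prod.snd_swap, sub_zero] at h3
    exact h3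
  -- the other charts
  have hch : ∀ c : ℂ, ∃ δ : ℝ, 0 < δ ∧ ∃ C : ℝ, 0 ≤ C ∧ ∀ r : ℝ, 0 < r → r < 1 →
      ∫⁻ p in {p : ℂ × ℂ | 0 < ‖p.1‖ ∧ ‖p.1‖ < δ ∧ ‖p.2 / p.1 - c‖ < δ ∧ r < ‖ev h p‖ ∧ r < ‖p.1‖},
        ENNReal.ofReal (‖ev (divp A B) p‖ ^ 2) ∂M ≤ ENNReal.ofReal (C * (1 + Real.log (1 / r))) := by
    intro c
    obtain ⟨A1, C1, hb, hG⟩ := h1 c
    exact chart_bound hρ hI hb hG
  choose dl hdl Cc hCc hU using hch
  obtain ⟨d, hd⟩ : ∃ d, d = min δ 1 := ⟨_, rfl⟩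
  have hd0 : 0 < d := by rw [hd]; exact lt_min hδ one_pos
  have hd1 : d ≤ 1 := by rw [hd]; exact min_le_right _ _
  have hdδ : d ≤ δ := by rw [hd]; exact min_le_left _ _
  obtain ⟨t, -, ht⟩ := (isCompact_closedBall (0 : ℂ) (1 / d)).elim_nhds_subcover
    (fun c => Metric.ball c (dl c)) (fun c _ => Metric.ball_mem_nhds c (hdl c))
  obtain ⟨ρ', hρ'0, hρ'δ, hρ't⟩ : ∃ ρ' : ℝ, 0 < ρ' ∧ ρ' < δ ∧ ∀ c ∈ t, ρ' < dl c := by
    have e1 : ∀ᶠ x in nhdsWithin (0 : ℝ) (Set.Ioi 0), 0 < x := self_mem_nhdsWithin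
    have e2 : ∀ᶠ x in nhdsWithin (0 : ℝ) (Set.Ioi 0), x < δ :=
      mem_nhdsWithin_of_mem_nhds (Iio_mem_nhds hδ)
    have e3 : ∀ᶠ x in nhdsWithin (0 : ℝ) (Set.Ioi 0), ∀ c ∈ t, x < dl c := by
      rw [Filter.eventually_all_finset]
      intro c _
      exact mem_nhdsWithin_of_mem_nhds (Iio_mem_nhds (hdl c))
    obtain ⟨x, h3, h4, h5⟩ := (e1.and (e2.and e3)).exists
    exact ⟨x, h3, h4, h5⟩
  refine ⟨ρ', hρ'0, C' + (∑ c ∈ t, Cc c) * (1 + Real.log (1 / d)), fun r hr0 hr1 => ?_⟩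
  have hsub : {p : ℂ × ℂ | p ∈ Metric.ball (0 : ℂ × ℂ) ρ' ∧ r < ‖ev h p‖ ∧ r < ‖p‖} ⊆
      {p : ℂ × ℂ | 0 < ‖p.2‖ ∧ ‖p.2‖ < δ ∧ ‖p.1 / p.2‖ < δ ∧ r < ‖ev h p‖ ∧ r < ‖p.2‖} ∪
      ⋃ c ∈ t, {p : ℂ × ℂ | 0 < ‖p.1‖ ∧ ‖p.1‖ < dl c ∧ ‖p.2 / p.1 - c‖ < dl c ∧
        d * r < ‖ev h p‖ ∧ d * r < ‖p.1‖} := by
    rintro p ⟨hp, hph, hpr⟩
    rw [mem_ball_zero_iff] at hp
    have hx : ‖p.1‖ ≤ ‖p‖ := norm_fst_le p
    have hy : ‖p.2‖ ≤ ‖p‖ := norm_snd_le p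
    have hmax : ‖p‖ = max ‖p.1‖ ‖p.2‖ := Prod.norm_def p
    rcases lt_or_ge ‖p.1‖ (d * ‖p.2‖) with hlt | hge
    · left
      have hy0 : 0 < ‖p.2‖ := by
        by_contra h0
        have h3 : ‖p.2‖ = 0 := le_antisymm (not_lt.1 h0) (norm_nonneg _)
        rw [h3, mul_zero] at hlt
        exact absurd hlt (not_lt.2 (norm_nonneg _))
      have hxy : ‖p.1‖ ≤ ‖p.2‖ := by nlinarith
      rw [max_eq_right hxy] at hmax
      refine ⟨hy0, by rw [← hmax]; linarith, ?_, hph, by rw [← hmax]; exact hpr⟩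
      rw [norm_div, div_lt_iff₀ hy0]
      exact hlt.trans_le (mul_le_mul_of_nonneg_right hdδ hy0.le)
    · right
      have h3 : d * ‖p‖ ≤ ‖p.1‖ := by
        rcases le_total ‖p.1‖ ‖p.2‖ with h4 | h4
        · rw [hmax, max_eq_right h4]; exact hge
        · rw [hmax, max_eq_left h4]
          nlinarith [norm_nonneg p.1]
      have h4 : d * r < ‖p.1‖ := (mul_lt_mul_of_pos_left hpr hd0).trans_le h3
      have hx0 : 0 < ‖p.1‖ := lt_trans (by positivity) h4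
      have h5 : p.2 / p.1 ∈ Metric.closedBall (0 : ℂ) (1 / d) := by
        rw [mem_closedBall_zero_iff, norm_div, div_le_div_iff₀ hx0 hd0]
        linarith
      obtain ⟨c, hc, hpc⟩ := Set.mem_iUnion₂.1 (ht h5)
      refine Set.mem_iUnion₂.2 ⟨c, hc, hx0, (hx.trans_lt hp).trans (hρ't c hc), ?_, ?_, h4⟩
      · rwa [Metric.mem_ball, dist_eq_norm] at hpc
      · exact lt_of_le_of_lt (by nlinarith) hph
  have hdr0 : 0 < d * r := by positivity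
  have hdr1 : d * r < 1 := by nlinarith
  have hL : 0 ≤ 1 + Real.log (1 / r) := by
    have h3 : 0 ≤ Real.log (1 / r) := Real.log_nonneg (by rw [le_div_iff₀ hr0]; linarith)
    linarith
  have hL2 : 0 ≤ 1 + Real.log (1 / (d * r)) := by
    have h3 : 0 ≤ Real.log (1 / (d * r)) := Real.log_nonneg (by rw [le_div_iff₀ hdr0]; linarith)
    linarith
  have hlog := ME_log d r hd0 hd1 hr0 hr1
  calc ∫⁻ p in {p : ℂ × ℂ | p ∈ Metric.ball (0 : ℂ × ℂ) ρ' ∧ r < ‖ev h p‖ ∧ r < ‖p‖},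
        ENNReal.ofReal (‖ev (divp A B) p‖ ^ 2) ∂M
      ≤ _ := lintegral_mono_set hsub
    _ ≤ _ := lintegral_union_le _ _ _
    _ ≤ ENNReal.ofReal (C' * (1 + Real.log (1 / r))) +
        ∑ c ∈ t, ENNReal.ofReal (Cc c * (1 + Real.log (1 / (d * r)))) := by
        refine add_le_add (hT r hr0 hr1) ((ME_union _ _ _ _).trans (Finset.sum_le_sum fun c _ => ?_))
        exact hU c (d * r) hdr0 hdr1
    _ = ENNReal.ofReal (C' * (1 + Real.log (1 / r)) +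
          ∑ c ∈ t, Cc c * (1 + Real.log (1 / (d * r)))) := by
        rw [ENNReal.ofReal_add (mul_nonneg hC' hL)
          (Finset.sum_nonneg fun c _ => mul_nonneg (hCc c) hL2),
          ENNReal.ofReal_sum_of_nonneg fun c _ => mul_nonneg (hCc c) hL2]
    _ ≤ ENNReal.ofReal ((C' + (∑ c ∈ t, Cc c) * (1 + Real.log (1 / d))) *
          (1 + Real.log (1 / r))) := by
        apply ENNReal.ofReal_le_ofReal
        rw [← Finset.sum_mul, add_mul, mul_assoc]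
        exact add_le_add le_rfl (mul_le_mul_of_nonneg_left hlog
          (Finset.sum_nonneg fun c _ => hCc c))

end FC76
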