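import Pool.Agent.H76.FL.SDefs

/-!
# Row S0: existence of K

Continuity of ev a at 0; B - tau y is a polynomial with zero constant term and zero coefficient of y: B - tau y = x b1 + y^2 b2 (b1, b2 polynomials), so
‖B - tau y‖ <= Cb ‖x‖ + C ‖y‖^2 on the unit polydisc, and C K <= ‖tau‖/100.  β = B/a is analytic near 0 with ∂β/∂y(0) = tau/a0 (B(0) = 0), so
‖∂β/∂y - tau/a0‖ <= ‖tau/a0‖/4 for ‖x‖,‖y‖ <= K small; mean value inequality on the segment from y' to y (`Convex.norm_image_sub_le_of_norm_deriv_le` applied to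
y ↦ β(x,y) - (tau/a0) y on the closed ball).
-/

open MvPolynomial MeasureTheory
open scoped ContDiff

namespace FC76

theorem S0_cf (B : P2) : ev (pderiv 1 B) 0 = cf 0 1 B := by
  rw [ev_zero]
  have h1 : eval (0 : Fin 2 → ℂ) (pderiv 1 B) = constantCoeff (pderiv 1 B) := by
    rw [MvPolynomial.eval_zero]
  rw [h1, MvPolynomial.constantCoeff_eq, MvPolynomial.coeff_pderiv]
  simp [cf]

theorem S0_strict (B : P2) : HasStrictFDerivAt (ev B) (ev (pderiv 0 B) 0 • ContinuousLinearMap.fst ℂ ℂ ℂ +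
      cf 0 1 B • ContinuousLinearMap.snd ℂ ℂ ℂ) (0 : ℂ × ℂ) := by
  have h1 := (analyticAt_ev B 0).hasStrictFDerivAt
  rw [(LA_hasFDerivAt B 0).fderiv, S0_cf] at h1
  exact h1

theorem S0_quot (a B : P2) (ha : ev a 0 ≠ 0) (hB : ev B 0 = 0) :
    HasStrictFDerivAt (fun p => ev B p / ev a p) ((ev a 0)⁻¹ • (ev (pderiv 0 B) 0 • ContinuousLinearMap.fst ℂ ℂ ℂ +
      cf 0 1 B • ContinuousLinearMap.snd ℂ ℂ ℂ)) (0 : ℂ × ℂ) := by
  have han : AnalyticAt ℂ (fun p => ev B p / ev a p) (0 : ℂ × ℂ) :=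
    (analyticAt_ev B 0).div (analyticAt_ev a 0) ha
  have h1 := han.hasStrictFDerivAt
  have h2 := han.differentiableAt.hasFDerivAt
  have h3 := h2.mul (LA_hasFDerivAt a 0)
  have hne : ∀ᶠ p in nhds (0 : ℂ × ℂ), ev a p ≠ 0 :=
    (analyticAt_ev a 0).continuousAt.eventually_ne ha
  have h4 : HasFDerivAt (ev B) _ (0 : ℂ × ℂ) := h3.congr_of_eventuallyEq (by
    filter_upwards [hne] with p hp
    show ev B p = ev B p / ev a p * ev a p
    field_simp)
  have h5 := h4.unique (S0_strict B).hasFDerivAt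
  rw [hB, zero_div] at h5
  have h6 : fderiv ℂ (fun p => ev B p / ev a p) 0 =
      (ev a 0)⁻¹ • (ev (pderiv 0 B) 0 • ContinuousLinearMap.fst ℂ ℂ ℂ +
      cf 0 1 B • ContinuousLinearMap.snd ℂ ℂ ℂ) := by
    apply ContinuousLinearMap.ext
    intro v
    have h7 := DFunLike.congr_fun h5 v
    simp only [ContinuousLinearMap.add_apply, ContinuousLinearMap.smul_apply, smul_eq_mul, zero_mul,
      zero_add] at h7 ⊢
    rw [← h7]
    field_simp
  rw [← h6]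
  exact h1

theorem S0_bound {f : ℂ × ℂ → ℂ} {f' : ℂ × ℂ →L[ℂ] ℂ} (h : HasStrictFDerivAt f f' 0) {ε : ℝ}
    (hε : 0 < ε) : ∃ δ : ℝ, 0 < δ ∧ ∀ p q : ℂ × ℂ, ‖p‖ < δ → ‖q‖ < δ →
      ‖f p - f q - f' (p - q)‖ ≤ ε * ‖p - q‖ := by
  have h1 := h.isLittleO.def hε
  rw [nhds_prod_eq, Metric.nhds_basis_ball.prod_self.eventually_iff] at h1
  obtain ⟨δ, hδ, h2⟩ := h1
  refine ⟨δ, hδ, fun p q hp hq => ?_⟩
  have h3 : (p, q) ∈ Metric.ball (0 : ℂ × ℂ) δ ×ˢ Metric.ball (0 : ℂ × ℂ) δ := by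
    constructor
    · simpa using hp
    · simpa using hq
  exact h2 h3

theorem sn_exists_K (m : ℕ) (a B h : P2) (ρ : ℝ) (M : Measure (ℂ × ℂ)) (hρ : 0 < ρ) (hm : 2 ≤ m)
    (ha : eval 0 a ≠ 0) (hB : eval 0 B = 0) (hτ : cf 0 1 B ≠ 0) (hh : X 0 ∣ h)
    (hI : Inv (X 0 ^ m * a) B h ρ M) : ∃ K Cb : ℝ, SNData m a B h ρ M K Cb := by
  have ha' : ev a 0 ≠ 0 := by rw [ev_zero]; exact ha
  have hB' : ev B 0 = 0 := by rw [ev_zero]; exact hB
  have hτ0 : 0 < ‖cf 0 1 B‖ := norm_pos_iff.2 hτ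
  have ha0 : 0 < ‖ev a 0‖ := norm_pos_iff.2 ha'
  have hq : 0 < ‖cf 0 1 B / ev a 0‖ := norm_pos_iff.2 (div_ne_zero hτ ha')
  obtain ⟨δ1, hδ1, h1⟩ := S0_bound (S0_strict B) (ε := ‖cf 0 1 B‖ / 100) (by positivity)
  obtain ⟨δ2, hδ2, h2⟩ := S0_bound (S0_quot a B ha' hB') (ε := ‖cf 0 1 B / ev a 0‖ / 4)
    (by positivity)
  obtain ⟨δ3, hδ3, h3⟩ := Metric.continuousAt_iff.1 (analyticAt_ev a 0).continuousAt
    (‖ev a 0‖ / 100) (by positivity)
  obtain ⟨K, hK⟩ : ∃ K, K = min (min (δ1 / 2) (δ2 / 2)) (min (min (δ3 / 2) (ρ / 2)) 1) := ⟨_, rfl⟩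
  have hK0 : 0 < K := by
    rw [hK]
    simp only [lt_min_iff]
    refine ⟨⟨?_, ?_⟩, ⟨?_, ?_⟩, ?_⟩ <;> linarith
  have k1 : K ≤ δ1 / 2 := by rw [hK]; exact (min_le_left _ _).trans (min_le_left _ _)
  have k2 : K ≤ δ2 / 2 := by rw [hK]; exact (min_le_left _ _).trans (min_le_right _ _)
  have k3 : K ≤ δ3 / 2 := by
    rw [hK]; exact (min_le_right _ _).trans ((min_le_left _ _).trans (min_le_left _ _))
  have k4 : K ≤ ρ / 2 := by
    rw [hK]; exact (min_le_right _ _).trans ((min_le_left _ _).trans (min_le_right _ _))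
  have k5 : K ≤ 1 := by rw [hK]; exact (min_le_right _ _).trans (min_le_right _ _)
  refine ⟨K, ‖ev (pderiv 0 B) 0‖ + ‖cf 0 1 B‖ / 100, ?_⟩
  refine
    { hρ := hρ
      hm := hm
      ha := ha'
      hB := hB'
      hτ := hτ
      hh := hh
      inv := hI
      hK := hK0
      hKρ := by linarith
      hK1 := k5
      hCb := by positivity
      ha' := ?_
      hB' := ?_
      hβ := ?_ }
  · intro p hp
    have h4 := h3 (x := p) (by rw [dist_zero_right]; linarith)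
    rw [dist_eq_norm] at h4
    exact h4.le
  · intro p hp
    have h4 := h1 p 0 (by linarith) (by rw [norm_zero]; exact hδ1)
    rw [hB', sub_zero, sub_zero] at h4
    have e1 : (ev (pderiv 0 B) 0 • ContinuousLinearMap.fst ℂ ℂ ℂ +
      cf 0 1 B • ContinuousLinearMap.snd ℂ ℂ ℂ) p = ev (pderiv 0 B) 0 * p.1 + cf 0 1 B * p.2 := by
      simp
    rw [e1] at h4
    have e2 : ev B p - cf 0 1 B * p.2 =
        (ev B p - (ev (pderiv 0 B) 0 * p.1 + cf 0 1 B * p.2)) + ev (pderiv 0 B) 0 * p.1 := by ring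
    rw [e2]
    have h5 : ‖p‖ ≤ ‖p.1‖ + ‖p.2‖ := by
      rw [Prod.norm_def]
      exact max_le (by linarith [norm_nonneg p.2]) (by linarith [norm_nonneg p.1])
    have h6 := norm_add_le (ev B p - (ev (pderiv 0 B) 0 * p.1 + cf 0 1 B * p.2))
      (ev (pderiv 0 B) 0 * p.1)
    rw [norm_mul] at h6
    have h7 : ‖cf 0 1 B‖ / 100 * ‖p‖ ≤ ‖cf 0 1 B‖ / 100 * (‖p.1‖ + ‖p.2‖) :=
      mul_le_mul_of_nonneg_left h5 (by positivity)
    nlinarith
  · intro x y y' hx hy hy'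
    have h4 := h2 (x, y) (x, y') (by rw [Prod.norm_def]; exact max_lt (by simp only; linarith) (by simp only; linarith))
      (by rw [Prod.norm_def]; exact max_lt (by simp only; linarith) (by simp only; linarith))
    have e1 : ((ev a 0)⁻¹ • (ev (pderiv 0 B) 0 • ContinuousLinearMap.fst ℂ ℂ ℂ +
      cf 0 1 B • ContinuousLinearMap.snd ℂ ℂ ℂ)) ((x, y) - (x, y')) =
        cf 0 1 B / ev a 0 * (y - y') := by
      simp
      field_simp
    have e2 : ‖((x, y) - (x, y') : ℂ × ℂ)‖ = ‖y - y'‖ := by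
      rw [Prod.norm_def]
      simp
    rw [e1, e2] at h4
    exact h4

end FC76
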