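import Pool.Agent.H76.FL.SDefs

/-!
# Row S1: the wedge identity in the annulus

Data D : SNData.  Put φ(x) := -1/((m-1) x^(m-1)) (x ≠ 0): holomorphic, φ'(x) = x^(-m).  Let κ be a unit complex number, G : ℝ → ℝ smooth and bounded, with bounded derivative, with G = 0 on
(-oo, T0], where T0 := 1/((m-1) R^(m-1)) and 0 < R <= K/2... , Cb R <= ‖tau‖ K/400.  Let χ : ℝ → ℝ be smooth with support in [K/4, 9K/10].
CLAIM:   ∫_{0<‖x‖<R} G'(Re(κ φ(x))) χ(‖y‖) Im( κ a(p) conj(B(p)/y) ) dM = 0.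
Proof.  q := B/y, holomorphic for y ≠ 0.  For L >= 1 let ζ = ζ_L be the log cut-off of h (`exists_logCutoff`).  F(p) := G(Re κφ(x)) χ(‖y‖) ζ(p) if 0 < ‖x‖ < R (and then extended by 0).
F is smooth with compact support in dom h ρ: near x = 0 the factor ζ vanishes (x divides h, so ‖h‖ <= C‖x‖ is small); for ‖x‖ >= R we have |Re κφ| <= T0, G = 0 (G is flat at T0: G = 0 on (-oo,T0] and G smooth; F is
smooth on x ≠ 0 as a composition, without restriction to ‖x‖ < R, and it vanishes for ‖x‖ >= R); support in {‖h‖ >= e^(-2L)}, K/4 <= ‖y‖ <= 9K/10, ‖x‖ <= R.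
By `inv` applied to g = F conj(q):  0 = ∫ dW(F conj q)(Z) dM = ∫ conj(q) dW F(Z) dM (dW conj q = conj(dWb q) = 0).
dW F(Z) = ζ χ G'(.) * (κ φ'(x) x^m a)/2 + ζ G χ'(‖y‖) ‖y‖ q/2 + G χ dW ζ(Z):
  dW(Re κφ)(Z) = κ φ' dx(Z)/2 = κ a/2 (`dW_re`),   dW ‖y‖ (Z) = ‖y‖ dW(log‖y‖)(Z) = ‖y‖ (B/y)/2 (`dW_log_norm`).
Multiply by conj q and take imaginary parts: the second term gives a real number. So
  0 = ∫ ζ_L χ G' Im(κ a conj q)/2 dM + ∫ Im(G χ conj(q) dW ζ_L(Z)) dM.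
Let L -> oo: the set E := {0<‖x‖<R, K/4 <= ‖y‖ <= 9K/10} has M(E) < oo because there nsq Z >= ‖B‖^2 >= (‖tau‖ K/5)^2 (`hB'`), and `fin`; q is bounded on E.  Second integral: <= C M(E)^(1/2) (∫ ‖dWζ_L(Z)‖^2)^(1/2) <= C/L (1+2L)^(1/2) -> 0 by
`log`.  First: dominated convergence, ζ_L -> 1 M-a.e. (h ≠ 0 M-a.e.).
-/

open MvPolynomial MeasureTheory
open scoped ContDiff ComplexConjugate Topology
open Filter (Tendsto atTop)

namespace FC76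

/-- the potential of the vector field in the first coordinate -/
noncomputable def S1_ph (m : ℕ) (κ : ℂ) (p : ℂ × ℂ) : ℂ := κ * (-1 / ((m - 1) * p.1 ^ (m - 1)))

/-- the test function -/
noncomputable def S1_g (m : ℕ) (κ : ℂ) (B : P2) (G χ : ℝ → ℝ) (ζ : ℂ × ℂ → ℝ) (p : ℂ × ℂ) : ℂ :=
  ((G (S1_ph m κ p).re : ℝ) : ℂ) * (((χ ‖p.2‖ : ℝ) : ℂ) * (((ζ p : ℝ) : ℂ) * conj (ev B p / p.2)))

theorem S1_der {m : ℕ} (hm : 2 ≤ m) (κ : ℂ) {x : ℂ} (hx : x ≠ 0) :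
    HasDerivAt (fun z : ℂ => κ * (-1 / ((m - 1) * z ^ (m - 1)))) (κ * (1 / x ^ m)) x := by
  obtain ⟨k, rfl⟩ : ∃ k, m = k + 2 := ⟨m - 2, by omega⟩
  have e1 : k + 2 - 1 = k + 1 := by omega
  rw [e1]
  have hk : ((k : ℂ) + 1) ≠ 0 := by exact_mod_cast Nat.succ_ne_zero k
  have h1 : HasDerivAt (fun z : ℂ => z ^ (k + 1)) (((k : ℂ) + 1) * x ^ k) x := by
    have h2 := hasDerivAt_pow (k + 1) x
    simpa using h2
  have h2 : HasDerivAt (fun z : ℂ => (((k + 2 : ℕ) : ℂ) - 1) * z ^ (k + 1))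
      ((((k + 2 : ℕ) : ℂ) - 1) * (((k : ℂ) + 1) * x ^ k)) x := h1.const_mul _
  have e2 : (((k + 2 : ℕ) : ℂ) - 1) = (k : ℂ) + 1 := by push_cast; ring
  have h3 : (((k + 2 : ℕ) : ℂ) - 1) * x ^ (k + 1) ≠ 0 := by
    rw [e2]
    exact mul_ne_zero hk (pow_ne_zero _ hx)
  have h4 := ((hasDerivAt_const x (-1 : ℂ)).div h2 h3).const_mul κ
  have e5 : κ * ((0 * ((((k + 2 : ℕ) : ℂ) - 1) * x ^ (k + 1)) - -1 * ((((k + 2 : ℕ) : ℂ) - 1) * (((k : ℂ) + 1) * x ^ k))) /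
      ((((k + 2 : ℕ) : ℂ) - 1) * x ^ (k + 1)) ^ 2) = κ * (1 / x ^ (k + 2)) := by
    rw [e2]
    field_simp
    ring
  exact h4.congr_deriv e5

theorem S1_fder {m : ℕ} (hm : 2 ≤ m) (κ : ℂ) (a B : P2) {p : ℂ × ℂ} (hx : p.1 ≠ 0) :
    DifferentiableAt ℂ (S1_ph m κ) p ∧
      fderiv ℂ (S1_ph m κ) p (vf (X 0 ^ m * a) B p) = κ * ev a p := by
  have h1 : HasFDerivAt (S1_ph m κ) ((κ * (1 / p.1 ^ m)) • ContinuousLinearMap.fst ℂ ℂ ℂ) p := by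
    have h2 := (S1_der hm κ hx).comp_hasFDerivAt p (hasFDerivAt_fst (𝕜 := ℂ) (p := p))
    exact h2
  refine ⟨h1.differentiableAt, ?_⟩
  rw [h1.fderiv]
  show κ * (1 / p.1 ^ m) * ev (X 0 ^ m * a) p = _
  rw [ev_mul, ev_pow, ev_X0]
  field_simp

theorem S1_cd {m : ℕ} (κ : ℂ) {p : ℂ × ℂ} (hm : 2 ≤ m) (hx : p.1 ≠ 0) :
    ContDiffAt ℝ ∞ (S1_ph m κ) p := by
  unfold S1_ph
  have hm1 : (m : ℂ) - 1 ≠ 0 := by
    have h0 : (m : ℂ) ≠ 1 := by exact_mod_cast (by omega : m ≠ 1)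
    exact sub_ne_zero.2 h0
  have h1 : ContDiffAt ℂ ∞ (fun q : ℂ × ℂ => ((m : ℂ) - 1) * q.1 ^ (m - 1)) p :=
    contDiffAt_const.mul (contDiffAt_fst.pow _)
  have h2 : ((m : ℂ) - 1) * p.1 ^ (m - 1) ≠ 0 := mul_ne_zero hm1 (pow_ne_zero _ hx)
  have h3 : ContDiffAt ℂ ∞ (fun _ : ℂ × ℂ => (-1 : ℂ)) p := contDiffAt_const
  have h4 : ContDiffAt ℂ ∞ (fun _ : ℂ × ℂ => κ) p := contDiffAt_const
  have h5 : ContDiffAt ℂ ∞ (fun q : ℂ × ℂ => (-1 : ℂ) / (((m : ℂ) - 1) * q.1 ^ (m - 1))) p := h3.div h1 h2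
  exact (h4.mul h5).restrict_scalars ℝ

theorem S1_q {B : P2} {p : ℂ × ℂ} (hy : p.2 ≠ 0) :
    DifferentiableAt ℂ (fun q : ℂ × ℂ => ev B q / q.2) p ∧
      ContDiffAt ℝ ∞ (fun q : ℂ × ℂ => conj (ev B q / q.2)) p := by
  constructor
  · have h1 : ContDiffAt ℂ ∞ (fun q : ℂ × ℂ => ev B q / q.2) p :=
      (contDiff_ev B).contDiffAt.div contDiffAt_snd hy
    exact h1.differentiableAt (by simp)
  · have h1 : ContDiffAt ℂ ∞ (fun q : ℂ × ℂ => ev B q / q.2) p :=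
      (contDiff_ev B).contDiffAt.div contDiffAt_snd hy
    exact Complex.conjCLE.contDiff.contDiffAt.comp p (h1.restrict_scalars ℝ)

theorem S1_chi {χ : ℝ → ℝ} (hχ : ContDiff ℝ ∞ χ) {p : ℂ × ℂ} (hy : p.2 ≠ 0) :
    ContDiffAt ℝ ∞ (fun q : ℂ × ℂ => χ ‖q.2‖) p := by
  have h1 : ContDiffAt ℝ ∞ (fun q : ℂ × ℂ => ‖q.2‖) p := contDiffAt_snd.norm ℝ hy
  exact hχ.contDiffAt.comp p h1

/-- derivative of the norm of the second coordinate -/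
theorem S1_dchi {χ : ℝ → ℝ} (hχ : ContDiff ℝ ∞ χ) {p : ℂ × ℂ} (hy : p.2 ≠ 0) (v : ℂ × ℂ) :
    dW (fun q : ℂ × ℂ => ((χ ‖q.2‖ : ℝ) : ℂ)) p v =
      ((deriv χ ‖p.2‖ * (‖p.2‖ / 2) : ℝ) : ℂ) * (v.2 / p.2) := by
  have hd : DifferentiableAt ℂ (fun q : ℂ × ℂ => q.2) p := differentiableAt_snd
  have h1 := dW_log_norm (F := fun q : ℂ × ℂ => q.2) hd hy v
  have hev : (fun q : ℂ × ℂ => ‖q.2‖) =ᶠ[nhds p] fun q => Real.exp (Real.log ‖q.2‖) := by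
    have hc : ContinuousAt (fun q : ℂ × ℂ => q.2) p := hd.continuousAt
    filter_upwards [hc.eventually_ne hy] with q hq
    rw [Real.exp_log (norm_pos_iff.2 hq)]
  have hn : DifferentiableAt ℝ (fun q : ℂ × ℂ => ‖q.2‖) p :=
    (contDiffAt_snd.norm ℝ hy : ContDiffAt ℝ ∞ (fun q : ℂ × ℂ => ‖q.2‖) p).differentiableAt (by simp)
  have hl : DifferentiableAt ℝ (fun q : ℂ × ℂ => Real.log ‖q.2‖) p := hn.log (norm_ne_zero_iff.2 hy)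
  have h2 : dW (fun q : ℂ × ℂ => ((‖q.2‖ : ℝ) : ℂ)) p v = (‖p.2‖ : ℂ) * (v.2 / (2 * p.2)) := by
    rw [LE_dW hev, dW_comp (Φ := Real.exp) (u := fun q : ℂ × ℂ => Real.log ‖q.2‖)
      Real.differentiableAt_exp hl, h1, Real.deriv_exp, Real.exp_log (norm_pos_iff.2 hy)]
    have h3 : fderiv ℂ (fun q : ℂ × ℂ => q.2) p v = v.2 := by
      rw [fderiv_snd]; rfl
    rw [h3]
  rw [dW_comp (Φ := χ) (u := fun q : ℂ × ℂ => ‖q.2‖) (hχ.differentiable (by simp) _) hn, h2]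
  push_cast
  field_simp

/-- the imaginary part of the derivative of the test function -/
theorem S1_point {m : ℕ} (hm : 2 ≤ m) (κ : ℂ) (a B : P2) {G χ : ℝ → ℝ} (hG : ContDiff ℝ ∞ G)
    (hχ : ContDiff ℝ ∞ χ) {ζ : ℂ × ℂ → ℝ} (hζ : ContDiff ℝ ∞ ζ) {p : ℂ × ℂ} (hx : p.1 ≠ 0) (hy : p.2 ≠ 0) :
    ContDiffAt ℝ ∞ (S1_g m κ B G χ ζ) p ∧
    (dW (S1_g m κ B G χ ζ) p (vf (X 0 ^ m * a) B p)).im =
      ζ p * (deriv G (S1_ph m κ p).re * χ ‖p.2‖ * (κ * ev a p * conj (ev B p / p.2)).im / 2) +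
      (((G (S1_ph m κ p).re : ℝ) : ℂ) * ((χ ‖p.2‖ : ℝ) : ℂ) * conj (ev B p / p.2) *
        dW (fun q => (ζ q : ℂ)) p (vf (X 0 ^ m * a) B p)).im := by
  obtain ⟨hph, hphd⟩ := S1_fder hm κ a B hx
  have hphc := S1_cd κ hm hx
  obtain ⟨hqd, hqc⟩ := S1_q (B := B) hy
  have hre : ContDiffAt ℝ ∞ (fun q => (S1_ph m κ q).re) p := Complex.reCLM.contDiff.contDiffAt.comp p hphc
  have c1 : ContDiffAt ℝ ∞ (fun q => ((G (S1_ph m κ q).re : ℝ) : ℂ)) p :=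
    Complex.ofRealCLM.contDiff.contDiffAt.comp p (hG.contDiffAt.comp p hre)
  have c2 : ContDiffAt ℝ ∞ (fun q : ℂ × ℂ => ((χ ‖q.2‖ : ℝ) : ℂ)) p :=
    Complex.ofRealCLM.contDiff.contDiffAt.comp p (S1_chi hχ hy)
  have c3 : ContDiffAt ℝ ∞ (fun q => ((ζ q : ℝ) : ℂ)) p :=
    (Complex.ofRealCLM.contDiff.comp hζ).contDiffAt
  have c34 := c3.mul hqc
  have c234 := c2.mul c34
  have d1 := c1.differentiableAt (by simp)
  have d2 := c2.differentiableAt (by simp)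
  have d3 := c3.differentiableAt (by simp)
  have d4 := hqc.differentiableAt (by simp)
  have d34 := c34.differentiableAt (by simp)
  have d234 := c234.differentiableAt (by simp)
  refine ⟨c1.mul c234, ?_⟩
  have e1 : dW (fun q => ((G (S1_ph m κ q).re : ℝ) : ℂ)) p (vf (X 0 ^ m * a) B p) =
      ((deriv G (S1_ph m κ p).re : ℝ) : ℂ) * (κ * ev a p / 2) := by
    rw [dW_comp (Φ := G) (u := fun q => (S1_ph m κ q).re) (hG.differentiable (by simp) _)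
      (hre.differentiableAt (by simp)), dW_re hph, hphd]
  have e2 : dW (fun q : ℂ × ℂ => ((χ ‖q.2‖ : ℝ) : ℂ)) p (vf (X 0 ^ m * a) B p) =
      ((deriv χ ‖p.2‖ * (‖p.2‖ / 2) : ℝ) : ℂ) * (ev B p / p.2) := S1_dchi hχ hy _
  have e4 : dW (fun q : ℂ × ℂ => conj (ev B q / q.2)) p (vf (X 0 ^ m * a) B p) = 0 := by
    rw [(dW_conj _ p _).1, (dW_holo hqd _).2, map_zero]
  have e0 : dW (S1_g m κ B G χ ζ) p (vf (X 0 ^ m * a) B p) =
      ((ζ p * (deriv G (S1_ph m κ p).re * χ ‖p.2‖ / 2) : ℝ) : ℂ) * (κ * ev a p * conj (ev B p / p.2)) +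
      ((G (S1_ph m κ p).re * ζ p * (deriv χ ‖p.2‖ * (‖p.2‖ / 2)) : ℝ) : ℂ) *
        ((ev B p / p.2) * conj (ev B p / p.2)) +
      ((G (S1_ph m κ p).re : ℝ) : ℂ) * ((χ ‖p.2‖ : ℝ) : ℂ) * conj (ev B p / p.2) *
        dW (fun q => (ζ q : ℂ)) p (vf (X 0 ^ m * a) B p) := by
    unfold S1_g
    rw [dW_mul d1 d234, dW_mul d2 d34, dW_mul d3 d4, e1, e2, e4]
    push_cast
    ring
  have e5 : (ev B p / p.2) * conj (ev B p / p.2) = ((Complex.normSq (ev B p / p.2) : ℝ) : ℂ) :=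
    Complex.mul_conj _
  rw [e0, Complex.add_im, Complex.add_im, e5, ← Complex.ofReal_mul, Complex.ofReal_im,
    Complex.im_ofReal_mul, add_zero]
  ring


theorem S1_dG {G : ℝ → ℝ} (hG : ContDiff ℝ ∞ G) {T : ℝ} (h0 : ∀ t ≤ T, G t = 0) (t : ℝ) (ht : t ≤ T) :
    deriv G t = 0 := by
  have h1 : HasDerivAt G (deriv G t) t := (hG.differentiable (by simp) t).hasDerivAt
  have h2 : HasDerivWithinAt G (deriv G t) (Set.Iic t) t := h1.hasDerivWithinAt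
  have h3 : HasDerivWithinAt G 0 (Set.Iic t) t := by
    have h4 : HasDerivWithinAt (fun _ : ℝ => (0 : ℝ)) 0 (Set.Iic t) t := hasDerivWithinAt_const _ _ _
    refine h4.congr (fun y hy => h0 y (le_trans hy ht)) (h0 t ht)
  exact (uniqueDiffWithinAt_Iic t).eq_deriv _ h2 h3

theorem S1_T0 {m : ℕ} (hm : 2 ≤ m) {R : ℝ} (hR : 0 < R) : 0 < 1 / (((m : ℝ) - 1) * R ^ (m - 1)) := by
  have h1 : (2 : ℝ) ≤ m := by exact_mod_cast hm
  have h2 : 0 < (m : ℝ) - 1 := by linarith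
  positivity

theorem S1_zero0 {m : ℕ} (hm : 2 ≤ m) (κ : ℂ) {p : ℂ × ℂ} (h : p.1 = 0) : (S1_ph m κ p).re = 0 := by
  unfold S1_ph
  rw [h, zero_pow (by omega), mul_zero, div_zero, mul_zero, Complex.zero_re]

theorem S1_le {m : ℕ} (hm : 2 ≤ m) {κ : ℂ} (hκ : ‖κ‖ = 1) {R : ℝ} (hR : 0 < R) {p : ℂ × ℂ}
    (h : R ≤ ‖p.1‖) : (S1_ph m κ p).re ≤ 1 / (((m : ℝ) - 1) * R ^ (m - 1)) := by
  refine (Complex.re_le_norm _).trans ?_
  have h1 : (2 : ℝ) ≤ m := by exact_mod_cast hm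
  have h2 : 0 < (m : ℝ) - 1 := by linarith
  have h3 : ‖(m : ℂ) - 1‖ = (m : ℝ) - 1 := by
    have h4 : ((m : ℂ) - 1) = (((m : ℝ) - 1 : ℝ) : ℂ) := by push_cast; ring
    rw [h4, Complex.norm_real, Real.norm_of_nonneg h2.le]
  unfold S1_ph
  rw [norm_mul, hκ, one_mul, norm_div, norm_neg, norm_one, norm_mul, norm_pow, h3]
  have h5 : R ^ (m - 1) ≤ ‖p.1‖ ^ (m - 1) := pow_le_pow_left₀ hR.le h _
  have h6 : 0 < R ^ (m - 1) := by positivity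
  gcongr

/-- the annular set -/
def S1_E (R K : ℝ) : Set (ℂ × ℂ) :=
  {p : ℂ × ℂ | 0 < ‖p.1‖ ∧ ‖p.1‖ < R ∧ K / 4 < ‖p.2‖ ∧ ‖p.2‖ < 9 * K / 10}

/-- its closure -/
def S1_T (R K : ℝ) : Set (ℂ × ℂ) :=
  {p : ℂ × ℂ | ‖p.1‖ ≤ R ∧ K / 4 ≤ ‖p.2‖ ∧ ‖p.2‖ ≤ 9 * K / 10}

theorem S1_E_meas (R K : ℝ) : MeasurableSet (S1_E R K) := by
  have h1 : Continuous fun p : ℂ × ℂ => ‖p.1‖ := continuous_fst.norm
  have h2 : Continuous fun p : ℂ × ℂ => ‖p.2‖ := continuous_snd.norm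
  exact ((isOpen_lt continuous_const h1).inter ((isOpen_lt h1 continuous_const).inter
    ((isOpen_lt continuous_const h2).inter (isOpen_lt h2 continuous_const)))).measurableSet

theorem S1_T_closed (R K : ℝ) : IsClosed (S1_T R K) := by
  have h1 : Continuous fun p : ℂ × ℂ => ‖p.1‖ := continuous_fst.norm
  have h2 : Continuous fun p : ℂ × ℂ => ‖p.2‖ := continuous_snd.norm
  exact (isClosed_le h1 continuous_const).inter
    ((isClosed_le continuous_const h2).inter (isClosed_le h2 continuous_const))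

theorem S1_T_norm {R K : ℝ} (hK : 0 < K) (hRK : R ≤ K / 2) {p : ℂ × ℂ} (hp : p ∈ S1_T R K) :
    ‖p‖ ≤ 9 * K / 10 := by
  rw [Prod.norm_def]
  exact max_le (hp.1.trans (by linarith)) hp.2.2

theorem S1_T_compact {R K : ℝ} (hK : 0 < K) (hRK : R ≤ K / 2) : IsCompact (S1_T R K) := by
  refine Metric.isCompact_of_isClosed_isBounded (S1_T_closed R K) ?_
  refine (Metric.isBounded_closedBall (x := (0 : ℂ × ℂ)) (r := 9 * K / 10)).subset ?_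
  intro p hp
  rw [mem_closedBall_zero_iff]
  exact S1_T_norm hK hRK hp

theorem S1_E_T {R K : ℝ} : S1_E R K ⊆ S1_T R K := fun _ hp => ⟨hp.2.1.le, hp.2.2.1.le, hp.2.2.2.le⟩

/-- vanishing of the product outside the annular set -/
theorem S1_van {m : ℕ} (hm : 2 ≤ m) {κ : ℂ} (hκ : ‖κ‖ = 1) {R K : ℝ} (hR : 0 < R) {G χ : ℝ → ℝ}
    (hG0 : ∀ t ≤ 1 / (((m : ℝ) - 1) * R ^ (m - 1)), G t = 0)
    (hχ0 : ∀ t, (t ≤ K / 4 ∨ 9 * K / 10 ≤ t) → χ t = 0) {p : ℂ × ℂ} (hp : p ∉ S1_E R K) :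
    G (S1_ph m κ p).re * χ ‖p.2‖ = 0 := by
  by_cases h1 : 0 < ‖p.1‖
  · by_cases h2 : ‖p.1‖ < R
    · by_cases h3 : K / 4 < ‖p.2‖
      · by_cases h4 : ‖p.2‖ < 9 * K / 10
        · exact absurd ⟨h1, h2, h3, h4⟩ hp
        · rw [hχ0 _ (Or.inr (not_lt.1 h4)), mul_zero]
      · rw [hχ0 _ (Or.inl (not_lt.1 h3)), mul_zero]
    · rw [hG0 _ (S1_le hm hκ hR (not_lt.1 h2)), zero_mul]
  · have h5 : p.1 = 0 := norm_le_zero_iff.1 (not_lt.1 h1)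
    rw [S1_zero0 hm κ h5, hG0 0 (S1_T0 hm hR).le, zero_mul]

theorem S1_ME {m : ℕ} {a B h : P2} {ρ : ℝ} {M : Measure (ℂ × ℂ)} {K Cb : ℝ} (D : SNData m a B h ρ M K Cb)
    {R : ℝ} (hRK : R ≤ K / 2) (hR' : Cb * R ≤ ‖cf 0 1 B‖ * K / 400) : M (S1_E R K) < ⊤ := by
  have hK := D.hK
  have hτ : 0 < ‖cf 0 1 B‖ := norm_pos_iff.2 D.hτ
  obtain ⟨c, hc⟩ : ∃ c : ℝ, c = (‖cf 0 1 B‖ * K / 10) ^ 2 := ⟨_, rfl⟩
  have hc0 : 0 < c := by rw [hc]; positivity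
  have h1 : ∀ p ∈ S1_E R K, c ≤ nsq (vf (X 0 ^ m * a) B p) := by
    intro p hp
    have h2 := D.hB' p ((S1_T_norm hK hRK (S1_E_T hp)).trans (by linarith))
    have h3 : ‖cf 0 1 B * p.2‖ ≤ ‖ev B p‖ + ‖ev B p - cf 0 1 B * p.2‖ := by
      have h4 := norm_sub_norm_le (cf 0 1 B * p.2) (ev B p)
      rw [norm_sub_rev] at h4
      linarith
    rw [norm_mul] at h3
    have h5 : Cb * ‖p.1‖ ≤ Cb * R := mul_le_mul_of_nonneg_left hp.2.1.le D.hCb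
    have h6 : ‖cf 0 1 B‖ * (K / 4) ≤ ‖cf 0 1 B‖ * ‖p.2‖ := mul_le_mul_of_nonneg_left hp.2.2.1.le hτ.le
    have h7 : ‖cf 0 1 B‖ * K / 10 ≤ ‖ev B p‖ := by nlinarith
    have h8 : (‖cf 0 1 B‖ * K / 10) ^ 2 ≤ ‖ev B p‖ ^ 2 := pow_le_pow_left₀ (by positivity) h7 2
    rw [hc]
    unfold nsq vf
    nlinarith [sq_nonneg ‖ev (X 0 ^ m * a) p‖]
  have h9 : ENNReal.ofReal c * M (S1_E R K) ≤ ∫⁻ p, ENNReal.ofReal (nsq (vf (X 0 ^ m * a) B p)) ∂M := by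
    rw [← lintegral_indicator_const (S1_E_meas R K)]
    apply lintegral_mono
    intro p
    by_cases hp : p ∈ S1_E R K
    · rw [Set.indicator_of_mem hp]
      exact ENNReal.ofReal_le_ofReal (h1 p hp)
    · rw [Set.indicator_of_notMem hp]
      exact zero_le
  have h10 := h9.trans_lt D.inv.fin
  by_contra h11
  rw [not_lt, top_le_iff] at h11
  rw [h11, ENNReal.mul_top (by rw [Ne, ENNReal.ofReal_eq_zero, not_le]; exact hc0)] at h10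
  exact absurd h10 (lt_irrefl _)

theorem S1_bdd {a B : P2} {R K : ℝ} (hK : 0 < K) (hRK : R ≤ K / 2) :
    ∃ C : ℝ, 0 ≤ C ∧ ∀ p ∈ S1_E R K, ‖ev a p‖ ≤ C ∧ ‖ev B p / p.2‖ ≤ C := by
  have hc := S1_T_compact hK hRK
  obtain ⟨C1, h1⟩ := hc.exists_bound_of_continuousOn (contDiff_ev a).continuous.continuousOn
  obtain ⟨C2, h2⟩ := hc.exists_bound_of_continuousOn (contDiff_ev B).continuous.continuousOn
  refine ⟨max (max C1 (C2 / (K / 4))) 0, le_max_right _ _, fun p hp => ⟨?_, ?_⟩⟩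
  · exact (h1 p (S1_E_T hp)).trans ((le_max_left _ _).trans (le_max_left _ _))
  · refine le_trans ?_ ((le_max_right _ _).trans (le_max_left _ _))
    rw [norm_div]
    have h3 := h2 p (S1_E_T hp)
    have h4 : 0 ≤ C2 := (norm_nonneg _).trans h3
    exact div_le_div₀ h4 h3 (by positivity) hp.2.2.1.le

theorem S1_chib {χ : ℝ → ℝ} (hχ : ContDiff ℝ ∞ χ) {K : ℝ}
    (hχ0 : ∀ t, (t ≤ K / 4 ∨ 9 * K / 10 ≤ t) → χ t = 0) : ∃ C : ℝ, 0 ≤ C ∧ ∀ t, |χ t| ≤ C := by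
  obtain ⟨C, hC⟩ := (isCompact_Icc (a := K / 4) (b := 9 * K / 10)).exists_bound_of_continuousOn
    hχ.continuous.continuousOn
  refine ⟨max C 0, le_max_right _ _, fun t => ?_⟩
  by_cases ht : t ∈ Set.Icc (K / 4) (9 * K / 10)
  · exact (hC t ht).trans (le_max_left _ _)
  · rw [Set.mem_Icc, not_and_or, not_le, not_le] at ht
    have h1 : χ t = 0 := by
      rcases ht with ht | ht
      · exact hχ0 t (Or.inl ht.le)
      · exact hχ0 t (Or.inr ht.le)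
    rw [h1, abs_zero]
    exact le_max_right _ _

theorem S1_ph_meas (m : ℕ) (κ : ℂ) : Measurable (S1_ph m κ) := by
  unfold S1_ph
  fun_prop

/-- the integrand -/
noncomputable def S1_f (m : ℕ) (κ : ℂ) (a B : P2) (G χ : ℝ → ℝ) (p : ℂ × ℂ) : ℝ :=
  deriv G (S1_ph m κ p).re * χ ‖p.2‖ * (κ * ev a p * conj (ev B p / p.2)).im / 2

theorem S1_q_meas (B : P2) : Measurable (fun p : ℂ × ℂ => conj (ev B p / p.2)) := by
  have h1 : Measurable (ev B) := (contDiff_ev B).continuous.measurable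
  exact Complex.continuous_conj.measurable.comp (h1.div measurable_snd)

theorem S1_f_meas (m : ℕ) (κ : ℂ) (a B : P2) {G χ : ℝ → ℝ} (hG : ContDiff ℝ ∞ G) (hχ : ContDiff ℝ ∞ χ) :
    Measurable (S1_f m κ a B G χ) := by
  have h1 : Measurable (deriv G) := (hG.continuous_deriv (by simp)).measurable
  have h2 : Measurable (fun p : ℂ × ℂ => deriv G (S1_ph m κ p).re) :=
    h1.comp (Complex.measurable_re.comp (S1_ph_meas m κ))
  have h3 : Measurable (fun p : ℂ × ℂ => χ ‖p.2‖) := hχ.continuous.measurable.comp measurable_snd.norm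
  have h4 : Measurable (ev a) := (contDiff_ev a).continuous.measurable
  have h5 : Measurable (fun p : ℂ × ℂ => (κ * ev a p * conj (ev B p / p.2)).im) :=
    Complex.measurable_im.comp ((h4.const_mul κ).mul (S1_q_meas B))
  exact ((h2.mul h3).mul h5).div_const 2

theorem S1_ind {R K : ℝ} {M : Measure (ℂ × ℂ)} (hM : M (S1_E R K) < ⊤) :
    Integrable ((S1_E R K).indicator (fun _ : ℂ × ℂ => (1 : ℝ))) M := by
  rw [integrable_indicator_iff (S1_E_meas R K)]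
  exact integrableOn_const hM.ne

theorem S1_f_int {m : ℕ} (hm : 2 ≤ m) {κ : ℂ} (hκ : ‖κ‖ = 1) {a B : P2} {R K : ℝ} (hR : 0 < R)
    (hK : 0 < K) (hRK : R ≤ K / 2) {M : Measure (ℂ × ℂ)} (hM : M (S1_E R K) < ⊤)
    {G χ : ℝ → ℝ} (hG : ContDiff ℝ ∞ G) (hχ : ContDiff ℝ ∞ χ) {C : ℝ} (hC : ∀ t, |deriv G t| ≤ C)
    (hG0 : ∀ t ≤ 1 / (((m : ℝ) - 1) * R ^ (m - 1)), G t = 0)
    (hχ0 : ∀ t, (t ≤ K / 4 ∨ 9 * K / 10 ≤ t) → χ t = 0) :
    Integrable (S1_f m κ a B G χ) M ∧ ∀ p, p ∉ S1_E R K → S1_f m κ a B G χ p = 0 := by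
  obtain ⟨Cx, hCx0, hCx⟩ := S1_chib hχ hχ0
  obtain ⟨C1, hC10, hC1⟩ := S1_bdd (a := a) (B := B) hK hRK
  have hC0 : 0 ≤ C := (abs_nonneg _).trans (hC 0)
  have hz : ∀ p, p ∉ S1_E R K → S1_f m κ a B G χ p = 0 := by
    intro p hp
    unfold S1_f
    have h1 := S1_van hm hκ hR (G := deriv G) (χ := χ) (S1_dG hG hG0) hχ0 hp
    rw [h1, zero_mul, zero_div]
  refine ⟨?_, hz⟩
  refine ((S1_ind hM).const_mul (C * Cx * (C1 * C1))).mono (S1_f_meas m κ a B hG hχ).aestronglyMeasurable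
    (Filter.Eventually.of_forall (fun p => ?_))
  by_cases hp : p ∈ S1_E R K
  · rw [Set.indicator_of_mem hp, mul_one]
    rw [Real.norm_of_nonneg (by positivity : 0 ≤ C * Cx * (C1 * C1))]
    unfold S1_f
    obtain ⟨h1, h2⟩ := hC1 p hp
    have h3 : |(κ * ev a p * conj (ev B p / p.2)).im| ≤ C1 * C1 := by
      refine (Complex.abs_im_le_norm _).trans ?_
      rw [norm_mul, norm_mul, hκ, one_mul, RCLike.norm_conj]
      exact mul_le_mul h1 h2 (norm_nonneg _) hC10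
    rw [Real.norm_eq_abs, abs_div, abs_mul, abs_mul, abs_two]
    have h4 : |deriv G (S1_ph m κ p).re| * |χ ‖p.2‖| * |(κ * ev a p * conj (ev B p / p.2)).im| ≤
        C * Cx * (C1 * C1) :=
      mul_le_mul (mul_le_mul (hC _) (hCx _) (abs_nonneg _) hC0) h3 (abs_nonneg _) (by positivity)
    have h5 : 0 ≤ |deriv G (S1_ph m κ p).re| * |χ ‖p.2‖| * |(κ * ev a p * conj (ev B p / p.2)).im| := by
      positivity
    linarith
  · rw [hz p hp, norm_zero]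
    exact norm_nonneg _

/-- smoothness of the test function -/
theorem S1_g_smooth {m : ℕ} (hm : 2 ≤ m) (κ : ℂ) (B : P2) {G χ : ℝ → ℝ} (hG : ContDiff ℝ ∞ G)
    (hχ : ContDiff ℝ ∞ χ) {ζ : ℂ × ℂ → ℝ} (hζ : ContDiff ℝ ∞ ζ) {K : ℝ} (hK : 0 < K)
    (hχ0 : ∀ t, (t ≤ K / 4 ∨ 9 * K / 10 ≤ t) → χ t = 0)
    (hz : ∀ p : ℂ × ℂ, p.1 = 0 → ζ =ᶠ[𝓝 p] fun _ => 0) :
    ContDiff ℝ ∞ (S1_g m κ B G χ ζ) ∧ ∀ p : ℂ × ℂ, p.2 = 0 → S1_g m κ B G χ ζ =ᶠ[𝓝 p] fun _ => 0 := by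
  have hy0 : ∀ p : ℂ × ℂ, p.2 = 0 → S1_g m κ B G χ ζ =ᶠ[𝓝 p] fun _ => 0 := by
    intro p hp
    have h1 : Continuous fun q : ℂ × ℂ => ‖q.2‖ := continuous_snd.norm
    have h2 : ∀ᶠ q in 𝓝 p, ‖q.2‖ < K / 4 := by
      apply h1.continuousAt.eventually_lt continuousAt_const
      show ‖p.2‖ < K / 4
      rw [hp, norm_zero]
      positivity
    filter_upwards [h2] with q hq
    unfold S1_g
    rw [hχ0 _ (Or.inl hq.le), Complex.ofReal_zero, zero_mul, mul_zero]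
  refine ⟨?_, hy0⟩
  rw [contDiff_iff_contDiffAt]
  intro p
  by_cases hx : p.1 = 0
  · have h1 : S1_g m κ B G χ ζ =ᶠ[𝓝 p] fun _ => 0 := by
      filter_upwards [hz p hx] with q hq
      unfold S1_g
      rw [hq, Complex.ofReal_zero, zero_mul, mul_zero, mul_zero]
    exact contDiffAt_const.congr_of_eventuallyEq h1
  · by_cases hy : p.2 = 0
    · exact contDiffAt_const.congr_of_eventuallyEq (hy0 p hy)
    · exact (S1_point hm κ 0 B hG hχ hζ hx hy).1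

theorem S1_supp {m : ℕ} (hm : 2 ≤ m) {κ : ℂ} (hκ : ‖κ‖ = 1) (B : P2) {R K : ℝ} (hR : 0 < R)
    {G χ : ℝ → ℝ} {ζ : ℂ × ℂ → ℝ}
    (hG0 : ∀ t ≤ 1 / (((m : ℝ) - 1) * R ^ (m - 1)), G t = 0)
    (hχ0 : ∀ t, (t ≤ K / 4 ∨ 9 * K / 10 ≤ t) → χ t = 0) {p : ℂ × ℂ} (hp : p ∉ S1_E R K) :
    S1_g m κ B G χ ζ p = 0 := by
  unfold S1_g
  have h1 := S1_van hm hκ hR hG0 hχ0 hp
  rw [← mul_assoc, ← Complex.ofReal_mul, h1, Complex.ofReal_zero, zero_mul]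

theorem S1_hne {h : P2} (hh : X 0 ∣ h) {p : ℂ × ℂ} (hp : p.1 = 0) : ev h p = 0 := by
  obtain ⟨k, rfl⟩ := hh
  rw [ev_mul, ev_X0, hp, zero_mul]

/-- the integral of the imaginary part for one cut-off -/
theorem S1_one {m : ℕ} {a B h : P2} {ρ : ℝ} {M : Measure (ℂ × ℂ)} {K Cb : ℝ} (D : SNData m a B h ρ M K Cb)
    {R : ℝ} (hR : 0 < R) (hRK : R ≤ K / 2) {κ : ℂ} (hκ : ‖κ‖ = 1) {G χ : ℝ → ℝ} (hG : ContDiff ℝ ∞ G)
    (hG0 : ∀ t ≤ 1 / (((m : ℝ) - 1) * R ^ (m - 1)), G t = 0) (hχ : ContDiff ℝ ∞ χ)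
    (hχ0 : ∀ t, (t ≤ K / 4 ∨ 9 * K / 10 ≤ t) → χ t = 0) {ζ : ℂ × ℂ → ℝ} (hζ : ContDiff ℝ ∞ ζ) {k : ℝ}
    (hζ0 : ∀ p, ‖ev h p‖ ≤ Real.exp (-(2 * k)) → ζ p = 0) :
    ∫ p, (ζ p • S1_f m κ a B G χ p + (((G (S1_ph m κ p).re : ℝ) : ℂ) * ((χ ‖p.2‖ : ℝ) : ℂ) *
      conj (ev B p / p.2) * dW (fun q => (ζ q : ℂ)) p (vf (X 0 ^ m * a) B p)).im) ∂M = 0 := by
  have hm := D.hm
  have hK := D.hK
  have hz : ∀ p : ℂ × ℂ, p.1 = 0 → ζ =ᶠ[𝓝 p] fun _ => 0 := by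
    intro p hp
    have h1 : Continuous fun q : ℂ × ℂ => ‖ev h q‖ := (contDiff_ev h).continuous.norm
    have h2 : ∀ᶠ q in 𝓝 p, ‖ev h q‖ < Real.exp (-(2 * k)) := by
      apply h1.continuousAt.eventually_lt continuousAt_const
      show ‖ev h p‖ < _
      rw [S1_hne D.hh hp, norm_zero]
      exact Real.exp_pos _
    filter_upwards [h2] with q hq
    exact hζ0 q hq.le
  obtain ⟨hgs, hg2⟩ := S1_g_smooth hm κ B hG hχ hζ hK hχ0 hz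
  have hT : ∀ p, p ∉ S1_T R K → S1_g m κ B G χ ζ p = 0 :=
    fun p hp => S1_supp hm hκ B hR hG0 hχ0 (fun hE => hp (S1_E_T hE))
  have hTs : S1_T R K ⊆ Metric.ball 0 ρ := by
    intro p hp
    rw [mem_ball_zero_iff]
    have h1 := S1_T_norm hK hRK hp
    have h2 := D.hKρ
    linarith
  have hT0 : (0 : ℂ × ℂ) ∉ S1_T R K := by
    intro h0
    have h1 : K / 4 ≤ ‖(0 : ℂ × ℂ).2‖ := h0.2.1
    rw [Prod.snd_zero, norm_zero] at h1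
    linarith
  obtain ⟨hs1, hs2⟩ := LF_supp (F := S1_g m κ B G χ ζ) (h := h) (ρ := ρ) (K := k) (S1_T_closed R K) hTs
    (Or.inr hT0) hT (fun p hp => by
      unfold S1_g
      rw [hζ0 p hp, Complex.ofReal_zero, zero_mul, mul_zero, mul_zero])
  have hcs : HasCompactSupport (S1_g m κ B G χ ζ) :=
    (S1_T_compact hK hRK).of_isClosed_subset (isClosed_tsupport _) hs2
  have h1 := D.inv.inv _ hgs hcs hs1
  have hint : Integrable (fun p => dW (S1_g m κ B G χ ζ) p (vf (X 0 ^ m * a) B p)) M :=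
    LF_integrable D.inv.toInv0 (LF_contDiff_dW hgs _ _).1.continuous hcs hs1
      (fun p hp => (LF_supp_dW hp _).1)
  have h2 : ∫ p, (dW (S1_g m κ B G χ ζ) p (vf (X 0 ^ m * a) B p)).im ∂M = 0 := by
    have h3 := integral_im hint
    rw [h1] at h3
    simpa using h3
  rw [← h2]
  apply integral_congr_ae
  have hcar : ∀ᵐ p ∂M, p ∈ dom h ρ := D.inv.carried
  filter_upwards [hcar] with p hp
  have hx : p.1 ≠ 0 := fun h0 => hp.2.1 (S1_hne D.hh h0)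
  by_cases hy : p.2 = 0
  · have e1 : dW (S1_g m κ B G χ ζ) p (vf (X 0 ^ m * a) B p) = 0 := by
      unfold dW
      rw [(hg2 p hy).fderiv_eq]
      simp
    have e2 : χ ‖p.2‖ = 0 := by
      apply hχ0 _ (Or.inl _)
      rw [hy, norm_zero]
      positivity
    rw [e1]
    unfold S1_f
    rw [e2]
    simp
  · rw [(S1_point hm κ a B hG hχ hζ hx hy).2, smul_eq_mul]
    rfl

theorem S1_lim {m : ℕ} {a B h : P2} {ρ : ℝ} {M : Measure (ℂ × ℂ)} {K Cb : ℝ} (D : SNData m a B h ρ M K Cb)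
    {R : ℝ} (hR : 0 < R) (hRK : R ≤ K / 2) (hM : M (S1_E R K) < ⊤) {κ : ℂ} (hκ : ‖κ‖ = 1) {G χ : ℝ → ℝ}
    (hG : ContDiff ℝ ∞ G) {CG : ℝ} (hGb : ∀ t, |G t| ≤ CG ∧ |deriv G t| ≤ CG)
    (hG0 : ∀ t ≤ 1 / (((m : ℝ) - 1) * R ^ (m - 1)), G t = 0) (hχ : ContDiff ℝ ∞ χ)
    (hχ0 : ∀ t, (t ≤ K / 4 ∨ 9 * K / 10 ≤ t) → χ t = 0) : ∫ p, S1_f m κ a B G χ p ∂M = 0 := by
  obtain ⟨hfi, hfz⟩ := S1_f_int (a := a) (B := B) D.hm hκ hR D.hK hRK hM hG hχ (fun t => (hGb t).2) hG0 hχ0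
  obtain ⟨Cx, hCx0, hCx⟩ := S1_chib hχ hχ0
  obtain ⟨C1, hC10, hC1⟩ := S1_bdd (a := a) (B := B) D.hK hRK
  have hCG0 : 0 ≤ CG := (abs_nonneg _).trans (hGb 0).1
  obtain ⟨C, hC0, hC⟩ := exists_logCutoff
  obtain ⟨C', hC'0, hC'⟩ := LF_energy D.inv.toInv0
  have hch : ∀ n : ℕ, ∃ ζ : ℂ × ℂ → ℝ, ContDiff ℝ ∞ ζ ∧
    (∀ p, 0 ≤ ζ p ∧ ζ p ≤ 1) ∧ (∀ p, ‖ev h p‖ ≤ Real.exp (-(2 * ((n : ℝ) + 1))) → ζ p = 0) ∧
    (∀ p, Real.exp (-((n : ℝ) + 1)) ≤ ‖ev h p‖ → ζ p = 1) ∧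
    (∀ p v, ev h p ≠ 0 → ‖dW (fun q => (ζ q : ℂ)) p v‖ ≤ C / ((n : ℝ) + 1) * (‖fderiv ℂ (ev h) p v‖ / ‖ev h p‖)) ∧
    (∀ p v, ev h p ≠ 0 → |lev ζ p v| ≤ C / ((n : ℝ) + 1) ^ 2 * (‖fderiv ℂ (ev h) p v‖ / ‖ev h p‖) ^ 2) ∧
    (∀ p v, (‖ev h p‖ < Real.exp (-(2 * ((n : ℝ) + 1))) ∨ Real.exp (-((n : ℝ) + 1)) < ‖ev h p‖) →
      dW (fun q => (ζ q : ℂ)) p v = 0 ∧ lev ζ p v = 0) :=
    fun n => hC h ((n : ℝ) + 1) (by have : (0 : ℝ) ≤ n := Nat.cast_nonneg n; linarith)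
  choose ζ hζs hζ01 hζ0 hζ1 hζd hζl hζv using hch
  have hζc : ∀ n, ContDiff ℝ ∞ (fun q => (ζ n q : ℂ)) := fun n => Complex.ofRealCLM.contDiff.comp (hζs n)
  obtain ⟨Bg, hBg⟩ : ∃ Bg : ℝ, Bg = CG * Cx * C1 := ⟨_, rfl⟩
  have hBg0 : 0 ≤ Bg := by rw [hBg]; positivity
  have hindm : Measurable ((S1_E R K).indicator (fun _ : ℂ × ℂ => (1 : ℝ))) :=
    measurable_const.indicator (S1_E_meas R K)
  obtain ⟨μ, hμ⟩ : ∃ μ : ℝ, μ = (M (S1_E R K)).toReal := ⟨_, rfl⟩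
  have hμ0 : 0 ≤ μ := by rw [hμ]; exact ENNReal.toReal_nonneg
  have hsM : ∫⁻ p, ENNReal.ofReal ((S1_E R K).indicator (fun _ : ℂ × ℂ => (1 : ℝ)) p) ∂M ≤ ENNReal.ofReal μ := by
    have h1 : ∀ p, ENNReal.ofReal ((S1_E R K).indicator (fun _ : ℂ × ℂ => (1 : ℝ)) p) =
        (S1_E R K).indicator 1 p := by
      intro p
      by_cases hp : p ∈ S1_E R K
      · rw [Set.indicator_of_mem hp, Set.indicator_of_mem hp, ENNReal.ofReal_one]; rfl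
      · rw [Set.indicator_of_notMem hp, Set.indicator_of_notMem hp, ENNReal.ofReal_zero]
    simp_rw [h1]
    rw [lintegral_indicator_one (S1_E_meas R K), hμ, ENNReal.ofReal_toReal hM.ne]
  have hmeasR : ∀ n, Measurable (fun p => (((G (S1_ph m κ p).re : ℝ) : ℂ) * ((χ ‖p.2‖ : ℝ) : ℂ) *
      conj (ev B p / p.2) * dW (fun q => (ζ n q : ℂ)) p (vf (X 0 ^ m * a) B p)).im) := by
    intro n
    have m1 : Measurable (fun p : ℂ × ℂ => ((G (S1_ph m κ p).re : ℝ) : ℂ)) :=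
      Complex.measurable_ofReal.comp (hG.continuous.measurable.comp
        (Complex.measurable_re.comp (S1_ph_meas m κ)))
    have m2 : Measurable (fun p : ℂ × ℂ => ((χ ‖p.2‖ : ℝ) : ℂ)) :=
      Complex.measurable_ofReal.comp (hχ.continuous.measurable.comp measurable_snd.norm)
    have m3 := S1_q_meas B
    have m4 : Measurable (fun p => dW (fun q => (ζ n q : ℂ)) p (vf (X 0 ^ m * a) B p)) :=
      (LF_contDiff_dW (hζc n) _ _).1.continuous.measurable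
    exact Complex.measurable_im.comp (((m1.mul m2).mul m3).mul m4)
  refine LF_conv hfi (ζ := ζ) (fun n => (hζs n).continuous.aestronglyMeasurable) hζ01 (LF_ae D.inv.toInv0 hζ1)
    (R := fun n p => (((G (S1_ph m κ p).re : ℝ) : ℂ) * ((χ ‖p.2‖ : ℝ) : ℂ) *
      conj (ev B p / p.2) * dW (fun q => (ζ n q : ℂ)) p (vf (X 0 ^ m * a) B p)).im)
    (δ := fun n => (Bg * μ + Bg * C ^ 2 * C') / Real.sqrt ((n : ℝ) + 1) + 0 / ((n : ℝ) + 1))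
    (fun n => (hmeasR n).aestronglyMeasurable)
    (fun n => by positivity) (LF_rate _ _) ?_ ?_
  · intro n
    obtain ⟨L, hL⟩ : ∃ L : ℝ, L = (n : ℝ) + 1 := ⟨_, rfl⟩
    have hL1 : 1 ≤ L := by
      have : (0 : ℝ) ≤ n := Nat.cast_nonneg n
      linarith
    have hL0 : 0 < L := by linarith
    obtain ⟨e, he⟩ : ∃ e : ℝ, e = 1 / Real.sqrt L := ⟨_, rfl⟩
    have hsq0 : 0 < Real.sqrt L := Real.sqrt_pos.2 hL0
    have he0 : 0 < e := by rw [he]; positivity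
    have h2 := hC' L hL1 (fun p => Bg * (‖dW (fun q => (ζ n q : ℂ)) p (vf (X 0 ^ m * a) B p)‖ ^ 2 / e))
      (Bg * ((C / L) ^ 2 / e)) (by positivity)
      (fun p hp => by
        have h3 := hζd n p (vf (X 0 ^ m * a) B p) hp
        rw [← hL, fderiv_ev_vf] at h3
        have h4 : ‖dW (fun q => (ζ n q : ℂ)) p (vf (X 0 ^ m * a) B p)‖ ^ 2 ≤
            (C / L) ^ 2 * (‖ev (Zp (X 0 ^ m * a) B h) p‖ / ‖ev h p‖) ^ 2 := by
          rw [← mul_pow]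
          exact pow_le_pow_left₀ (norm_nonneg _) h3 2
        calc _ ≤ Bg * ((C / L) ^ 2 * (‖ev (Zp (X 0 ^ m * a) B h) p‖ / ‖ev h p‖) ^ 2 / e) := by gcongr
          _ = _ := by ring)
      (fun p hp => by
        rw [hL] at hp
        rw [(hζv n p (vf (X 0 ^ m * a) B p) (Or.inl hp)).1]
        simp)
    have h5 := LF_bound (R := fun p => (((G (S1_ph m κ p).re : ℝ) : ℂ) * ((χ ‖p.2‖ : ℝ) : ℂ) *
        conj (ev B p / p.2) * dW (fun q => (ζ n q : ℂ)) p (vf (X 0 ^ m * a) B p)).im) hindm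
      (a := Bg * e) (by positivity) hμ0 (W := Bg * ((C / L) ^ 2 / e) * (C' * L)) (by positivity) hsM h2
      (fun p => by
        rw [Real.norm_eq_abs]
        refine (Complex.abs_im_le_norm _).trans ?_
        rw [norm_mul]
        by_cases hp : p ∈ S1_E R K
        · rw [Set.indicator_of_mem hp]
          have h6 := LF_ab ‖dW (fun q => (ζ n q : ℂ)) p (vf (X 0 ^ m * a) B p)‖ e he0
          have h7 : ‖((G (S1_ph m κ p).re : ℝ) : ℂ) * ((χ ‖p.2‖ : ℝ) : ℂ) * conj (ev B p / p.2)‖ ≤ Bg := by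
            rw [norm_mul, norm_mul, RCLike.norm_conj, Complex.norm_real, Complex.norm_real, hBg]
            exact mul_le_mul (mul_le_mul (hGb _).1 (hCx _) (norm_nonneg _) hCG0) (hC1 p hp).2
              (norm_nonneg _) (by positivity)
          calc _ ≤ Bg * (e + ‖dW (fun q => (ζ n q : ℂ)) p (vf (X 0 ^ m * a) B p)‖ ^ 2 / e) :=
                mul_le_mul h7 h6 (norm_nonneg _) hBg0
            _ = _ := by ring
        · have h8 := S1_van D.hm hκ hR hG0 hχ0 hp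
          rw [← Complex.ofReal_mul, h8, Complex.ofReal_zero, zero_mul, norm_zero, zero_mul,
            Set.indicator_of_notMem hp]
          positivity)
    refine h5.trans (ENNReal.ofReal_le_ofReal (le_of_eq ?_))
    rw [← hL, he, zero_div, add_zero]
    have hsq : Real.sqrt L ^ 2 = L := Real.sq_sqrt hL0.le
    have hsq3 : C' * L = C' * Real.sqrt L ^ 2 := by rw [hsq]
    have hKK : C / L = C / Real.sqrt L ^ 2 := by rw [hsq]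
    rw [hsq3, hKK]
    field_simp
  · intro n
    exact S1_one D hR hRK hκ hG hG0 hχ hχ0 (hζs n) (hζ0 n)

theorem sn_wedge {m : ℕ} {a B h : P2} {ρ : ℝ} {M : Measure (ℂ × ℂ)} {K Cb : ℝ} (D : SNData m a B h ρ M K Cb)
    (R : ℝ) (hR : 0 < R) (hRK : R ≤ K / 2) (hR' : Cb * R ≤ ‖cf 0 1 B‖ * K / 400)
    (κ : ℂ) (hκ : ‖κ‖ = 1) (G χ : ℝ → ℝ) (hG : ContDiff ℝ ∞ G) (hGb : ∃ C, ∀ t, |G t| ≤ C ∧ |deriv G t| ≤ C)
    (hG0 : ∀ t ≤ 1 / ((m - 1) * R ^ (m - 1)), G t = 0) (hχ : ContDiff ℝ ∞ χ)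
    (hχ0 : ∀ t, (t ≤ K / 4 ∨ 9 * K / 10 ≤ t) → χ t = 0) :
    ∫ p in {p : ℂ × ℂ | 0 < ‖p.1‖ ∧ ‖p.1‖ < R ∧ K / 4 < ‖p.2‖ ∧ ‖p.2‖ < 9 * K / 10},
      deriv G (κ * (-1 / ((m - 1) * p.1 ^ (m - 1)))).re * χ ‖p.2‖ * (κ * ev a p * conj (ev B p / p.2)).im ∂M = 0 := by
  obtain ⟨CG, hCG⟩ := hGb
  have hM := S1_ME D hRK hR'
  have h1 := S1_lim D hR hRK hM hκ hG hCG hG0 hχ hχ0
  obtain ⟨hfi, hfz⟩ := S1_f_int (a := a) (B := B) D.hm hκ hR D.hK hRK hM hG hχ (fun t => (hCG t).2) hG0 hχ0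
  have h2 : ∫ p in S1_E R K, S1_f m κ a B G χ p ∂M = ∫ p, S1_f m κ a B G χ p ∂M :=
    setIntegral_eq_integral_of_forall_compl_eq_zero hfz
  have h3 : ∀ p : ℂ × ℂ, deriv G (κ * (-1 / ((m - 1) * p.1 ^ (m - 1)))).re * χ ‖p.2‖ *
      (κ * ev a p * conj (ev B p / p.2)).im = 2 * S1_f m κ a B G χ p := by
    intro p
    unfold S1_f S1_ph
    ring
  simp_rw [h3]
  rw [integral_const_mul]
  show 2 * ∫ p in S1_E R K, S1_f m κ a B G χ p ∂M = 0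
  rw [h2, h1, mul_zero]

end FC76
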