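import Pool.Agent.H76.FL.S1

/-!
# Row S2: M does not charge the annulus

CLAIM: there is R with 0 < R <= K/2, Cb R <= ‖tau‖K/400 and AnnZero M R K.
Proof.  R0 := min(K/2, ‖tau‖K/(400(Cb+1))).  On E := {0<‖x‖<R0, K/4 < ‖y‖ < 9K/10}: q := B/y satisfies ‖q - tau‖ <= Cb‖x‖/‖y‖ + ‖tau‖/100 <= ‖tau‖/50 and ‖a - a0‖ <= ‖a0‖/100, so
 ‖κ a conj q - κ a0 conj tau‖ <= ‖a0 tau‖/10 (‖κ‖ = 1).  If |Im(κ a0 conj tau)| >= ‖a0 tau‖/2 then Im(κ a conj q) has constant sign on E and absolute value >= ‖a0 tau‖/4.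
 Choose in `sn_wedge` χ >= 0, χ > 0 on [K/2, 3K/4] and G with G' >= 0, G = 0 on (-oo,T0], G' > 0 exactly on (T0, T0 + n) (a primitive of a smooth bump; bounded).  The integrand has constant sign, so it vanishes
 M-a.e. on E (`integral_eq_zero_iff_of_nonneg`..., integrable since bounded and M(E) < oo): M{p in E : T0 < Re(κ φ(x)) < T0 + n, K/2 <= ‖y‖ <= 3K/4} = 0; n -> oo (countable union).
 Apply this to the finitely many κ = e^(i π j/6), j = 0..11, with |Im(κ a0 conj tau)| >= ‖a0 tau‖/2: for every complex φ ≠ 0 there is such a κ with Re(κ φ) >= ‖φ‖/2: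
   the directions κ with Re(κφ) >= ‖φ‖/2 form an arc of length 2π/3 (closed), containing at least four of the twelve points with consecutive arguments (spacing π/6, total span π/2);
   the points with |sin(arg κ + α)| < 1/2 lie in two open arcs of length π/3 each (centres opposite), each containing at most two of the twelve points, and an arc of span π/2 meets only one of them
   (the gap between the two bad arcs is 2π/3 > π/2), so at least two of the four points are good.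
   (Alternative without trigonometry: use the four units κ = conj(u) * w with w in {±1, ±i}·... any finite family works; one may also take a family of 24 or more directions, or argue with two explicit vectors.)
 Hence M{p in E : ‖φ(x)‖ > 2 T0 + 2, K/2 <= ‖y‖ <= 3K/4} = 0.  Finally ‖φ(x)‖ = 1/((m-1)‖x‖^(m-1)) > 2T0+2 as soon as ‖x‖ < R for a suitable R (m-1 >= 1).
-/

open MvPolynomial MeasureTheory
open scoped ContDiff ComplexConjugate

namespace FC76

lemma S2_hasDeriv (x : ℝ) : HasDerivAt expNegInvGlue ((x⁻¹) ^ 2 * expNegInvGlue x) x := by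
  have h := expNegInvGlue.hasDerivAt_polynomial_eval_inv_mul 1 x
  simpa using h

lemma S2_glue_le (x : ℝ) : expNegInvGlue x ≤ 1 := by
  rcases le_or_gt x 0 with h | h
  · rw [expNegInvGlue.zero_of_nonpos h]; norm_num
  · have h1 : expNegInvGlue x = Real.exp (-x⁻¹) := by simp [expNegInvGlue, not_le.2 h]
    rw [h1]
    apply Real.exp_le_one_iff.2
    have := inv_pos.2 h
    linarith

lemma S2_deriv_le (x : ℝ) : (x⁻¹) ^ 2 * expNegInvGlue x ≤ 2 := by
  rcases le_or_gt x 0 with h | h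
  · rw [expNegInvGlue.zero_of_nonpos h]; norm_num
  · have h1 : expNegInvGlue x = Real.exp (-x⁻¹) := by simp [expNegInvGlue, not_le.2 h]
    rw [h1, Real.exp_neg]
    have h2 := Real.quadratic_le_exp_of_nonneg (inv_nonneg.2 h.le)
    rw [← div_eq_mul_inv, div_le_iff₀ (Real.exp_pos _)]
    have h3 := inv_pos.2 h
    linarith

lemma S2_im {κ a q a0 τ : ℂ} (hκ : ‖κ‖ = 1) (ha : ‖a - a0‖ ≤ ‖a0‖ / 100) (hq : ‖q - τ‖ ≤ ‖τ‖ / 50) :
    |(κ * a * conj q).im - (κ * (a0 * conj τ)).im| ≤ ‖a0‖ * ‖τ‖ / 10 := by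
  rw [← Complex.sub_im]
  refine (Complex.abs_im_le_norm _).trans ?_
  have e : κ * a * conj q - κ * (a0 * conj τ) = κ * ((a - a0) * conj q + a0 * conj (q - τ)) := by
    rw [map_sub]; ring
  rw [e, norm_mul, hκ, one_mul]
  refine (norm_add_le _ _).trans ?_
  rw [norm_mul, norm_mul, Complex.norm_conj, Complex.norm_conj]
  have h1 : ‖q‖ ≤ ‖τ‖ * (51 / 50) := by
    have : q = τ + (q - τ) := by ring
    calc ‖q‖ = ‖τ + (q - τ)‖ := by rw [← this]
      _ ≤ ‖τ‖ + ‖q - τ‖ := norm_add_le _ _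
      _ ≤ ‖τ‖ + ‖τ‖ / 50 := by linarith
      _ = ‖τ‖ * (51 / 50) := by ring
  have h0 := norm_nonneg a0
  have ht := norm_nonneg τ
  have h2 : ‖a - a0‖ * ‖q‖ ≤ ‖a0‖ / 100 * (‖τ‖ * (51 / 50)) :=
    mul_le_mul ha h1 (norm_nonneg _) (by positivity)
  have h3 : ‖a0‖ * ‖q - τ‖ ≤ ‖a0‖ * (‖τ‖ / 50) := mul_le_mul_of_nonneg_left hq h0
  have h4 : 0 ≤ ‖a0‖ * ‖τ‖ := by positivity
  nlinarith

lemma S2_dir {α : ℂ} (hα : α ≠ 0) : ∃ κ : Bool × Bool → ℂ,
    (∀ i, ‖κ i‖ = 1 ∧ ‖α‖ / 2 ≤ |(κ i * α).im|) ∧ ∀ φ : ℂ, ∃ i, ‖φ‖ / 2 ≤ (κ i * φ).re := by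
  have hn : (‖α‖ : ℝ) ≠ 0 := norm_ne_zero_iff.2 hα
  have hnc : ((‖α‖ : ℝ) : ℂ) ≠ 0 := by exact_mod_cast hn
  set u : ℂ := conj α / (‖α‖ : ℝ) with hu
  have hu1 : ‖u‖ = 1 := by
    rw [hu, norm_div, Complex.norm_conj, Complex.norm_real, norm_norm, div_self hn]
  have huα : u * α = (‖α‖ : ℝ) := by
    rw [hu, div_mul_eq_mul_div, mul_comm, Complex.mul_conj, Complex.normSq_eq_norm_sq]
    push_cast
    field_simp
  set σ : Bool → ℝ := fun b => if b then 1 else -1 with hσ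
  have hσ2 : ∀ b, σ b ^ 2 = 1 := by intro b; cases b <;> simp [hσ]
  have hσ1 : ∀ b, |σ b| = 1 := by intro b; cases b <;> simp [hσ]
  have hw : ∀ b c, ‖(⟨σ b * (4 / 5), σ c * (3 / 5)⟩ : ℂ)‖ = 1 := by
    intro b c
    rw [Complex.norm_def, Complex.normSq_mk, Real.sqrt_eq_one]
    have h1 := hσ2 b
    have h2 := hσ2 c
    nlinarith
  refine ⟨fun i => ⟨σ i.1 * (4 / 5), σ i.2 * (3 / 5)⟩ * u, ?_, ?_⟩
  · intro i
    refine ⟨by rw [norm_mul, hw, hu1, mul_one], ?_⟩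
    rw [mul_assoc, huα, Complex.mul_im]
    simp only [Complex.ofReal_im, Complex.ofReal_re, mul_zero, zero_add]
    rw [abs_mul, abs_mul, hσ1, abs_norm]
    have := norm_nonneg α
    rw [abs_of_pos (by norm_num : (0 : ℝ) < 3 / 5)]
    linarith
  · intro φ
    set ψ := u * φ with hψ
    have hψn : ‖ψ‖ = ‖φ‖ := by rw [hψ, norm_mul, hu1, one_mul]
    have h1 : ∃ b, σ b * ψ.re = |ψ.re| := by
      rcases le_total 0 ψ.re with h | h
      · exact ⟨true, by simp [hσ, abs_of_nonneg h]⟩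
      · exact ⟨false, by simp [hσ, abs_of_nonpos h]⟩
    have h2 : ∃ b, -(σ b * ψ.im) = |ψ.im| := by
      rcases le_total 0 ψ.im with h | h
      · exact ⟨false, by simp [hσ, abs_of_nonneg h]⟩
      · exact ⟨true, by simp [hσ, abs_of_nonpos h]⟩
    obtain ⟨b, hb⟩ := h1
    obtain ⟨c, hc⟩ := h2
    refine ⟨(b, c), ?_⟩
    show ‖φ‖ / 2 ≤ ((⟨σ b * (4 / 5), σ c * (3 / 5)⟩ * u) * φ : ℂ).re
    rw [mul_assoc, ← hψ, Complex.mul_re]
    show ‖φ‖ / 2 ≤ σ b * (4 / 5) * ψ.re - σ c * (3 / 5) * ψ.im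
    have h3 := Complex.norm_le_abs_re_add_abs_im ψ
    have h4 := norm_nonneg ψ
    have h5 := abs_nonneg ψ.re
    have h6 := abs_nonneg ψ.im
    rw [← hψn]
    nlinarith

/-- the region -/
def S2_E (R K : ℝ) : Set (ℂ × ℂ) :=
  {p : ℂ × ℂ | 0 < ‖p.1‖ ∧ ‖p.1‖ < R ∧ K / 4 < ‖p.2‖ ∧ ‖p.2‖ < 9 * K / 10}

lemma S2_E_meas (R K : ℝ) : MeasurableSet (S2_E R K) := by
  unfold S2_E
  have h1 : IsOpen {p : ℂ × ℂ | 0 < ‖p.1‖} := isOpen_lt continuous_const continuous_fst.norm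
  have h2 : IsOpen {p : ℂ × ℂ | ‖p.1‖ < R} := isOpen_lt continuous_fst.norm continuous_const
  have h3 : IsOpen {p : ℂ × ℂ | K / 4 < ‖p.2‖} := isOpen_lt continuous_const continuous_snd.norm
  have h4 : IsOpen {p : ℂ × ℂ | ‖p.2‖ < 9 * K / 10} := isOpen_lt continuous_snd.norm continuous_const
  exact (h1.inter (h2.inter (h3.inter h4))).measurableSet

lemma S2_cont (f : P2) : Continuous (ev f) := (contDiff_real_ev f).continuous

variable {m : ℕ} {a B h : P2} {ρ : ℝ} {M : Measure (ℂ × ℂ)} {K Cb : ℝ}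

lemma S2_q (D : SNData m a B h ρ M K Cb) {R : ℝ} (hRK : R ≤ K / 2)
    (hR' : Cb * R ≤ ‖cf 0 1 B‖ * K / 400) {p : ℂ × ℂ} (hp : p ∈ S2_E R K) :
    ‖ev a p - ev a 0‖ ≤ ‖ev a 0‖ / 100 ∧ ‖ev B p / p.2 - cf 0 1 B‖ ≤ ‖cf 0 1 B‖ / 50 ∧
      ‖cf 0 1 B‖ * K / 5 ≤ ‖ev B p‖ := by
  obtain ⟨h1, h2, h3, h4⟩ := hp
  have hK := D.hK
  have hpK : ‖p‖ ≤ K := by
    rw [Prod.norm_def]
    exact max_le (by linarith) (by linarith)
  have hτ : 0 ≤ ‖cf 0 1 B‖ := norm_nonneg _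
  have hB := D.hB' p hpK
  have hCb := D.hCb
  have hC : Cb * ‖p.1‖ ≤ ‖cf 0 1 B‖ * K / 400 :=
    (mul_le_mul_of_nonneg_left h2.le hCb).trans hR'
  have hy : 0 < ‖p.2‖ := by linarith
  have hy0 : p.2 ≠ 0 := norm_pos_iff.1 hy
  refine ⟨D.ha' p hpK, ?_, ?_⟩
  · have e : ev B p / p.2 - cf 0 1 B = (ev B p - cf 0 1 B * p.2) / p.2 := by
      field_simp
    rw [e, norm_div, div_le_iff₀ hy]
    nlinarith
  · have h5 : ‖cf 0 1 B * p.2‖ ≤ ‖ev B p‖ + ‖ev B p - cf 0 1 B * p.2‖ := by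
      have : cf 0 1 B * p.2 = ev B p - (ev B p - cf 0 1 B * p.2) := by ring
      calc ‖cf 0 1 B * p.2‖ = ‖ev B p - (ev B p - cf 0 1 B * p.2)‖ := by rw [← this]
        _ ≤ _ := norm_sub_le _ _
    rw [norm_mul] at h5
    nlinarith

lemma S2_fin (D : SNData m a B h ρ M K Cb) {R : ℝ} (hRK : R ≤ K / 2)
    (hR' : Cb * R ≤ ‖cf 0 1 B‖ * K / 400) : M (S2_E R K) < ⊤ := by
  have hK := D.hK
  have hτ : 0 < ‖cf 0 1 B‖ := norm_pos_iff.2 D.hτ
  set c : ℝ := (‖cf 0 1 B‖ * K / 5) ^ 2 with hc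
  have hc0 : 0 < c := by positivity
  have hmeas : Measurable fun p : ℂ × ℂ => ENNReal.ofReal (nsq (vf (X 0 ^ m * a) B p)) := by
    unfold nsq vf
    have h1 := (S2_cont (X 0 ^ m * a)).measurable
    have h2 := (S2_cont B).measurable
    exact ((h1.norm.pow_const 2).add (h2.norm.pow_const 2)).ennreal_ofReal
  have h1 := mul_meas_ge_le_lintegral hmeas (μ := M) (ENNReal.ofReal c)
  have h2 := D.inv.fin
  have hsub : S2_E R K ⊆
      {p | ENNReal.ofReal c ≤ ENNReal.ofReal (nsq (vf (X 0 ^ m * a) B p))} := by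
    intro p hp
    obtain ⟨-, -, h3⟩ := S2_q D hRK hR' hp
    apply ENNReal.ofReal_le_ofReal
    unfold nsq vf
    have h4 : c ≤ ‖ev B p‖ ^ 2 := by
      rw [hc]
      exact pow_le_pow_left₀ (by positivity) h3 2
    have h5 : 0 ≤ ‖ev (X 0 ^ m * a) p‖ ^ 2 := by positivity
    simp only
    linarith
  refine lt_of_le_of_lt (measure_mono hsub) ?_
  have hc' : ENNReal.ofReal c ≠ 0 := by simpa using hc0
  by_contra htop
  rw [not_lt, top_le_iff] at htop
  rw [htop, ENNReal.mul_top hc'] at h1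
  exact absurd (lt_of_le_of_lt h1 h2) (lt_irrefl _)

lemma S2_null (D : SNData m a B h ρ M K Cb) {R : ℝ} (hR : 0 < R) (hRK : R ≤ K / 2)
    (hR' : Cb * R ≤ ‖cf 0 1 B‖ * K / 400) {κ : ℂ} (hκ : ‖κ‖ = 1)
    (hκα : ‖ev a 0 * conj (cf 0 1 B)‖ / 2 ≤ |(κ * (ev a 0 * conj (cf 0 1 B))).im|) :
    M {p : ℂ × ℂ | p ∈ S2_E R K ∧
      1 / ((m - 1) * R ^ (m - 1)) < (κ * (-1 / ((m - 1) * p.1 ^ (m - 1)))).re} = 0 := by
  have hK := D.hK
  set T0 : ℝ := 1 / ((m - 1) * R ^ (m - 1)) with hT0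
  set G : ℝ → ℝ := fun t => expNegInvGlue (t - T0) with hG
  set χ : ℝ → ℝ := fun t => expNegInvGlue (t - K / 4) * expNegInvGlue (9 * K / 10 - t) with hχ
  have hGd : ∀ t, deriv G t = ((t - T0)⁻¹) ^ 2 * expNegInvGlue (t - T0) := by
    intro t
    have h1 := (S2_hasDeriv (t - T0)).comp t ((hasDerivAt_id t).sub_const T0)
    have h2 := h1.deriv
    rw [mul_one] at h2
    exact h2
  have hGsm : ContDiff ℝ ∞ G := by
    rw [hG]
    exact expNegInvGlue.contDiff.comp (by fun_prop)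
  have hχsm : ContDiff ℝ ∞ χ := by
    rw [hχ]
    exact (expNegInvGlue.contDiff.comp (by fun_prop)).mul (expNegInvGlue.contDiff.comp (by fun_prop))
  have hGd0 : ∀ t, 0 ≤ deriv G t := by
    intro t
    rw [hGd]
    exact mul_nonneg (sq_nonneg _) (expNegInvGlue.nonneg _)
  have hGd2 : ∀ t, deriv G t ≤ 2 := by
    intro t
    rw [hGd]
    exact S2_deriv_le _
  have hχ0 : ∀ t, 0 ≤ χ t := fun t => mul_nonneg (expNegInvGlue.nonneg _) (expNegInvGlue.nonneg _)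
  have hχ1 : ∀ t, χ t ≤ 1 := fun t =>
    mul_le_one₀ (S2_glue_le _) (expNegInvGlue.nonneg _) (S2_glue_le _)
  set f : ℂ × ℂ → ℝ := fun p =>
    deriv G (κ * (-1 / ((m - 1) * p.1 ^ (m - 1)))).re * χ ‖p.2‖ *
      (κ * ev a p * conj (ev B p / p.2)).im with hf
  have hint : ∫ p in S2_E R K, f p ∂M = 0 := by
    refine sn_wedge D R hR hRK hR' κ hκ G χ hGsm ⟨2, fun t => ⟨?_, ?_⟩⟩ ?_ hχsm ?_
    · rw [abs_of_nonneg (expNegInvGlue.nonneg _)]
      have := S2_glue_le (t - T0)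
      show expNegInvGlue (t - T0) ≤ 2
      linarith
    · rw [abs_of_nonneg (hGd0 t)]
      exact hGd2 t
    · intro t ht
      exact expNegInvGlue.zero_of_nonpos (by linarith)
    · intro t ht
      show expNegInvGlue (t - K / 4) * expNegInvGlue (9 * K / 10 - t) = 0
      rcases ht with ht | ht
      · rw [expNegInvGlue.zero_of_nonpos (by linarith), zero_mul]
      · rw [expNegInvGlue.zero_of_nonpos (x := 9 * K / 10 - t) (by linarith), mul_zero]
  have hτ : 0 < ‖cf 0 1 B‖ := norm_pos_iff.2 D.hτ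
  have ha0 : 0 < ‖ev a 0‖ := norm_pos_iff.2 D.ha
  have hpos : 0 < ‖ev a 0‖ * ‖cf 0 1 B‖ := mul_pos ha0 hτ
  rw [norm_mul, Complex.norm_conj] at hκα
  -- the sign
  have hsign : ∃ s : ℝ, (s = 1 ∨ s = -1) ∧ ∀ p ∈ S2_E R K,
      0 < s * (κ * ev a p * conj (ev B p / p.2)).im := by
    rcases le_total 0 (κ * (ev a 0 * conj (cf 0 1 B))).im with hs | hs
    · refine ⟨1, Or.inl rfl, fun p hp => ?_⟩
      obtain ⟨h1, h2, -⟩ := S2_q D hRK hR' hp
      have h3 := abs_le.1 (S2_im hκ h1 h2)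
      rw [abs_of_nonneg hs] at hκα
      linarith [h3.1]
    · refine ⟨-1, Or.inr rfl, fun p hp => ?_⟩
      obtain ⟨h1, h2, -⟩ := S2_q D hRK hR' hp
      have h3 := abs_le.1 (S2_im hκ h1 h2)
      rw [abs_of_nonpos hs] at hκα
      linarith [h3.2]
  obtain ⟨s, hs1, hs⟩ := hsign
  have hfm : Measurable f := by
    rw [hf]
    have m1 : Measurable (deriv G) := (hGsm.continuous_deriv (by simp)).measurable
    have m2 : Measurable χ := hχsm.continuous.measurable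
    have m3 : Measurable (ev a) := (S2_cont a).measurable
    have m4 : Measurable (ev B) := (S2_cont B).measurable
    have m5 : Measurable fun p : ℂ × ℂ => (κ * (-1 / ((m - 1) * p.1 ^ (m - 1)))).re := by
      refine Complex.measurable_re.comp ?_
      refine Measurable.const_mul ?_ κ
      refine Measurable.const_div ?_ (-1)
      exact Measurable.const_mul (measurable_fst.pow_const _) _
    have m6 : Measurable fun p : ℂ × ℂ => (κ * ev a p * conj (ev B p / p.2)).im := by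
      refine Complex.measurable_im.comp ?_
      refine (m3.const_mul κ).mul ?_
      exact Complex.continuous_conj.measurable.comp (m4.div measurable_snd)
    exact ((m1.comp m5).mul (m2.comp measurable_snd.norm)).mul m6
  have hfi : IntegrableOn f (S2_E R K) M := by
    refine Measure.integrableOn_of_bounded (M := 2 * 1 * (2 * (‖ev a 0‖ * ‖cf 0 1 B‖)))
      (S2_fin D hRK hR').ne hfm.aestronglyMeasurable ?_
    refine (ae_restrict_iff' (S2_E_meas R K)).2 (Filter.Eventually.of_forall fun p hp => ?_)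
    rw [hf]
    simp only [norm_mul, Real.norm_eq_abs]
    obtain ⟨h1, h2, -⟩ := S2_q D hRK hR' hp
    have h3 := abs_le.1 (S2_im hκ h1 h2)
    have h4 : |(κ * (ev a 0 * conj (cf 0 1 B))).im| ≤ ‖ev a 0‖ * ‖cf 0 1 B‖ := by
      refine (Complex.abs_im_le_norm _).trans ?_
      rw [norm_mul, norm_mul, hκ, one_mul, Complex.norm_conj]
    have h5 := abs_le.1 h4
    refine mul_le_mul (mul_le_mul ?_ ?_ (abs_nonneg _) (by norm_num)) ?_ (abs_nonneg _) (by norm_num)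
    · rw [abs_of_nonneg (hGd0 _)]
      exact hGd2 _
    · rw [abs_of_nonneg (hχ0 _)]
      exact hχ1 _
    · rw [abs_le]
      constructor <;> linarith [h3.1, h3.2, h5.1, h5.2]
  have hsf : ∫ p in S2_E R K, s * f p ∂M = 0 := by
    rw [integral_const_mul, hint, mul_zero]
  have hnn : 0 ≤ᵐ[M.restrict (S2_E R K)] fun p => s * f p := by
    refine (ae_restrict_iff' (S2_E_meas R K)).2 (Filter.Eventually.of_forall fun p hp => ?_)
    have h1 := hs p hp
    show 0 ≤ s * (deriv G (κ * (-1 / ((m - 1) * p.1 ^ (m - 1)))).re * χ ‖p.2‖ *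
      (κ * ev a p * conj (ev B p / p.2)).im)
    have h2 := mul_nonneg (hGd0 (κ * (-1 / ((m - 1) * p.1 ^ (m - 1)))).re) (hχ0 ‖p.2‖)
    have h3 := mul_nonneg h2 h1.le
    linarith
  have hae := (setIntegral_eq_zero_iff_of_nonneg_ae hnn (hfi.const_mul s)).1 hsf
  have hae2 := (ae_restrict_iff' (S2_E_meas R K)).1 hae
  refine measure_mono_null ?_ (ae_iff.1 hae2)
  rintro p ⟨hp, hT⟩
  simp only [Set.mem_ofPred_eq, Classical.not_imp]
  refine ⟨hp, ?_⟩
  have h1 := hs p hp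
  have h2 : 0 < deriv G (κ * (-1 / ((m - 1) * p.1 ^ (m - 1)))).re := by
    rw [hGd]
    have h3 : 0 < (κ * (-1 / ((m - 1) * p.1 ^ (m - 1)))).re - T0 := by linarith
    have h4 := expNegInvGlue.pos_of_pos h3
    positivity
  have h3 : 0 < χ ‖p.2‖ := by
    obtain ⟨-, -, h5, h6⟩ := hp
    exact mul_pos (expNegInvGlue.pos_of_pos (by linarith)) (expNegInvGlue.pos_of_pos (by linarith))
  have h4 := mul_pos (mul_pos h2 h3) h1
  show ¬ (s * (deriv G (κ * (-1 / ((m - 1) * p.1 ^ (m - 1)))).re * χ ‖p.2‖ *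
      (κ * ev a p * conj (ev B p / p.2)).im) = 0)
  intro h0
  have : deriv G (κ * (-1 / ((m - 1) * p.1 ^ (m - 1)))).re * χ ‖p.2‖ *
      (s * (κ * ev a p * conj (ev B p / p.2)).im) = 0 := by
    rw [← h0]; ring
  linarith

theorem sn_annZero {m : ℕ} {a B h : P2} {ρ : ℝ} {M : Measure (ℂ × ℂ)} {K Cb : ℝ} (D : SNData m a B h ρ M K Cb) :
    ∃ R : ℝ, 0 < R ∧ R ≤ K / 2 ∧ Cb * R ≤ ‖cf 0 1 B‖ * K / 400 ∧ AnnZero M R K := by
  have hK := D.hK
  have hCb := D.hCb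
  have hτ : 0 < ‖cf 0 1 B‖ := norm_pos_iff.2 D.hτ
  have hm := D.hm
  set R0 : ℝ := min (K / 2) (‖cf 0 1 B‖ * K / (400 * (Cb + 1))) with hR0
  have hR0p : 0 < R0 := lt_min (by linarith) (by positivity)
  have hR0K : R0 ≤ K / 2 := min_le_left _ _
  have hR0' : Cb * R0 ≤ ‖cf 0 1 B‖ * K / 400 := by
    have h1 : R0 ≤ ‖cf 0 1 B‖ * K / (400 * (Cb + 1)) := min_le_right _ _
    have h2 : Cb * R0 ≤ (Cb + 1) * R0 := by nlinarith
    have h3 : (Cb + 1) * R0 ≤ (Cb + 1) * (‖cf 0 1 B‖ * K / (400 * (Cb + 1))) :=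
      mul_le_mul_of_nonneg_left h1 (by linarith)
    have h4 : (Cb + 1) * (‖cf 0 1 B‖ * K / (400 * (Cb + 1))) = ‖cf 0 1 B‖ * K / 400 := by
      field_simp
    linarith
  have hα : ev a 0 * conj (cf 0 1 B) ≠ 0 :=
    mul_ne_zero D.ha ((map_ne_zero _).2 D.hτ)
  obtain ⟨κ, hκ1, hκ2⟩ := S2_dir hα
  have hnull := measure_iUnion_null (fun i => S2_null D hR0p hR0K hR0' (hκ1 i).1 (hκ1 i).2)
  refine ⟨R0 / 2, by linarith, by linarith, ?_, ?_⟩
  · have h1 : Cb * (R0 / 2) ≤ Cb * R0 := mul_le_mul_of_nonneg_left (by linarith) hCb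
    linarith
  · unfold AnnZero
    refine measure_mono_null ?_ hnull
    rintro p ⟨h1, h2, h3, h4⟩
    have hmr : (0 : ℝ) < (m : ℝ) - 1 := by
      have : (2 : ℝ) ≤ m := by exact_mod_cast hm
      linarith
    obtain ⟨i, hi⟩ := hκ2 (-1 / ((m - 1) * p.1 ^ (m - 1)))
    rw [Set.mem_iUnion]
    refine ⟨i, ⟨h1, by linarith, by linarith, by linarith⟩, ?_⟩
    refine lt_of_lt_of_le ?_ hi
    have hmc : ‖((m : ℂ) - 1)‖ = (m : ℝ) - 1 := by
      have e : ((m : ℂ) - 1) = (((m : ℝ) - 1 : ℝ) : ℂ) := by push_cast; ring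
      rw [e, Complex.norm_real, Real.norm_eq_abs, abs_of_pos hmr]
    rw [norm_div, norm_neg, norm_one, norm_mul, norm_pow, hmc]
    have h5 : ‖p.1‖ ^ (m - 1) < (R0 / 2) ^ (m - 1) :=
      pow_lt_pow_left₀ h2 h1.le (by omega)
    have h6 : (R0 / 2) ^ (m - 1) ≤ R0 ^ (m - 1) / 2 := by
      rw [div_pow]
      have h7 : (2 : ℝ) ≤ 2 ^ (m - 1) := by
        calc (2 : ℝ) = 2 ^ 1 := by norm_num
          _ ≤ 2 ^ (m - 1) := pow_le_pow_right₀ (by norm_num) (by omega)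
      exact div_le_div_of_nonneg_left (by positivity) (by norm_num) h7
    have h8 : 0 < ‖p.1‖ ^ (m - 1) := pow_pos h1 _
    have h9 : 0 < R0 ^ (m - 1) := pow_pos hR0p _
    rw [div_div, div_lt_div_iff₀ (by positivity) (by positivity)]
    nlinarith

end FC76
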