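import Pool.Agent.H76.FL.SDefs

/-!
# Row S3: Weyl's lemma for the dbar operator

λ a measure on Ω, ξ : Ω → ℂ, w : Ω → ℂ measurable, ‖w‖ <= C, U open, λ(ξ⁻¹ U) < oo, and ∫ dbar χ(ξ) w dλ = 0 for every smooth complex χ with compact support in U.
CLAIM: there is b holomorphic on U with ∫ χ(ξ) w dλ = ∫ χ b (Lebesgue) for all continuous χ with compact support in U.
Proof.  Let η >= 0 be a smooth radial bump on ℂ, supported in the unit ball, ∫ η = 1, η_ε(z) = ε^(-2) η(z/ε).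
 For z in U with dist(z, U^c) > ε put b_ε(z) := ∫ η_ε(z - ξ) w dλ.  b_ε is smooth there (differentiate under the integral; finite measure) and dbar b_ε(z) = ∫ (dbar η_ε)(z - ξ) w dλ = - ∫ dbar[ζ ↦ η_ε(z - ζ)](ξ) w dλ = 0, so b_ε
 is holomorphic on U_ε (real differentiable + Cauchy-Riemann = complex differentiable).
 For ε, δ: on U_(ε+δ): (b_ε * η_δ)(z) = ∫∫ η_ε(z - ζ - ξ) η_δ(ζ) w = (b_δ * η_ε)(z) (Fubini, symmetry of convolution), and b_ε * η_δ = b_ε by the mean value property of holomorphic functions (η_δ radial: polar coordinates,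
 `circleAverage`, or: write b_ε as a power series; or use `DiffContOnCl.circleAverage`/Cauchy integral formula), similarly b_δ * η_ε = b_δ.  So b_ε = b_δ on U_(ε+δ): together they define b on U, holomorphic.
 For χ continuous with compact support in U: ∫ χ(ξ) w dλ = lim_ε ∫ (χ * η_ε)(ξ) w dλ = lim_ε ∫ χ(z) b_ε(z) dz (Fubini; η_ε even) = ∫ χ b for ε small.

`weyl_real`: w = 1, U = pdisc R: then for real χ the integrals ∫ χ b are real, so b is real valued on pdisc R (continuity), a real valued holomorphic function on the connected open set pdisc R is constant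
 (`isPreconnected` of the punctured disc; open mapping or derivative zero), and the constant k is >= 0 because λ is positive.
-/

open MeasureTheory
open scoped ContDiff ComplexConjugate

namespace FC76

/-- profile: 0 for s <= 1, 1 for s >= 2 -/
noncomputable def S3_P (s : ℝ) : ℝ := Real.smoothTransition (s - 1)

theorem S3_P_smooth : ContDiff ℝ ∞ S3_P :=
  Real.smoothTransition.contDiff.comp (contDiff_id.sub contDiff_const)

theorem S3_P_zero {s : ℝ} (h : s ≤ 1) : S3_P s = 0 :=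
  Real.smoothTransition.zero_of_nonpos (by linarith)

theorem S3_P_one {s : ℝ} (h : 2 ≤ s) : S3_P s = 1 :=
  Real.smoothTransition.one_of_one_le (by linarith)

theorem S3_P_mono : Monotone S3_P := fun a b h =>
  Real.smoothTransition.monotone (by linarith)

/-- the mollifier -/
noncomputable def S3_E (ε : ℝ) (z : ℂ) : ℝ := deriv S3_P (‖z‖ ^ 2 / ε ^ 2) / ε ^ 2

/-- its dbar primitive -/
noncomputable def S3_G (ε : ℝ) (z : ℂ) : ℂ := (S3_P (‖z‖ ^ 2 / ε ^ 2) : ℂ) * z⁻¹

theorem S3_E_nonneg (ε : ℝ) (z : ℂ) : 0 ≤ S3_E ε z :=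
  div_nonneg (S3_P_mono.deriv_nonneg) (by positivity)

theorem S3_dP_smooth : ContDiff ℝ ∞ (deriv S3_P) := (contDiff_infty_iff_deriv.1 S3_P_smooth).2

theorem S3_E_smooth (ε : ℝ) : ContDiff ℝ ∞ (S3_E ε) :=
  (S3_dP_smooth.comp ((contDiff_norm_sq ℝ).div_const _)).div_const _

theorem S3_Ec_smooth (ε : ℝ) : ContDiff ℝ ∞ (fun z => (S3_E ε z : ℂ)) :=
  Complex.ofRealCLM.contDiff.comp (S3_E_smooth ε)

theorem S3_dP_zero {s : ℝ} (h : s < 1) : deriv S3_P s = 0 := by
  have h1 : S3_P =ᶠ[nhds s] fun _ => (0 : ℝ) := by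
    filter_upwards [Iio_mem_nhds h] with t ht
    exact S3_P_zero (le_of_lt ht)
  rw [h1.deriv_eq]
  simp

theorem S3_dP_zero' {s : ℝ} (h : 2 < s) : deriv S3_P s = 0 := by
  have h1 : S3_P =ᶠ[nhds s] fun _ => (1 : ℝ) := by
    filter_upwards [Ioi_mem_nhds h] with t ht
    exact S3_P_one (le_of_lt ht)
  rw [h1.deriv_eq]
  simp

theorem S3_big {ε : ℝ} (hε : 0 < ε) {z : ℂ} (h : 2 * ε ≤ ‖z‖) : 2 < ‖z‖ ^ 2 / ε ^ 2 := by
  rw [lt_div_iff₀ (by positivity)]
  nlinarith [norm_nonneg z]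

theorem S3_small {ε : ℝ} (hε : 0 < ε) {z : ℂ} (h : ‖z‖ < ε) : ‖z‖ ^ 2 / ε ^ 2 < 1 := by
  rw [div_lt_iff₀ (by positivity)]
  nlinarith [norm_nonneg z]

theorem S3_E_zero {ε : ℝ} (hε : 0 < ε) {z : ℂ} (h : 2 * ε ≤ ‖z‖) : S3_E ε z = 0 := by
  unfold S3_E
  rw [S3_dP_zero' (S3_big hε h), zero_div]

theorem S3_G_near {ε : ℝ} (hε : 0 < ε) {z : ℂ} (h : ‖z‖ < ε) : S3_G ε z = 0 := by
  unfold S3_G
  rw [S3_P_zero (S3_small hε h).le]
  simp

theorem S3_G_far {ε : ℝ} (hε : 0 < ε) {z : ℂ} (h : 2 * ε ≤ ‖z‖) : S3_G ε z = z⁻¹ := by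
  unfold S3_G
  rw [S3_P_one (S3_big hε h).le]
  simp

theorem S3_G_smooth {ε : ℝ} (hε : 0 < ε) : ContDiff ℝ ∞ (S3_G ε) := by
  rw [contDiff_iff_contDiffAt]
  intro z
  by_cases hz : z = 0
  · have h1 : S3_G ε =ᶠ[nhds z] fun _ => (0 : ℂ) := by
      filter_upwards [Metric.ball_mem_nhds z hε] with w hw
      refine S3_G_near hε ?_
      rwa [hz, Metric.mem_ball, dist_zero_right] at hw
    exact contDiffAt_const.congr_of_eventuallyEq h1
  · have h1 : ContDiff ℝ ∞ (fun z : ℂ => (S3_P (‖z‖ ^ 2 / ε ^ 2) : ℂ)) :=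
      Complex.ofRealCLM.contDiff.comp (S3_P_smooth.comp ((contDiff_norm_sq ℝ).div_const _))
    exact h1.contDiffAt.mul (contDiffAt_inv ℝ hz)

theorem S3_dbar_G {ε : ℝ} (hε : 0 < ε) (z : ℂ) : dbar (S3_G ε) z = (S3_E ε z : ℂ) := by
  by_cases hz : z = 0
  · have h1 : S3_G ε =ᶠ[nhds z] fun _ => (0 : ℂ) := by
      filter_upwards [Metric.ball_mem_nhds z hε] with w hw
      refine S3_G_near hε ?_
      rwa [hz, Metric.mem_ball, dist_zero_right] at hw
    have h2 : S3_E ε z = 0 := by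
      unfold S3_E
      rw [hz, S3_dP_zero, zero_div]
      simp
    unfold dbar
    rw [h1.fderiv_eq, h2]
    simp
  · have hq : HasFDerivAt (fun z : ℂ => ‖z‖ ^ 2 / ε ^ 2) ((ε ^ 2)⁻¹ • (2 • innerSL ℝ z)) z := by
      have h := (hasStrictFDerivAt_norm_sq z).hasFDerivAt.mul_const ((ε ^ 2)⁻¹)
      simpa only [div_eq_mul_inv] using h
    have hP : HasDerivAt S3_P (deriv S3_P (‖z‖ ^ 2 / ε ^ 2)) (‖z‖ ^ 2 / ε ^ 2) :=
      ((S3_P_smooth.differentiable (by simp)) _).hasDerivAt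
    have h1 := hP.comp_hasFDerivAt z hq
    have h2 := Complex.ofRealCLM.hasFDerivAt.comp z h1
    have h3 : HasFDerivAt (fun z : ℂ => z⁻¹)
        ((ContinuousLinearMap.toSpanSingleton ℂ (-(z ^ 2)⁻¹)).restrictScalars ℝ) z :=
      ((hasDerivAt_inv hz).hasFDerivAt).restrictScalars ℝ
    have h4 := h2.mul h3
    have h5 : HasFDerivAt (S3_G ε) _ z := h4
    unfold dbar
    rw [h5.fderiv]
    unfold S3_E
    have hzz : z⁻¹ * z = 1 := inv_mul_cancel₀ hz
    have hre : (z.re : ℂ) + z.im * Complex.I = z := Complex.re_add_im z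
    simp [Complex.inner]
    linear_combination (-((S3_P (‖z‖ ^ 2 / ε ^ 2) : ℝ) : ℂ) * (z ^ 2)⁻¹ / 2) * Complex.I_sq +
      (z⁻¹ * ((deriv S3_P (‖z‖ ^ 2 / ε ^ 2) : ℝ) : ℂ) * ((ε : ℂ) ^ 2)⁻¹) * hre +
      (((deriv S3_P (‖z‖ ^ 2 / ε ^ 2) : ℝ) : ℂ) * ((ε : ℂ) ^ 2)⁻¹) * hzz

theorem S3_E_cs {ε : ℝ} (hε : 0 < ε) : HasCompactSupport (S3_E ε) := by
  refine HasCompactSupport.intro (isCompact_closedBall (0 : ℂ) (2 * ε)) fun z hz => ?_
  rw [Metric.mem_closedBall, dist_zero_right, not_le] at hz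
  exact S3_E_zero hε hz.le

theorem S3_Ec_cs {ε : ℝ} (hε : 0 < ε) : HasCompactSupport (fun z => (S3_E ε z : ℂ)) := by
  refine HasCompactSupport.intro (isCompact_closedBall (0 : ℂ) (2 * ε)) fun z hz => ?_
  rw [Metric.mem_closedBall, dist_zero_right, not_le] at hz
  rw [S3_E_zero hε hz.le]
  rfl

/-- the total mass of the mollifier -/
noncomputable def S3_c : ℝ := ∫ z : ℂ, S3_E 1 z

theorem S3_c_pos : 0 < S3_c := by
  obtain ⟨s, hs, hs'⟩ := exists_deriv_eq_slope S3_P (by norm_num : (1 : ℝ) < 2)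
    S3_P_smooth.continuous.continuousOn (S3_P_smooth.differentiable (by simp)).differentiableOn
  rw [S3_P_one le_rfl, S3_P_zero le_rfl] at hs'
  have hs0 : 0 ≤ s := by linarith [hs.1]
  have h0 : S3_E 1 ((Real.sqrt s : ℝ) : ℂ) ≠ 0 := by
    unfold S3_E
    rw [Complex.norm_real, Real.norm_eq_abs, sq_abs, Real.sq_sqrt hs0]
    norm_num
    rw [hs']
    norm_num
  exact (S3_E_smooth 1).continuous.integral_pos_of_hasCompactSupport_nonneg_nonzero
    (S3_E_cs one_pos) (S3_E_nonneg 1) h0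

theorem S3_int_E {ε : ℝ} (hε : 0 < ε) : ∫ z : ℂ, S3_E ε z = S3_c := by
  have h1 : ∀ z : ℂ, S3_E ε z = (ε ^ 2)⁻¹ * S3_E 1 (ε⁻¹ • z) := by
    intro z
    unfold S3_E
    rw [norm_smul, Real.norm_eq_abs, mul_pow, sq_abs]
    have e : ε⁻¹ ^ 2 * ‖z‖ ^ 2 / 1 ^ 2 = ‖z‖ ^ 2 / ε ^ 2 := by
      rw [inv_pow]
      ring
    rw [e]
    ring
  simp only [h1]
  rw [integral_const_mul, Measure.integral_comp_inv_smul_of_nonneg volume _ hε.le,
    Complex.finrank_real_complex, smul_eq_mul, ← mul_assoc, inv_mul_cancel₀ (by positivity),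
    one_mul]
  rfl

theorem S3_int_E' {ε : ℝ} (hε : 0 < ε) (x : ℂ) : ∫ z : ℂ, S3_E ε (z - x) = S3_c := by
  rw [integral_sub_right_eq_self (fun z => S3_E ε z) x]
  exact S3_int_E hε

theorem S3_dbar_comp {f : ℂ → ℂ} {z x : ℂ} (hf : DifferentiableAt ℝ f (z - x)) :
    HasFDerivAt (fun y => f (z - y)) (-(fderiv ℝ f (z - x))) x := by
  have h1 : HasFDerivAt (fun y : ℂ => z - y) (-(ContinuousLinearMap.id ℝ ℂ)) x :=
    (hasFDerivAt_id x).const_sub z
  have h2 := hf.hasFDerivAt.comp x h1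
  have e : (fderiv ℝ f (z - x)).comp (-(ContinuousLinearMap.id ℝ ℂ)) = -(fderiv ℝ f (z - x)) := by
    ext v
    simp
  rw [e] at h2
  exact h2

theorem S3_dbar_comp' {f : ℂ → ℂ} (hf : Differentiable ℝ f) (z x : ℂ) :
    dbar (fun y => f (z - y)) x = - dbar f (z - x) := by
  unfold dbar
  rw [(S3_dbar_comp (hf _)).fderiv]
  simp only [neg_apply]
  ring

section finite

variable {Ω : Type*} [MeasurableSpace Ω] (lam : Measure Ω) [IsFiniteMeasure lam]
  (ξ w : Ω → ℂ) (hξ : Measurable ξ) (hw : Measurable w)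
  (C : ℝ) (hwb : ∀ o, ‖w o‖ ≤ C)

include hξ hw hwb in
theorem S3_integ {f : ℂ → ℂ} (hf : Continuous f) (B : ℝ) (hB : ∀ x, ‖f x‖ ≤ B) :
    Integrable (fun o => f (ξ o) * w o) lam := by
  refine Integrable.of_bound ((hf.measurable.comp hξ).mul hw).aestronglyMeasurable (B * C) ?_
  refine Filter.Eventually.of_forall fun o => ?_
  rw [norm_mul]
  exact mul_le_mul (hB _) (hwb o) (norm_nonneg _) ((norm_nonneg _).trans (hB (ξ o)))

theorem S3_E_bd {ε : ℝ} (hε : 0 < ε) : ∃ B : ℝ, ∀ x : ℂ, ‖(S3_E ε x : ℂ)‖ ≤ B :=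
  (S3_Ec_cs hε).exists_bound_of_continuous (S3_Ec_smooth ε).continuous

include hξ hw hwb in
theorem S3_integE {ε : ℝ} (hε : 0 < ε) (z : ℂ) :
    Integrable (fun o => (S3_E ε (z - ξ o) : ℂ) * w o) lam := by
  obtain ⟨B, hB⟩ := S3_E_bd hε
  exact S3_integ lam ξ w hξ hw C hwb (f := fun x => (S3_E ε (z - x) : ℂ))
    ((S3_Ec_smooth ε).continuous.comp (continuous_const.sub continuous_id)) B (fun x => hB _)

theorem S3_ts {f : ℂ → ℂ} {z : ℂ} {r : ℝ} (h : ∀ x, r < ‖z - x‖ → f x = 0) :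
    HasCompactSupport f ∧ tsupport f ⊆ Metric.closedBall z r := by
  have h1 : ∀ x, x ∉ Metric.closedBall z r → f x = 0 := by
    intro x hx
    rw [Metric.mem_closedBall, not_le, dist_comm, dist_eq_norm] at hx
    exact h x hx
  constructor
  · exact HasCompactSupport.intro (isCompact_closedBall z r) h1
  · refine closure_minimal ?_ Metric.isClosed_closedBall
    intro x hx
    by_contra h2
    exact hx (h1 x h2)

variable (U : Set ℂ)
  (h : ∀ χ : ℂ → ℂ, ContDiff ℝ ∞ χ → HasCompactSupport χ → tsupport χ ⊆ U →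
    ∫ o, dbar χ (ξ o) * w o ∂lam = 0)

include hξ hw hwb h in
theorem S3_indep {ε δ : ℝ} (hε : 0 < ε) (hδ : 0 < δ) {z : ℂ}
    (hz : Metric.closedBall z (2 * max ε δ) ⊆ U) :
    ∫ o, (S3_E ε (z - ξ o) : ℂ) * w o ∂lam = ∫ o, (S3_E δ (z - ξ o) : ℂ) * w o ∂lam := by
  have d1 : Differentiable ℝ (S3_G ε) := (S3_G_smooth hε).differentiable (by simp)
  have d2 : Differentiable ℝ (S3_G δ) := (S3_G_smooth hδ).differentiable (by simp)
  have hs : ContDiff ℝ ∞ (fun x => S3_G ε (z - x) - S3_G δ (z - x)) :=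
    ((S3_G_smooth hε).comp (contDiff_const.sub contDiff_id)).sub
      ((S3_G_smooth hδ).comp (contDiff_const.sub contDiff_id))
  have ht := S3_ts (f := fun x => S3_G ε (z - x) - S3_G δ (z - x)) (z := z)
    (r := 2 * max ε δ) (by
      intro x hx
      have h1 : 2 * ε ≤ ‖z - x‖ := by
        have := le_max_left ε δ
        linarith
      have h2 : 2 * δ ≤ ‖z - x‖ := by
        have := le_max_right ε δ
        linarith
      rw [S3_G_far hε h1, S3_G_far hδ h2, sub_self])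
  have h1 := h _ hs ht.1 (ht.2.trans hz)
  have h2 : ∀ x, dbar (fun x => S3_G ε (z - x) - S3_G δ (z - x)) x =
      (S3_E δ (z - x) : ℂ) - (S3_E ε (z - x) : ℂ) := by
    intro x
    have e1 := S3_dbar_comp (z := z) (x := x) (d1 _)
    have e2 := S3_dbar_comp (z := z) (x := x) (d2 _)
    have e3 := e1.sub e2
    have g1 := S3_dbar_G hε (z - x)
    have g2 := S3_dbar_G hδ (z - x)
    unfold dbar at g1 g2 ⊢
    have e4 : fderiv ℝ (fun x => S3_G ε (z - x) - S3_G δ (z - x)) x =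
      -(fderiv ℝ (S3_G ε) (z - x)) - -(fderiv ℝ (S3_G δ) (z - x)) := e3.fderiv
    rw [e4, ← g1, ← g2]
    simp only [sub_apply, neg_apply]
    ring
  simp only [h2, sub_mul] at h1
  rw [integral_sub (S3_integE lam ξ w hξ hw C hwb hδ z) (S3_integE lam ξ w hξ hw C hwb hε z),
    sub_eq_zero] at h1
  exact h1.symm

include hξ hw hwb h in
theorem S3_hol {ε : ℝ} (hε : 0 < ε) {z : ℂ} (hz : Metric.closedBall z (2 * ε) ⊆ U) :
    DifferentiableAt ℂ (fun z => ∫ o, (S3_E ε (z - ξ o) : ℂ) * w o ∂lam) z := by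
  have hEs := S3_Ec_smooth ε
  have hEd : Differentiable ℝ (fun z => (S3_E ε z : ℂ)) := hEs.differentiable (by simp)
  have hfc : Continuous (fderiv ℝ (fun z => (S3_E ε z : ℂ))) := hEs.continuous_fderiv (by simp)
  obtain ⟨B, hB⟩ := ((S3_Ec_cs hε).fderiv ℝ).exists_bound_of_continuous hfc
  have hB0 : 0 ≤ B := (norm_nonneg _).trans (hB 0)
  have hm : ∀ z : ℂ, StronglyMeasurable
      (fun o => w o • fderiv ℝ (fun z => (S3_E ε z : ℂ)) (z - ξ o)) := by
    intro z
    exact hw.stronglyMeasurable.smul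
      (hfc.comp_stronglyMeasurable ((measurable_const.sub hξ).stronglyMeasurable))
  have hbd : ∀ (z : ℂ) (o : Ω), ‖w o • fderiv ℝ (fun z => (S3_E ε z : ℂ)) (z - ξ o)‖ ≤ C * B := by
    intro z o
    rw [norm_smul]
    exact mul_le_mul (hwb o) (hB _) (norm_nonneg _) ((norm_nonneg _).trans (hwb o))
  have key := hasFDerivAt_integral_of_dominated_of_fderiv_le (μ := lam) (x₀ := z)
    (F := fun z o => (S3_E ε (z - ξ o) : ℂ) * w o)
    (F' := fun z o => w o • fderiv ℝ (fun z => (S3_E ε z : ℂ)) (z - ξ o))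
    (bound := fun _ => C * B) (s := Set.univ) Filter.univ_mem
    (Filter.Eventually.of_forall fun z => (S3_integE lam ξ w hξ hw C hwb hε z).aestronglyMeasurable)
    (S3_integE lam ξ w hξ hw C hwb hε z) (hm z).aestronglyMeasurable
    (Filter.Eventually.of_forall fun o z _ => hbd z o) (integrable_const _)
    (Filter.Eventually.of_forall fun o z _ => by
      have h1 : HasFDerivAt (fun y : ℂ => y - ξ o) (ContinuousLinearMap.id ℝ ℂ) z :=
        (hasFDerivAt_id z).sub_const _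
      have h2 := (hEd (z - ξ o)).hasFDerivAt.comp z h1
      rw [ContinuousLinearMap.comp_id] at h2
      exact h2.mul_const (w o))
  have hI : Integrable (fun o => w o • fderiv ℝ (fun z => (S3_E ε z : ℂ)) (z - ξ o)) lam :=
    Integrable.of_bound (hm z).aestronglyMeasurable (C * B)
      (Filter.Eventually.of_forall fun o => hbd z o)
  rw [differentiableAt_complex_iff_differentiableAt_real]
  refine ⟨key.differentiableAt, ?_⟩
  rw [key.fderiv, ContinuousLinearMap.integral_apply hI, ContinuousLinearMap.integral_apply hI,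
    smul_eq_mul]
  -- the dbar derivative vanishes
  have ht := S3_ts (f := fun x => (S3_E ε (z - x) : ℂ)) (z := z) (r := 2 * ε) (by
      intro x hx
      rw [S3_E_zero hε hx.le]
      rfl)
  have h1 := h (fun x => (S3_E ε (z - x) : ℂ)) (hEs.comp (contDiff_const.sub contDiff_id))
    ht.1 (ht.2.trans hz)
  have h0 : ∀ x, dbar (fun x => (S3_E ε (z - x) : ℂ)) x =
      -dbar (fun z => (S3_E ε z : ℂ)) (z - x) := fun x => S3_dbar_comp' hEd z x
  simp only [h0] at h1
  have i1 : Integrable (fun o => (w o • fderiv ℝ (fun z => (S3_E ε z : ℂ)) (z - ξ o)) 1) lam :=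
    hI.apply_continuousLinearMap 1
  have i2 : Integrable (fun o => (w o • fderiv ℝ (fun z => (S3_E ε z : ℂ)) (z - ξ o)) Complex.I)
      lam := hI.apply_continuousLinearMap Complex.I
  have h2 : ∫ o, -dbar (fun z => (S3_E ε z : ℂ)) (z - ξ o) * w o ∂lam =
      -(1 / 2) * (∫ o, (w o • fderiv ℝ (fun z => (S3_E ε z : ℂ)) (z - ξ o)) 1 ∂lam +
      Complex.I * ∫ o, (w o • fderiv ℝ (fun z => (S3_E ε z : ℂ)) (z - ξ o)) Complex.I ∂lam) := by
    rw [← integral_const_mul, ← integral_add i1 (i2.const_mul _), ← integral_const_mul]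
    refine integral_congr_ae (Filter.Eventually.of_forall fun o => ?_)
    simp only [dbar, smul_apply, smul_eq_mul]
    ring
  rw [h1] at h2
  have h3 := mul_eq_zero.1 h2.symm
  have h4 : (∫ o, (w o • fderiv ℝ (fun z => (S3_E ε z : ℂ)) (z - ξ o)) 1 ∂lam +
      Complex.I * ∫ o, (w o • fderiv ℝ (fun z => (S3_E ε z : ℂ)) (z - ξ o)) Complex.I ∂lam) = 0 := by
    rcases h3 with h3 | h3
    · norm_num at h3
    · exact h3
  linear_combination (-Complex.I) * h4 +
    (∫ o, (w o • fderiv ℝ (fun z => (S3_E ε z : ℂ)) (z - ξ o)) Complex.I ∂lam) * Complex.I_sq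

include hξ hw hwb in
theorem S3_fub {ε : ℝ} (hε : 0 < ε) {χ : ℂ → ℂ} (hχ : Continuous χ) (hcs : HasCompactSupport χ) :
    ∫ z, χ z * ∫ o, (S3_E ε (z - ξ o) : ℂ) * w o ∂lam =
      ∫ o, (∫ z, χ z * (S3_E ε (z - ξ o) : ℂ)) * w o ∂lam := by
  obtain ⟨B, hB⟩ := S3_E_bd hε
  have hB0 : 0 ≤ B := (norm_nonneg _).trans (hB 0)
  have hC0 : ∀ o, 0 ≤ C := fun o => (norm_nonneg _).trans (hwb o)
  have hint : Integrable (Function.uncurry fun (z : ℂ) (o : Ω) =>
      χ z * ((S3_E ε (z - ξ o) : ℂ) * w o)) (volume.prod lam) := by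
    have h1 : Integrable (fun q : ℂ × Ω => ‖χ q.1‖ * (B * C)) (volume.prod lam) :=
      (hχ.integrable_of_hasCompactSupport hcs).norm.mul_prod (integrable_const (B * C))
    refine h1.mono' ?_ ?_
    · refine Measurable.aestronglyMeasurable ?_
      exact (hχ.measurable.comp measurable_fst).mul
        (((S3_Ec_smooth ε).continuous.measurable.comp
          (measurable_fst.sub (hξ.comp measurable_snd))).mul (hw.comp measurable_snd))
    · refine Filter.Eventually.of_forall fun q => ?_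
      show ‖χ q.1 * ((S3_E ε (q.1 - ξ q.2) : ℂ) * w q.2)‖ ≤ _
      rw [norm_mul, norm_mul]
      exact mul_le_mul_of_nonneg_left (mul_le_mul (hB _) (hwb _) (norm_nonneg _) hB0)
        (norm_nonneg _)
  have h2 := integral_integral_swap hint
  simp only [← integral_const_mul]
  rw [h2]
  refine integral_congr_ae (Filter.Eventually.of_forall fun o => ?_)
  simp only
  rw [← integral_mul_const]
  refine integral_congr_ae (Filter.Eventually.of_forall fun z => ?_)
  simp only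
  ring

theorem S3_mol {ε : ℝ} (hε : 0 < ε) {χ : ℂ → ℂ} (hχ : Continuous χ)
    {κ : ℝ} (hκ : ∀ z x : ℂ, ‖z - x‖ ≤ 2 * ε → ‖χ z - χ x‖ ≤ κ) (x : ℂ) :
    ‖(∫ z, χ z * (S3_E ε (z - x) : ℂ)) - χ x * S3_c‖ ≤ κ * S3_c := by
  have hEc : Continuous (fun z => (S3_E ε (z - x) : ℂ)) :=
    (S3_Ec_smooth ε).continuous.comp (continuous_id.sub continuous_const)
  have hEcs : HasCompactSupport (fun z => (S3_E ε (z - x) : ℂ)) := by
    refine HasCompactSupport.intro (isCompact_closedBall x (2 * ε)) fun z hz => ?_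
    rw [Metric.mem_closedBall, not_le, dist_eq_norm] at hz
    rw [S3_E_zero hε hz.le]
    rfl
  have hEr : Integrable (fun z => S3_E ε (z - x)) := by
    have h1 : Integrable (fun z => (S3_E ε (z - x) : ℂ)) volume :=
      hEc.integrable_of_hasCompactSupport hEcs
    exact h1.re
  have e1 : χ x * S3_c = ∫ z, χ x * (S3_E ε (z - x) : ℂ) := by
    rw [integral_const_mul, integral_complex_ofReal, S3_int_E' hε]
  have i1 : Integrable (fun z => χ z * (S3_E ε (z - x) : ℂ)) :=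
    (hχ.mul hEc).integrable_of_hasCompactSupport hEcs.mul_left
  have i2 : Integrable (fun z => χ x * (S3_E ε (z - x) : ℂ)) :=
    (hEc.integrable_of_hasCompactSupport hEcs).const_mul _
  rw [e1, ← integral_sub i1 i2]
  calc ‖∫ z, (χ z * (S3_E ε (z - x) : ℂ) - χ x * (S3_E ε (z - x) : ℂ))‖
      ≤ ∫ z, κ * S3_E ε (z - x) := by
        refine norm_integral_le_of_norm_le (hEr.const_mul _) ?_
        refine Filter.Eventually.of_forall fun z => ?_
        rw [← sub_mul, norm_mul, Complex.norm_real, Real.norm_eq_abs,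
          abs_of_nonneg (S3_E_nonneg _ _)]
        by_cases hz : ‖z - x‖ ≤ 2 * ε
        · exact mul_le_mul_of_nonneg_right (hκ z x hz) (S3_E_nonneg _ _)
        · rw [S3_E_zero hε (not_le.1 hz).le]
          simp
    _ = κ * S3_c := by rw [integral_const_mul, S3_int_E' hε]

include hξ hw hwb h in
/-- Weyl's lemma for a finite measure -/
theorem S3_weyl (hU : IsOpen U) :
    ∃ b : ℂ → ℂ, DifferentiableOn ℂ b U ∧
      (∀ χ : ℂ → ℂ, Continuous χ → HasCompactSupport χ → tsupport χ ⊆ U →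
        ∫ o, χ (ξ o) * w o ∂lam = ∫ z, χ z * b z) ∧
      ∀ z, ∃ ε : ℝ, b z = (∫ o, (S3_E ε (z - ξ o) : ℂ) * w o ∂lam) / S3_c := by
  classical
  have hex : ∀ z : ℂ, ∃ ε : ℝ, 0 < ε ∧ (z ∈ U → Metric.closedBall z (2 * ε) ⊆ U) := by
    intro z
    by_cases hz : z ∈ U
    · obtain ⟨r, hr, hr'⟩ := Metric.isOpen_iff.1 hU z hz
      refine ⟨r / 4, by positivity, fun _ => ?_⟩
      exact (Metric.closedBall_subset_ball (by linarith)).trans hr'
    · exact ⟨1, one_pos, fun h => absurd h hz⟩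
  choose e he0 he using hex
  have hc := S3_c_pos
  have hc' : (S3_c : ℂ) ≠ 0 := Complex.ofReal_ne_zero.2 hc.ne'
  obtain ⟨b, hb⟩ : ∃ b : ℂ → ℂ, ∀ z, b z =
      (∫ o, (S3_E (e z) (z - ξ o) : ℂ) * w o ∂lam) / S3_c := ⟨_, fun _ => rfl⟩
  have hbe : ∀ z ∈ U, ∀ ε : ℝ, 0 < ε → Metric.closedBall z (2 * ε) ⊆ U →
      b z = (∫ o, (S3_E ε (z - ξ o) : ℂ) * w o ∂lam) / S3_c := by
    intro z hz ε hε hzε
    rw [hb z, S3_indep lam ξ w hξ hw C hwb U h (he0 z) hε]
    rcases le_total (e z) ε with h1 | h1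
    · rw [max_eq_right h1]
      exact hzε
    · rw [max_eq_left h1]
      exact he z hz
  refine ⟨b, ?_, ?_, fun z => ⟨e z, hb z⟩⟩
  · intro z hz
    refine DifferentiableAt.differentiableWithinAt ?_
    obtain ⟨r, hr⟩ : ∃ r, r = e z := ⟨_, rfl⟩
    have hr0 : 0 < r := by rw [hr]; exact he0 z
    have h2 : Metric.closedBall z (2 * r) ⊆ U := by rw [hr]; exact he z hz
    -- on a small ball b is given by one mollifier
    have h3 : b =ᶠ[nhds z] fun z => (∫ o, (S3_E (r / 2) (z - ξ o) : ℂ) * w o ∂lam) / S3_c := by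
      filter_upwards [Metric.ball_mem_nhds z hr0] with x hx
      rw [Metric.mem_ball] at hx
      refine hbe x (h2 ?_) (r / 2) (by positivity) ?_
      · rw [Metric.mem_closedBall]
        linarith
      · refine (Metric.closedBall_subset_closedBall' ?_).trans h2
        linarith
    refine DifferentiableAt.congr_of_eventuallyEq ?_ h3
    refine DifferentiableAt.div_const ?_ _
    refine S3_hol lam ξ w hξ hw C hwb U h (by positivity) ?_
    refine (Metric.closedBall_subset_closedBall ?_).trans h2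
    linarith
  · intro χ hχ hcs hsupp
    obtain ⟨δ, hδ, hδU⟩ := hcs.exists_cthickening_subset_open hU hsupp
    have huc := hcs.uniformContinuous_of_continuous hχ
    have hCn : ∀ o, 0 ≤ C := fun o => (norm_nonneg _).trans (hwb o)
    obtain ⟨B0, hB0⟩ := hcs.exists_bound_of_continuous hχ
    have key : ∀ κ : ℝ, 0 < κ →
        ‖(∫ z, χ z * b z) - ∫ o, χ (ξ o) * w o ∂lam‖ ≤ κ * (|C| * lam.real Set.univ) := by
      intro κ hκ
      obtain ⟨δ', hδ', hd⟩ := Metric.uniformContinuous_iff.1 huc κ hκ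
      obtain ⟨ε, hε⟩ : ∃ ε, ε = min δ δ' / 4 := ⟨_, rfl⟩
      have hm : 0 < min δ δ' := lt_min hδ hδ'
      have hε0 : 0 < ε := by rw [hε]; positivity
      have hε1 : 2 * ε ≤ δ := by
        have := min_le_left δ δ'
        rw [hε]
        linarith
      have hε2 : 2 * ε < δ' := by
        have := min_le_right δ δ'
        rw [hε]
        linarith
      have hκ' : ∀ z x : ℂ, ‖z - x‖ ≤ 2 * ε → ‖χ z - χ x‖ ≤ κ := by
        intro z x hzx
        have h1 := @hd z x (by rw [dist_eq_norm]; linarith)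
        rw [dist_eq_norm] at h1
        exact h1.le
      have e1 : ∀ z, χ z * b z =
          (χ z * ∫ o, (S3_E ε (z - ξ o) : ℂ) * w o ∂lam) * (S3_c : ℂ)⁻¹ := by
        intro z
        by_cases hz : χ z = 0
        · rw [hz]
          ring
        · have hz1 : z ∈ tsupport χ := subset_tsupport _ hz
          rw [hbe z (hsupp hz1) ε hε0 ?_]
          · ring
          · refine Set.Subset.trans ?_ hδU
            exact (Metric.closedBall_subset_closedBall hε1).trans
              (Metric.closedBall_subset_cthickening hz1 δ)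
      have e2 : ∫ z, χ z * b z =
          ∫ o, ((∫ z, χ z * (S3_E ε (z - ξ o) : ℂ)) * (S3_c : ℂ)⁻¹) * w o ∂lam := by
        simp only [e1]
        rw [integral_mul_const, S3_fub lam ξ w hξ hw C hwb hε0 hχ hcs, ← integral_mul_const]
        refine integral_congr_ae (Filter.Eventually.of_forall fun o => ?_)
        simp only
        ring
      have hmol : ∀ x : ℂ, ‖(∫ z, χ z * (S3_E ε (z - x) : ℂ)) * (S3_c : ℂ)⁻¹ - χ x‖ ≤ κ := by
        intro x
        have h1 := S3_mol hε0 hχ hκ' x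
        have h2 : (∫ z, χ z * (S3_E ε (z - x) : ℂ)) * (S3_c : ℂ)⁻¹ - χ x =
            ((∫ z, χ z * (S3_E ε (z - x) : ℂ)) - χ x * S3_c) * (S3_c : ℂ)⁻¹ := by
          rw [sub_mul, mul_assoc (χ x), mul_inv_cancel₀ hc', mul_one]
        rw [h2, norm_mul, norm_inv, Complex.norm_real, Real.norm_eq_abs, abs_of_pos hc,
          ← div_eq_mul_inv, div_le_iff₀ hc]
        exact h1
      have i1 : Integrable (fun o => χ (ξ o) * w o) lam :=
        S3_integ lam ξ w hξ hw C hwb hχ B0 hB0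
      have m1 : Measurable (fun x : ℂ => ∫ z, χ z * (S3_E ε (z - x) : ℂ)) := by
        have h1 : StronglyMeasurable (Function.uncurry fun (x z : ℂ) =>
            χ z * (S3_E ε (z - x) : ℂ)) := by
          refine Continuous.stronglyMeasurable ?_
          have h2 := (S3_Ec_smooth ε).continuous
          exact (hχ.comp continuous_snd).mul (h2.comp (continuous_snd.sub continuous_fst))
        exact h1.integral_prod_right.measurable
      have i2 : Integrable (fun o =>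
          ((∫ z, χ z * (S3_E ε (z - ξ o) : ℂ)) * (S3_c : ℂ)⁻¹) * w o) lam := by
        refine Integrable.of_bound ((((m1.comp hξ)).mul_const _).mul hw).aestronglyMeasurable
          ((κ + B0) * C) ?_
        refine Filter.Eventually.of_forall fun o => ?_
        rw [norm_mul]
        refine mul_le_mul ?_ (hwb o) (norm_nonneg _) ?_
        · have h1 := hmol (ξ o)
          have h2 := hB0 (ξ o)
          have h3 := norm_sub_norm_le ((∫ z, χ z * (S3_E ε (z - ξ o) : ℂ)) * (S3_c : ℂ)⁻¹)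
            (χ (ξ o))
          show ‖(∫ z, χ z * (S3_E ε (z - ξ o) : ℂ)) * (S3_c : ℂ)⁻¹‖ ≤ κ + B0
          linarith
        · have h2 := (norm_nonneg _).trans (hB0 (ξ o))
          linarith
      rw [e2, ← integral_sub i2 i1]
      refine (norm_integral_le_of_norm_le (integrable_const (κ * |C|))
        (Filter.Eventually.of_forall fun o => ?_)).trans_eq ?_
      · rw [← sub_mul, norm_mul]
        exact mul_le_mul (hmol _) ((hwb o).trans (le_abs_self C)) (norm_nonneg _) hκ.le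
      · rw [integral_const, smul_eq_mul]
        ring
    have h0 : ‖(∫ z, χ z * b z) - ∫ o, χ (ξ o) * w o ∂lam‖ ≤ 0 := by
      by_contra hcon
      rw [not_le] at hcon
      obtain ⟨N, hN⟩ : ∃ N, N = ‖(∫ z, χ z * b z) - ∫ o, χ (ξ o) * w o ∂lam‖ := ⟨_, rfl⟩
      obtain ⟨D, hD⟩ : ∃ D, D = |C| * lam.real Set.univ := ⟨_, rfl⟩
      have hD0 : 0 ≤ D := by rw [hD]; positivity
      rw [← hN] at hcon
      have h1 := key (N / (2 * (D + 1))) (by positivity)
      rw [← hN, ← hD, div_mul_eq_mul_div, le_div_iff₀ (by positivity)] at h1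
      nlinarith
    have h1 := norm_le_zero_iff.1 h0
    exact (sub_eq_zero.1 h1).symm

end finite

theorem S3_dbar_zero {χ : ℂ → ℂ} {x : ℂ} (hx : x ∉ tsupport χ) : dbar χ x = 0 := by
  unfold dbar
  rw [fderiv_of_notMem_tsupport ℝ hx]
  simp

theorem S3_weyl' {Ω : Type*} [MeasurableSpace Ω] (lam : Measure Ω) (ξ w : Ω → ℂ)
    (hξ : Measurable ξ) (hw : Measurable w)
    (C : ℝ) (hwb : ∀ o, ‖w o‖ ≤ C) (U : Set ℂ) (hU : IsOpen U) (hfin : lam (ξ ⁻¹' U) < ⊤)
    (h : ∀ χ : ℂ → ℂ, ContDiff ℝ ∞ χ → HasCompactSupport χ → tsupport χ ⊆ U →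
      ∫ o, dbar χ (ξ o) * w o ∂lam = 0) :
    ∃ b : ℂ → ℂ, DifferentiableOn ℂ b U ∧
      (∀ χ : ℂ → ℂ, Continuous χ → HasCompactSupport χ → tsupport χ ⊆ U →
        ∫ o, χ (ξ o) * w o ∂lam = ∫ z, χ z * b z) ∧
      ∀ z, ∃ ε : ℝ, b z = (∫ o, (S3_E ε (z - ξ o) : ℂ) * w o ∂(lam.restrict (ξ ⁻¹' U))) / S3_c := by
  have _ : IsFiniteMeasure (lam.restrict (ξ ⁻¹' U)) :=
    ⟨by rw [Measure.restrict_apply_univ]; exact hfin⟩
  obtain ⟨b, h1, h2, h3⟩ := S3_weyl (lam.restrict (ξ ⁻¹' U)) ξ w hξ hw C hwb U (by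
    intro χ hχ hcs hs
    rw [setIntegral_eq_integral_of_forall_compl_eq_zero]
    · exact h χ hχ hcs hs
    · intro o ho
      rw [S3_dbar_zero (fun hx => ho (hs hx)), zero_mul]) hU
  refine ⟨b, h1, ?_, h3⟩
  intro χ hχ hcs hs
  rw [← h2 χ hχ hcs hs]
  symm
  apply setIntegral_eq_integral_of_forall_compl_eq_zero
  intro o ho
  rw [image_eq_zero_of_notMem_tsupport (fun hx => ho (hs hx)), zero_mul]

theorem weyl {Ω : Type*} [MeasurableSpace Ω] (lam : Measure Ω) (ξ w : Ω → ℂ) (hξ : Measurable ξ) (hw : Measurable w)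
    (C : ℝ) (hwb : ∀ o, ‖w o‖ ≤ C) (U : Set ℂ) (hU : IsOpen U) (hfin : lam (ξ ⁻¹' U) < ⊤)
    (h : ∀ χ : ℂ → ℂ, ContDiff ℝ ∞ χ → HasCompactSupport χ → tsupport χ ⊆ U → ∫ o, dbar χ (ξ o) * w o ∂lam = 0) :
    ∃ b : ℂ → ℂ, DifferentiableOn ℂ b U ∧
      ∀ χ : ℂ → ℂ, Continuous χ → HasCompactSupport χ → tsupport χ ⊆ U → ∫ o, χ (ξ o) * w o ∂lam = ∫ z, χ z * b z := by
  obtain ⟨b, h1, h2, -⟩ := S3_weyl' lam ξ w hξ hw C hwb U hU hfin h
  exact ⟨b, h1, h2⟩

theorem S3_pdisc (R : ℝ) (hR : 0 < R) : pdisc R = Complex.exp '' {s : ℂ | s.re < Real.log R} := by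
  ext z
  constructor
  · rintro ⟨h1, h2⟩
    refine ⟨Complex.log z, ?_, Complex.exp_log (norm_pos_iff.1 h1)⟩
    show (Complex.log z).re < Real.log R
    rw [Complex.log_re]
    exact Real.log_lt_log h1 h2
  · rintro ⟨s, hs, rfl⟩
    have hs' : s.re < Real.log R := hs
    constructor
    · exact norm_pos_iff.2 (Complex.exp_ne_zero s)
    · rw [Complex.norm_exp]
      exact (Real.lt_log_iff_exp_lt hR).1 hs'

theorem S3_pdisc_open (R : ℝ) : IsOpen (pdisc R) :=
  (isOpen_lt continuous_const continuous_norm).inter (isOpen_lt continuous_norm continuous_const)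

theorem S3_pdisc_conn (R : ℝ) (hR : 0 < R) : IsPreconnected (pdisc R) := by
  rw [S3_pdisc R hR]
  have hc : Convex ℝ {s : ℂ | s.re < Real.log R} := convex_halfSpace_re_lt _
  exact hc.isPreconnected.image _ Complex.continuous_exp.continuousOn

theorem weyl_real {Ω : Type*} [MeasurableSpace Ω] (lam : Measure Ω) (ξ : Ω → ℂ) (hξ : Measurable ξ)
    (R : ℝ) (hR : 0 < R) (hfin : lam (ξ ⁻¹' (pdisc R)) < ⊤)
    (h : ∀ χ : ℂ → ℂ, ContDiff ℝ ∞ χ → HasCompactSupport χ → tsupport χ ⊆ pdisc R → ∫ o, dbar χ (ξ o) ∂lam = 0) :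
    ∃ k : ℝ, 0 ≤ k ∧
      ∀ χ : ℂ → ℂ, Continuous χ → HasCompactSupport χ → tsupport χ ⊆ pdisc R →
        ∫ o, χ (ξ o) ∂lam = (k : ℂ) * ∫ z, χ z := by
  obtain ⟨b, h1, h2, h3⟩ := S3_weyl' lam ξ (fun _ => 1) hξ measurable_const 1
    (fun _ => by simp) (pdisc R) (S3_pdisc_open R) hfin (by
      intro χ hχ hcs hs
      simp only [mul_one]
      exact h χ hχ hcs hs)
  have hpos : ∀ z, ∃ k : ℝ, 0 ≤ k ∧ b z = (k : ℂ) := by
    intro z
    obtain ⟨ε, hε⟩ := h3 z
    refine ⟨(∫ o, S3_E ε (z - ξ o) ∂(lam.restrict (ξ ⁻¹' pdisc R))) / S3_c,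
      div_nonneg (integral_nonneg fun o => S3_E_nonneg _ _) S3_c_pos.le, ?_⟩
    rw [hε]
    simp only [mul_one]
    rw [integral_complex_ofReal]
    push_cast
    rfl
  have ha : AnalyticOnNhd ℂ b (pdisc R) := h1.analyticOnNhd (S3_pdisc_open R)
  have hconst : ∃ k : ℂ, ∀ z ∈ pdisc R, b z = k := by
    rcases ha.is_constant_or_isOpen (S3_pdisc_conn R hR) with h4 | h4
    · exact h4
    · exfalso
      have hz : ((R / 2 : ℝ) : ℂ) ∈ pdisc R := by
        constructor
        · rw [Complex.norm_real, Real.norm_eq_abs, abs_of_pos (by positivity)]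
          positivity
        · rw [Complex.norm_real, Real.norm_eq_abs, abs_of_pos (by positivity)]
          linarith
      have h5 := h4 (pdisc R) le_rfl (S3_pdisc_open R)
      obtain ⟨r, hr, hr'⟩ := Metric.isOpen_iff.1 h5 _ ⟨_, hz, rfl⟩
      have h6 : b ((R / 2 : ℝ) : ℂ) + ((r / 2 : ℝ) : ℂ) * Complex.I ∈
          Metric.ball (b ((R / 2 : ℝ) : ℂ)) r := by
        rw [Metric.mem_ball, dist_eq_norm, add_sub_cancel_left, norm_mul, Complex.norm_I, mul_one,
          Complex.norm_real, Real.norm_eq_abs, abs_of_pos (by positivity)]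
        linarith
      obtain ⟨x, -, hx⟩ := hr' h6
      obtain ⟨k1, -, hk1⟩ := hpos x
      obtain ⟨k2, -, hk2⟩ := hpos ((R / 2 : ℝ) : ℂ)
      rw [hk1, hk2] at hx
      have h7 := congrArg Complex.im hx
      simp at h7
      linarith
  obtain ⟨k0, hk0⟩ := hconst
  obtain ⟨z0, hz0⟩ : ∃ z0, z0 ∈ pdisc R := by
    refine ⟨((R / 2 : ℝ) : ℂ), ?_⟩
    constructor
    · rw [Complex.norm_real, Real.norm_eq_abs, abs_of_pos (by positivity)]
      positivity
    · rw [Complex.norm_real, Real.norm_eq_abs, abs_of_pos (by positivity)]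
      linarith
  obtain ⟨k, hk, hk'⟩ := hpos z0
  refine ⟨k, hk, ?_⟩
  intro χ hχ hcs hs
  have h4 := h2 χ hχ hcs hs
  simp only [mul_one] at h4
  rw [h4, ← integral_const_mul]
  refine integral_congr_ae (Filter.Eventually.of_forall fun z => ?_)
  by_cases hz : χ z = 0
  · simp only [hz]
    ring
  · have h5 : z ∈ pdisc R := hs (subset_tsupport _ hz)
    simp only [hk0 z h5]
    rw [← hk0 z0 hz0, hk', mul_comm]

end FC76
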