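import Pool.Agent.H76.FL.S3

/-!
# Row S4: moments over the x-disc

Data D, R with 0 < R <= K/2 and AnnZero M R K.  A := ev (X 0 ^ m * a) = x^m a.
1. `sn_moment`: for χ smooth, complex valued, compactly supported in pdisc R and F a polynomial: ∫_{Pset R K} dbar χ(x) F(p) ‖A(p)‖^2 dM = 0.
   Proof: g(p) := χ(x) A(p) F(p) κ(‖y‖) with κ smooth, 1 for t <= 5K/8... choose κ = 1 on (-oo, 11K/20], 0 on [7K/10, oo) (smooth in y because constant near y = 0).  g is smooth with compact support in the ball ρ, contained in {x ≠ 0}, on which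
   nsq Z >= ‖A‖^2 >= c > 0, so M(tsupport g) < oo by `fin`; `inv_ext` (second part): ∫ dWb g(Z) dM = 0.  dWb g(Z) = A F κ dbar χ(x) conj(A) + χ A F dWb(κ)(Z) (`dWb_fst`, `dW_holo`; first component of Z is A), and the last term is nonzero only
   for 11K/20 <= ‖y‖ <= 7K/10, where M = 0 (AnnZero, K/2 <= 11K/20, 7K/10 <= 3K/4); on Pset minus the annulus κ = 1 and outside Pset but ‖y‖ >= 3K/4: κ = 0.
2. `sn_mean`: EITHER M (Pset R K) = 0, OR there are k > 0 and b holomorphic on pdisc R, ‖b‖ <= K there, with for all continuous χ : ℂ → ℂ compactly supported in pdisc R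
     (i) ∫_{Pset} χ(x) ‖A‖^2 dM = k ∫ χ,     (ii) ∫_{Pset} χ(x) (y - b(x)) ‖A‖^2 dM = 0.
   Proof: λ := (M.restrict (Pset R K)).withDensity ‖A‖^2, finite (‖A‖^2 <= nsq Z).  ξ = fst.  `weyl_real` (F = 1) gives k; `weyl` with w = y (bounded by K on Pset; truncate w outside) and F = X 1 gives b1 with ∫ χ y dλ = ∫ χ b1.
   If k = 0 then ∫ χ(x) dλ = 0 for all χ >= 0, so λ = 0, and ‖A‖^2 > 0 on Pset (x ≠ 0, a ≠ 0), so M(Pset) = 0.  If k > 0, b := b1/k; |∫ χ b| k = |∫ χ y dλ| <= K ∫ |χ| dλ = K k ∫|χ| for all χ, so ‖b‖ <= K (continuity of b).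
   (ii): ∫ χ y dλ = k ∫ χ b = ∫ (χ b)(x) dλ by (i) applied to the continuous function χ b.
-/

open MvPolynomial MeasureTheory
open scoped ContDiff ComplexConjugate

namespace FC76

private theorem S4_meas_Pset (R K : ℝ) : MeasurableSet (Pset R K) := by
  have h1 : Measurable (fun p : ℂ × ℂ => ‖p.1‖) := by fun_prop
  have h2 : Measurable (fun p : ℂ × ℂ => ‖p.2‖) := by fun_prop
  exact (measurableSet_lt measurable_const h1).inter
    ((measurableSet_lt h1 measurable_const).inter (measurableSet_lt h2 measurable_const))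

private theorem S4_dbar {χ : ℂ → ℂ} {x : ℂ} (h : x ∉ tsupport χ) : dbar χ x = 0 := by
  have h1 : fderiv ℝ χ x = 0 := by
    by_contra hne
    exact h (support_fderiv_subset ℝ (Function.mem_support.2 hne))
  unfold dbar
  rw [h1]
  simp

private theorem S4_dWb_const {g : ℂ × ℂ → ℂ} {p : ℂ × ℂ} (c : ℂ) (h : g =ᶠ[nhds p] fun _ => c)
    (v : ℂ × ℂ) : dWb g p v = 0 := by
  unfold dWb
  rw [h.fderiv_eq]
  simp

private theorem S4_a_ne {m : ℕ} {a B h : P2} {ρ : ℝ} {M : Measure (ℂ × ℂ)} {K Cb : ℝ}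
    (D : SNData m a B h ρ M K Cb) {p : ℂ × ℂ} (hp : ‖p‖ ≤ K) (h1 : p.1 ≠ 0) :
    ev (X 0 ^ m * a) p ≠ 0 := by
  rw [ev_mul, ev_pow, ev_X0]
  refine mul_ne_zero (pow_ne_zero _ h1) fun h0 => ?_
  have h2 := D.ha' p hp
  rw [h0, zero_sub, norm_neg] at h2
  have h3 : 0 < ‖ev a 0‖ := norm_pos_iff.2 D.ha
  linarith

theorem sn_moment {m : ℕ} {a B h : P2} {ρ : ℝ} {M : Measure (ℂ × ℂ)} {K Cb : ℝ} (D : SNData m a B h ρ M K Cb)
    (R : ℝ) (hR : 0 < R) (hRK : R ≤ K / 2) (hann : AnnZero M R K) (F : P2)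
    (χ : ℂ → ℂ) (hχ : ContDiff ℝ ∞ χ) (hc : HasCompactSupport χ) (hs : tsupport χ ⊆ pdisc R) :
    ∫ p in Pset R K, dbar χ p.1 * (ev F p * ((‖ev (X 0 ^ m * a) p‖ ^ 2 : ℝ) : ℂ)) ∂M = 0 := by
  have hK := D.hK
  obtain ⟨κ, hκi, hκo⟩ : ∃ κ : ContDiffBump (0 : ℂ), κ.rIn = 11 * K / 20 ∧ κ.rOut = 7 * K / 10 :=
    ⟨⟨11 * K / 20, 7 * K / 10, by linarith, by linarith⟩, rfl, rfl⟩
  obtain ⟨A, hA⟩ : ∃ A : P2, A = X 0 ^ m * a := ⟨_, rfl⟩
  obtain ⟨k, hk⟩ : ∃ k : ℂ → ℂ, k = fun y => ((κ y : ℝ) : ℂ) := ⟨_, rfl⟩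
  have hks : ContDiff ℝ ∞ k := by
    rw [hk]
    exact Complex.ofRealCLM.contDiff.comp κ.contDiff
  obtain ⟨g, hg⟩ : ∃ g : ℂ × ℂ → ℂ, g = fun p => χ p.1 * (ev (A * F) p * k p.2) := ⟨_, rfl⟩
  have hχ1 : ContDiff ℝ ∞ (fun p : ℂ × ℂ => χ p.1) := hχ.comp contDiff_fst
  have hk1 : ContDiff ℝ ∞ (fun p : ℂ × ℂ => k p.2) := hks.comp contDiff_snd
  have hev : ContDiff ℝ ∞ (fun p : ℂ × ℂ => ev (A * F) p * k p.2) :=
    (contDiff_real_ev (A * F)).mul hk1
  have hgs : ContDiff ℝ ∞ g := by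
    rw [hg]
    exact hχ1.mul hev
  obtain ⟨T, hT⟩ : ∃ T : Set (ℂ × ℂ), T = tsupport χ ×ˢ Metric.closedBall (0 : ℂ) (7 * K / 10) :=
    ⟨_, rfl⟩
  have hTc : IsCompact T := by
    rw [hT]
    exact IsCompact.prod hc (isCompact_closedBall _ _)
  have hTg : tsupport g ⊆ T := by
    refine closure_minimal ?_ hTc.isClosed
    intro p hp
    rw [Function.mem_support, hg] at hp
    rw [hT]
    refine ⟨?_, ?_⟩
    · apply subset_tsupport
      intro h0
      exact hp (by simp only [h0, zero_mul])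
    · by_contra hcon
      rw [Metric.mem_closedBall, not_le] at hcon
      have h0 : k p.2 = 0 := by
        rw [hk]
        show ((κ p.2 : ℝ) : ℂ) = 0
        rw [κ.zero_of_le_dist (by rw [hκo]; exact hcon.le), Complex.ofReal_zero]
      exact hp (by simp only [h0, mul_zero])
  have hTp : ∀ p ∈ T, p.1 ∈ pdisc R ∧ ‖p.2‖ ≤ 7 * K / 10 := by
    intro p hp
    rw [hT] at hp
    refine ⟨hs hp.1, ?_⟩
    have := hp.2
    rwa [mem_closedBall_zero_iff] at this
  have hTK : ∀ p ∈ T, ‖p‖ ≤ K := by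
    intro p hp
    obtain ⟨h1, h2⟩ := hTp p hp
    rw [Prod.norm_def]
    exact max_le (by linarith [h1.2]) (by linarith)
  have hAc : Continuous (fun p => ‖ev A p‖ ^ 2) := (contDiff_real_ev A).continuous.norm.pow 2
  have hMT : M T < ⊤ := by
    rcases T.eq_empty_or_nonempty with he | hne
    · rw [he, measure_empty]
      exact ENNReal.zero_lt_top
    · obtain ⟨p0, hp0, hmin⟩ := hTc.exists_isMinOn hne hAc.continuousOn
      have hc0 : 0 < ‖ev A p0‖ ^ 2 := by
        have h1 : ev A p0 ≠ 0 := by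
          rw [hA]
          exact S4_a_ne D (hTK p0 hp0) (norm_pos_iff.1 (hTp p0 hp0).1.1)
        exact pow_pos (norm_pos_iff.2 h1) 2
      have hsub : T ⊆ {p | ENNReal.ofReal (‖ev A p0‖ ^ 2) ≤ ENNReal.ofReal (nsq (vf A B p))} := by
        intro p hp
        apply ENNReal.ofReal_le_ofReal
        have h1 : ‖ev A p0‖ ^ 2 ≤ ‖ev A p‖ ^ 2 := hmin hp
        have h2 : nsq (vf A B p) = ‖ev A p‖ ^ 2 + ‖ev B p‖ ^ 2 := rfl
        rw [h2]
        nlinarith [sq_nonneg ‖ev B p‖]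
      have hmeas : Measurable (fun p => ENNReal.ofReal (nsq (vf A B p))) := by
        apply Measurable.ennreal_ofReal
        apply Continuous.measurable
        have h1 := LF_cont_vf A B
        unfold nsq
        exact (h1.fst.norm.pow 2).add (h1.snd.norm.pow 2)
      refine (measure_mono hsub).trans_lt ((meas_ge_le_lintegral_div hmeas.aemeasurable
        (ENNReal.ofReal_pos.2 hc0).ne' ENNReal.ofReal_ne_top).trans_lt ?_)
      have hfin := D.inv.fin
      rw [← hA] at hfin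
      exact ENNReal.div_lt_top hfin.ne (ENNReal.ofReal_pos.2 hc0).ne'
  have h0T : (0 : ℂ × ℂ) ∉ T := fun h0 => by
    have := (hTp 0 h0).1.1
    simp at this
  have hinv := D.inv.toInv0
  rw [← hA] at hinv
  have key := (inv_ext hinv g hgs (hTc.of_isClosed_subset (isClosed_tsupport g) hTg)
    (hTg.trans fun p hp => by
      rw [mem_ball_zero_iff]
      exact (hTK p hp).trans_lt D.hKρ) (Or.inr fun h0 => h0T (hTg h0))
    ((measure_mono hTg).trans_lt hMT)).2
  rw [← integral_indicator (S4_meas_Pset R K), ← key]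
  refine integral_congr_ae ?_
  have hae : ∀ᵐ p ∂M, p ∉ {p : ℂ × ℂ | 0 < ‖p.1‖ ∧ ‖p.1‖ < R ∧ K / 2 ≤ ‖p.2‖ ∧
      ‖p.2‖ ≤ 3 * K / 4} := by
    have h1 := hann
    unfold AnnZero at h1
    rw [← compl_mem_ae_iff] at h1
    exact h1
  filter_upwards [hae] with p hp
  -- the derivative of `g`
  have hder : dWb g p (vf A B p) = χ p.1 * (ev (A * F) p * dWb (fun q => k q.2) p (vf A B p)) +
      ev (A * F) p * k p.2 * (dbar χ p.1 * conj (ev A p)) := by
    have d1 : DifferentiableAt ℝ (fun q : ℂ × ℂ => χ q.1) p := hχ1.differentiable (by simp) p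
    have d2 : DifferentiableAt ℝ (fun q : ℂ × ℂ => ev (A * F) q * k q.2) p :=
      hev.differentiable (by simp) p
    have d3 : DifferentiableAt ℝ (ev (A * F)) p :=
      (contDiff_real_ev (A * F)).differentiable (by simp) p
    have d4 : DifferentiableAt ℝ (fun q : ℂ × ℂ => k q.2) p := hk1.differentiable (by simp) p
    have d5 : DifferentiableAt ℝ χ p.1 := hχ.differentiable (by simp) p.1
    rw [hg, dWb_mul d1 d2, dWb_mul d3 d4, (dW_holo (analyticAt_ev (A * F) p).differentiableAt _).2,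
      dWb_fst d5]
    show _ = χ p.1 * (ev (A * F) p * dWb (fun q => k q.2) p (vf A B p)) +
      ev (A * F) p * k p.2 * (dbar χ p.1 * conj (ev A p))
    have e1 : (vf A B p).1 = ev A p := rfl
    rw [e1]
    ring
  rw [hder]
  by_cases hx : p.1 ∈ tsupport χ
  · have hpx := hs hx
    have hkval : ∀ y : ℂ, ‖y‖ ≤ 11 * K / 20 → k y = 1 := fun y hy => by
      rw [hk]
      show ((κ y : ℝ) : ℂ) = 1
      rw [κ.one_of_mem_closedBall (by rw [hκi, mem_closedBall_zero_iff]; exact hy),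
        Complex.ofReal_one]
    have hkval0 : ∀ y : ℂ, 7 * K / 10 ≤ ‖y‖ → k y = 0 := fun y hy => by
      rw [hk]
      show ((κ y : ℝ) : ℂ) = 0
      rw [κ.zero_of_le_dist (by rw [hκo, dist_zero_right]; exact hy), Complex.ofReal_zero]
    rcases lt_or_ge ‖p.2‖ (K / 2) with hy | hy
    · have hev1 : (fun q : ℂ × ℂ => k q.2) =ᶠ[nhds p] fun _ => 1 := by
        have h1 : ∀ᶠ q : ℂ × ℂ in nhds p, ‖q.2‖ < 11 * K / 20 :=
          (continuous_snd.norm.continuousAt (x := p)).eventually_lt continuousAt_const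
            (by linarith)
        filter_upwards [h1] with q hq
        exact hkval q.2 hq.le
      rw [S4_dWb_const 1 hev1, hkval p.2 (by linarith), Set.indicator_of_mem
        (show p ∈ Pset R K from ⟨hpx.1, hpx.2, by linarith⟩), mul_zero, mul_zero, zero_add,
        mul_one, ← hA, ev_mul A F]
      have e2 : ((‖ev A p‖ ^ 2 : ℝ) : ℂ) = ev A p * conj (ev A p) := by
        rw [Complex.mul_conj, Complex.normSq_eq_norm_sq]
      rw [e2]
      ring
    · have hy2 : 3 * K / 4 < ‖p.2‖ := by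
        by_contra hcon
        rw [not_lt] at hcon
        exact hp ⟨hpx.1, hpx.2, hy, hcon⟩
      have hev1 : (fun q : ℂ × ℂ => k q.2) =ᶠ[nhds p] fun _ => 0 := by
        have h1 : ∀ᶠ q : ℂ × ℂ in nhds p, 7 * K / 10 < ‖q.2‖ :=
          continuousAt_const.eventually_lt (continuous_snd.norm.continuousAt (x := p))
            (by linarith)
        filter_upwards [h1] with q hq
        exact hkval0 q.2 hq.le
      rw [S4_dWb_const 0 hev1, hkval0 p.2 (by linarith), Set.indicator_of_notMem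
        (fun hpP : p ∈ Pset R K => absurd hpP.2.2 (by linarith))]
      ring
  · have hz : χ p.1 = 0 := image_eq_zero_of_notMem_tsupport hx
    rw [S4_dbar hx, hz]
    have h1 : (Pset R K).indicator (fun p => dbar χ p.1 *
        (ev F p * ((‖ev (X 0 ^ m * a) p‖ ^ 2 : ℝ) : ℂ))) p = 0 := by
      by_cases hpP : p ∈ Pset R K
      · rw [Set.indicator_of_mem hpP, S4_dbar hx, zero_mul]
      · exact Set.indicator_of_notMem hpP _
    rw [h1]
    ring

private theorem S4_cont {U : Set ℂ} (hU : IsOpen U) {F : Type*} [NormedRing F] {f b : ℂ → F}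
    (hf : Continuous f) (hs : tsupport f ⊆ U) (hb : ContinuousOn b U) :
    Continuous (fun z => f z * b z) := by
  rw [continuous_iff_continuousAt]
  intro z
  by_cases hz : z ∈ tsupport f
  · exact hf.continuousAt.mul (hb.continuousAt (hU.mem_nhds (hs hz)))
  · have h1 : (fun z => f z * b z) =ᶠ[nhds z] fun _ => 0 := by
      have h2 := (isClosed_tsupport f).isOpen_compl.mem_nhds hz
      filter_upwards [h2] with y hy
      rw [image_eq_zero_of_notMem_tsupport hy, zero_mul]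
    exact continuousAt_const.congr h1.symm

private theorem S4_open (R : ℝ) : IsOpen (pdisc R) := by
  have h1 : Continuous (fun t : ℂ => ‖t‖) := continuous_norm
  exact (isOpen_lt continuous_const h1).inter (isOpen_lt h1 continuous_const)

noncomputable def S4_lam (A : P2) (M : Measure (ℂ × ℂ)) (R K : ℝ) : Measure (ℂ × ℂ) :=
  (M.restrict (Pset R K)).withDensity (fun p => ((‖ev A p‖₊ ^ 2 : NNReal) : ENNReal))

private theorem S4_dens_meas (A : P2) : Measurable (fun p : ℂ × ℂ => (‖ev A p‖₊ ^ 2 : NNReal)) :=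
  ((contDiff_real_ev A).continuous.nnnorm.pow 2).measurable

private theorem S4_int (A : P2) (M : Measure (ℂ × ℂ)) (R K : ℝ) (G : ℂ × ℂ → ℂ) :
    ∫ p, G p ∂(S4_lam A M R K) = ∫ p in Pset R K, G p * ((‖ev A p‖ ^ 2 : ℝ) : ℂ) ∂M := by
  unfold S4_lam
  rw [integral_withDensity_eq_integral_smul (S4_dens_meas A)]
  refine integral_congr_ae (Filter.Eventually.of_forall fun p => ?_)
  show (‖ev A p‖₊ ^ 2 : NNReal) • G p = G p * ((‖ev A p‖ ^ 2 : ℝ) : ℂ)
  rw [NNReal.smul_def, Complex.real_smul, mul_comm]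
  rfl

private theorem S4_fin (A B : P2) (M : Measure (ℂ × ℂ)) (R K : ℝ)
    (hfin : ∫⁻ p, ENNReal.ofReal (nsq (vf A B p)) ∂M < ⊤) : S4_lam A M R K Set.univ < ⊤ := by
  unfold S4_lam
  rw [withDensity_apply _ MeasurableSet.univ, Measure.restrict_univ]
  refine lt_of_le_of_lt ((setLIntegral_le_lintegral _ _).trans (lintegral_mono fun p => ?_)) hfin
  have h1 : ((‖ev A p‖₊ ^ 2 : NNReal) : ENNReal) = ENNReal.ofReal (‖ev A p‖ ^ 2) := by
    rw [ENNReal.ofReal]
    congr 1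
    ext
    rw [Real.coe_toNNReal _ (by positivity)]
    rfl
  show ((‖ev A p‖₊ ^ 2 : NNReal) : ENNReal) ≤ ENNReal.ofReal (nsq (vf A B p))
  rw [h1]
  apply ENNReal.ofReal_le_ofReal
  have h2 : nsq (vf A B p) = ‖ev A p‖ ^ 2 + ‖ev B p‖ ^ 2 := rfl
  rw [h2]
  nlinarith [sq_nonneg ‖ev B p‖]

private theorem S4_null (A : P2) (M : Measure (ℂ × ℂ)) (R K : ℝ)
    (h0 : S4_lam A M R K (Pset R K) = 0) (hA : ∀ p ∈ Pset R K, ev A p ≠ 0) :
    M (Pset R K) = 0 := by
  unfold S4_lam at h0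
  rw [withDensity_apply_eq_zero' (S4_dens_meas A).coe_nnreal_ennreal.aemeasurable] at h0
  have h1 : ({x | ((‖ev A x‖₊ ^ 2 : NNReal) : ENNReal) ≠ 0} ∩ Pset R K) = Pset R K := by
    apply Set.inter_eq_right.2
    intro p hp
    show ((‖ev A p‖₊ ^ 2 : NNReal) : ENNReal) ≠ 0
    rw [ENNReal.coe_ne_zero]
    exact pow_ne_zero _ (nnnorm_ne_zero_iff.2 (hA p hp))
  rw [h1, Measure.restrict_apply (S4_meas_Pset R K), Set.inter_self] at h0
  exact h0

private theorem S4_zero (lam : Measure (ℂ × ℂ)) [IsFiniteMeasure lam] (R K : ℝ)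
    (h : ∀ χ : ℂ → ℂ, Continuous χ → HasCompactSupport χ → tsupport χ ⊆ pdisc R →
      ∫ p, χ p.1 ∂lam = 0) : lam (Pset R K) = 0 := by
  obtain ⟨f, hf⟩ : ∃ f : ℕ → ℂ → ℝ, f = fun (n : ℕ) (x : ℂ) =>
      max 0 (min (‖x‖ - 1 / ((n : ℝ) + 1)) (R - 1 / ((n : ℝ) + 1) - ‖x‖)) := ⟨_, rfl⟩
  have hfc : ∀ n, Continuous (f n) := fun n => by
    rw [hf]
    show Continuous fun x : ℂ => max (0 : ℝ)
      (min (‖x‖ - 1 / ((n : ℝ) + 1)) (R - 1 / ((n : ℝ) + 1) - ‖x‖))
    fun_prop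
  have hf0 : ∀ n x, 0 ≤ f n x := fun n x => by
    rw [hf]
    exact le_max_left _ _
  have hfR : ∀ n x, f n x ≤ |R| := fun n x => by
    rw [hf]
    show max (0 : ℝ) (min (‖x‖ - 1 / ((n : ℝ) + 1)) (R - 1 / ((n : ℝ) + 1) - ‖x‖)) ≤ |R|
    have h1 : (0 : ℝ) < 1 / ((n : ℝ) + 1) := by positivity
    refine max_le (abs_nonneg _) ((min_le_right _ _).trans ?_)
    have := le_abs_self R
    have := norm_nonneg x
    linarith
  have hfs : ∀ n, tsupport (fun z => ((f n z : ℝ) : ℂ)) ⊆ {x : ℂ | 1 / ((n : ℝ) + 1) ≤ ‖x‖ ∧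
      ‖x‖ ≤ R - 1 / ((n : ℝ) + 1)} := fun n => by
    refine closure_minimal ?_ ((isClosed_le continuous_const continuous_norm).inter
      (isClosed_le continuous_norm continuous_const))
    intro x hx
    rw [Function.mem_support] at hx
    have h1 : f n x ≠ 0 := fun h0 => hx (by simp only [h0, Complex.ofReal_zero])
    rw [hf] at h1
    have h2 : 0 < min (‖x‖ - 1 / ((n : ℝ) + 1)) (R - 1 / ((n : ℝ) + 1) - ‖x‖) := by
      by_contra hcon
      rw [not_lt] at hcon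
      exact h1 (max_eq_left hcon)
    have h3 := lt_min_iff.1 h2
    exact ⟨by linarith [h3.1], by linarith [h3.2]⟩
  have hz : ∀ n, lam {p : ℂ × ℂ | f n p.1 ≠ 0} = 0 := fun n => by
    have hcs : HasCompactSupport (fun z => ((f n z : ℝ) : ℂ)) := by
      refine HasCompactSupport.of_support_subset_isCompact (isCompact_closedBall (0 : ℂ) |R|) ?_
      intro x hx
      have h1 := (hfs n (subset_tsupport _ hx)).2
      rw [mem_closedBall_zero_iff]
      have h2 : (0 : ℝ) < 1 / ((n : ℝ) + 1) := by positivity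
      have := le_abs_self R
      linarith
    have h1 := h (fun z => ((f n z : ℝ) : ℂ)) (Complex.continuous_ofReal.comp (hfc n)) hcs
      ((hfs n).trans fun x hx => by
        have h2 : (0 : ℝ) < 1 / ((n : ℝ) + 1) := by positivity
        exact ⟨h2.trans_le hx.1, by linarith [hx.2]⟩)
    have h2 : ∫ p : ℂ × ℂ, f n p.1 ∂lam = 0 := by
      have h3 : ((∫ p : ℂ × ℂ, f n p.1 ∂lam : ℝ) : ℂ) = 0 := by
        rw [← h1, ← integral_complex_ofReal]
      exact_mod_cast h3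
    have hfm : Continuous (fun p : ℂ × ℂ => f n p.1) := (hfc n).comp continuous_fst
    have hint : Integrable (fun p : ℂ × ℂ => f n p.1) lam := by
      refine Integrable.of_bound hfm.aestronglyMeasurable |R|
        (Filter.Eventually.of_forall fun p : ℂ × ℂ => ?_)
      rw [Real.norm_of_nonneg (hf0 n p.1)]
      exact hfR n p.1
    have h3 := (integral_eq_zero_iff_of_nonneg (fun p : ℂ × ℂ => hf0 n p.1) hint).1 h2
    have h4 : ∀ᵐ p ∂lam, f n p.1 = 0 := h3
    rw [ae_iff] at h4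
    exact h4
  refine measure_mono_null (t := ⋃ n, {p : ℂ × ℂ | f n p.1 ≠ 0}) ?_ (measure_iUnion_null hz)
  intro p hp
  obtain ⟨n, hn⟩ := exists_nat_one_div_lt (K := ℝ)
    (show (0 : ℝ) < min ‖p.1‖ (R - ‖p.1‖) from lt_min hp.1 (by linarith [hp.2.1]))
  refine Set.mem_iUnion.2 ⟨n, ?_⟩
  have h1 := lt_min_iff.1 hn
  show f n p.1 ≠ 0
  rw [hf]
  have h2 : 0 < min (‖p.1‖ - 1 / ((n : ℝ) + 1)) (R - 1 / ((n : ℝ) + 1) - ‖p.1‖) :=
    lt_min (by linarith [h1.1]) (by linarith [h1.2])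
  exact (lt_of_lt_of_le h2 (le_max_right _ _)).ne'

private theorem S4_bound (lam : Measure (ℂ × ℂ)) [IsFiniteMeasure lam] (R K k : ℝ) (hk : 0 < k)
    (hK : 0 < K) (w : ℂ × ℂ → ℂ) (hw : ∀ p, ‖w p‖ ≤ K) (b : ℂ → ℂ)
    (hb : ContinuousOn b (pdisc R))
    (h1 : ∀ χ : ℂ → ℂ, Continuous χ → HasCompactSupport χ → tsupport χ ⊆ pdisc R →
      ∫ p, χ p.1 ∂lam = (k : ℂ) * ∫ z, χ z)
    (h2 : ∀ χ : ℂ → ℂ, Continuous χ → HasCompactSupport χ → tsupport χ ⊆ pdisc R →
      ∫ p, χ p.1 * w p ∂lam = ∫ z, χ z * ((k : ℂ) * b z)) (x : ℂ) (hx : x ∈ pdisc R) :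
    ‖b x‖ ≤ K := by
  by_contra hcon
  rw [not_le] at hcon
  have hV : IsOpen (pdisc R ∩ (fun z => ‖b z‖) ⁻¹' (Set.Ioi K)) :=
    hb.norm.isOpen_inter_preimage (S4_open R) isOpen_Ioi
  obtain ⟨r, hr, hrV⟩ := Metric.isOpen_iff.1 hV x ⟨hx, hcon⟩
  obtain ⟨η, hηi, hηo⟩ : ∃ η : ContDiffBump x, η.rIn = r / 4 ∧ η.rOut = r / 2 :=
    ⟨⟨r / 4, r / 2, by linarith, by linarith⟩, rfl, rfl⟩
  have hηs : tsupport η ⊆ pdisc R ∩ (fun z => ‖b z‖) ⁻¹' (Set.Ioi K) := by
    rw [η.tsupport_eq, hηo]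
    exact (Metric.closedBall_subset_ball (by linarith)).trans hrV
  have hηc : Continuous (fun z => η z) := η.continuous
  have hηcs : HasCompactSupport (fun z => η z) := η.hasCompactSupport
  obtain ⟨χ, hχ⟩ : ∃ χ : ℂ → ℂ, χ = fun z => ((η z : ℝ) : ℂ) * conj (b z) := ⟨_, rfl⟩
  have hes : tsupport (fun z => ((η z : ℝ) : ℂ)) ⊆ tsupport η := by
    refine closure_mono fun z hz => ?_
    rw [Function.mem_support] at hz ⊢
    intro h0
    exact hz (by simp only [h0, Complex.ofReal_zero])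
  have hcb : ContinuousOn (fun z => conj (b z)) (pdisc R) :=
    Complex.continuous_conj.comp_continuousOn hb
  have hχc : Continuous χ := by
    rw [hχ]
    exact S4_cont (S4_open R) (Complex.continuous_ofReal.comp hηc)
      (hes.trans (hηs.trans Set.inter_subset_left)) hcb
  have hχs : tsupport χ ⊆ tsupport η := by
    refine closure_mono fun z hz => ?_
    rw [Function.mem_support] at hz ⊢
    intro h0
    exact hz (by rw [hχ]; simp only [h0, Complex.ofReal_zero, zero_mul])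
  have hχcs : HasCompactSupport χ := hηcs.of_isClosed_subset (isClosed_tsupport χ) hχs
  have hχn : ∀ z, ‖χ z‖ = η z * ‖b z‖ := fun z => by
    rw [hχ]
    show ‖((η z : ℝ) : ℂ) * conj (b z)‖ = η z * ‖b z‖
    rw [norm_mul, RCLike.norm_conj, Complex.norm_real, Real.norm_of_nonneg η.nonneg]
  -- continuity and integrability of the two real functions
  have hc1 : Continuous (fun z => η z * ‖b z‖) := by
    have h3 := hχc.norm
    simp_rw [hχn] at h3
    exact h3
  have hc2 : Continuous (fun z => η z * ‖b z‖ ^ 2) :=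
    S4_cont (S4_open R) hηc (hηs.trans Set.inter_subset_left) (hb.norm.pow 2)
  have hcs1 : HasCompactSupport (fun z => η z * ‖b z‖) := hηcs.mul_right
  have hcs2 : HasCompactSupport (fun z => η z * ‖b z‖ ^ 2) := hηcs.mul_right
  have hi1 : Integrable (fun z => η z * ‖b z‖) volume := hc1.integrable_of_hasCompactSupport hcs1
  have hi2 : Integrable (fun z => η z * ‖b z‖ ^ 2) volume :=
    hc2.integrable_of_hasCompactSupport hcs2
  -- left side
  have hL : ∫ z, χ z * ((k : ℂ) * b z) = ((k * ∫ z, η z * ‖b z‖ ^ 2 : ℝ) : ℂ) := by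
    rw [← integral_const_mul, ← integral_complex_ofReal]
    refine integral_congr_ae (Filter.Eventually.of_forall fun z => ?_)
    show χ z * ((k : ℂ) * b z) = ((k * (η z * ‖b z‖ ^ 2) : ℝ) : ℂ)
    rw [hχ]
    show ((η z : ℝ) : ℂ) * conj (b z) * ((k : ℂ) * b z) = ((k * (η z * ‖b z‖ ^ 2) : ℝ) : ℂ)
    rw [Complex.ofReal_mul, Complex.ofReal_mul, Complex.ofReal_pow]
    have h3 : conj (b z) * b z = ((‖b z‖ : ℝ) : ℂ) ^ 2 := by
      rw [mul_comm, Complex.mul_conj, Complex.normSq_eq_norm_sq, Complex.ofReal_pow]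
    rw [← h3]
    ring
  -- right side
  have hR : ∫ p : ℂ × ℂ, ‖χ p.1‖ ∂lam = k * ∫ z, η z * ‖b z‖ := by
    have h3 := h1 (fun z => ((‖χ z‖ : ℝ) : ℂ)) (Complex.continuous_ofReal.comp hχc.norm)
      (hχcs.norm.comp_left (g := fun t : ℝ => (t : ℂ)) Complex.ofReal_zero) (by
        refine Set.Subset.trans (closure_mono fun z hz => ?_)
          ((hχs.trans hηs).trans Set.inter_subset_left)
        rw [Function.mem_support] at hz ⊢
        intro h0
        exact hz (by simp only [h0, norm_zero, Complex.ofReal_zero]))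
    have h4 : ((∫ p : ℂ × ℂ, ‖χ p.1‖ ∂lam : ℝ) : ℂ) = ((k * ∫ z, ‖χ z‖ : ℝ) : ℂ) := by
      rw [← integral_complex_ofReal, h3, Complex.ofReal_mul, ← integral_complex_ofReal]
    have h5 : ∫ p : ℂ × ℂ, ‖χ p.1‖ ∂lam = k * ∫ z, ‖χ z‖ := by exact_mod_cast h4
    rw [h5]
    simp_rw [hχn]
  have hle : k * ∫ z, η z * ‖b z‖ ^ 2 ≤ K * (k * ∫ z, η z * ‖b z‖) := by
    have h3 : k * ∫ z, η z * ‖b z‖ ^ 2 = ‖∫ p, χ p.1 * w p ∂lam‖ := by
      rw [h2 χ hχc hχcs ((hχs.trans hηs).trans Set.inter_subset_left), hL, Complex.norm_real,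
        Real.norm_of_nonneg]
      refine mul_nonneg hk.le (integral_nonneg fun z => ?_)
      exact mul_nonneg η.nonneg (sq_nonneg _)
    rw [h3, ← hR, ← integral_const_mul]
    refine (norm_integral_le_integral_norm _).trans (integral_mono_of_nonneg
      (Filter.Eventually.of_forall fun p => norm_nonneg _) ?_
      (Filter.Eventually.of_forall fun p => ?_))
    · obtain ⟨C, hC⟩ := hχcs.exists_bound_of_continuous hχc
      refine Integrable.const_mul (Integrable.of_bound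
        (hχc.norm.comp continuous_fst).aestronglyMeasurable C
        (Filter.Eventually.of_forall fun p => ?_)) _
      show ‖‖χ p.1‖‖ ≤ C
      rw [norm_norm]
      exact hC p.1
    · show ‖χ p.1 * w p‖ ≤ K * ‖χ p.1‖
      rw [norm_mul, mul_comm]
      exact mul_le_mul_of_nonneg_right (hw p) (norm_nonneg _)
  have hle2 : ∫ z, η z * ‖b z‖ ^ 2 ≤ K * ∫ z, η z * ‖b z‖ := by
    have h3 : k * ∫ z, η z * ‖b z‖ ^ 2 ≤ k * (K * ∫ z, η z * ‖b z‖) := by
      calc _ ≤ _ := hle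
        _ = _ := by ring
    exact le_of_mul_le_mul_left h3 hk
  have hpos : 0 < ∫ z, (η z * ‖b z‖ ^ 2 - K * (η z * ‖b z‖)) := by
    refine Continuous.integral_pos_of_hasCompactSupport_nonneg_nonzero (x := x)
      (hc2.sub (continuous_const.mul hc1)) (hcs2.sub hcs1.mul_left) ?_ ?_
    · intro z
      show 0 ≤ η z * ‖b z‖ ^ 2 - K * (η z * ‖b z‖)
      by_cases hz : z ∈ tsupport η
      · have h3 : K < ‖b z‖ := (hηs hz).2
        have h4 : 0 ≤ η z := η.nonneg
        have h5 : η z * ‖b z‖ ^ 2 - K * (η z * ‖b z‖) = η z * (‖b z‖ * (‖b z‖ - K)) := by ring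
        rw [h5]
        exact mul_nonneg h4 (mul_nonneg (norm_nonneg _) (by linarith))
      · have h3 : η z = 0 := image_eq_zero_of_notMem_tsupport hz
        rw [h3]
        simp
    · show η x * ‖b x‖ ^ 2 - K * (η x * ‖b x‖) ≠ 0
      have h3 : η x = 1 := η.one_of_mem_closedBall (by
        rw [hηi]; exact Metric.mem_closedBall_self (by linarith))
      rw [h3]
      have h4 : (1 : ℝ) * ‖b x‖ ^ 2 - K * (1 * ‖b x‖) = ‖b x‖ * (‖b x‖ - K) := by ring
      rw [h4]
      have h5 : 0 < ‖b x‖ := hK.trans hcon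
      exact (mul_pos h5 (by linarith)).ne'
  rw [integral_sub hi2 (hi1.const_mul K), integral_const_mul] at hpos
  linarith

theorem sn_mean {m : ℕ} {a B h : P2} {ρ : ℝ} {M : Measure (ℂ × ℂ)} {K Cb : ℝ} (D : SNData m a B h ρ M K Cb)
    (R : ℝ) (hR : 0 < R) (hRK : R ≤ K / 2) (hann : AnnZero M R K) :
    M (Pset R K) = 0 ∨ ∃ (k : ℝ) (b : ℂ → ℂ), 0 < k ∧ DifferentiableOn ℂ b (pdisc R) ∧ (∀ x ∈ pdisc R, ‖b x‖ ≤ K) ∧
      (∀ χ : ℂ → ℂ, Continuous χ → HasCompactSupport χ → tsupport χ ⊆ pdisc R →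
        ∫ p in Pset R K, χ p.1 * ((‖ev (X 0 ^ m * a) p‖ ^ 2 : ℝ) : ℂ) ∂M = (k : ℂ) * ∫ z, χ z) ∧
      (∀ χ : ℂ → ℂ, Continuous χ → HasCompactSupport χ → tsupport χ ⊆ pdisc R →
        ∫ p in Pset R K, χ p.1 * ((p.2 - b p.1) * ((‖ev (X 0 ^ m * a) p‖ ^ 2 : ℝ) : ℂ)) ∂M = 0) := by
  have hK := D.hK
  obtain ⟨A, hA⟩ : ∃ A : P2, A = X 0 ^ m * a := ⟨_, rfl⟩
  have hfin0 := D.inv.fin
  rw [← hA] at hfin0
  have hfin := S4_fin A B M R K hfin0
  have hFM : IsFiniteMeasure (S4_lam A M R K) := ⟨hfin⟩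
  have hAne : ∀ p ∈ Pset R K, ev A p ≠ 0 := by
    intro p hp
    rw [hA]
    refine S4_a_ne D ?_ (norm_pos_iff.1 hp.1)
    rw [Prod.norm_def]
    exact max_le (by linarith [hp.2.1]) (by linarith [hp.2.2])
  have hmom := sn_moment D R hR hRK hann
  rw [← hA] at hmom ⊢
  obtain ⟨k, hk0, hk⟩ := weyl_real (S4_lam A M R K) Prod.fst measurable_fst R hR
    ((measure_mono (Set.subset_univ _)).trans_lt hfin) (by
      intro χ hχ hc hs
      have h1 := S4_int A M R K (fun p => dbar χ p.1)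
      rw [h1]
      have h2 := hmom (C 1) χ hχ hc hs
      simp_rw [ev_C, one_mul] at h2
      exact h2)
  obtain ⟨w, hw⟩ : ∃ w : ℂ × ℂ → ℂ, w = fun p => if ‖p.2‖ ≤ K then p.2 else 0 := ⟨_, rfl⟩
  have hwb : ∀ p, ‖w p‖ ≤ K := by
    intro p
    rw [hw]
    show ‖(if ‖p.2‖ ≤ K then p.2 else 0)‖ ≤ K
    split_ifs with h1
    · exact h1
    · rw [norm_zero]
      exact hK.le
  have hwm : Measurable w := by
    rw [hw]
    exact Measurable.ite (measurableSet_le measurable_snd.norm measurable_const) measurable_snd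
      measurable_const
  have hwP : ∀ p ∈ Pset R K, w p = p.2 := by
    intro p hp
    rw [hw]
    exact if_pos (by linarith [hp.2.2])
  obtain ⟨b1, hb1, hb1i⟩ := weyl (S4_lam A M R K) Prod.fst w measurable_fst hwm K hwb (pdisc R)
    (S4_open R) ((measure_mono (Set.subset_univ _)).trans_lt hfin) (by
      intro χ hχ hc hs
      have h1 := S4_int A M R K (fun p => dbar χ p.1 * w p)
      rw [h1]
      have h2 := hmom (X 1) χ hχ hc hs
      rw [← h2]
      refine setIntegral_congr_fun (S4_meas_Pset R K) fun p hp => ?_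
      show dbar χ p.1 * w p * ((‖ev A p‖ ^ 2 : ℝ) : ℂ) =
        dbar χ p.1 * (ev (X 1) p * ((‖ev A p‖ ^ 2 : ℝ) : ℂ))
      rw [hwP p hp, ev_X1, mul_assoc])
  rcases hk0.eq_or_lt with hk1 | hk1
  · left
    refine S4_null A M R K (S4_zero _ R K fun χ hc hcs hs => ?_) hAne
    rw [hk χ hc hcs hs, ← hk1, Complex.ofReal_zero, zero_mul]
  · right
    have hkc : (k : ℂ) ≠ 0 := Complex.ofReal_ne_zero.2 hk1.ne'
    obtain ⟨b, hb⟩ : ∃ b : ℂ → ℂ, b = fun z => b1 z / (k : ℂ) := ⟨_, rfl⟩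
    have hb1b : ∀ z, b1 z = (k : ℂ) * b z := fun z => by
      rw [hb]
      show b1 z = (k : ℂ) * (b1 z / (k : ℂ))
      rw [mul_div_cancel₀ _ hkc]
    have hbd : DifferentiableOn ℂ b (pdisc R) := by
      rw [hb]
      exact hb1.div_const _
    have h2 : ∀ χ : ℂ → ℂ, Continuous χ → HasCompactSupport χ → tsupport χ ⊆ pdisc R →
        ∫ p, χ p.1 * w p ∂(S4_lam A M R K) = ∫ z, χ z * ((k : ℂ) * b z) := by
      intro χ hc hcs hs
      rw [hb1i χ hc hcs hs]
      simp_rw [hb1b]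
    refine ⟨k, b, hk1, hbd, fun x hx => S4_bound (S4_lam A M R K) R K k hk1 hK w hwb b
      hbd.continuousOn hk h2 x hx, ?_, ?_⟩
    · intro χ hc hcs hs
      rw [← hk χ hc hcs hs]
      exact (S4_int A M R K (fun p => χ p.1)).symm
    · intro χ hc hcs hs
      have hψc : Continuous (fun z => χ z * b z) := S4_cont (S4_open R) hc hs hbd.continuousOn
      have hψcs : HasCompactSupport (fun z => χ z * b z) := hcs.mul_right
      have hψs : tsupport (fun z => χ z * b z) ⊆ pdisc R :=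
        (tsupport_mul_subset_left).trans hs
      have h3 : ∫ p in Pset R K, χ p.1 * ((p.2 - b p.1) * ((‖ev A p‖ ^ 2 : ℝ) : ℂ)) ∂M =
          ∫ p, (χ p.1 * w p - χ p.1 * b p.1) ∂(S4_lam A M R K) := by
        rw [S4_int A M R K (fun p => χ p.1 * w p - χ p.1 * b p.1)]
        refine setIntegral_congr_fun (S4_meas_Pset R K) fun p hp => ?_
        show χ p.1 * ((p.2 - b p.1) * ((‖ev A p‖ ^ 2 : ℝ) : ℂ)) =
          (χ p.1 * w p - χ p.1 * b p.1) * ((‖ev A p‖ ^ 2 : ℝ) : ℂ)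
        rw [hwP p hp]
        ring
      rw [h3, integral_sub]
      · have h4 := hk (fun z => χ z * b z) hψc hψcs hψs
        have h5 : ∫ p : ℂ × ℂ, χ p.1 * b p.1 ∂(S4_lam A M R K) =
            (k : ℂ) * ∫ z, χ z * b z := h4
        rw [h2 χ hc hcs hs, h5, ← integral_const_mul, sub_eq_zero]
        refine integral_congr_ae (Filter.Eventually.of_forall fun z => ?_)
        show χ z * ((k : ℂ) * b z) = (k : ℂ) * (χ z * b z)
        ring
      · obtain ⟨Cχ, hCχ⟩ := hcs.exists_bound_of_continuous hc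
        refine Integrable.of_bound (C := Cχ * K) ?_ (Filter.Eventually.of_forall fun p => ?_)
        · exact ((hc.comp continuous_fst).measurable.mul hwm).aestronglyMeasurable
        · rw [norm_mul]
          exact mul_le_mul (hCχ p.1) (hwb p) (norm_nonneg _) ((norm_nonneg _).trans (hCχ p.1))
      · obtain ⟨Cψ, hCψ⟩ := hψcs.exists_bound_of_continuous hψc
        exact Integrable.of_bound (hψc.comp continuous_fst).aestronglyMeasurable Cψ
          (Filter.Eventually.of_forall fun p => hCψ p.1)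

end FC76
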