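import Pool.Agent.H76.FL.SDefs

/-!
# Row S5: second moments, integration by parts

Data D, R with 0 < R <= K/2, AnnZero M R K; b holomorphic on pdisc R.  A := ev (X 0 ^ m * a), t(p) := - log ‖x‖.
CLAIM: for χ : ℝ → ℝ smooth with compact support in (-log R, oo) and l real:
   ∫_{Pset} χ''(t) ‖x‖^l ‖y - b(x)‖^2 ‖A/x‖^2 dM = 4 ∫_{Pset} χ(t) ‖x‖^l ‖ (B - A b'(x)) + (l/2)(A/x)(y - b(x)) ‖^2 dM.
Proof.  W(p) := ‖x‖^l ‖y - b(x)‖^2, smooth on 0 < ‖x‖ < R.  lev W (Z) = 4 ‖x‖^l ‖Z(y-b) + (l/2)(A/x)(y-b)‖^2 : near a point x0 choose a holomorphic branch of x^(l/2); W = ‖x^(l/2)(y - b(x))‖^2 and `lev_normSq`; Z(y-b) = B - A b'.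
 Let κ be a smooth cut-off in ‖y‖, κ = 1 on (-oo, 11K/20], 0 on [7K/10,oo), and c(p) := χ(t(p)) κ(‖y‖), smooth, compactly supported in {x ≠ 0}, ‖x‖ < R, ‖y‖ <= 7K/10; M(tsupport c) < oo (nsq Z >= ‖A‖^2 >= const > 0 there).
 g := c * dWb W(.)(Z) - W * dWb c(.)(Z) (extended by zero) is smooth with compact support in the ball; `inv_ext` : ∫ dW g(Z) dM = 0.  dW g(Z) = c * dW(dWb W(Z))(Z) - W dW(dWb c(Z))(Z) + [dW c conj(dW W) - dW W conj(dW c)] ; the bracket is purely imaginary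
 (dWb of a real function is the conjugate of dW, `dW_real`); real part with `lev_eq_dW_dWb`:  ∫ (c lev W(Z) - W lev c(Z)) dM = 0.
 M-almost everywhere on tsupport c we are in Pset with ‖y‖ < K/2 (AnnZero), where κ = 1 near p; there lev c(Z) = lev(χ(t))(Z) = χ''(t) ((Dt Z)^2 + (Dt iZ)^2) + χ'(t) lev t = χ''(t) ‖A/x‖^2 (`lev_comp`, `lev_log_norm`, (D log‖x‖)... = ‖dx(Z)/x‖^2).
-/

open MvPolynomial MeasureTheory
open scoped ContDiff ComplexConjugate

namespace FC76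

theorem S5_int {E : Type*} [NormedAddCommGroup E] {M : Measure (ℂ × ℂ)} {f : ℂ × ℂ → E}
    (hf : Continuous f) {T : Set (ℂ × ℂ)} (hT : IsCompact T) (hM : M T < ⊤)
    (h0 : ∀ p, p ∉ T → f p = 0) : Integrable f M := by
  have hsupp : Function.support f ⊆ T := by
    intro p hp
    by_contra hpK
    exact hp (h0 p hpK)
  rw [← integrableOn_iff_integrable_of_support_subset hsupp]
  obtain ⟨C, hC⟩ := hT.exists_bound_of_continuousOn hf.continuousOn
  have hm : AEStronglyMeasurable f M := hf.aestronglyMeasurable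
  refine Measure.integrableOn_of_bounded (M := C) hM.ne hm ?_
  exact (ae_restrict_iff' hT.measurableSet).2 (Filter.Eventually.of_forall (fun p hp => hC p hp))

theorem S5_D {A B : P2} {W : ℂ × ℂ → ℝ} {p : ℂ × ℂ} (hW : ContDiffAt ℝ ∞ W p) :
    ContDiffAt ℝ ∞ (fun q => dWb (fun q' => (W q' : ℂ)) q (vf A B q)) p := by
  have h1 : ContDiffAt ℝ ∞ (fun q => (W q : ℂ)) p :=
    Complex.ofRealCLM.contDiff.contDiffAt.comp p hW
  have h2 : ContDiffAt ℝ ∞ (fderiv ℝ (fun q => (W q : ℂ))) p := h1.fderiv_right (by simp)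
  have h3 : ContDiffAt ℝ ∞ (fun q => fderiv ℝ (fun q' => (W q' : ℂ)) q (vf A B q)) p :=
    h2.clm_apply (contDiff_vf A B).contDiffAt
  have h4 : ContDiffAt ℝ ∞ (fun q => fderiv ℝ (fun q' => (W q' : ℂ)) q (Complex.I • vf A B q)) p :=
    h2.clm_apply ((contDiff_vf A B).const_smul Complex.I).contDiffAt
  exact (h3.add (contDiffAt_const.mul h4)).div_const 2

theorem S5_lev_cont {A B : P2} {W : ℂ × ℂ → ℝ} {p : ℂ × ℂ} (hW : ContDiffAt ℝ ∞ W p) :
    ContinuousAt (fun q => lev W q (vf A B q)) p := by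
  have h1 : ContDiffAt ℝ ∞ (fderiv ℝ W) p := hW.fderiv_right (by simp)
  have h2 : ContDiffAt ℝ ∞ (fderiv ℝ (fderiv ℝ W)) p := h1.fderiv_right (by simp)
  have h3 : ContDiffAt ℝ ∞ (fun q => fderiv ℝ (fderiv ℝ W) q (vf A B q) (vf A B q)) p :=
    (h2.clm_apply (contDiff_vf A B).contDiffAt).clm_apply (contDiff_vf A B).contDiffAt
  have h4 : ContDiffAt ℝ ∞ (fun q => fderiv ℝ (fderiv ℝ W) q (Complex.I • vf A B q)
      (Complex.I • vf A B q)) p :=
    (h2.clm_apply ((contDiff_vf A B).const_smul Complex.I).contDiffAt).clm_apply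
      ((contDiff_vf A B).const_smul Complex.I).contDiffAt
  exact (h3.add h4).continuousAt

/-- the integration by parts -/
theorem S5_ibp {A B h : P2} {ρ : ℝ} {M : Measure (ℂ × ℂ)} (hI : Inv0 A B h ρ M) {U : Set (ℂ × ℂ)}
    {W c : ℂ × ℂ → ℝ} (hW : ∀ p ∈ U, ContDiffAt ℝ ∞ W p) (hc : ContDiff ℝ ∞ c)
    (hcs : HasCompactSupport c) (hcU : tsupport c ⊆ U) (hb : tsupport c ⊆ Metric.ball 0 ρ)
    (h0 : ev h 0 = 0) (hM : M (tsupport c) < ⊤) :
    ∫ p, c p * lev W p (vf A B p) ∂M = ∫ p, W p * lev c p (vf A B p) ∂M := by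
  have hcC : ContDiff ℝ ∞ (fun q => (c q : ℂ)) := Complex.ofRealCLM.contDiff.comp hc
  have hts : tsupport (fun q => (c q : ℂ)) ⊆ tsupport c :=
    tsupport_comp_subset (g := fun x : ℝ => (x : ℂ)) Complex.ofReal_zero c
  let DW : ℂ × ℂ → ℂ := fun q => dWb (fun q' => (W q' : ℂ)) q (vf A B q)
  let Dc : ℂ × ℂ → ℂ := fun q => dWb (fun q' => (c q' : ℂ)) q (vf A B q)
  have hDc : ContDiff ℝ ∞ Dc := (LF_contDiff_dW hcC A B).2
  have hDW : ∀ p ∈ U, ContDiffAt ℝ ∞ DW p := fun p hp => S5_D (hW p hp)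
  have hWC : ∀ p ∈ U, ContDiffAt ℝ ∞ (fun q => (W q : ℂ)) p := fun p hp =>
    Complex.ofRealCLM.contDiff.contDiffAt.comp p (hW p hp)
  have hDc0 : ∀ q, q ∉ tsupport c → Dc q = 0 := fun q hq => (LF_supp_dW (fun h => hq (hts h)) _).2
  let g : ℂ × ℂ → ℂ := fun q => (c q : ℂ) * DW q - (W q : ℂ) * Dc q
  have hg0 : ∀ q, q ∉ tsupport c → g q = 0 := by
    intro q hq
    show (c q : ℂ) * DW q - (W q : ℂ) * Dc q = 0
    rw [image_eq_zero_of_notMem_tsupport hq, hDc0 q hq]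
    simp
  have hgev : ∀ p, p ∉ tsupport c → g =ᶠ[nhds p] fun _ => 0 := by
    intro p hp
    filter_upwards [(isClosed_tsupport c).isOpen_compl.mem_nhds hp] with q hq
    exact hg0 q hq
  have hgs : ContDiff ℝ ∞ g := by
    rw [contDiff_iff_contDiffAt]
    intro p
    by_cases hp : p ∈ tsupport c
    · exact (hcC.contDiffAt.mul (hDW p (hcU hp))).sub ((hWC p (hcU hp)).mul hDc.contDiffAt)
    · exact contDiffAt_const.congr_of_eventuallyEq (hgev p hp)
  have hsub : tsupport g ⊆ tsupport c := by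
    apply closure_minimal _ (isClosed_tsupport c)
    intro q hq
    by_contra hq2
    exact hq (hg0 q hq2)
  have hgc : HasCompactSupport g :=
    HasCompactSupport.of_support_subset_isCompact hcs (subset_tsupport _ |>.trans hsub)
  have h1 := (inv_ext hI g hgs hgc (hsub.trans hb) (Or.inl h0)
    (lt_of_le_of_lt (measure_mono hsub) hM)).1
  have hint : Integrable (fun p => dW g p (vf A B p)) M := by
    refine S5_int (LF_contDiff_dW hgs A B).1.continuous hcs hM ?_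
    intro p hp
    exact (LF_supp_dW (fun h => hp (hsub h)) _).1
  have key : ∀ p, RCLike.re (dW g p (vf A B p)) =
      (c p * lev W p (vf A B p) - W p * lev c p (vf A B p)) / 4 := by
    intro p
    by_cases hp : p ∈ tsupport c
    · have hpU := hcU hp
      have d1 : DifferentiableAt ℝ (fun q => (c q : ℂ)) p := hcC.differentiable (by simp) p
      have d2 : DifferentiableAt ℝ DW p := (hDW p hpU).differentiableAt (by simp)
      have d3 : DifferentiableAt ℝ (fun q => (W q : ℂ)) p := (hWC p hpU).differentiableAt (by simp)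
      have d4 : DifferentiableAt ℝ Dc p := hDc.differentiable (by simp) p
      have e1 : dW g p (vf A B p) = dW (fun q => (c q : ℂ) * DW q) p (vf A B p) -
          dW (fun q => (W q : ℂ) * Dc q) p (vf A B p) := by
        have hs : fderiv ℝ g p = fderiv ℝ (fun q => (c q : ℂ) * DW q) p -
            fderiv ℝ (fun q => (W q : ℂ) * Dc q) p := fderiv_fun_sub (d1.mul d2) (d3.mul d4)
        unfold dW
        rw [hs]
        simp only [sub_apply]
        ring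
      have l1 := lev_eq_dW_dWb A B (G := W) (p := p) ((hW p hpU).of_le LE_two)
      have l2 := lev_eq_dW_dWb A B (G := c) (p := p) (hc.contDiffAt.of_le LE_two)
      have r1 := (dW_real (u := W) (p := p) ((hW p hpU).differentiableAt (by simp)) (vf A B p)).2.1
      have r2 := (dW_real (u := c) (p := p) (hc.differentiable (by simp) p) (vf A B p)).2.1
      rw [e1, dW_mul d1 d2, dW_mul d3 d4, l1, l2]
      show ((c p : ℂ) * dW DW p (vf A B p) + dWb (fun q' => (W q' : ℂ)) p (vf A B p) *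
        dW (fun q => (c q : ℂ)) p (vf A B p) - ((W p : ℂ) * dW Dc p (vf A B p) +
        dWb (fun q' => (c q' : ℂ)) p (vf A B p) * dW (fun q => (W q : ℂ)) p (vf A B p))).re =
        (c p * (4 * (dW DW p (vf A B p)).re) - W p * (4 * (dW Dc p (vf A B p)).re)) / 4
      rw [r1, r2]
      simp only [Complex.sub_re, Complex.add_re, Complex.mul_re, Complex.ofReal_re, Complex.ofReal_im,
        Complex.conj_re, Complex.conj_im]
      ring
    · rw [(LF_supp_dW (fun h => hp (hsub h)) _).1, image_eq_zero_of_notMem_tsupport hp,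
        LF_supp_lev hp]
      simp
  have i1 : Integrable (fun p => c p * lev W p (vf A B p)) M := by
    refine S5_int ?_ hcs hM (fun p hp => by rw [image_eq_zero_of_notMem_tsupport hp, zero_mul])
    rw [continuous_iff_continuousAt]
    intro p
    by_cases hp : p ∈ tsupport c
    · exact hc.continuous.continuousAt.mul (S5_lev_cont (hW p (hcU hp)))
    · have e : (fun p => c p * lev W p (vf A B p)) =ᶠ[nhds p] fun _ => 0 := by
        filter_upwards [(isClosed_tsupport c).isOpen_compl.mem_nhds hp] with q hq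
        rw [image_eq_zero_of_notMem_tsupport hq, zero_mul]
      exact continuousAt_const.congr e.symm
  have i2 : Integrable (fun p => W p * lev c p (vf A B p)) M := by
    refine S5_int ?_ hcs hM (fun p hp => by rw [LF_supp_lev hp, mul_zero])
    rw [continuous_iff_continuousAt]
    intro p
    by_cases hp : p ∈ tsupport c
    · exact (hW p (hcU hp)).continuousAt.mul (LF_cont_lev hc A B).continuousAt
    · have e : (fun p => W p * lev c p (vf A B p)) =ᶠ[nhds p] fun _ => 0 := by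
        filter_upwards [(isClosed_tsupport c).isOpen_compl.mem_nhds hp] with q hq
        rw [LF_supp_lev hq, mul_zero]
      exact continuousAt_const.congr e.symm
  have h2 : ∫ p, (c p * lev W p (vf A B p) - W p * lev c p (vf A B p)) / 4 ∂M = 0 := by
    have h3 := integral_re hint
    rw [h1] at h3
    simp_rw [key] at h3
    rw [h3]
    simp
  rw [integral_div, integral_sub i1 i2] at h2
  linarith

/-- the weight -/
noncomputable def S5_W (l : ℝ) (b : ℂ → ℂ) (q : ℂ × ℂ) : ℝ := ‖q.1‖ ^ l * ‖q.2 - b q.1‖ ^ 2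

/-- a holomorphic square root of the weight, near a point -/
noncomputable def S5_F (l : ℝ) (b : ℂ → ℂ) (x0 : ℂ) (q : ℂ × ℂ) : ℂ :=
  ((‖x0‖ ^ (l / 2) : ℝ) : ℂ) * Complex.exp (((l / 2 : ℝ) : ℂ) * Complex.log (x0⁻¹ * q.1)) * (q.2 - b q.1)

theorem S5_WF {l : ℝ} {b : ℂ → ℂ} {x0 : ℂ} (hx0 : x0 ≠ 0) {q : ℂ × ℂ} (hq : q.1 ≠ 0) :
    S5_W l b q = ‖S5_F l b x0 q‖ ^ 2 := by
  have hx : 0 < ‖x0‖ := norm_pos_iff.2 hx0
  have hy : 0 < ‖q.1‖ := norm_pos_iff.2 hq
  unfold S5_W S5_F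
  rw [norm_mul, norm_mul, Complex.norm_exp, Complex.re_ofReal_mul, Complex.log_re, norm_mul, norm_inv,
    Complex.norm_real, Real.norm_of_nonneg (Real.rpow_nonneg hx.le _), mul_pow, mul_pow]
  congr 1
  rw [Real.log_mul (inv_ne_zero hx.ne') hy.ne', Real.log_inv, Real.rpow_def_of_pos hx, Real.rpow_def_of_pos hy,
    ← Real.exp_nat_mul, ← Real.exp_nat_mul, ← Real.exp_add]
  congr 1
  push_cast
  ring

theorem S5_Fan {l : ℝ} {b : ℂ → ℂ} {R : ℝ} (hb : DifferentiableOn ℂ b (pdisc R)) {p : ℂ × ℂ}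
    (hp : 0 < ‖p.1‖ ∧ ‖p.1‖ < R) : AnalyticAt ℂ (S5_F l b p.1) p := by
  have hp0 : p.1 ≠ 0 := norm_pos_iff.1 hp.1
  have ho : IsOpen (pdisc R) :=
    (isOpen_lt continuous_const continuous_norm).inter (isOpen_lt continuous_norm continuous_const)
  have hba : AnalyticAt ℂ b p.1 := hb.analyticAt (ho.mem_nhds hp)
  have h1 : AnalyticAt ℂ (fun q : ℂ × ℂ => b q.1) p := hba.comp_of_eq analyticAt_fst rfl
  have h2 : AnalyticAt ℂ (fun q : ℂ × ℂ => p.1⁻¹ * q.1) p := analyticAt_const.mul analyticAt_fst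
  have h3 : AnalyticAt ℂ (fun q : ℂ × ℂ => Complex.log (p.1⁻¹ * q.1)) p := by
    refine h2.clog ?_
    rw [inv_mul_cancel₀ hp0]
    exact Complex.one_mem_slitPlane
  have h4 : AnalyticAt ℂ (fun q : ℂ × ℂ => Complex.exp (((l / 2 : ℝ) : ℂ) * Complex.log (p.1⁻¹ * q.1))) p :=
    (analyticAt_const.mul h3).cexp
  exact (analyticAt_const.mul h4).mul (analyticAt_snd.sub h1)

theorem S5_Fd {l : ℝ} {b : ℂ → ℂ} {R : ℝ} (hb : DifferentiableOn ℂ b (pdisc R)) {p : ℂ × ℂ}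
    (hp : 0 < ‖p.1‖ ∧ ‖p.1‖ < R) (v : ℂ × ℂ) : fderiv ℂ (S5_F l b p.1) p v =
      ((‖p.1‖ ^ (l / 2) : ℝ) : ℂ) *
        ((v.2 - v.1 * deriv b p.1) + ((l / 2 : ℝ) : ℂ) * (v.1 / p.1) * (p.2 - b p.1)) := by
  have hp0 : p.1 ≠ 0 := norm_pos_iff.1 hp.1
  have ho : IsOpen (pdisc R) :=
    (isOpen_lt continuous_const continuous_norm).inter (isOpen_lt continuous_norm continuous_const)
  have hbd : HasDerivAt b (deriv b p.1) p.1 := ((hb p.1 hp).differentiableAt (ho.mem_nhds hp)).hasDerivAt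
  have f1 : HasFDerivAt (fun q : ℂ × ℂ => q.1) (ContinuousLinearMap.fst ℂ ℂ ℂ) p := hasFDerivAt_fst
  have f2 : HasFDerivAt (fun q : ℂ × ℂ => q.2) (ContinuousLinearMap.snd ℂ ℂ ℂ) p := hasFDerivAt_snd
  have h1 : HasFDerivAt (fun q : ℂ × ℂ => b q.1) (deriv b p.1 • ContinuousLinearMap.fst ℂ ℂ ℂ) p :=
    hbd.comp_hasFDerivAt p f1
  have h2 : HasFDerivAt (fun q : ℂ × ℂ => p.1⁻¹ * q.1) (p.1⁻¹ • ContinuousLinearMap.fst ℂ ℂ ℂ) p :=
    f1.const_mul p.1⁻¹
  have e1 : p.1⁻¹ * p.1 = 1 := inv_mul_cancel₀ hp0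
  have h3 : HasFDerivAt (fun q : ℂ × ℂ => Complex.log (p.1⁻¹ * q.1))
      ((p.1⁻¹ * p.1)⁻¹ • (p.1⁻¹ • ContinuousLinearMap.fst ℂ ℂ ℂ)) p := by
    refine h2.clog ?_
    rw [e1]
    exact Complex.one_mem_slitPlane
  have h4 := (h3.const_mul ((l / 2 : ℝ) : ℂ)).cexp
  have h5 := (h4.const_mul ((‖p.1‖ ^ (l / 2) : ℝ) : ℂ)).mul (f2.sub h1)
  have h6 : HasFDerivAt (S5_F l b p.1) _ p := h5
  rw [h6.fderiv, e1, Complex.log_one]
  simp only [add_apply, smul_apply, sub_apply, smul_eq_mul, ContinuousLinearMap.coe_fst',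
    ContinuousLinearMap.coe_snd', mul_zero, Complex.exp_zero, inv_one, one_mul, mul_one, Pi.sub_apply]
  field_simp

theorem S5_Wsm {l : ℝ} {b : ℂ → ℂ} {R : ℝ} (hb : DifferentiableOn ℂ b (pdisc R)) {p : ℂ × ℂ}
    (hp : 0 < ‖p.1‖ ∧ ‖p.1‖ < R) : ContDiffAt ℝ ∞ (S5_W l b) p := by
  have hp0 : p.1 ≠ 0 := norm_pos_iff.1 hp.1
  have e : S5_W l b =ᶠ[nhds p] fun q => ‖S5_F l b p.1 q‖ ^ 2 := by
    filter_upwards [continuous_fst.continuousAt.eventually_ne hp0] with q hq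
    exact S5_WF hp0 hq
  have h1 : ContDiffAt ℝ ∞ (S5_F l b p.1) p :=
    ((S5_Fan (l := l) hb hp).contDiffAt (n := ∞)).restrict_scalars ℝ
  exact (h1.norm_sq ℝ).congr_of_eventuallyEq e

theorem S5_Wlev {l : ℝ} {b : ℂ → ℂ} {R : ℝ} (hb : DifferentiableOn ℂ b (pdisc R)) {p : ℂ × ℂ}
    (hp : 0 < ‖p.1‖ ∧ ‖p.1‖ < R) (v : ℂ × ℂ) : lev (S5_W l b) p v =
      4 * (‖p.1‖ ^ l * ‖(v.2 - v.1 * deriv b p.1) + ((l / 2 : ℝ) : ℂ) * (v.1 / p.1) * (p.2 - b p.1)‖ ^ 2) := by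
  have hp0 : p.1 ≠ 0 := norm_pos_iff.1 hp.1
  have e : S5_W l b =ᶠ[nhds p] fun q => ‖S5_F l b p.1 q‖ ^ 2 := by
    filter_upwards [continuous_fst.continuousAt.eventually_ne hp0] with q hq
    exact S5_WF hp0 hq
  rw [LE_lev e, lev_normSq (S5_Fan (l := l) hb hp), S5_Fd hb hp, norm_mul, mul_pow, Complex.norm_real,
    Real.norm_of_nonneg (Real.rpow_nonneg hp.1.le _)]
  congr 2
  rw [← Real.rpow_natCast, ← Real.rpow_mul hp.1.le]
  congr 1
  push_cast
  ring

theorem S5_T {χ : ℝ → ℝ} {s : ℝ} (hc : HasCompactSupport χ) (hs : tsupport χ ⊆ Set.Ioi s) :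
    ∃ T1 T2 : ℝ, s < T1 ∧ ∀ t, χ t ≠ 0 → T1 ≤ t ∧ t ≤ T2 := by
  have hK : IsCompact (tsupport χ) := hc
  obtain ⟨T2, hT2⟩ := hK.bddAbove
  rcases (tsupport χ).eq_empty_or_nonempty with he | he
  · refine ⟨s + 1, T2, by linarith, fun t ht => ?_⟩
    have h1 : t ∈ tsupport χ := subset_tsupport _ ht
    rw [he] at h1
    exact absurd h1 (Set.notMem_empty t)
  · obtain ⟨T1, hT1⟩ := hK.exists_isLeast he
    refine ⟨T1, T2, hs hT1.1, fun t ht => ?_⟩
    have h1 : t ∈ tsupport χ := subset_tsupport _ ht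
    exact ⟨hT1.2 h1, hT2 h1⟩

/-- the derivative of the cut-off where the second factor is constant -/
theorem S5_levc {χ : ℝ → ℝ} (hχ : ContDiff ℝ ∞ χ) {p : ℂ × ℂ} (hp0 : p.1 ≠ 0) (v : ℂ × ℂ) :
    lev (fun q => χ (-Real.log ‖q.1‖)) p v = deriv (deriv χ) (-Real.log ‖p.1‖) * ‖v.1 / p.1‖ ^ 2 := by
  have hf : AnalyticAt ℂ (fun q : ℂ × ℂ => q.1) p := analyticAt_fst
  have hu : ContDiffAt ℝ 2 (fun q : ℂ × ℂ => Real.log ‖q.1‖) p :=
    ((LC_cd hf).norm ℝ hp0).log (norm_ne_zero_iff.2 hp0)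
  have hχ2 : ContDiff ℝ 2 χ := hχ.of_le LE_two
  have hn : ContDiff ℝ 2 (fun x : ℝ => χ (-x)) := hχ2.comp contDiff_neg
  have h1 := lev_comp (Φ := fun x => χ (-x)) (u := fun q : ℂ × ℂ => Real.log ‖q.1‖) (p := p)
    hn.contDiffAt hu v
  have h2 := lev_log_norm hf hp0 v
  have h3 : deriv (deriv (fun x : ℝ => χ (-x))) = fun x => deriv (deriv χ) (-x) := by
    have h4 : deriv (fun x : ℝ => χ (-x)) = fun x => -deriv χ (-x) := by
      funext x
      exact deriv_comp_neg χ x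
    rw [h4]
    funext x
    rw [deriv.fun_neg, deriv_comp_neg (deriv χ) x, neg_neg]
  have h5 := (dW_real (u := fun q : ℂ × ℂ => Real.log ‖q.1‖) (p := p)
    (hu.differentiableAt (by norm_num)) v).2.2
  rw [dW_log_norm hf.differentiableAt hp0] at h5
  have h6 : fderiv ℂ (fun q : ℂ × ℂ => q.1) p v = v.1 := by
    have : HasFDerivAt (fun q : ℂ × ℂ => q.1) (ContinuousLinearMap.fst ℂ ℂ ℂ) p := hasFDerivAt_fst
    rw [this.fderiv]
    rfl
  rw [h6] at h5
  have h7 : v.1 / (2 * p.1) = (v.1 / p.1) / 2 := by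
    field_simp
  rw [h7, norm_div, Complex.norm_ofNat, div_pow] at h5
  rw [h1, h2, h3, mul_zero, zero_add]
  congr 1
  linarith

theorem sn_second {m : ℕ} {a B h : P2} {ρ : ℝ} {M : Measure (ℂ × ℂ)} {K Cb : ℝ} (D : SNData m a B h ρ M K Cb)
    (R : ℝ) (hR : 0 < R) (hRK : R ≤ K / 2) (hann : AnnZero M R K) (b : ℂ → ℂ) (hb : DifferentiableOn ℂ b (pdisc R))
    (l : ℝ) (χ : ℝ → ℝ) (hχ : ContDiff ℝ ∞ χ) (hc : HasCompactSupport χ) (hs : tsupport χ ⊆ Set.Ioi (-Real.log R)) :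
    ∫ p in Pset R K, deriv (deriv χ) (-Real.log ‖p.1‖) *
        (‖p.1‖ ^ l * ‖p.2 - b p.1‖ ^ 2 * ‖ev (X 0 ^ m * a) p / p.1‖ ^ 2) ∂M =
    4 * ∫ p in Pset R K, χ (-Real.log ‖p.1‖) * (‖p.1‖ ^ l *
        ‖(ev B p - ev (X 0 ^ m * a) p * deriv b p.1) + (l / 2 : ℝ) * (ev (X 0 ^ m * a) p / p.1) * (p.2 - b p.1)‖ ^ 2) ∂M := by
  obtain ⟨T1, T2, hT1, hT⟩ := S5_T hc hs
  have hK := D.hK
  have hI : Inv0 (X 0 ^ m * a) B h ρ M := D.inv.toInv0
  have hR1 : R < 1 := by linarith [D.hK1]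
  have hlogR : 0 < -Real.log R := by
    have := Real.log_neg hR hR1
    linarith
  have hχ0 : χ 0 = 0 := by
    by_contra h0
    have := (hT 0 h0).1
    linarith
  -- the cut-off
  let κ : ContDiffBump (0 : ℂ) := ⟨11 * K / 20, 7 * K / 10, by positivity, by linarith⟩
  let c : ℂ × ℂ → ℝ := fun q => χ (-Real.log ‖q.1‖) * κ q.2
  let T : Set (ℂ × ℂ) := {q | Real.exp (-T2) ≤ ‖q.1‖ ∧ ‖q.1‖ ≤ Real.exp (-T1) ∧ ‖q.2‖ ≤ 7 * K / 10}
  have hT1R : Real.exp (-T1) < R := by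
    rw [← Real.exp_log hR]
    exact Real.exp_lt_exp.2 (by linarith)
  have hTnorm : ∀ q ∈ T, ‖q‖ ≤ K := by
    intro q hq
    rw [Prod.norm_def]
    exact max_le (by linarith [hq.2.1]) (by linarith [hq.2.2])
  have hTcl : IsClosed T :=
    (isClosed_le continuous_const continuous_fst.norm).inter
      ((isClosed_le continuous_fst.norm continuous_const).inter
        (isClosed_le continuous_snd.norm continuous_const))
  have hTc : IsCompact T := by
    refine (isCompact_closedBall (0 : ℂ × ℂ) K).of_isClosed_subset hTcl (fun q hq => ?_)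
    rw [mem_closedBall_zero_iff]
    exact hTnorm q hq
  have hTP : T ⊆ Pset R K := by
    intro q hq
    exact ⟨lt_of_lt_of_le (Real.exp_pos _) hq.1, lt_of_le_of_lt hq.2.1 hT1R, by linarith [hq.2.2]⟩
  have hc0 : ∀ q, q ∉ T → c q = 0 := by
    intro q hq
    show χ (-Real.log ‖q.1‖) * κ q.2 = 0
    by_contra h1
    have h2 : χ (-Real.log ‖q.1‖) ≠ 0 := left_ne_zero_of_mul h1
    have h3 : κ q.2 ≠ 0 := right_ne_zero_of_mul h1
    apply hq
    have h4 : q.1 ≠ 0 := by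
      intro h5
      rw [h5, norm_zero, Real.log_zero, neg_zero] at h2
      exact h2 hχ0
    have h5 : 0 < ‖q.1‖ := norm_pos_iff.2 h4
    have h6 := hT _ h2
    refine ⟨?_, ?_, ?_⟩
    · rw [← Real.exp_log h5]
      exact Real.exp_le_exp.2 (by linarith)
    · rw [← Real.exp_log h5]
      exact Real.exp_le_exp.2 (by linarith)
    · by_contra h7
      apply h3
      apply κ.zero_of_le_dist
      rw [dist_zero_right]
      exact (not_le.1 h7).le
  have hcsub : tsupport c ⊆ T := by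
    apply closure_minimal _ hTcl
    intro q hq
    by_contra hq2
    exact hq (hc0 q hq2)
  have hcsm : ContDiff ℝ ∞ c := by
    rw [contDiff_iff_contDiffAt]
    intro p
    by_cases hp : p.1 = 0
    · have e : c =ᶠ[nhds p] fun _ => 0 := by
        have h1 : ‖p.1‖ < Real.exp (-T2) := by
          rw [hp, norm_zero]
          exact Real.exp_pos _
        filter_upwards [(continuous_fst.norm.continuousAt).eventually_lt continuousAt_const h1] with q hq
        exact hc0 q (fun hqT => absurd hqT.1 (not_le.2 hq))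
      exact contDiffAt_const.congr_of_eventuallyEq e
    · have h1 : ContDiffAt ℝ ∞ (fun q : ℂ × ℂ => Real.log ‖q.1‖) p :=
        (contDiffAt_fst.norm ℝ hp).log (norm_ne_zero_iff.2 hp)
      have h2 : ContDiffAt ℝ ∞ (fun q : ℂ × ℂ => χ (-Real.log ‖q.1‖)) p :=
        hχ.contDiffAt.comp p h1.neg
      have h3 : ContDiffAt ℝ ∞ (fun q : ℂ × ℂ => κ q.2) p := κ.contDiff.contDiffAt.comp p contDiffAt_snd
      exact h2.mul h3
  have hcs : HasCompactSupport c := HasCompactSupport.intro hTc hc0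
  have hMT : M T < ⊤ := by
    have hpos : 0 < (Real.exp (-T2) ^ m * (‖ev a 0‖ * (99 / 100))) ^ 2 := by
      have h1 : 0 < ‖ev a 0‖ := norm_pos_iff.2 D.ha
      have h2 := Real.exp_pos (-T2)
      positivity
    refine lt_of_le_of_lt (measure_mono (fun q hq => ?_)) ((LF_nsq_int hI).measure_ge_lt_top hpos)
    show (Real.exp (-T2) ^ m * (‖ev a 0‖ * (99 / 100))) ^ 2 ≤ nsq (vf (X 0 ^ m * a) B q)
    have h1 := D.ha' q (hTnorm q hq)
    have h2 : ‖ev a 0‖ * (99 / 100) ≤ ‖ev a q‖ := by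
      have h3 := norm_sub_norm_le (ev a 0) (ev a q)
      rw [norm_sub_rev] at h3
      linarith
    have h3 : ‖ev (X 0 ^ m * a) q‖ = ‖q.1‖ ^ m * ‖ev a q‖ := by
      rw [ev_mul, ev_pow, ev_X0, norm_mul, norm_pow]
    have h4 : Real.exp (-T2) ^ m * (‖ev a 0‖ * (99 / 100)) ≤ ‖ev (X 0 ^ m * a) q‖ := by
      rw [h3]
      have h5 := Real.exp_pos (-T2)
      have h6 := hq.1
      have h7 := norm_nonneg (ev a 0)
      gcongr
    have h5 : (Real.exp (-T2) ^ m * (‖ev a 0‖ * (99 / 100))) ^ 2 ≤ ‖ev (X 0 ^ m * a) q‖ ^ 2 := by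
      have h6 := Real.exp_pos (-T2)
      have h7 := norm_nonneg (ev a 0)
      exact pow_le_pow_left₀ (by positivity) h4 2
    have h6 : nsq (vf (X 0 ^ m * a) B q) = ‖ev (X 0 ^ m * a) q‖ ^ 2 + ‖ev B q‖ ^ 2 := rfl
    rw [h6]
    have h7 := sq_nonneg ‖ev B q‖
    linarith
  have hh0 : ev h 0 = 0 := by
    obtain ⟨k, hk⟩ := D.hh
    rw [hk, ev_mul, ev_X0]
    simp
  have hPo : IsOpen (Pset R K) :=
    (isOpen_lt continuous_const continuous_fst.norm).inter
      ((isOpen_lt continuous_fst.norm continuous_const).inter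
        (isOpen_lt continuous_snd.norm continuous_const))
  have main := S5_ibp hI (U := Pset R K) (W := S5_W l b) (c := c)
    (fun p hp => S5_Wsm hb ⟨hp.1, hp.2.1⟩) hcsm hcs (hcsub.trans hTP)
    (fun q hq => by
      rw [mem_ball_zero_iff]
      exact lt_of_le_of_lt (hTnorm q (hcsub hq)) D.hKρ) hh0
    (lt_of_le_of_lt (measure_mono hcsub) hMT)
  have hout : ∀ p, p ∉ Pset R K → p ∉ tsupport c := fun p hp h1 => hp (hTP (hcsub h1))
  have r1 : ∫ p in Pset R K, c p * lev (S5_W l b) p (vf (X 0 ^ m * a) B p) ∂M =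
      ∫ p, c p * lev (S5_W l b) p (vf (X 0 ^ m * a) B p) ∂M :=
    setIntegral_eq_integral_of_forall_compl_eq_zero
      (fun p hp => by rw [image_eq_zero_of_notMem_tsupport (hout p hp), zero_mul])
  have r2 : ∫ p in Pset R K, S5_W l b p * lev c p (vf (X 0 ^ m * a) B p) ∂M =
      ∫ p, S5_W l b p * lev c p (vf (X 0 ^ m * a) B p) ∂M :=
    setIntegral_eq_integral_of_forall_compl_eq_zero
      (fun p hp => by rw [LF_supp_lev (hout p hp), mul_zero])
  have hae : ∀ᵐ p ∂(M.restrict (Pset R K)), p ∈ Pset R K ∧ ‖p.2‖ < 11 * K / 20 := by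
    rw [ae_restrict_iff' hPo.measurableSet]
    have h1 : ∀ᵐ p ∂M, ¬ (0 < ‖p.1‖ ∧ ‖p.1‖ < R ∧ K / 2 ≤ ‖p.2‖ ∧ ‖p.2‖ ≤ 3 * K / 4) :=
      measure_eq_zero_iff_ae_notMem.1 hann
    filter_upwards [h1] with p hp hpP
    refine ⟨hpP, ?_⟩
    by_contra h2
    exact hp ⟨hpP.1, hpP.2.1, by linarith, hpP.2.2.le⟩
  have hcev : ∀ p : ℂ × ℂ, ‖p.2‖ < 11 * K / 20 → c =ᶠ[nhds p] fun q => χ (-Real.log ‖q.1‖) := by
    intro p hp
    filter_upwards [(continuous_snd.norm.continuousAt).eventually_lt continuousAt_const hp] with q hq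
    show χ (-Real.log ‖q.1‖) * κ q.2 = χ (-Real.log ‖q.1‖)
    rw [κ.one_of_mem_closedBall (by rw [mem_closedBall_zero_iff]; exact hq.le), mul_one]
  have s1 : ∫ p in Pset R K, deriv (deriv χ) (-Real.log ‖p.1‖) *
        (‖p.1‖ ^ l * ‖p.2 - b p.1‖ ^ 2 * ‖ev (X 0 ^ m * a) p / p.1‖ ^ 2) ∂M =
      ∫ p in Pset R K, S5_W l b p * lev c p (vf (X 0 ^ m * a) B p) ∂M := by
    apply integral_congr_ae
    filter_upwards [hae] with p hp
    have hp0 : p.1 ≠ 0 := norm_pos_iff.1 hp.1.1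
    rw [LE_lev (hcev p hp.2), S5_levc hχ hp0]
    unfold S5_W vf
    ring
  have s2 : ∫ p in Pset R K, c p * lev (S5_W l b) p (vf (X 0 ^ m * a) B p) ∂M =
      ∫ p in Pset R K, 4 * (χ (-Real.log ‖p.1‖) * (‖p.1‖ ^ l *
        ‖(ev B p - ev (X 0 ^ m * a) p * deriv b p.1) +
          (l / 2 : ℝ) * (ev (X 0 ^ m * a) p / p.1) * (p.2 - b p.1)‖ ^ 2)) ∂M := by
    apply integral_congr_ae
    filter_upwards [hae] with p hp
    rw [S5_Wlev hb ⟨hp.1.1, hp.1.2.1⟩, (hcev p hp.2).self_of_nhds]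
    unfold vf
    ring
  rw [s1, r2, ← main, ← r1, s2, integral_const_mul]

end FC76
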