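import Pool.Agent.H76.FL.SDefs

/-!
# Row S6: variance inequality

Data D, R as before, b holomorphic on pdisc R with ‖b‖ <= K and the orthogonality (ii) of row S4.  A := ev (X 0 ^ m * a).
CLAIM: there is c > 0 such that for every continuous χ >= 0 on ℝ with compact support in (-log R, oo):
   ∫_{Pset} χ(t) ‖B - A b'(x)‖^2 dM >= c ∫_{Pset} χ(t) e^((2m-2) t) ‖y - b(x)‖^2 ‖A/x‖^2 dM,   t = - log‖x‖.
Proof.  β := B/a.  B - A b' = a (β - x^m b'(x)).  With β1 := tau/a0 and `hβ`: β(x,y) = β(x,b(x)) + β1 (y - b(x)) + E, ‖E‖ <= (‖β1‖/4) ‖y - b‖ (‖x‖,‖y‖,‖b(x)‖ <= K).  u0(x) := β(x,b(x)) - x^m b'(x) depends only on x.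
 ‖β - x^m b'‖^2 = ‖u0 + β1(y-b) + E‖^2 >= (1/2)‖u0 + β1(y-b)‖^2 - ‖E‖^2.  So
 ∫ χ ‖B - A b'‖^2 dM >= (1/2)∫ χ ‖a‖^2 ‖u0 + β1(y-b)‖^2 dM - (‖β1‖^2/16) ∫ χ ‖a‖^2 ‖y-b‖^2 dM, and expanding the square the cross term is
 2 Re ∫ χ(t) conj(u0(x)) β1 (y - b(x)) ‖a‖^2 dM = 2 Re ∫ [χ(t) conj(u0(x)) β1 ‖x‖^(-2m)] (y - b(x)) ‖A‖^2 dM = 0 by (ii) (the bracket is a continuous function of x with compact support in pdisc R).
 Hence >= (1/2 - 1/16) ‖β1‖^2 ∫ χ ‖a‖^2 ‖y-b‖^2 dM, and ‖a‖^2 = ‖A/x‖^2 ‖x‖^(2-2m) = ‖A/x‖^2 e^((2m-2)t).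
 All integrals are over bounded integrands on a set {δ <= ‖x‖ < R, ‖y‖ < K} of finite M-measure (nsq Z >= ‖A‖^2 >= const there).
-/

open MvPolynomial MeasureTheory
open scoped ContDiff ComplexConjugate

namespace FC76

theorem S6_open (R : ℝ) : IsOpen (pdisc R) := by
  have h : pdisc R = {t : ℂ | 0 < ‖t‖} ∩ {t : ℂ | ‖t‖ < R} := rfl
  rw [h]
  exact (isOpen_lt continuous_const continuous_norm).inter (isOpen_lt continuous_norm continuous_const)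

theorem S6_Pset_open (R K : ℝ) : IsOpen (Pset R K) := by
  have h : Pset R K = {p : ℂ × ℂ | 0 < ‖p.1‖} ∩ ({p : ℂ × ℂ | ‖p.1‖ < R} ∩
      {p : ℂ × ℂ | ‖p.2‖ < 3 * K / 4}) := rfl
  rw [h]
  refine (isOpen_lt continuous_const (continuous_fst.norm)).inter
    ((isOpen_lt continuous_fst.norm continuous_const).inter
      (isOpen_lt continuous_snd.norm continuous_const))

theorem S6_cont {Y G : Type*} [TopologicalSpace Y] [NormedAddCommGroup G] [NormedSpace ℝ G]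
    {pr : Y → ℂ} (hpr : Continuous pr) {ψ : ℂ → ℝ} {C : Set ℂ} {R : ℝ}
    (hψ : ContinuousOn ψ (pdisc R)) (hC : IsClosed C) (h0 : ∀ x, x ∉ C → ψ x = 0)
    (hCR : C ⊆ pdisc R) {φ : Y → G} (hφ : ContinuousOn φ (pr ⁻¹' pdisc R)) :
    Continuous (fun p => ψ (pr p) • φ p) := by
  rw [continuous_iff_continuousAt]
  intro p
  by_cases hp : pr p ∈ pdisc R
  · have hop : IsOpen (pr ⁻¹' pdisc R) := (S6_open R).preimage hpr
    have h1 : ContinuousAt φ p := hφ.continuousAt (hop.mem_nhds hp)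
    have h2 : ContinuousAt (fun q => ψ (pr q)) p :=
      ContinuousAt.comp (f := pr) (hψ.continuousAt ((S6_open R).mem_nhds hp)) hpr.continuousAt
    exact h2.smul h1
  · have hpC : pr p ∉ C := fun h => hp (hCR h)
    have hop : IsOpen (pr ⁻¹' Cᶜ) := hC.isOpen_compl.preimage hpr
    have hev : (fun p => ψ (pr p) • φ p) =ᶠ[nhds p] fun _ => (0 : G) := by
      filter_upwards [hop.mem_nhds hpC] with q hq
      rw [h0 _ hq, zero_smul]
    exact (continuousAt_const (y := (0 : G))).congr hev.symm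

theorem S6_int {G : Type*} [NormedAddCommGroup G] {M : Measure (ℂ × ℂ)} {R K : ℝ} {C : Set ℂ}
    (hC : IsCompact C) (hM : M (C ×ˢ Metric.closedBall (0 : ℂ) (3 * K / 4)) < ⊤)
    {f : ℂ × ℂ → G} (hf : Continuous f) (h0 : ∀ p : ℂ × ℂ, p.1 ∉ C → f p = 0) :
    IntegrableOn f (Pset R K) M := by
  have hK : IsCompact (C ×ˢ Metric.closedBall (0 : ℂ) (3 * K / 4)) :=
    hC.prod (isCompact_closedBall _ _)
  obtain ⟨c, hc⟩ := hK.exists_bound_of_continuousOn hf.continuousOn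
  have h1 : IntegrableOn f (C ×ˢ Metric.closedBall (0 : ℂ) (3 * K / 4)) M := by
    refine Measure.integrableOn_of_bounded hM.ne hf.aestronglyMeasurable (M := c) ?_
    rw [ae_restrict_iff' hK.isClosed.measurableSet]
    exact Filter.Eventually.of_forall hc
  refine h1.of_forall_sdiff_eq_zero (S6_Pset_open R K).measurableSet ?_
  rintro p ⟨hp, hpn⟩
  refine h0 p (fun hpC => hpn ⟨hpC, ?_⟩)
  rw [mem_closedBall_zero_iff]
  exact hp.2.2.le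

/-- the support of the radial cut-off -/
theorem S6_C {R : ℝ} (hR : 0 < R) (hR1 : R < 1) {χ : ℝ → ℝ} (hχc : Continuous χ) (hχ : HasCompactSupport χ)
    (hχs : tsupport χ ⊆ Set.Ioi (-Real.log R)) :
    ContinuousOn (fun x : ℂ => χ (-Real.log ‖x‖)) (pdisc R) ∧
    ∃ C : Set ℂ, IsCompact C ∧ C ⊆ pdisc R ∧ ∀ x, x ∉ C → χ (-Real.log ‖x‖) = 0 := by
  have hlog : 0 < -Real.log R := by
    have := Real.log_neg hR hR1
    linarith
  have hcont : ∀ s : Set ℂ, (∀ x ∈ s, 0 < ‖x‖) → ContinuousOn (fun x : ℂ => -Real.log ‖x‖) s := by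
    intro s hs
    refine ContinuousOn.neg (ContinuousOn.log continuous_norm.continuousOn ?_)
    intro x hx
    exact (hs x hx).ne'
  refine ⟨hχc.comp_continuousOn (hcont _ (fun x hx => hx.1)), ?_⟩
  obtain ⟨t2, ht2⟩ : ∃ t2, ∀ t ∈ tsupport χ, t ≤ t2 := by
    obtain ⟨b, hb⟩ := hχ.isCompact.isBounded.bddAbove
    exact ⟨b, fun t ht => hb ht⟩
  obtain ⟨S, hS⟩ : ∃ S : Set ℂ, S = {x : ℂ | Real.exp (-t2) ≤ ‖x‖ ∧ ‖x‖ ≤ R} := ⟨_, rfl⟩
  have hSc : IsClosed S := by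
    rw [hS]
    exact (isClosed_le continuous_const continuous_norm).inter
      (isClosed_le continuous_norm continuous_const)
  have hS0 : ∀ x ∈ S, 0 < ‖x‖ := by
    intro x hx
    rw [hS] at hx
    exact lt_of_lt_of_le (Real.exp_pos _) hx.1
  have hScomp : IsCompact S := by
    refine (isCompact_closedBall (0 : ℂ) R).of_isClosed_subset hSc ?_
    intro x hx
    rw [hS] at hx
    rw [mem_closedBall_zero_iff]
    exact hx.2
  have hCc : IsClosed (S ∩ (fun x : ℂ => -Real.log ‖x‖) ⁻¹' tsupport χ) :=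
    (hcont S hS0).preimage_isClosed_of_isClosed hSc (isClosed_tsupport χ)
  refine ⟨S ∩ (fun x : ℂ => -Real.log ‖x‖) ⁻¹' tsupport χ,
    hScomp.of_isClosed_subset hCc Set.inter_subset_left, ?_, ?_⟩
  · rintro x ⟨hx, hxt⟩
    have h1 : -Real.log R < -Real.log ‖x‖ := hχs hxt
    refine ⟨hS0 x hx, ?_⟩
    have h2 : Real.log ‖x‖ < Real.log R := by linarith
    exact (Real.log_lt_log_iff (hS0 x hx) hR).1 h2
  · intro x hx
    by_contra hne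
    apply hx
    have ht : -Real.log ‖x‖ ∈ tsupport χ := subset_tsupport _ hne
    have h1 : -Real.log R < -Real.log ‖x‖ := hχs ht
    have h0 : 0 < ‖x‖ := by
      rcases (norm_nonneg x).eq_or_lt with h | h
      · rw [← h, Real.log_zero] at h1
        linarith
      · exact h
    refine ⟨?_, ht⟩
    rw [hS]
    refine ⟨?_, ?_⟩
    · have h2 := ht2 _ ht
      calc Real.exp (-t2) ≤ Real.exp (Real.log ‖x‖) := Real.exp_le_exp.2 (by linarith)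
        _ = ‖x‖ := Real.exp_log h0
    · have h2 : Real.log ‖x‖ < Real.log R := by linarith
      exact ((Real.log_lt_log_iff h0 hR).1 h2).le

/-- the elementary inequality -/
theorem S6_ineq (u β w E : ℂ) (hE : ‖E‖ ≤ ‖β‖ / 4 * ‖w‖) :
    7 / 16 * ‖β‖ ^ 2 * ‖w‖ ^ 2 + (conj u * β * w).re ≤ ‖u + β * w + E‖ ^ 2 := by
  have h1 : ‖u + β * w‖ ^ 2 ≤ 2 * ‖u + β * w + E‖ ^ 2 + 2 * ‖E‖ ^ 2 := by
    have h2 : ‖u + β * w‖ ≤ ‖u + β * w + E‖ + ‖E‖ := by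
      have h3 : u + β * w = (u + β * w + E) - E := by ring
      calc ‖u + β * w‖ = ‖(u + β * w + E) - E‖ := by rw [← h3]
        _ ≤ _ := norm_sub_le _ _
    have h4 := norm_nonneg (u + β * w)
    have h5 := norm_nonneg (u + β * w + E)
    have h6 := norm_nonneg E
    nlinarith [sq_nonneg (‖u + β * w + E‖ - ‖E‖), pow_le_pow_left₀ h4 h2 2]
  have h2 : ‖u + β * w‖ ^ 2 = ‖u‖ ^ 2 + 2 * (conj u * β * w).re + ‖β‖ ^ 2 * ‖w‖ ^ 2 := by
    rw [← mul_pow, ← norm_mul]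
    simp only [← Complex.normSq_eq_norm_sq, Complex.normSq_apply, Complex.mul_re, Complex.mul_im,
      Complex.add_re, Complex.add_im, Complex.conj_re, Complex.conj_im]
    ring
  have h3 : ‖E‖ ^ 2 ≤ 1 / 16 * (‖β‖ ^ 2 * ‖w‖ ^ 2) := by
    calc ‖E‖ ^ 2 ≤ (‖β‖ / 4 * ‖w‖) ^ 2 := pow_le_pow_left₀ (norm_nonneg _) hE 2
      _ = _ := by ring
  have h4 := sq_nonneg ‖u‖
  linarith

theorem sn_variance {m : ℕ} {a B h : P2} {ρ : ℝ} {M : Measure (ℂ × ℂ)} {K Cb : ℝ} (D : SNData m a B h ρ M K Cb)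
    (R : ℝ) (hR : 0 < R) (hRK : R ≤ K / 2) (b : ℂ → ℂ) (hb : DifferentiableOn ℂ b (pdisc R))
    (hbK : ∀ x ∈ pdisc R, ‖b x‖ ≤ K)
    (horth : ∀ χ : ℂ → ℂ, Continuous χ → HasCompactSupport χ → tsupport χ ⊆ pdisc R →
        ∫ p in Pset R K, χ p.1 * ((p.2 - b p.1) * ((‖ev (X 0 ^ m * a) p‖ ^ 2 : ℝ) : ℂ)) ∂M = 0) :
    ∃ c : ℝ, 0 < c ∧ ∀ χ : ℝ → ℝ, Continuous χ → HasCompactSupport χ → tsupport χ ⊆ Set.Ioi (-Real.log R) →
      (∀ t, 0 ≤ χ t) →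
      c * ∫ p in Pset R K, χ (-Real.log ‖p.1‖) * (Real.exp ((2 * m - 2) * (-Real.log ‖p.1‖)) *
          (‖p.2 - b p.1‖ ^ 2 * ‖ev (X 0 ^ m * a) p / p.1‖ ^ 2)) ∂M ≤
      ∫ p in Pset R K, χ (-Real.log ‖p.1‖) * ‖ev B p - ev (X 0 ^ m * a) p * deriv b p.1‖ ^ 2 ∂M := by
  have hK0 := D.hK
  have hK1 := D.hK1
  have hm := D.hm
  have hR1 : R < 1 := by linarith
  have hev : ∀ p : ℂ × ℂ, ev (X 0 ^ m * a) p = p.1 ^ m * ev a p := by
    intro p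
    rw [ev_mul, ev_pow, ev_X0]
  have hca : Continuous (ev a) := (contDiff_real_ev a).continuous
  have hcB : Continuous (ev B) := (contDiff_real_ev B).continuous
  have hcA : Continuous (ev (X 0 ^ m * a)) := (contDiff_real_ev _).continuous
  -- lower bound of a
  have ha0 : 0 < ‖ev a 0‖ := norm_pos_iff.2 D.ha
  have halow : ∀ p : ℂ × ℂ, ‖p‖ ≤ K → ‖ev a 0‖ / 2 ≤ ‖ev a p‖ := by
    intro p hp
    have h1 := D.ha' p hp
    have h2 : ‖ev a 0‖ ≤ ‖ev a p‖ + ‖ev a p - ev a 0‖ := by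
      have h3 : ev a 0 = ev a p - (ev a p - ev a 0) := by ring
      calc ‖ev a 0‖ = ‖ev a p - (ev a p - ev a 0)‖ := by rw [← h3]
        _ ≤ _ := norm_sub_le _ _
    linarith
  have hane : ∀ p : ℂ × ℂ, ‖p‖ ≤ K → ev a p ≠ 0 := by
    intro p hp h0
    have := halow p hp
    rw [h0, norm_zero] at this
    linarith
  have hnorm : ∀ x y : ℂ, ‖x‖ ≤ K → ‖y‖ ≤ K → ‖((x, y) : ℂ × ℂ)‖ ≤ K := by
    intro x y hx hy
    rw [Prod.norm_def]
    exact max_le hx hy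
  obtain ⟨β1, hβ1⟩ : ∃ β1 : ℂ, β1 = cf 0 1 B / ev a 0 := ⟨_, rfl⟩
  have hβ1pos : 0 < ‖β1‖ := by
    rw [hβ1]
    exact norm_pos_iff.2 (div_ne_zero D.hτ D.ha)
  obtain ⟨u0, hu0⟩ : ∃ u0 : ℂ → ℂ, u0 = fun x => ev B (x, b x) / ev a (x, b x) - x ^ m * deriv b x :=
    ⟨_, rfl⟩
  have hbc : ContinuousOn b (pdisc R) := hb.continuousOn
  have hb'c : ContinuousOn (deriv b) (pdisc R) := (hb.deriv (S6_open R)).continuousOn
  have hpairc : ContinuousOn (fun x : ℂ => ((x, b x) : ℂ × ℂ)) (pdisc R) := continuousOn_id.prodMk hbc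
  have hpd : ∀ x ∈ pdisc R, ‖x‖ ≤ K := by
    intro x hx
    have := hx.2
    linarith
  have hu0c : ContinuousOn u0 (pdisc R) := by
    rw [hu0]
    refine ContinuousOn.sub (ContinuousOn.div (hcB.comp_continuousOn hpairc)
      (hca.comp_continuousOn hpairc) ?_) ((continuousOn_id.pow m).mul hb'c)
    intro x hx
    exact hane _ (hnorm _ _ (hpd x hx) (hbK x hx))
  refine ⟨7 / 16 * ‖β1‖ ^ 2, by positivity, ?_⟩
  intro χ hχc hχ hχs hχ0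
  obtain ⟨hψc, C, hC, hCR, hC0⟩ := S6_C hR hR1 hχc hχ hχs
  obtain ⟨ψ, hψ⟩ : ∃ ψ : ℂ → ℝ, ψ = fun x => χ (-Real.log ‖x‖) := ⟨_, rfl⟩
  have hψx : ∀ x, ψ x = χ (-Real.log ‖x‖) := fun x => by rw [hψ]
  have hψc' : ContinuousOn ψ (pdisc R) := by rw [hψ]; exact hψc
  have hψ0 : ∀ x, x ∉ C → ψ x = 0 := by
    intro x hx
    rw [hψx]
    exact hC0 x hx
  -- finite measure
  have hM : M (C ×ˢ Metric.closedBall (0 : ℂ) (3 * K / 4)) < ⊤ := by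
    have hcomp : IsCompact (C ×ˢ Metric.closedBall (0 : ℂ) (3 * K / 4)) :=
      hC.prod (isCompact_closedBall _ _)
    obtain ⟨δ, hδ, hδ'⟩ : ∃ δ : ℝ, 0 < δ ∧
        ∀ p ∈ C ×ˢ Metric.closedBall (0 : ℂ) (3 * K / 4), δ ≤ nsq (vf (X 0 ^ m * a) B p) := by
      rcases (C ×ˢ Metric.closedBall (0 : ℂ) (3 * K / 4)).eq_empty_or_nonempty with he | hne
      · refine ⟨1, one_pos, ?_⟩
        intro p hp
        rw [he] at hp
        exact absurd hp (Set.notMem_empty p)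
      · have hc : ContinuousOn (fun p => nsq (vf (X 0 ^ m * a) B p))
            (C ×ˢ Metric.closedBall (0 : ℂ) (3 * K / 4)) := by
          unfold nsq vf
          exact ((hcA.norm.pow 2).add (hcB.norm.pow 2)).continuousOn
        obtain ⟨p0, hp0, hmin⟩ := hcomp.exists_isMinOn hne hc
        refine ⟨nsq (vf (X 0 ^ m * a) B p0), ?_, fun p hp => hmin hp⟩
        have h1 : ev (X 0 ^ m * a) p0 ≠ 0 := by
          rw [hev]
          refine mul_ne_zero (pow_ne_zero _ ?_) (hane p0 ?_)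
          · exact norm_pos_iff.1 (hCR hp0.1).1
          · have h2 : ‖p0.2‖ ≤ 3 * K / 4 := mem_closedBall_zero_iff.1 hp0.2
            exact hnorm p0.1 p0.2 (hpd _ (hCR hp0.1)) (by linarith)
        unfold nsq vf
        have h3 : 0 < ‖ev (X 0 ^ m * a) p0‖ := norm_pos_iff.2 h1
        positivity
    have h2 : ENNReal.ofReal δ * M (C ×ˢ Metric.closedBall (0 : ℂ) (3 * K / 4)) ≤
        ∫⁻ p, ENNReal.ofReal (nsq (vf (X 0 ^ m * a) B p)) ∂M := by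
      rw [← setLIntegral_const]
      refine le_trans (setLIntegral_mono' hcomp.isClosed.measurableSet (fun p hp => ?_))
        (setLIntegral_le_lintegral _ _)
      exact ENNReal.ofReal_le_ofReal (hδ' p hp)
    have h3 := lt_of_le_of_lt h2 D.inv.fin
    by_contra hcon
    rw [not_lt, top_le_iff] at hcon
    rw [hcon, ENNReal.mul_top (by simpa using hδ)] at h3
    exact lt_irrefl _ h3
  -- the three functions
  obtain ⟨φ1, hφ1⟩ : ∃ φ1 : ℂ × ℂ → ℝ, φ1 = fun p => ‖p.2 - b p.1‖ ^ 2 * ‖ev a p‖ ^ 2 := ⟨_, rfl⟩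
  obtain ⟨φ2, hφ2⟩ : ∃ φ2 : ℂ × ℂ → ℝ, φ2 = fun p =>
      ‖ev B p - ev (X 0 ^ m * a) p * deriv b p.1‖ ^ 2 := ⟨_, rfl⟩
  obtain ⟨γ, hγ⟩ : ∃ γ : ℂ → ℂ, γ = fun x => conj (u0 x) * β1 * (((‖x‖ ^ (2 * m))⁻¹ : ℝ) : ℂ) := ⟨_, rfl⟩
  have hb1 : ContinuousOn (fun p : ℂ × ℂ => b p.1) (Prod.fst ⁻¹' pdisc R) :=
    hbc.comp continuous_fst.continuousOn (fun p hp => hp)
  have hb2 : ContinuousOn (fun p : ℂ × ℂ => deriv b p.1) (Prod.fst ⁻¹' pdisc R) :=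
    hb'c.comp continuous_fst.continuousOn (fun p hp => hp)
  have hφ1c : ContinuousOn φ1 (Prod.fst ⁻¹' pdisc R) := by
    rw [hφ1]
    exact ((continuous_snd.continuousOn.sub hb1).norm.pow 2).mul (hca.norm.pow 2).continuousOn
  have hφ2c : ContinuousOn φ2 (Prod.fst ⁻¹' pdisc R) := by
    rw [hφ2]
    exact (hcB.continuousOn.sub (hcA.continuousOn.mul hb2)).norm.pow 2
  have hγc : ContinuousOn γ (pdisc R) := by
    rw [hγ]
    refine ContinuousOn.mul ((Complex.continuous_conj.comp_continuousOn hu0c).mul continuousOn_const) ?_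
    refine Complex.continuous_ofReal.comp_continuousOn ?_
    refine ContinuousOn.inv₀ (continuous_norm.pow _).continuousOn ?_
    intro x hx
    exact (pow_pos hx.1 _).ne'
  have hφ3c : ContinuousOn (fun p : ℂ × ℂ => γ p.1 * ((p.2 - b p.1) *
      ((‖ev (X 0 ^ m * a) p‖ ^ 2 : ℝ) : ℂ))) (Prod.fst ⁻¹' pdisc R) := by
    refine ContinuousOn.mul (hγc.comp continuous_fst.continuousOn (fun p hp => hp)) ?_
    refine ContinuousOn.mul (continuous_snd.continuousOn.sub hb1) ?_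
    exact (Complex.continuous_ofReal.comp (hcA.norm.pow 2)).continuousOn
  have hf1 := S6_cont continuous_fst hψc' hC.isClosed hψ0 hCR hφ1c
  have hf2 := S6_cont continuous_fst hψc' hC.isClosed hψ0 hCR hφ2c
  have hf3 := S6_cont continuous_fst hψc' hC.isClosed hψ0 hCR hφ3c
  have hg : Continuous (fun x : ℂ => ψ x • γ x) :=
    S6_cont continuous_id hψc' hC.isClosed hψ0 hCR hγc
  have hi1 : IntegrableOn (fun p : ℂ × ℂ => ψ p.1 • φ1 p) (Pset R K) M :=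
    S6_int hC hM hf1 (fun p hp => by
      show ψ p.1 • φ1 p = 0
      rw [hψ0 _ hp, zero_smul])
  have hi2 : IntegrableOn (fun p : ℂ × ℂ => ψ p.1 • φ2 p) (Pset R K) M :=
    S6_int hC hM hf2 (fun p hp => by
      show ψ p.1 • φ2 p = 0
      rw [hψ0 _ hp, zero_smul])
  have hi3 : IntegrableOn (fun p : ℂ × ℂ => ψ p.1 • (γ p.1 * ((p.2 - b p.1) *
      ((‖ev (X 0 ^ m * a) p‖ ^ 2 : ℝ) : ℂ)))) (Pset R K) M :=
    S6_int hC hM hf3 (fun p hp => by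
      show ψ p.1 • (γ p.1 * ((p.2 - b p.1) * ((‖ev (X 0 ^ m * a) p‖ ^ 2 : ℝ) : ℂ))) = 0
      rw [hψ0 _ hp, zero_smul])
  -- the orthogonality
  have hgs : Function.support (fun x : ℂ => ψ x • γ x) ⊆ C := by
    intro x hx
    by_contra hxC
    apply hx
    show ψ x • γ x = 0
    rw [hψ0 x hxC, zero_smul]
  have hgt : tsupport (fun x : ℂ => ψ x • γ x) ⊆ C := closure_minimal hgs hC.isClosed
  have hgcs : HasCompactSupport (fun x : ℂ => ψ x • γ x) :=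
    hC.of_isClosed_subset (isClosed_tsupport _) hgt
  have horth' := horth _ hg hgcs (hgt.trans hCR)
  have h0 : ∫ p in Pset R K, (ψ p.1 • (γ p.1 * ((p.2 - b p.1) *
      ((‖ev (X 0 ^ m * a) p‖ ^ 2 : ℝ) : ℂ)))).re ∂M = 0 := by
    have h1 := integral_re hi3
    have h2 : ∫ p in Pset R K, ψ p.1 • (γ p.1 * ((p.2 - b p.1) *
      ((‖ev (X 0 ^ m * a) p‖ ^ 2 : ℝ) : ℂ))) ∂M = 0 := by
      rw [← horth']
      refine integral_congr_ae (Filter.Eventually.of_forall fun p => ?_)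
      show ψ p.1 • (γ p.1 * _) = ψ p.1 • γ p.1 * _
      rw [smul_mul_assoc]
    rw [h2] at h1
    simpa using h1
  have hPm : MeasurableSet (Pset R K) := (S6_Pset_open R K).measurableSet
  have e1 : ∫ p in Pset R K, χ (-Real.log ‖p.1‖) * (Real.exp ((2 * m - 2) * (-Real.log ‖p.1‖)) *
          (‖p.2 - b p.1‖ ^ 2 * ‖ev (X 0 ^ m * a) p / p.1‖ ^ 2)) ∂M =
      ∫ p in Pset R K, ψ p.1 • φ1 p ∂M := by
    refine setIntegral_congr_fun hPm ?_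
    intro p hp
    have hx0 : 0 < ‖p.1‖ := hp.1
    show χ (-Real.log ‖p.1‖) * (Real.exp ((2 * m - 2) * (-Real.log ‖p.1‖)) *
          (‖p.2 - b p.1‖ ^ 2 * ‖ev (X 0 ^ m * a) p / p.1‖ ^ 2)) = ψ p.1 • φ1 p
    rw [hψx, hφ1, smul_eq_mul, hev]
    congr 1
    have h1 : Real.exp ((2 * m - 2) * (-Real.log ‖p.1‖)) = (‖p.1‖ ^ (2 * (m - 1)))⁻¹ := by
      have h2 : ((2 * m - 2 : ℝ)) * (-Real.log ‖p.1‖) = -(((2 * (m - 1) : ℕ) : ℝ) * Real.log ‖p.1‖) := by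
        have h3 : ((2 * (m - 1) : ℕ) : ℝ) = 2 * m - 2 := by
          rw [Nat.cast_mul, Nat.cast_sub (by omega)]
          push_cast
          ring
        rw [h3]
        ring
      rw [h2, Real.exp_neg, Real.exp_nat_mul, Real.exp_log hx0]
    have h3 : ‖p.1 ^ m * ev a p / p.1‖ ^ 2 = ‖p.1‖ ^ (2 * (m - 1)) * ‖ev a p‖ ^ 2 := by
      obtain ⟨k, rfl⟩ : ∃ k, m = k + 1 := ⟨m - 1, by omega⟩
      have hx : p.1 ≠ 0 := norm_pos_iff.1 hx0
      have h4 : p.1 ^ (k + 1) * ev a p / p.1 = p.1 ^ k * ev a p := by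
        rw [pow_succ]
        field_simp
      rw [h4, norm_mul, norm_pow, mul_pow, ← pow_mul]
      congr 2
      simp [mul_comm]
    rw [h1, h3]
    have h5 : (0 : ℝ) < ‖p.1‖ ^ (2 * (m - 1)) := pow_pos hx0 _
    field_simp
  have e2 : ∫ p in Pset R K, χ (-Real.log ‖p.1‖) * ‖ev B p - ev (X 0 ^ m * a) p * deriv b p.1‖ ^ 2 ∂M =
      ∫ p in Pset R K, ψ p.1 • φ2 p ∂M := by
    rw [hφ2, hψ]
    rfl
  rw [e1, e2]
  have hi3r : IntegrableOn (fun p : ℂ × ℂ => (ψ p.1 • (γ p.1 * ((p.2 - b p.1) *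
      ((‖ev (X 0 ^ m * a) p‖ ^ 2 : ℝ) : ℂ)))).re) (Pset R K) M := hi3.re
  have e3 : 7 / 16 * ‖β1‖ ^ 2 * ∫ p in Pset R K, ψ p.1 • φ1 p ∂M =
      ∫ p in Pset R K, (7 / 16 * ‖β1‖ ^ 2 * (ψ p.1 • φ1 p) + (ψ p.1 • (γ p.1 * ((p.2 - b p.1) *
      ((‖ev (X 0 ^ m * a) p‖ ^ 2 : ℝ) : ℂ)))).re) ∂M := by
    rw [integral_add (hi1.const_mul _) hi3r, integral_const_mul, h0, add_zero]
  rw [e3]
  refine setIntegral_mono_on ((hi1.const_mul _).add hi3r) hi2 hPm ?_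
  intro p hp
  obtain ⟨x, y⟩ := p
  obtain ⟨hx0, hxR, hy⟩ := hp
  have hx0' : 0 < ‖x‖ := hx0
  have hxR' : ‖x‖ < R := hxR
  have hy' : ‖y‖ < 3 * K / 4 := hy
  have hxp : x ∈ pdisc R := ⟨hx0', hxR'⟩
  have hxK : ‖x‖ ≤ K := hpd x hxp
  have hyK : ‖y‖ ≤ K := by linarith
  have hψpos : 0 ≤ ψ x := by
    rw [hψx]
    exact hχ0 _
  have hE := D.hβ x y (b x) hxK hyK (hbK x hxp)
  rw [← hβ1] at hE
  have key := S6_ineq (u0 x) β1 (y - b x) _ hE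
  have haxy : ev a (x, y) ≠ 0 := hane _ (hnorm _ _ hxK hyK)
  have haxb : ev a (x, b x) ≠ 0 := hane _ (hnorm _ _ hxK (hbK x hxp))
  show 7 / 16 * ‖β1‖ ^ 2 * (ψ x • φ1 (x, y)) + (ψ x • (γ x * ((y - b x) *
      ((‖ev (X 0 ^ m * a) (x, y)‖ ^ 2 : ℝ) : ℂ)))).re ≤ ψ x • φ2 (x, y)
  have g1 : (ψ x • (γ x * ((y - b x) * ((‖ev (X 0 ^ m * a) (x, y)‖ ^ 2 : ℝ) : ℂ)))).re =
      ψ x * (‖ev a (x, y)‖ ^ 2 * (conj (u0 x) * β1 * (y - b x)).re) := by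
    rw [Complex.smul_re, smul_eq_mul]
    congr 1
    have h1 : γ x * ((y - b x) * ((‖ev (X 0 ^ m * a) (x, y)‖ ^ 2 : ℝ) : ℂ)) =
        ((‖ev a (x, y)‖ ^ 2 : ℝ) : ℂ) * (conj (u0 x) * β1 * (y - b x)) := by
      have h2 : ((((‖x‖ ^ (2 * m))⁻¹ : ℝ) : ℂ)) * ((‖ev (X 0 ^ m * a) (x, y)‖ ^ 2 : ℝ) : ℂ) =
          ((‖ev a (x, y)‖ ^ 2 : ℝ) : ℂ) := by
        rw [← Complex.ofReal_mul]
        congr 1
        rw [hev]
        show (‖x‖ ^ (2 * m))⁻¹ * ‖x ^ m * ev a (x, y)‖ ^ 2 = ‖ev a (x, y)‖ ^ 2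
        rw [norm_mul, norm_pow, mul_pow, ← pow_mul, mul_comm m 2]
        have h5 : (0 : ℝ) < ‖x‖ ^ (2 * m) := pow_pos hx0' _
        field_simp
      rw [hγ, ← h2]
      ring
    rw [h1, Complex.re_ofReal_mul]
  have g2 : φ2 (x, y) = ‖ev a (x, y)‖ ^ 2 * ‖u0 x + β1 * (y - b x) +
      (ev B (x, y) / ev a (x, y) - ev B (x, b x) / ev a (x, b x) - β1 * (y - b x))‖ ^ 2 := by
    have h1 : φ2 (x, y) = ‖ev B (x, y) - ev (X 0 ^ m * a) (x, y) * deriv b x‖ ^ 2 := by rw [hφ2]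
    have h2 : ev (X 0 ^ m * a) (x, y) = x ^ m * ev a (x, y) := hev (x, y)
    have h3 : u0 x = ev B (x, b x) / ev a (x, b x) - x ^ m * deriv b x := by rw [hu0]
    rw [h1, ← mul_pow, ← norm_mul, h2, h3]
    congr 2
    have h4 : ev B (x, y) = ev a (x, y) * (ev B (x, y) / ev a (x, y)) := by
      rw [mul_div_cancel₀ _ haxy]
    calc ev B (x, y) - x ^ m * ev a (x, y) * deriv b x =
        ev a (x, y) * (ev B (x, y) / ev a (x, y)) - x ^ m * ev a (x, y) * deriv b x := by rw [← h4]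
      _ = _ := by ring
  rw [g1, g2, hφ1, smul_eq_mul, smul_eq_mul]
  show 7 / 16 * ‖β1‖ ^ 2 * (ψ x * (‖y - b x‖ ^ 2 * ‖ev a (x, y)‖ ^ 2)) +
    ψ x * (‖ev a (x, y)‖ ^ 2 * (conj (u0 x) * β1 * (y - b x)).re) ≤ _
  calc 7 / 16 * ‖β1‖ ^ 2 * (ψ x * (‖y - b x‖ ^ 2 * ‖ev a (x, y)‖ ^ 2)) +
      ψ x * (‖ev a (x, y)‖ ^ 2 * (conj (u0 x) * β1 * (y - b x)).re) =
      ψ x * (‖ev a (x, y)‖ ^ 2 * (7 / 16 * ‖β1‖ ^ 2 * ‖y - b x‖ ^ 2 +
        (conj (u0 x) * β1 * (y - b x)).re)) := by ring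
    _ ≤ _ := mul_le_mul_of_nonneg_left (mul_le_mul_of_nonneg_left key (by positivity)) hψpos

end FC76
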