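import Mathlib

/-!
# Row S7: an ordinary differential inequality

v >= 0 of class C^2 on (T, oo), bounded, v'^2 <= v v'' and v'' >= c e^(βt) v with c, β > 0.  CLAIM: v = 0 on (T, oo).
Proof.  v'' >= 0, so v' is nondecreasing on (T,oo); if v'(t1) > 0 for some t1 then v would be unbounded: v' <= 0.  Suppose v(t0) > 0.  Claim v > 0 on [t0, oo): otherwise let t1 be the first zero; on [t0,t1) ψ := log v satisfies
ψ'' = (v v'' - v'^2)/v^2 >= 0, so ψ(t) >= ψ(t0) + ψ'(t0)(t - t0) on [t0,t1), bounded below, contradiction with v(t) -> 0 (alternatively: v(t) >= v(t0) exp(v'(t0)/v(t0) (t - t0)), e.g. because (v e^(-σ t)) ... ).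
Now on [t0,oo): ψ' = v'/v <= 0 is nondecreasing (ψ'' >= 0), so ψ'^2 <= ψ'(t0)^2 =: s; ψ'' = v''/v - ψ'^2 >= c e^(βt) - s.  Integrate: ψ'(t) >= ψ'(t0) + (c/β)(e^(βt) - e^(βt0)) - s (t - t0) -> +oo, contradiction with ψ' <= 0.
-/

namespace FC76

theorem S7_mono {f f' : ℝ → ℝ} {a : ℝ} (h : ∀ t, a ≤ t → HasDerivAt f (f' t) t)
    (h' : ∀ t, a ≤ t → 0 ≤ f' t) {s t : ℝ} (hs : a ≤ s) (hst : s ≤ t) : f s ≤ f t := by
  have h1 : MonotoneOn f (Set.Ici a) := by
    apply monotoneOn_of_deriv_nonneg (convex_Ici a)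
    · intro x hx
      exact (h x hx).continuousAt.continuousWithinAt
    · intro x hx
      rw [interior_Ici] at hx
      exact (h x (le_of_lt hx)).differentiableAt.differentiableWithinAt
    · intro x hx
      rw [interior_Ici] at hx
      rw [(h x (le_of_lt hx)).deriv]
      exact h' x (le_of_lt hx)
  exact h1 hs (hs.trans hst) hst

theorem ode_zero (v : ℝ → ℝ) (T β c Cv : ℝ) (hβ : 0 < β) (hc : 0 < c)
    (hv : ContDiffOn ℝ 2 v (Set.Ioi T)) (h0 : ∀ t, T < t → 0 ≤ v t) (hb : ∀ t, T < t → v t ≤ Cv)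
    (h1 : ∀ t, T < t → (deriv v t) ^ 2 ≤ v t * deriv (deriv v) t)
    (h2 : ∀ t, T < t → c * Real.exp (β * t) * v t ≤ deriv (deriv v) t) : ∀ t, T < t → v t = 0 := by
  have hd1 : ∀ t, T < t → HasDerivAt v (deriv v t) t := by
    intro t ht
    exact ((hv.differentiableOn (by norm_num)).differentiableAt (Ioi_mem_nhds ht)).hasDerivAt
  have hv' : ContDiffOn ℝ 1 (deriv v) (Set.Ioi T) := by
    have h3 : ContDiffOn ℝ (1 + 1) v (Set.Ioi T) := by
      have e : (1 + 1 : WithTop ℕ∞) = 2 := by norm_num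
      rw [e]
      exact hv
    exact ((contDiffOn_succ_iff_deriv_of_isOpen isOpen_Ioi).1 h3).2.2
  have hd2 : ∀ t, T < t → HasDerivAt (deriv v) (deriv (deriv v) t) t := by
    intro t ht
    exact ((hv'.differentiableOn (by norm_num)).differentiableAt (Ioi_mem_nhds ht)).hasDerivAt
  have hpp : ∀ t, T < t → 0 ≤ deriv (deriv v) t := by
    intro t ht
    refine le_trans ?_ (h2 t ht)
    have := h0 t ht
    positivity
  -- the derivative is nonpositive
  have hneg : ∀ t, T < t → deriv v t ≤ 0 := by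
    intro t1 ht1
    by_contra hcon
    push Not at hcon
    have hmono : ∀ t, t1 ≤ t → deriv v t1 ≤ deriv v t := fun t ht =>
      S7_mono (fun s hs => hd2 s (ht1.trans_le hs)) (fun s hs => hpp s (ht1.trans_le hs)) le_rfl ht
    have hlin : ∀ t, t1 ≤ t → v t1 - deriv v t1 * t1 ≤ v t - deriv v t1 * t := fun t ht =>
      S7_mono (f := fun s => v s - deriv v t1 * s) (f' := fun s => deriv v s - deriv v t1 * 1)
        (fun s hs => (hd1 s (ht1.trans_le hs)).sub ((hasDerivAt_id s).const_mul _))
        (fun s hs => by have := hmono s hs; linarith) le_rfl ht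
    obtain ⟨t, ht⟩ : ∃ t, t = t1 + (Cv + 1) / deriv v t1 := ⟨_, rfl⟩
    have hCv : 0 ≤ Cv := (h0 t1 ht1).trans (hb t1 ht1)
    have htt : t1 ≤ t := by
      rw [ht]
      have : 0 ≤ (Cv + 1) / deriv v t1 := by positivity
      linarith
    have h3 := hlin t htt
    have h4 := hb t (ht1.trans_le htt)
    have h5 := h0 t1 ht1
    have h6 : deriv v t1 * t = deriv v t1 * t1 + (Cv + 1) := by
      rw [ht]
      field_simp
    linarith
  intro t0 ht0
  by_contra hne
  have hpos : 0 < v t0 := lt_of_le_of_ne (h0 t0 ht0) (Ne.symm hne)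
  -- comparison
  obtain ⟨σ, hσ⟩ : ∃ σ, σ = -(deriv v t0 / v t0) := ⟨_, rfl⟩
  have hσ0 : 0 ≤ σ := by
    rw [hσ, neg_nonneg]
    exact div_nonpos_of_nonpos_of_nonneg (hneg t0 ht0) hpos.le
  have hcmp : ∀ t, t0 ≤ t → -σ * v t ≤ deriv v t := by
    intro t ht
    have hTt : T < t := ht0.trans_le ht
    have hε : ∀ ε : ℝ, 0 < ε → deriv v t0 * (v t + ε) ≤ deriv v t * (v t0 + ε) := by
      intro ε hε
      have h3 : deriv v t0 / (v t0 + ε) ≤ deriv v t / (v t + ε) :=
        S7_mono (f := fun s => deriv v s / (v s + ε))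
          (f' := fun s => (deriv (deriv v) s * (v s + ε) - deriv v s * deriv v s) / (v s + ε) ^ 2)
          (fun s hs => by
            have hTs : T < s := ht0.trans_le hs
            have h5 := h0 s hTs
            exact (hd2 s hTs).div ((hd1 s hTs).add_const ε) (by linarith))
          (fun s hs => by
            have hTs : T < s := ht0.trans_le hs
            have h5 := h1 s hTs
            have h6 := hpp s hTs
            apply div_nonneg _ (sq_nonneg _)
            nlinarith) le_rfl ht
      have h5 := h0 t hTt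
      rw [div_le_div_iff₀ (by linarith) (by linarith)] at h3
      linarith
    have hlim : deriv v t0 * v t ≤ deriv v t * v t0 := by
      by_contra hcon
      push Not at hcon
      obtain ⟨D, hD⟩ : ∃ D, D = deriv v t0 * v t - deriv v t * v t0 := ⟨_, rfl⟩
      have hD0 : 0 < D := by rw [hD]; linarith
      obtain ⟨ε, hεd⟩ : ∃ ε, ε = D / (2 * (1 - deriv v t0)) := ⟨_, rfl⟩
      have hn0 := hneg t0 ht0
      have hnt := hneg t hTt
      have h7 : 0 < 1 - deriv v t0 := by linarith
      have hε0 : 0 < ε := by rw [hεd]; positivity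
      have h8 := hε ε hε0
      have h9 : ε * (1 - deriv v t0) = D / 2 := by
        rw [hεd]
        field_simp
      nlinarith
    rw [hσ, neg_neg, div_mul_eq_mul_div, div_le_iff₀ hpos]
    exact hlim
  -- positivity
  have hexp : ∀ t, t0 ≤ t → 0 < v t := by
    intro t ht
    have h3 : v t0 * Real.exp (σ * t0) ≤ v t * Real.exp (σ * t) :=
      S7_mono (f := fun s => v s * Real.exp (σ * s))
        (f' := fun s => deriv v s * Real.exp (σ * s) + v s * (Real.exp (σ * s) * (σ * 1)))
        (fun s hs => (hd1 s (ht0.trans_le hs)).mul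
          (((hasDerivAt_id s).const_mul σ).exp))
        (fun s hs => by
          have h4 := hcmp s hs
          have h5 := Real.exp_pos (σ * s)
          have h6 : deriv v s * Real.exp (σ * s) + v s * (Real.exp (σ * s) * (σ * 1)) =
            (deriv v s + σ * v s) * Real.exp (σ * s) := by ring
          rw [h6]
          apply mul_nonneg _ h5.le
          linarith) le_rfl ht
    have h4 : 0 < v t0 * Real.exp (σ * t0) := mul_pos hpos (Real.exp_pos _)
    exact pos_of_mul_pos_left (lt_of_lt_of_le h4 h3) (Real.exp_pos _).le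
  -- the quotient
  have hw1 : ∀ t, t0 ≤ t → -σ ≤ deriv v t / v t := by
    intro t ht
    rw [le_div_iff₀ (hexp t ht)]
    exact hcmp t ht
  have hw2 : ∀ t, t0 ≤ t → deriv v t / v t ≤ 0 := fun t ht =>
    div_nonpos_of_nonpos_of_nonneg (hneg t (ht0.trans_le ht)) (hexp t ht).le
  obtain ⟨t2, ht2⟩ : ∃ t2, t2 = max t0 ((σ ^ 2 + 1) / (c * β)) := ⟨_, rfl⟩
  have ht02 : t0 ≤ t2 := by rw [ht2]; exact le_max_left _ _
  have hbig : ∀ t, t2 ≤ t → σ ^ 2 + 1 ≤ c * Real.exp (β * t) := by
    intro t ht
    have h3 : (σ ^ 2 + 1) / (c * β) ≤ t := by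
      refine le_trans ?_ ht
      rw [ht2]
      exact le_max_right _ _
    rw [div_le_iff₀ (by positivity)] at h3
    have h4 := Real.add_one_le_exp (β * t)
    nlinarith
  have hfin : ∀ t, t2 ≤ t → deriv v t2 / v t2 - t2 ≤ deriv v t / v t - t := fun t ht =>
    S7_mono (f := fun s => deriv v s / v s - s)
      (f' := fun s => (deriv (deriv v) s * v s - deriv v s * deriv v s) / v s ^ 2 - 1)
      (fun s hs => by
        have hs0 : t0 ≤ s := ht02.trans hs
        exact ((hd2 s (ht0.trans_le hs0)).div (hd1 s (ht0.trans_le hs0)) (hexp s hs0).ne').sub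
          (hasDerivAt_id s))
      (fun s hs => by
        have hs0 : t0 ≤ s := ht02.trans hs
        have hTs := ht0.trans_le hs0
        have h3 := hexp s hs0
        have h4 := hw1 s hs0
        have h5 := hw2 s hs0
        have h6 : (deriv v s / v s) ^ 2 ≤ σ ^ 2 := by nlinarith
        have h7 : (deriv (deriv v) s * v s - deriv v s * deriv v s) / v s ^ 2 =
            deriv (deriv v) s / v s - (deriv v s / v s) ^ 2 := by
          field_simp
        have h8 : c * Real.exp (β * s) ≤ deriv (deriv v) s / v s := by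
          rw [le_div_iff₀ h3]
          exact h2 s hTs
        have h9 := hbig s hs
        rw [h7]
        linarith) le_rfl ht
  have h3 := hfin (t2 + σ + 1) (by linarith)
  have h4 := hw1 t2 ht02
  have h5 := hw2 (t2 + σ + 1) (by linarith)
  linarith

end FC76
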