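import Pool.Agent.H76.FL.S4
import Pool.Agent.H76.FL.S5
import Pool.Agent.H76.FL.S6
import Pool.Agent.H76.FL.S7

/-!
# Row S8: conclusion over the punctured disc: M (Pset R K) = 0

Data D, R, AnnZero.  Use `sn_mean`: if M(Pset) ≠ 0 we have k, b.  V(p) := ‖y - b(x)‖^2 ‖A/x‖^2 >= 0, t(p) = -log‖x‖, T0 := -log R.
Fix a smooth bump η >= 0 on ℝ with support in [-1,1], ∫ η = 1 (any δ = 1).  For τ > T0 + 1 put v(τ) := ∫_{Pset} η(τ - t(p)) V(p) dM.
 * v is smooth (only points with ‖x‖ in a compact subinterval of (0,R) contribute, for τ in a bounded interval; there M is finite (nsq Z >= ‖A‖^2 >= const) and V bounded): differentiate under the integral,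
   v'(τ) = ∫ η'(τ-t) V, v''(τ) = ∫ η''(τ-t) V.
 * bounded: V <= (2K)^2 ‖A‖^2/‖x‖^2, so v(τ) <= 4K^2 sup η ∫_{|t(p)-τ| <= 1} ‖x‖^(-2) ‖A‖^2 dM <= C k ∫_{e^(-τ-1) <= ‖x‖ <= e^(-τ+1)} ‖x‖^(-2) dx (use (i) with a continuous χ between) = const, uniformly in τ (for τ > T0+2, say; work with T := T0 + 2).
 * v'^2 <= v v'': for every real l apply `sn_second` with χ(s) := e^(l s) η(τ - s): LHS = ∫ (χ''(t) e^(-l t)) V dM = l^2 v - 2 l v' + v'' (χ''(s) e^(-ls) = l^2 η(τ-s) - 2 l η'(τ-s) + η''(τ-s); ‖x‖^l = e^(-l t)) and RHS >= 0 (χ >= 0).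
   So l^2 v - 2 l v' + v'' >= 0 for all l, whence v'^2 <= v v''.
 * v'' >= c' e^((2m-2)τ) v: `sn_second` with l = 0 and χ(s) = η(τ-s): v''(τ) = 4∫χ(t)‖B - A b'‖^2 dM >= 4c ∫ χ(t) e^((2m-2)t) V dM >= 4 c e^(-(2m-2)) e^((2m-2)τ) v(τ) since t >= τ - 1 on the support (m >= 2 so 2m-2 >= 2 > 0).
 `ode_zero`: v = 0 on (T, oo).  Hence V = 0 M-a.e. on {p in Pset : t(p) > T + 1}, i.e. y = b(x) M-a.e. there (A ≠ 0, x ≠ 0): M restricted to {p in Pset: ‖x‖ < e^(-T-1) =: R1} is carried by γ '' pdisc R1, γ(x) = (x, b(x)), which is M-null by `Inv.dif`.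
 So M(Pset R1 K) = 0.  (The claim is only for some smaller radius R1.)
-/

open MvPolynomial MeasureTheory
open scoped ContDiff ComplexConjugate

namespace FC76

section S8real

theorem S8_int0 (nu : Measure ℝ) [IsLocallyFiniteMeasure nu] (g : ℝ → ℝ) (hg : Continuous g)
    (hc : HasCompactSupport g) (τ : ℝ) : Integrable (fun t => g (τ - t)) nu := by
  have h1 : Continuous fun t => g (τ - t) := hg.comp (continuous_const.sub continuous_id)
  refine h1.integrable_of_hasCompactSupport ?_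
  exact hc.comp_homeomorph (Homeomorph.subLeft τ)

theorem S8_der (nu : Measure ℝ) [IsLocallyFiniteMeasure nu] (g : ℝ → ℝ) (hg : ContDiff ℝ 1 g)
    (hc : HasCompactSupport g) (τ : ℝ) :
    HasDerivAt (fun s => ∫ t, g (s - t) ∂nu) (∫ t, deriv g (τ - t) ∂nu) τ := by
  have hg' : Continuous (deriv g) := hg.continuous_deriv le_rfl
  have hc' : HasCompactSupport (deriv g) := hc.deriv
  obtain ⟨C, hC⟩ := hg'.bounded_above_of_compact_support hc'
  obtain ⟨R, hR⟩ := hc'.isBounded.subset_closedBall 0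
  have hz : ∀ s, R < |s| → deriv g s = 0 := by
    intro s hs
    by_contra hne
    have h1 := hR (subset_tsupport _ (Function.mem_support.2 hne))
    rw [Metric.mem_closedBall, dist_zero_right, Real.norm_eq_abs] at h1
    linarith
  have hCn : 0 ≤ C := (norm_nonneg _).trans (hC 0)
  refine (hasDerivAt_integral_of_dominated_loc_of_deriv_le (μ := nu) (x₀ := τ)
    (F := fun s t => g (s - t)) (F' := fun s t => deriv g (s - t))
    (bound := (Set.Icc (τ - R - 1) (τ + R + 1)).indicator fun _ => C)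
    (Metric.ball_mem_nhds τ one_pos) ?_ (S8_int0 nu g hg.continuous hc τ) ?_ ?_ ?_ ?_).2
  · exact Filter.Eventually.of_forall fun s =>
      (hg.continuous.comp (continuous_const.sub continuous_id)).aestronglyMeasurable
  · exact (hg'.comp (continuous_const.sub continuous_id)).aestronglyMeasurable
  · refine Filter.Eventually.of_forall fun t s hs => ?_
    rw [Metric.mem_ball, Real.dist_eq, abs_lt] at hs
    by_cases ht : t ∈ Set.Icc (τ - R - 1) (τ + R + 1)
    · rw [Set.indicator_of_mem ht]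
      exact hC _
    · rw [Set.indicator_of_notMem ht]
      have h1 : R < |s - t| := by
        rw [Set.mem_Icc, not_and_or, not_le, not_le] at ht
        rw [lt_abs]
        rcases ht with ht | ht
        · left; linarith
        · right; linarith
      rw [hz _ h1, norm_zero]
  · rw [integrable_indicator_iff measurableSet_Icc]
    exact integrableOn_const (isCompact_Icc.measure_lt_top.ne)
  · refine Filter.Eventually.of_forall fun t s _ => ?_
    have h1 : HasDerivAt g (deriv g (s - t)) (s - t) :=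
      (hg.differentiable one_ne_zero).differentiableAt.hasDerivAt
    have h2 : HasDerivAt (fun s : ℝ => s - t) 1 s := (hasDerivAt_id s).sub_const t
    have h3 := h1.comp s h2
    rw [mul_one] at h3
    exact h3

theorem S8_smooth (nu : Measure ℝ) [IsLocallyFiniteMeasure nu] (n : ℕ) : ∀ (g : ℝ → ℝ),
    ContDiff ℝ ∞ g → HasCompactSupport g → ContDiff ℝ n (fun s => ∫ t, g (s - t) ∂nu) := by
  induction n with
  | zero =>
    intro g hg hc
    rw [Nat.cast_zero, contDiff_zero]
    exact continuous_iff_continuousAt.2 fun s =>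
      (S8_der nu g (hg.of_le (by exact_mod_cast le_top)) hc s).continuousAt
  | succ n ih =>
    intro g hg hc
    have hd : ∀ s, HasDerivAt (fun s => ∫ t, g (s - t) ∂nu) (∫ t, deriv g (s - t) ∂nu) s :=
      fun s => S8_der nu g (hg.of_le (by exact_mod_cast le_top)) hc s
    have hg' : ContDiff ℝ ∞ (deriv g) := (contDiff_infty_iff_deriv.1 hg).2
    push_cast
    rw [contDiff_succ_iff_deriv]
    refine ⟨fun s => (hd s).differentiableAt, by simp, ?_⟩
    have : deriv (fun s => ∫ t, g (s - t) ∂nu) = fun s => ∫ t, deriv g (s - t) ∂nu :=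
      funext fun s => (hd s).deriv
    rw [this]
    exact ih _ hg' hc.deriv

/-- the bump -/
noncomputable def S8_b : ContDiffBump (0 : ℝ) where
  rIn := 1 / 2
  rOut := 1
  rIn_pos := by norm_num
  rIn_lt_rOut := by norm_num

/-- the bump as a function -/
noncomputable def S8_e (s : ℝ) : ℝ := S8_b s

theorem S8_e_smooth : ContDiff ℝ ∞ S8_e := S8_b.contDiff

theorem S8_e_cs : HasCompactSupport S8_e := S8_b.hasCompactSupport

theorem S8_e_nonneg (s : ℝ) : 0 ≤ S8_e s := S8_b.nonneg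

theorem S8_e_zero {s : ℝ} (h : 1 ≤ |s|) : S8_e s = 0 := by
  apply S8_b.zero_of_le_dist
  rw [dist_zero_right]
  exact h

theorem S8_e_one {s : ℝ} (h : |s| ≤ 1 / 2) : S8_e s = 1 := by
  apply S8_b.one_of_mem_closedBall
  rw [Metric.mem_closedBall, dist_zero_right]
  exact h

/-- the real variable part -/
theorem S8_real (nu : Measure ℝ) [IsLocallyFiniteMeasure nu] (T0 β c Cv : ℝ) (hβ : 0 < β)
    (hc : 0 < c) (hb : ∀ τ, T0 + 2 < τ → ∫ t, S8_e (τ - t) ∂nu ≤ Cv)
    (h1 : ∀ (l : ℝ) (χ : ℝ → ℝ), ContDiff ℝ ∞ χ → HasCompactSupport χ → tsupport χ ⊆ Set.Ioi T0 →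
      (∀ t, 0 ≤ χ t) → 0 ≤ ∫ t, deriv (deriv χ) t * Real.exp (-(l * t)) ∂nu)
    (h2 : ∀ (χ : ℝ → ℝ), ContDiff ℝ ∞ χ → HasCompactSupport χ → tsupport χ ⊆ Set.Ioi T0 →
      (∀ t, 0 ≤ χ t) → c * ∫ t, χ t * Real.exp (β * t) ∂nu ≤ ∫ t, deriv (deriv χ) t ∂nu) :
    nu (Set.Ioi (T0 + 2)) = 0 := by
  set v : ℝ → ℝ := fun τ => ∫ t, S8_e (τ - t) ∂nu with hv
  have he1 : ContDiff ℝ ∞ (deriv S8_e) := (contDiff_infty_iff_deriv.1 S8_e_smooth).2
  have he2 : ContDiff ℝ ∞ (deriv (deriv S8_e)) := (contDiff_infty_iff_deriv.1 he1).2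
  have hd0 : Differentiable ℝ S8_e := (contDiff_infty_iff_deriv.1 S8_e_smooth).1
  have hd1 : Differentiable ℝ (deriv S8_e) := (contDiff_infty_iff_deriv.1 he1).1
  have hv1 : deriv v = fun τ => ∫ t, deriv S8_e (τ - t) ∂nu := funext fun τ =>
    (S8_der nu S8_e (S8_e_smooth.of_le (by exact_mod_cast le_top)) S8_e_cs τ).deriv
  have hv2 : deriv (deriv v) = fun τ => ∫ t, deriv (deriv S8_e) (τ - t) ∂nu := by
    rw [hv1]
    exact funext fun τ =>
      (S8_der nu (deriv S8_e) (he1.of_le (by exact_mod_cast le_top)) S8_e_cs.deriv τ).deriv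
  -- the test functions
  have htest : ∀ (l τ : ℝ), T0 + 2 < τ →
      (ContDiff ℝ ∞ fun s => Real.exp (l * s) * S8_e (τ - s)) ∧
      (HasCompactSupport fun s => Real.exp (l * s) * S8_e (τ - s)) ∧
      (tsupport (fun s => Real.exp (l * s) * S8_e (τ - s)) ⊆ Set.Ioi T0) ∧
      (∀ s, 0 ≤ Real.exp (l * s) * S8_e (τ - s)) ∧
      (∀ s, deriv (deriv fun s => Real.exp (l * s) * S8_e (τ - s)) s =
        Real.exp (l * s) * (l ^ 2 * S8_e (τ - s) - 2 * l * deriv S8_e (τ - s) +
          deriv (deriv S8_e) (τ - s))) := by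
    intro l τ hτ
    have hsup : Function.support (fun s => Real.exp (l * s) * S8_e (τ - s)) ⊆
        Set.Icc (τ - 1) (τ + 1) := by
      intro s hs
      by_contra hcon
      apply hs
      have : S8_e (τ - s) = 0 := by
        apply S8_e_zero
        rw [Set.mem_Icc, not_and_or, not_le, not_le] at hcon
        rw [le_abs]
        rcases hcon with h | h
        · left; linarith
        · right; linarith
      change Real.exp (l * s) * S8_e (τ - s) = 0
      rw [this, mul_zero]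
    refine ⟨?_, ?_, ?_, ?_, ?_⟩
    · have := S8_e_smooth
      fun_prop
    · exact HasCompactSupport.of_support_subset_isCompact isCompact_Icc hsup
    · refine (closure_minimal hsup isClosed_Icc).trans ?_
      intro s hs
      have h9 : τ - 1 ≤ s := hs.1
      exact Set.mem_Ioi.2 (by linarith)
    · intro s
      exact mul_nonneg (Real.exp_pos _).le (S8_e_nonneg _)
    · have hexp : ∀ s, HasDerivAt (fun s : ℝ => Real.exp (l * s)) (Real.exp (l * s) * l) s := by
        intro s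
        have h3 : HasDerivAt (fun s : ℝ => l * s) l s := by
          simpa using (hasDerivAt_id s).const_mul l
        exact h3.exp
      have hsub : ∀ s, HasDerivAt (fun s : ℝ => τ - s) (-1) s := by
        intro s
        simpa using (hasDerivAt_id s).const_sub τ
      have he : ∀ s, HasDerivAt (fun s => S8_e (τ - s)) (-(deriv S8_e (τ - s))) s := by
        intro s
        have h3 := (hd0 (τ - s)).hasDerivAt.comp s (hsub s)
        rw [mul_neg_one] at h3
        exact h3
      have he' : ∀ s, HasDerivAt (fun s => deriv S8_e (τ - s)) (-(deriv (deriv S8_e) (τ - s))) s := by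
        intro s
        have h3 := (hd1 (τ - s)).hasDerivAt.comp s (hsub s)
        rw [mul_neg_one] at h3
        exact h3
      have hfirst : (deriv fun s => Real.exp (l * s) * S8_e (τ - s)) = fun s =>
          Real.exp (l * s) * (l * S8_e (τ - s) - deriv S8_e (τ - s)) := by
        funext s
        have h3 : HasDerivAt (fun s => Real.exp (l * s) * S8_e (τ - s))
            (Real.exp (l * s) * l * S8_e (τ - s) + Real.exp (l * s) * (-(deriv S8_e (τ - s)))) s :=
          (hexp s).mul (he s)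
        rw [h3.deriv]
        ring
      intro s
      rw [hfirst]
      have h4 : HasDerivAt (fun s => Real.exp (l * s) * (l * S8_e (τ - s) - deriv S8_e (τ - s)))
          (Real.exp (l * s) * l * (l * S8_e (τ - s) - deriv S8_e (τ - s)) + Real.exp (l * s) *
            (l * (-(deriv S8_e (τ - s))) - -(deriv (deriv S8_e) (τ - s)))) s :=
        (hexp s).mul (((he s).const_mul l).sub (he' s))
      rw [h4.deriv]
      ring
  have hint : ∀ τ, Integrable (fun t => S8_e (τ - t)) nu := fun τ =>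
    S8_int0 nu _ S8_e_smooth.continuous S8_e_cs τ
  have hint1 : ∀ τ, Integrable (fun t => deriv S8_e (τ - t)) nu := fun τ =>
    S8_int0 nu _ he1.continuous S8_e_cs.deriv τ
  have hint2 : ∀ τ, Integrable (fun t => deriv (deriv S8_e) (τ - t)) nu := fun τ =>
    S8_int0 nu _ he2.continuous S8_e_cs.deriv.deriv τ
  have hzero : ∀ τ, T0 + 2 < τ → v τ = 0 := by
    refine ode_zero v (T0 + 2) β (c * Real.exp (-β)) Cv hβ (by positivity)
      (S8_smooth nu 2 _ S8_e_smooth S8_e_cs).contDiffOn ?_ hb ?_ ?_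
    · intro τ _
      exact integral_nonneg fun t => S8_e_nonneg _
    · intro τ hτ
      have hq : ∀ l : ℝ, 0 ≤ v τ * (l * l) + (-(2 * deriv v τ)) * l + deriv (deriv v) τ := by
        intro l
        obtain ⟨t1, t2, t3, t4, t5⟩ := htest l τ hτ
        have h3 := h1 l _ t1 t2 t3 t4
        have h4 : ∀ t, deriv (deriv fun s => Real.exp (l * s) * S8_e (τ - s)) t *
            Real.exp (-(l * t)) = l ^ 2 * S8_e (τ - t) - 2 * l * deriv S8_e (τ - t) +
              deriv (deriv S8_e) (τ - t) := by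
          intro t
          rw [t5, mul_comm (Real.exp (l * t)), mul_assoc, ← Real.exp_add, add_neg_cancel,
            Real.exp_zero, mul_one]
        simp only [h4] at h3
        have hi1 : Integrable (fun t => l ^ 2 * S8_e (τ - t)) nu := (hint τ).const_mul _
        have hi2 : Integrable (fun t => 2 * l * deriv S8_e (τ - t)) nu := (hint1 τ).const_mul _
        have hi3 : Integrable (fun t => l ^ 2 * S8_e (τ - t) - 2 * l * deriv S8_e (τ - t)) nu :=
          hi1.sub hi2
        rw [integral_add hi3 (hint2 τ), integral_sub hi1 hi2, integral_const_mul,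
          integral_const_mul] at h3
        rw [hv2, hv1]
        refine h3.trans (le_of_eq ?_)
        simp only [hv]
        ring
      have h3 := discrim_le_zero hq
      rw [discrim] at h3
      nlinarith
    · intro τ hτ
      obtain ⟨t1, t2, t3, t4, t5⟩ := htest 0 τ hτ
      have h3 := h2 _ t1 t2 t3 t4
      simp only [t5] at h3
      simp only [zero_mul, Real.exp_zero, one_mul, mul_zero, ne_eq, OfNat.ofNat_ne_zero,
        not_false_eq_true, zero_pow, sub_zero, zero_add] at h3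
      rw [hv2]
      refine le_trans ?_ h3
      have e3 : c * Real.exp (-β) * Real.exp (β * τ) * v τ =
          c * (Real.exp (-β) * (Real.exp (β * τ) * v τ)) := by ring
      rw [e3]
      refine mul_le_mul_of_nonneg_left ?_ hc.le
      simp only [hv]
      have e : Real.exp (-β) * (Real.exp (β * τ) * ∫ t, S8_e (τ - t) ∂nu) =
          ∫ t, Real.exp (β * (τ - 1)) * S8_e (τ - t) ∂nu := by
        rw [integral_const_mul, ← mul_assoc, ← Real.exp_add]
        congr 2
        ring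
      rw [e]
      refine integral_mono ((hint τ).const_mul _) ?_ ?_
      · have hcont : Continuous fun t => S8_e (τ - t) * Real.exp (β * t) := by
          have := S8_e_smooth.continuous
          fun_prop
        refine hcont.integrable_of_hasCompactSupport ?_
        exact (S8_e_cs.comp_homeomorph (Homeomorph.subLeft τ)).mul_right
      · intro t
        change Real.exp (β * (τ - 1)) * S8_e (τ - t) ≤ S8_e (τ - t) * Real.exp (β * t)
        rw [mul_comm]
        rcases le_or_gt 1 |τ - t| with h | h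
        · rw [S8_e_zero h]
          simp
        · apply mul_le_mul_of_nonneg_left _ (S8_e_nonneg _)
          apply Real.exp_le_exp.2
          rw [abs_lt] at h
          nlinarith [h.1, h.2]
  -- conclusion
  have hnull : ∀ τ, T0 + 2 < τ → nu (Set.Ioo (τ - 1 / 2) (τ + 1 / 2)) = 0 := by
    intro τ hτ
    have h3 : (fun t => S8_e (τ - t)) =ᵐ[nu] 0 :=
      (integral_eq_zero_iff_of_nonneg (fun t => S8_e_nonneg _) (hint τ)).1 (hzero τ hτ)
    refine measure_mono_null ?_ h3
    intro t ht hcon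
    have hcon' : S8_e (τ - t) = 0 := hcon
    rw [S8_e_one] at hcon'
    · exact one_ne_zero hcon'
    · rw [abs_le]
      constructor
      · linarith [ht.2]
      · linarith [ht.1]
  have hcov : Set.Ioi (T0 + 2) ⊆ ⋃ q : {q : ℚ // T0 + 2 < (q : ℝ)},
      Set.Ioo ((q.1 : ℝ) - 1 / 2) ((q.1 : ℝ) + 1 / 2) := by
    intro t ht
    have ht' : T0 + 2 < t := ht
    obtain ⟨q, hq1, hq2⟩ := exists_rat_btwn (show t < t + 1 / 2 by linarith)
    refine Set.mem_iUnion.2 ⟨⟨q, by linarith⟩, ?_⟩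
    constructor
    · change (q : ℝ) - 1 / 2 < t
      linarith
    · change t < (q : ℝ) + 1 / 2
      linarith
  exact measure_mono_null hcov (measure_iUnion_null fun q => hnull q.1 q.2)

end S8real


section S8meas

variable {m : ℕ} {a B h : P2} {ρ : ℝ} {M : Measure (ℂ × ℂ)} {K Cb : ℝ}

theorem S8_ev_cont (f : P2) : Continuous (ev f) := by
  have h : Continuous fun p : ℂ × ℂ => (![p.1, p.2] : Fin 2 → ℂ) := by
    refine continuous_pi fun i => ?_
    fin_cases i
    · exact continuous_fst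
    · exact continuous_snd
  exact (MvPolynomial.continuous_eval f).comp h

theorem S8_pset_open (R K : ℝ) : IsOpen (Pset R K) := by
  have h1 : IsOpen {p : ℂ × ℂ | 0 < ‖p.1‖} := isOpen_lt continuous_const (by fun_prop)
  have h2 : IsOpen {p : ℂ × ℂ | ‖p.1‖ < R} := isOpen_lt (by fun_prop) continuous_const
  have h3 : IsOpen {p : ℂ × ℂ | ‖p.2‖ < 3 * K / 4} := isOpen_lt (by fun_prop) continuous_const
  exact h1.inter (h2.inter h3)

theorem S8_pdisc_open (R : ℝ) : IsOpen (pdisc R) := by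
  have h1 : IsOpen {t : ℂ | 0 < ‖t‖} := isOpen_lt continuous_const (by fun_prop)
  have h2 : IsOpen {t : ℂ | ‖t‖ < R} := isOpen_lt (by fun_prop) continuous_const
  exact h1.inter h2

/-- the logarithmic coordinate -/
noncomputable def S8_t (p : ℂ × ℂ) : ℝ := -Real.log ‖p.1‖

theorem S8_t_meas : Measurable S8_t := by
  unfold S8_t
  exact (Real.measurable_log.comp (measurable_norm.comp measurable_fst)).neg

/-- the weight -/
noncomputable def S8_V (m : ℕ) (a : P2) (b : ℂ → ℂ) (p : ℂ × ℂ) : ℝ :=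
  ‖p.2 - b p.1‖ ^ 2 * ‖ev (X 0 ^ m * a) p / p.1‖ ^ 2

theorem S8_V_nonneg (b : ℂ → ℂ) (p : ℂ × ℂ) : 0 ≤ S8_V m a b p := by
  unfold S8_V
  positivity

theorem S8_V_cont {b : ℂ → ℂ} {R : ℝ} (hb : DifferentiableOn ℂ b (pdisc R)) :
    ContinuousOn (S8_V m a b) (Pset R K) := by
  have h1 : ContinuousOn (fun p : ℂ × ℂ => b p.1) (Pset R K) :=
    hb.continuousOn.comp continuous_fst.continuousOn fun p hp => ⟨hp.1, hp.2.1⟩
  have h2 : ContinuousOn (fun p : ℂ × ℂ => ev (X 0 ^ m * a) p / p.1) (Pset R K) := by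
    refine (S8_ev_cont _).continuousOn.div continuous_fst.continuousOn ?_
    intro p hp
    exact norm_pos_iff.1 hp.1
  unfold S8_V
  exact ((continuous_snd.continuousOn.sub h1).norm.pow 2).mul (h2.norm.pow 2)

/-- the measure on the line -/
noncomputable def S8_nu (m : ℕ) (a : P2) (b : ℂ → ℂ) (M : Measure (ℂ × ℂ)) (R K : ℝ) : Measure ℝ :=
  ((M.restrict (Pset R K)).withDensity (fun p => ENNReal.ofReal (S8_V m a b p))).map S8_t

theorem S8_aem {b : ℂ → ℂ} {R : ℝ} (hb : DifferentiableOn ℂ b (pdisc R)) :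
    AEMeasurable (fun p => ENNReal.ofReal (S8_V m a b p)) (M.restrict (Pset R K)) :=
  ((S8_V_cont hb).aemeasurable (S8_pset_open R K).measurableSet).ennreal_ofReal

theorem S8_int {b : ℂ → ℂ} {R : ℝ} (hb : DifferentiableOn ℂ b (pdisc R)) (φ : ℝ → ℝ)
    (hφ : Continuous φ) :
    ∫ p in Pset R K, φ (-Real.log ‖p.1‖) * S8_V m a b p ∂M = ∫ t, φ t ∂(S8_nu m a b M R K) := by
  unfold S8_nu
  rw [integral_map S8_t_meas.aemeasurable hφ.aestronglyMeasurable,
    integral_withDensity_eq_integral_toReal_smul₀ (S8_aem hb)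
      (Filter.Eventually.of_forall fun p => ENNReal.ofReal_lt_top)]
  refine integral_congr_ae (Filter.Eventually.of_forall fun p => ?_)
  change φ (-Real.log ‖p.1‖) * S8_V m a b p =
    (ENNReal.ofReal (S8_V m a b p)).toReal • φ (-Real.log ‖p.1‖)
  rw [ENNReal.toReal_ofReal (S8_V_nonneg b p), smul_eq_mul, mul_comm]

theorem S8_Vle {b : ℂ → ℂ} {R : ℝ} (hK : 0 < K) (hbK : ∀ x ∈ pdisc R, ‖b x‖ ≤ K)
    {p : ℂ × ℂ} (hp : p ∈ Pset R K) :
    S8_V m a b p ≤ 4 * K ^ 2 * (‖ev (X 0 ^ m * a) p‖ ^ 2 / ‖p.1‖ ^ 2) := by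
  have h1 : ‖p.2 - b p.1‖ ≤ 2 * K := by
    refine (norm_sub_le _ _).trans ?_
    have := hbK p.1 ⟨hp.1, hp.2.1⟩
    have h2 := hp.2.2
    linarith
  have h2 : ‖p.2 - b p.1‖ ^ 2 ≤ (2 * K) ^ 2 := pow_le_pow_left₀ (norm_nonneg _) h1 2
  unfold S8_V
  rw [norm_div, div_pow]
  have h3 : (4 : ℝ) * K ^ 2 = (2 * K) ^ 2 := by ring
  rw [h3]
  exact mul_le_mul_of_nonneg_right h2 (by positivity)

theorem S8_finA (D : SNData m a B h ρ M K Cb) :
    ∫⁻ p, ENNReal.ofReal (‖ev (X 0 ^ m * a) p‖ ^ 2) ∂M < ⊤ := by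
  refine lt_of_le_of_lt (lintegral_mono fun p => ?_) D.inv.fin
  apply ENNReal.ofReal_le_ofReal
  unfold nsq vf
  have := sq_nonneg ‖ev B p‖
  simp only
  linarith

theorem S8_exp {x : ℂ} {τ : ℝ} (h0 : 0 < ‖x‖) (h : -Real.log ‖x‖ ≤ τ) :
    1 / ‖x‖ ^ 2 ≤ Real.exp (2 * τ) := by
  have h1 : Real.exp (-τ) ≤ ‖x‖ := by
    rw [← Real.exp_log h0]
    apply Real.exp_le_exp.2
    linarith
  have h2 : Real.exp (2 * τ) = 1 / (Real.exp (-τ)) ^ 2 := by
    rw [one_div, ← Real.exp_nat_mul, ← Real.exp_neg]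
    congr 1
    push_cast
    ring
  rw [h2]
  apply one_div_le_one_div_of_le
  · positivity
  · exact pow_le_pow_left₀ (Real.exp_pos _).le h1 2

theorem S8_fin (D : SNData m a B h ρ M K Cb) {b : ℂ → ℂ} {R : ℝ}
    (hbK : ∀ x ∈ pdisc R, ‖b x‖ ≤ K) (τ : ℝ) : S8_nu m a b M R K (Set.Iic τ) < ⊤ := by
  unfold S8_nu
  rw [Measure.map_apply S8_t_meas measurableSet_Iic,
    withDensity_apply _ (S8_t_meas measurableSet_Iic), Measure.restrict_restrict
      (S8_t_meas measurableSet_Iic)]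
  have hm : MeasurableSet (S8_t ⁻¹' Set.Iic τ ∩ Pset R K) :=
    (S8_t_meas measurableSet_Iic).inter (S8_pset_open R K).measurableSet
  calc ∫⁻ p in S8_t ⁻¹' Set.Iic τ ∩ Pset R K, ENNReal.ofReal (S8_V m a b p) ∂M
      ≤ ∫⁻ p in S8_t ⁻¹' Set.Iic τ ∩ Pset R K,
          ENNReal.ofReal (4 * K ^ 2 * Real.exp (2 * τ)) *
            ENNReal.ofReal (‖ev (X 0 ^ m * a) p‖ ^ 2) ∂M := by
        refine setLIntegral_mono' hm fun p hp => ?_
        rw [← ENNReal.ofReal_mul (by positivity)]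
        apply ENNReal.ofReal_le_ofReal
        refine (S8_Vle D.hK hbK hp.2).trans ?_
        have h1 : -Real.log ‖p.1‖ ≤ τ := hp.1
        have h2 := S8_exp hp.2.1 h1
        have e3 : 4 * K ^ 2 * (‖ev (X 0 ^ m * a) p‖ ^ 2 / ‖p.1‖ ^ 2) =
            4 * K ^ 2 * (1 / ‖p.1‖ ^ 2) * ‖ev (X 0 ^ m * a) p‖ ^ 2 := by ring
        rw [e3]
        exact mul_le_mul_of_nonneg_right (mul_le_mul_of_nonneg_left h2 (by positivity))
          (by positivity)
    _ ≤ ∫⁻ p, ENNReal.ofReal (4 * K ^ 2 * Real.exp (2 * τ)) *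
            ENNReal.ofReal (‖ev (X 0 ^ m * a) p‖ ^ 2) ∂M := setLIntegral_le_lintegral _ _
    _ = ENNReal.ofReal (4 * K ^ 2 * Real.exp (2 * τ)) *
          ∫⁻ p, ENNReal.ofReal (‖ev (X 0 ^ m * a) p‖ ^ 2) ∂M := by
        rw [lintegral_const_mul' _ _ ENNReal.ofReal_ne_top]
    _ < ⊤ := ENNReal.mul_lt_top ENNReal.ofReal_lt_top (S8_finA D)

/-- the scaled test function -/
noncomputable def S8_chi (τ : ℝ) (z : ℂ) : ℝ := S8_e (τ + Real.log ‖z‖) / ‖z‖ ^ 2

theorem S8_chi_scale (τ : ℝ) : ∫ z, S8_chi τ z = ∫ z, S8_chi 0 z := by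
  have h1 := Measure.integral_comp_smul (volume : Measure ℂ) (S8_chi τ) (Real.exp (-τ))
  have h2 : ∀ z : ℂ, S8_chi τ (Real.exp (-τ) • z) = Real.exp (2 * τ) * S8_chi 0 z := by
    intro z
    rcases eq_or_ne z 0 with rfl | hz
    · simp [S8_chi]
    · have hz' : 0 < ‖z‖ := norm_pos_iff.2 hz
      unfold S8_chi
      rw [norm_smul, Real.norm_of_nonneg (Real.exp_pos _).le, Real.log_mul (Real.exp_pos _).ne' hz'.ne',
        Real.log_exp, mul_pow]
      have e1 : τ + (-τ + Real.log ‖z‖) = 0 + Real.log ‖z‖ := by ring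
      have e2 : Real.exp (2 * τ) = ((Real.exp (-τ)) ^ 2)⁻¹ := by
        rw [← Real.exp_nat_mul, ← Real.exp_neg]
        congr 1
        push_cast
        ring
      rw [e1, e2]
      field_simp
  simp only [h2] at h1
  rw [integral_const_mul, Complex.finrank_real_complex, smul_eq_mul, abs_of_pos (by positivity)] at h1
  have e2 : ((Real.exp (-τ)) ^ 2)⁻¹ = Real.exp (2 * τ) := by
    rw [← Real.exp_nat_mul, ← Real.exp_neg]
    congr 1
    push_cast
    ring
  rw [e2] at h1
  exact (mul_left_cancel₀ (Real.exp_pos _).ne' h1).symm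

theorem S8_chi_zero {τ : ℝ} {z : ℂ} (hz : ‖z‖ < Real.exp (-τ - 1)) : S8_chi τ z = 0 := by
  rcases eq_or_ne z 0 with rfl | hz0
  · simp [S8_chi]
  · have hz' : 0 < ‖z‖ := norm_pos_iff.2 hz0
    unfold S8_chi
    rw [S8_e_zero, zero_div]
    rw [le_abs]
    right
    have := Real.log_lt_log hz' hz
    rw [Real.log_exp] at this
    linarith

theorem S8_chi_zero' {τ : ℝ} {z : ℂ} (hz : Real.exp (-τ + 1) < ‖z‖) : S8_chi τ z = 0 := by
  have hz' : 0 < ‖z‖ := (Real.exp_pos _).trans hz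
  unfold S8_chi
  rw [S8_e_zero, zero_div]
  rw [le_abs]
  left
  have := Real.log_lt_log (Real.exp_pos _) hz
  rw [Real.log_exp] at this
  linarith

theorem S8_chi_cont (τ : ℝ) : Continuous (S8_chi τ) := by
  rw [continuous_iff_continuousAt]
  intro z
  rcases eq_or_ne z 0 with rfl | hz
  · have h1 : S8_chi τ =ᶠ[nhds (0 : ℂ)] fun _ => 0 := by
      have : {z : ℂ | ‖z‖ < Real.exp (-τ - 1)} ∈ nhds (0 : ℂ) := by
        apply (isOpen_lt continuous_norm continuous_const).mem_nhds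
        change ‖(0 : ℂ)‖ < _
        rw [norm_zero]
        exact Real.exp_pos _
      filter_upwards [this] with w hw
      exact S8_chi_zero hw
    exact (continuousAt_const (y := (0 : ℝ))).congr h1.symm
  · have hz' : ‖z‖ ≠ 0 := norm_ne_zero_iff.2 hz
    unfold S8_chi
    have h1 : ContinuousAt (fun w : ℂ => Real.log ‖w‖) z := continuous_norm.continuousAt.log hz'
    have h2 : ContinuousAt (fun w : ℂ => S8_e (τ + Real.log ‖w‖)) z :=
      S8_e_smooth.continuous.continuousAt.comp (continuousAt_const.add h1)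
    exact h2.div (continuous_norm.continuousAt.pow 2) (pow_ne_zero 2 hz')

theorem S8_chi_sup (τ : ℝ) : Function.support (S8_chi τ) ⊆
    {z : ℂ | Real.exp (-τ - 1) ≤ ‖z‖ ∧ ‖z‖ ≤ Real.exp (-τ + 1)} := by
  intro z hz
  constructor
  · by_contra hcon
    exact hz (S8_chi_zero (not_le.1 hcon))
  · by_contra hcon
    exact hz (S8_chi_zero' (not_le.1 hcon))

theorem S8_chi_closed (τ : ℝ) :
    IsClosed {z : ℂ | Real.exp (-τ - 1) ≤ ‖z‖ ∧ ‖z‖ ≤ Real.exp (-τ + 1)} :=
  (isClosed_le continuous_const continuous_norm).inter (isClosed_le continuous_norm continuous_const)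

theorem S8_bound (D : SNData m a B h ρ M K Cb) {b : ℂ → ℂ} {R k : ℝ} (hR : 0 < R)
    (hb : DifferentiableOn ℂ b (pdisc R)) (hbK : ∀ x ∈ pdisc R, ‖b x‖ ≤ K)
    (hmean : ∀ χ : ℂ → ℂ, Continuous χ → HasCompactSupport χ → tsupport χ ⊆ pdisc R →
        ∫ p in Pset R K, χ p.1 * ((‖ev (X 0 ^ m * a) p‖ ^ 2 : ℝ) : ℂ) ∂M = (k : ℂ) * ∫ z, χ z)
    {τ : ℝ} (hτ : -Real.log R + 2 < τ) :
    ∫ t, S8_e (τ - t) ∂(S8_nu m a b M R K) ≤ 4 * K ^ 2 * (k * ∫ z, S8_chi 0 z) := by
  have hcont : Continuous fun t => S8_e (τ - t) := by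
    have := S8_e_smooth.continuous
    fun_prop
  rw [← S8_int hb _ hcont]
  -- the mean formula for the test function
  have hsup : Function.support (fun z : ℂ => ((S8_chi τ z : ℝ) : ℂ)) ⊆
      {z : ℂ | Real.exp (-τ - 1) ≤ ‖z‖ ∧ ‖z‖ ≤ Real.exp (-τ + 1)} := by
    intro z hz
    apply S8_chi_sup
    intro h0
    apply hz
    change ((S8_chi τ z : ℝ) : ℂ) = 0
    rw [h0, Complex.ofReal_zero]
  have hcomp : IsCompact {z : ℂ | Real.exp (-τ - 1) ≤ ‖z‖ ∧ ‖z‖ ≤ Real.exp (-τ + 1)} := by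
    refine (isCompact_closedBall (0 : ℂ) (Real.exp (-τ + 1))).of_isClosed_subset
      (S8_chi_closed τ) ?_
    intro z hz
    rw [Metric.mem_closedBall, dist_zero_right]
    exact hz.2
  have h1 := hmean (fun z => ((S8_chi τ z : ℝ) : ℂ))
    (Complex.continuous_ofReal.comp (S8_chi_cont τ))
    (HasCompactSupport.of_support_subset_isCompact hcomp hsup) (by
      refine (closure_minimal hsup (S8_chi_closed τ)).trans ?_
      intro z hz
      refine ⟨(Real.exp_pos _).trans_le hz.1, lt_of_le_of_lt hz.2 ?_⟩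
      rw [← Real.exp_log hR]
      apply Real.exp_lt_exp.2
      linarith)
  have h2 : ∫ p in Pset R K, S8_chi τ p.1 * ‖ev (X 0 ^ m * a) p‖ ^ 2 ∂M = k * ∫ z, S8_chi 0 z := by
    rw [← S8_chi_scale τ]
    have e1 : ∫ p in Pset R K, ((S8_chi τ p.1 : ℝ) : ℂ) * ((‖ev (X 0 ^ m * a) p‖ ^ 2 : ℝ) : ℂ) ∂M =
        ((∫ p in Pset R K, S8_chi τ p.1 * ‖ev (X 0 ^ m * a) p‖ ^ 2 ∂M : ℝ) : ℂ) := by
      refine Eq.trans ?_ (integral_ofReal (𝕜 := ℂ) (μ := M.restrict (Pset R K))
        (f := fun p : ℂ × ℂ => S8_chi τ p.1 * ‖ev (X 0 ^ m * a) p‖ ^ 2))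
      refine integral_congr_ae (Filter.Eventually.of_forall fun p => ?_)
      exact (Complex.ofReal_mul _ _).symm
    have e2 : ∫ z, ((S8_chi τ z : ℝ) : ℂ) = ((∫ z, S8_chi τ z : ℝ) : ℂ) :=
      integral_ofReal (𝕜 := ℂ) (μ := (volume : Measure ℂ)) (f := fun z : ℂ => S8_chi τ z)
    rw [e1, e2, ← Complex.ofReal_mul] at h1
    exact Complex.ofReal_injective h1
  rw [← h2, ← integral_const_mul]
  refine integral_mono_of_nonneg ?_ ?_ ?_
  · exact Filter.Eventually.of_forall fun p => mul_nonneg (S8_e_nonneg _) (S8_V_nonneg b p)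
  · -- integrability
    have hm1 : AEStronglyMeasurable (fun p : ℂ × ℂ => 4 * K ^ 2 *
        (S8_chi τ p.1 * ‖ev (X 0 ^ m * a) p‖ ^ 2)) (M.restrict (Pset R K)) := by
      have hc1 := (S8_chi_cont τ).comp (continuous_fst (X := ℂ) (Y := ℂ))
      have hc2 := (S8_ev_cont (X 0 ^ m * a)).norm.pow 2
      exact (continuous_const.mul (hc1.mul hc2)).aestronglyMeasurable
    refine ⟨hm1, ?_⟩
    rw [hasFiniteIntegral_iff_norm]
    obtain ⟨C, hC⟩ := (S8_chi_cont τ).bounded_above_of_compact_support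
      (HasCompactSupport.of_support_subset_isCompact hcomp (S8_chi_sup τ))
    have hC0 : 0 ≤ C := (norm_nonneg _).trans (hC 0)
    calc ∫⁻ p in Pset R K, ENNReal.ofReal ‖4 * K ^ 2 *
          (S8_chi τ p.1 * ‖ev (X 0 ^ m * a) p‖ ^ 2)‖ ∂M
        ≤ ∫⁻ p, ENNReal.ofReal (4 * K ^ 2 * C) *
            ENNReal.ofReal (‖ev (X 0 ^ m * a) p‖ ^ 2) ∂M := by
          refine (setLIntegral_le_lintegral _ _).trans (lintegral_mono fun p => ?_)
          rw [← ENNReal.ofReal_mul (by positivity)]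
          apply ENNReal.ofReal_le_ofReal
          rw [norm_mul, Real.norm_of_nonneg (show (0 : ℝ) ≤ 4 * K ^ 2 by positivity), norm_mul,
            Real.norm_of_nonneg (show (0 : ℝ) ≤ ‖ev (X 0 ^ m * a) p‖ ^ 2 by positivity),
            mul_assoc (4 * K ^ 2) C]
          apply mul_le_mul_of_nonneg_left _ (by positivity)
          exact mul_le_mul_of_nonneg_right (hC _) (by positivity)
      _ = ENNReal.ofReal (4 * K ^ 2 * C) * ∫⁻ p, ENNReal.ofReal (‖ev (X 0 ^ m * a) p‖ ^ 2) ∂M := by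
          rw [lintegral_const_mul' _ _ ENNReal.ofReal_ne_top]
      _ < ⊤ := ENNReal.mul_lt_top ENNReal.ofReal_lt_top (S8_finA D)
  · refine (ae_restrict_iff' (S8_pset_open R K).measurableSet).2
      (Filter.Eventually.of_forall fun p hp => ?_)
    have h3 := S8_Vle D.hK hbK (m := m) (a := a) hp
    change S8_e (τ - -Real.log ‖p.1‖) * S8_V m a b p ≤
      4 * K ^ 2 * (S8_chi τ p.1 * ‖ev (X 0 ^ m * a) p‖ ^ 2)
    unfold S8_chi
    rw [sub_neg_eq_add]
    calc S8_e (τ + Real.log ‖p.1‖) * S8_V m a b p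
        ≤ S8_e (τ + Real.log ‖p.1‖) * (4 * K ^ 2 * (‖ev (X 0 ^ m * a) p‖ ^ 2 / ‖p.1‖ ^ 2)) :=
          mul_le_mul_of_nonneg_left h3 (S8_e_nonneg _)
      _ = _ := by ring

end S8meas

theorem sn_zero {m : ℕ} {a B h : P2} {ρ : ℝ} {M : Measure (ℂ × ℂ)} {K Cb : ℝ} (D : SNData m a B h ρ M K Cb)
    (R : ℝ) (hR : 0 < R) (hRK : R ≤ K / 2) (hann : AnnZero M R K) :
    ∃ R1 : ℝ, 0 < R1 ∧ M (Pset R1 K) = 0 := by
  rcases sn_mean D R hR hRK hann with h0 | ⟨k, b, hk, hb, hbK, hmean, horth⟩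
  · exact ⟨R, hR, h0⟩
  obtain ⟨c, hc, hvar⟩ := sn_variance D R hR hRK b hb hbK horth
  have : IsLocallyFiniteMeasure (S8_nu m a b M R K) :=
    ⟨fun x => ⟨Set.Iic (x + 1), Iic_mem_nhds (by linarith), S8_fin D hbK (x + 1)⟩⟩
  have hm2 : (2 : ℝ) ≤ m := by exact_mod_cast D.hm
  -- the second moment formula in terms of the measure on the line
  have hsec : ∀ (l : ℝ) (χ : ℝ → ℝ), ContDiff ℝ ∞ χ → HasCompactSupport χ →
      tsupport χ ⊆ Set.Ioi (-Real.log R) →
      ∫ t, deriv (deriv χ) t * Real.exp (-(l * t)) ∂(S8_nu m a b M R K) =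
      4 * ∫ p in Pset R K, χ (-Real.log ‖p.1‖) * (‖p.1‖ ^ l *
        ‖(ev B p - ev (X 0 ^ m * a) p * deriv b p.1) +
          (l / 2 : ℝ) * (ev (X 0 ^ m * a) p / p.1) * (p.2 - b p.1)‖ ^ 2) ∂M := by
    intro l χ t1 t2 t3
    rw [← sn_second D R hR hRK hann b hb l χ t1 t2 t3]
    have hc2 : Continuous fun t => deriv (deriv χ) t * Real.exp (-(l * t)) := by
      have h9 : ContDiff ℝ ∞ (deriv (deriv χ)) :=
        (contDiff_infty_iff_deriv.1 (contDiff_infty_iff_deriv.1 t1).2).2
      have := h9.continuous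
      fun_prop
    rw [← S8_int hb _ hc2]
    refine setIntegral_congr_fun (S8_pset_open R K).measurableSet fun p hp => ?_
    have hx : 0 < ‖p.1‖ := hp.1
    have e1 : ‖p.1‖ ^ l = Real.exp (-(l * -Real.log ‖p.1‖)) := by
      rw [Real.rpow_def_of_pos hx]
      congr 1
      ring
    simp only [S8_V]
    rw [e1]
    ring
  have hnu : S8_nu m a b M R K (Set.Ioi (-Real.log R + 2)) = 0 := by
    refine S8_real (S8_nu m a b M R K) (-Real.log R) (2 * m - 2) (4 * c) _ (by linarith)
      (by positivity) (fun τ hτ => S8_bound D hR hb hbK hmean hτ) ?_ ?_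
    · intro l χ t1 t2 t3 t4
      rw [hsec l χ t1 t2 t3]
      apply mul_nonneg (by norm_num)
      refine setIntegral_nonneg (S8_pset_open R K).measurableSet fun p _ => ?_
      exact mul_nonneg (t4 _) (mul_nonneg (Real.rpow_nonneg (norm_nonneg _) _) (by positivity))
    · intro χ t1 t2 t3 t4
      have h1 := hsec 0 χ t1 t2 t3
      have h2 := hvar χ t1.continuous t2 t3 t4
      simp only [zero_mul, neg_zero, Real.exp_zero, mul_one, Real.rpow_zero, one_mul, zero_div,
        Complex.ofReal_zero, add_zero] at h1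
      rw [h1, mul_assoc]
      refine mul_le_mul_of_nonneg_left ?_ (by norm_num)
      refine le_trans (le_of_eq ?_) h2
      congr 1
      have hc2 : Continuous fun t => χ t * Real.exp ((2 * m - 2) * t) := by
        have := t1.continuous
        fun_prop
      rw [← S8_int hb _ hc2]
      refine setIntegral_congr_fun (S8_pset_open R K).measurableSet fun p hp => ?_
      simp only [S8_V]
      ring
  -- conclusion
  set T : ℝ := -Real.log R + 2 with hT
  have hae : M {p | p ∈ S8_t ⁻¹' Set.Ioi T ∩ Pset R K ∧ S8_V m a b p ≠ 0} = 0 := by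
    unfold S8_nu at hnu
    rw [Measure.map_apply S8_t_meas measurableSet_Ioi,
      withDensity_apply _ (S8_t_meas measurableSet_Ioi), Measure.restrict_restrict
        (S8_t_meas measurableSet_Ioi)] at hnu
    have hm : MeasurableSet (S8_t ⁻¹' Set.Ioi T ∩ Pset R K) :=
      (S8_t_meas measurableSet_Ioi).inter (S8_pset_open R K).measurableSet
    have hmeas : AEMeasurable (fun p => ENNReal.ofReal (S8_V m a b p))
        (M.restrict (S8_t ⁻¹' Set.Ioi T ∩ Pset R K)) :=
      (S8_aem (M := M) (K := K) hb).mono_measure (Measure.restrict_mono Set.inter_subset_right le_rfl)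
    have h1 := (lintegral_eq_zero_iff' hmeas).1 hnu
    have h2 := (ae_restrict_iff' hm).1 h1
    refine measure_mono_null ?_ h2
    rintro p ⟨hp1, hp2⟩ hcon
    have h3 : ENNReal.ofReal (S8_V m a b p) = 0 := hcon hp1
    rw [ENNReal.ofReal_eq_zero] at h3
    exact hp2 (le_antisymm h3 (S8_V_nonneg b p))
  set R1 : ℝ := min R (Real.exp (-T)) with hR1
  have hR1pos : 0 < R1 := lt_min hR (Real.exp_pos _)
  refine ⟨R1, hR1pos, ?_⟩
  have hdif := D.inv.dif (fun x => (x, b x)) R1 hR1pos (by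
    refine differentiableOn_id.prodMk (hb.mono ?_)
    intro x hx
    exact ⟨hx.1, lt_of_lt_of_le hx.2 (min_le_left _ _)⟩)
  refine measure_mono_null ?_ (measure_union_null hae hdif)
  intro p hp
  have hx : 0 < ‖p.1‖ := hp.1
  have hxR : ‖p.1‖ < R := lt_of_lt_of_le hp.2.1 (min_le_left _ _)
  have hxT : ‖p.1‖ < Real.exp (-T) := lt_of_lt_of_le hp.2.1 (min_le_right _ _)
  by_cases hV : S8_V m a b p = 0
  · right
    refine ⟨p.1, ⟨hx, hp.2.1⟩, ?_⟩
    refine Prod.ext rfl ?_
    change b p.1 = p.2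
    unfold S8_V at hV
    rcases mul_eq_zero.1 hV with h1 | h1
    · have h2 := norm_eq_zero.1 (pow_eq_zero_iff (two_ne_zero) |>.1 h1)
      exact (sub_eq_zero.1 h2).symm
    · exfalso
      have h2 := norm_eq_zero.1 (pow_eq_zero_iff (two_ne_zero) |>.1 h1)
      have hp1 : p.1 ≠ 0 := norm_pos_iff.1 hx
      rw [div_eq_zero_iff] at h2
      rcases h2 with h2 | h2
      · rw [ev_mul, ev_pow, ev_X0] at h2
        rcases mul_eq_zero.1 h2 with h3 | h3
        · exact hp1 (pow_eq_zero_iff (by have := D.hm; omega) |>.1 h3)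
        · have hpK : ‖p‖ ≤ K := by
            rw [Prod.norm_def]
            have := D.hK
            apply max_le
            · linarith
            · linarith [hp.2.2]
          have h4 := D.ha' p hpK
          rw [h3, zero_sub, norm_neg] at h4
          have h5 : 0 < ‖ev a 0‖ := norm_pos_iff.2 D.ha
          linarith
      · exact hp1 h2
  · left
    refine ⟨⟨?_, hx, hxR, hp.2.2⟩, hV⟩
    change T < -Real.log ‖p.1‖
    have := Real.log_lt_log hx hxT
    rw [Real.log_exp] at this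
    linarith

end FC76
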