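import Pool.Agent.H76.FL.S0
import Pool.Agent.H76.FL.S2
import Pool.Agent.H76.FL.S8
import Pool.Agent.H76.FL.ME
import Pool.Agent.H76.FC.RG
import Pool.Agent.H76.FC.DH

/-!
# Row S9: saddle-nodes are good; the local theorem

1. `good_sn`: GoodE (X 0 ^ m * a) B: given h, ρ, M: `sn_exists_K`, `sn_annZero`, `sn_zero`: M(Pset R1 K) = 0.  With ρ' := min(R1, 3K/4) (sup norm ball): every p in dom h ρ with ‖p‖ < ρ' has x ≠ 0 (X 0 ∣ h and ev h p ≠ 0), so p in Pset R1 K;
   as M is carried by dom h ρ, the integral over the ball ρ' is 0.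
2. `resClosed_good`: ResClosed Good GoodE from `good_toE`, `good_swap`, `good_of_LJ`, `good_blow`, `good_sn`.
3. `good_of_isolated`: with `exists_multLe` and `resolution`.
-/

open MvPolynomial MeasureTheory
open scoped ContDiff ComplexConjugate

namespace FC76

theorem good_sn (m : ℕ) (a B : P2) (hm : 2 ≤ m) (ha : eval 0 a ≠ 0) (hB : eval 0 B = 0) (hτ : cf 0 1 B ≠ 0) :
    GoodE (X 0 ^ m * a) B := by
  intro h ρ M hρ hh hI
  obtain ⟨K, Cb, D⟩ := sn_exists_K m a B h ρ M hρ hm ha hB hτ hh hI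
  obtain ⟨R, hR, hRK, -, hann⟩ := sn_annZero D
  obtain ⟨R1, hR1, hzero⟩ := sn_zero D R hR hRK hann
  have hK := D.hK
  refine ⟨min R1 (3 * K / 4), lt_min hR1 (by positivity), 0, fun r hr0 hr1 => ?_⟩
  have hsub : {p : ℂ × ℂ | p ∈ Metric.ball (0 : ℂ × ℂ) (min R1 (3 * K / 4)) ∧ r < ‖ev h p‖ ∧ r < ‖p‖} ⊆
      Pset R1 K := by
    rintro p ⟨hp, hph, -⟩
    rw [mem_ball_zero_iff] at hp
    have hx : ‖p.1‖ ≤ ‖p‖ := norm_fst_le p
    have hy : ‖p.2‖ ≤ ‖p‖ := norm_snd_le p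
    refine ⟨?_, (hx.trans_lt hp).trans_le (min_le_left _ _), (hy.trans_lt hp).trans_le (min_le_right _ _)⟩
    rw [norm_pos_iff]
    intro h0
    obtain ⟨g, rfl⟩ := hh
    have h1 : ev (X 0 * g) p = 0 := by
      rw [LJ_ev_mul]
      have h2 : ev (X 0 : P2) p = p.1 := by simp [ev]
      rw [h2, h0, zero_mul]
    rw [h1, norm_zero] at hph
    linarith
  have hz : M {p : ℂ × ℂ | p ∈ Metric.ball (0 : ℂ × ℂ) (min R1 (3 * K / 4)) ∧ r < ‖ev h p‖ ∧ r < ‖p‖} = 0 :=
    measure_mono_null hsub hzero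
  rw [Measure.restrict_eq_zero.2 hz, lintegral_zero_measure]
  exact zero_le

theorem resClosed_good : ResClosed Good GoodE where
  toE := good_toE
  swap := good_swap
  lj := good_of_LJ
  blow := good_blow
  sn := good_sn

/-- every isolated zero is good -/
theorem good_of_isolated (A B s : P2) (hs : eval 0 s ≠ 0)
    (h : ∀ p : Fin 2 → ℂ, eval p A = 0 → eval p B = 0 → p ≠ 0 → eval p s = 0) : Good A B := by
  obtain ⟨K, hK⟩ := exists_multLe A B s hs h
  exact resolution resClosed_good K A B hK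

end FC76
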