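import Pool.Agent.H76.FL.LF

/-!
# Saddle-node block: standing data

Z = (x^m a, B), m >= 2, a(0) = a0 ≠ 0, B(0) = 0, tau = cf 0 1 B ≠ 0, x divides h.
K is a radius such that on the closed polydisc {‖x‖ <= K, ‖y‖ <= K} (K < ρ):
 * ‖a - a0‖ <= ‖a0‖/100,
 * ‖B - tau y‖ <= Cb ‖x‖ + (‖tau‖/100) ‖y‖,
 * β := B/a satisfies ‖β(x,y) - β(x,y') - (tau/a0)(y - y')‖ <= (‖tau/a0‖/4) ‖y - y'‖.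
-/

open MvPolynomial MeasureTheory
open scoped ContDiff

namespace FC76

structure SNData (m : ℕ) (a B h : P2) (ρ : ℝ) (M : Measure (ℂ × ℂ)) (K Cb : ℝ) : Prop where
  hρ : 0 < ρ
  hm : 2 ≤ m
  ha : ev a 0 ≠ 0
  hB : ev B 0 = 0
  hτ : cf 0 1 B ≠ 0
  hh : X 0 ∣ h
  inv : Inv (X 0 ^ m * a) B h ρ M
  hK : 0 < K
  hKρ : K < ρ
  hK1 : K ≤ 1
  hCb : 0 ≤ Cb
  ha' : ∀ p : ℂ × ℂ, ‖p‖ ≤ K → ‖ev a p - ev a 0‖ ≤ ‖ev a 0‖ / 100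
  hB' : ∀ p : ℂ × ℂ, ‖p‖ ≤ K → ‖ev B p - cf 0 1 B * p.2‖ ≤ Cb * ‖p.1‖ + ‖cf 0 1 B‖ / 100 * ‖p.2‖
  hβ : ∀ x y y' : ℂ, ‖x‖ ≤ K → ‖y‖ ≤ K → ‖y'‖ ≤ K →
    ‖ev B (x, y) / ev a (x, y) - ev B (x, y') / ev a (x, y') - cf 0 1 B / ev a 0 * (y - y')‖ ≤
      ‖cf 0 1 B / ev a 0‖ / 4 * ‖y - y'‖

/-- the polydisc region 0 < ‖x‖ < R, ‖y‖ < 3K/4 -/
def Pset (R K : ℝ) : Set (ℂ × ℂ) := {p | 0 < ‖p.1‖ ∧ ‖p.1‖ < R ∧ ‖p.2‖ < 3 * K / 4}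

/-- M does not charge the annular region K/2 <= ‖y‖ <= 3K/4 over the punctured disc of radius R -/
def AnnZero (M : Measure (ℂ × ℂ)) (R K : ℝ) : Prop :=
  M {p : ℂ × ℂ | 0 < ‖p.1‖ ∧ ‖p.1‖ < R ∧ K / 2 ≤ ‖p.2‖ ∧ ‖p.2‖ ≤ 3 * K / 4} = 0

end FC76
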